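import Pool.Agent.Lib.KPInt.PData

/-!
# Arith0: arithmetic of multiple covers: nu_d integral from p^2 G - V G, and the twist nu~

PROOFS.
* `nu_int`: coefficient `n ≥ 1` of `p² G - V G` is
  `p² ∑_{d∣n} ν_d (d/n)² - [p∣n] ∑_{d ∣ n/p} ν_d (p d/n)² = p² ∑_{d∣n, ¬ d ∣ n/p or ¬ p∣n} ν_d (d/n)²`,
  the sum over `d ∣ n` with `p ∤ n/d`. So `R_n = ∑_{d∣n, p∤n/d} ν_d (d/n)² ∈ p^s`. The term `d = n` is `ν_n`;
  for the others `(d/n)² = (1/(n/d))²` is `p`-integral (`n/d` prime to `p`): strong induction on `n`.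
* `isNu_nut`: `n` odd: all divisors are odd, `(-1)^n = -1`. `n` even: split the divisors of `n`
  according to `d` odd, `d = 2 d'` with `d'` odd, `4 ∣ d`; the odd divisors `d'` of `n` are exactly the
  `d/2` for `d` of the second kind; `(2d'/n)² = 4 (d'/n)²`; so
  `∑ ν~_d (d/n)² = ∑ ν_d (d/n)² - 2 ∑_{odd} ν_d (d/n)² + (1/2) 4 ∑_{odd} ν_d (d/n)²`.
* `nu_of_nut`: `d` odd: `ν_d = -ν~_d`; `d = 2d'`, `d'` odd: `ν_d = ν~_d + ν~_{d'}/2`; `4 ∣ d`: `ν_d = ν~_d`.
* `nut_even_part`: for the final computation, `(-1)^n ∑_{d∣n} ν_d = ∑_{d∣n} ν~_d - (3/2) [2∣n] ∑_{d ∣ n/2, d odd} ν~_d`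
  (same splitting; the odd divisors of `n/2` are the odd divisors of `n` for `n` even).
-/

set_option autoImplicit false

namespace KPInt

open PowerSeries

/-- the sum over the divisors `d` with `p ∤ n / d` -/
private def Arith0_R (p : ℕ) (ν : ℕ → ℚ) (n : ℕ) : ℚ :=
  ∑ d ∈ n.divisors with ¬ p ∣ n / d, ν d * ((d : ℚ) / n) ^ 2

private lemma Arith0_filter {p n : ℕ} (hp : p.Prime) (hpn : p ∣ n) (hn : 1 ≤ n) :
    n.divisors.filter (fun d => p ∣ n / d) = (n / p).divisors := by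
  obtain ⟨m, rfl⟩ := hpn
  have hp0 : 0 < p := hp.pos
  have hm : 0 < m := Nat.pos_of_ne_zero (by rintro rfl; simp at hn)
  rw [Nat.mul_div_cancel_left m hp0]
  ext d
  rw [Finset.mem_filter, Nat.mem_divisors, Nat.mem_divisors]
  constructor
  · rintro ⟨⟨⟨e, he⟩, -⟩, h2⟩
    have hd : 0 < d := Nat.pos_of_ne_zero (by rintro rfl; simp at he; omega)
    rw [he, Nat.mul_div_cancel_left e hd] at h2
    obtain ⟨f, rfl⟩ := h2
    refine ⟨⟨f, ?_⟩, hm.ne'⟩
    have h3 : p * m = p * (d * f) := by rw [he]; ring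
    exact Nat.eq_of_mul_eq_mul_left hp0 h3
  · rintro ⟨⟨e, rfl⟩, -⟩
    have hd : 0 < d := Nat.pos_of_ne_zero (by rintro rfl; simp at hm)
    refine ⟨⟨⟨p * e, by ring⟩, by positivity⟩, ?_⟩
    have h3 : p * (d * e) / d = p * e := by
      rw [show p * (d * e) = d * (p * e) by ring, Nat.mul_div_cancel_left _ hd]
    rw [h3]
    exact Dvd.intro e rfl

private lemma Arith0_key {p : ℕ} [hp : Fact p.Prime] {Gc : ℚ⟦X⟧} {ν : ℕ → ℚ} (hν : IsNu Gc ν)
    (n : ℕ) (hn : 1 ≤ n) :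
    coeff n (C ((p : ℚ) ^ 2) * Gc - VV p Gc) = (p : ℚ) ^ 2 * Arith0_R p ν n := by
  have hp0 : (p : ℚ) ≠ 0 := by exact_mod_cast hp.out.ne_zero
  have hn0 : (n : ℚ) ≠ 0 := by positivity
  unfold VV
  rw [map_sub, PowerSeries.coeff_C_mul, PowerSeries.coeff_expand, hν.2 n hn]
  unfold Arith0_R
  by_cases hpn : p ∣ n
  · have h1 : 1 ≤ n / p := Nat.div_pos (Nat.le_of_dvd hn hpn) hp.out.pos
    rw [if_pos hpn, hν.2 (n / p) h1]
    have h2 := Finset.sum_filter_add_sum_filter_not n.divisors (fun d => p ∣ n / d)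
      (fun d => ν d * ((d : ℚ) / n) ^ 2)
    rw [← h2, Arith0_filter hp.out hpn hn, mul_add]
    have h3 : (p : ℚ) ^ 2 * ∑ d ∈ (n / p).divisors, ν d * ((d : ℚ) / n) ^ 2 =
        ∑ d ∈ (n / p).divisors, ν d * ((d : ℚ) / ((n / p : ℕ) : ℚ)) ^ 2 := by
      rw [Finset.mul_sum]
      refine Finset.sum_congr rfl fun d _ => ?_
      rw [Nat.cast_div hpn hp0]
      field_simp
    rw [h3]
    ring
  · rw [if_neg hpn, sub_zero, Finset.filter_true_of_mem]
    intro d hd h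
    exact hpn (h.trans (Nat.div_dvd_of_dvd (Nat.dvd_of_mem_divisors hd)))

theorem nu_int {p : ℕ} [hp : Fact p.Prime] {s : ℕ} {Gc : ℚ⟦X⟧} {ν : ℕ → ℚ}
    (h : SDv p (s + 2) (C ((p : ℚ) ^ 2) * Gc - VV p Gc)) (hν : IsNu Gc ν) :
    ∀ d, 1 ≤ d → Dv p s (ν d) := by
  intro n
  induction n using Nat.strong_induction_on with
  | _ n ih =>
  intro hn
  have h1 : Dv p s (Arith0_R p ν n) := by
    have h2 := h n
    rw [Arith0_key hν n hn, add_comm s 2] at h2
    exact Dv.ppow_mul_iff.mp h2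
  have hmem : n ∈ n.divisors.filter (fun d => ¬ p ∣ n / d) := by
    rw [Finset.mem_filter, Nat.mem_divisors]
    refine ⟨⟨dvd_rfl, by omega⟩, ?_⟩
    rw [Nat.div_self hn]
    intro h2
    exact hp.out.one_lt.ne' (Nat.dvd_one.mp h2)
  have hn0 : (n : ℚ) ≠ 0 := by positivity
  unfold Arith0_R at h1
  rw [← Finset.add_sum_erase _ _ hmem, div_self hn0, one_pow, mul_one] at h1
  have h3 : Dv p s (∑ d ∈ (n.divisors.filter (fun d => ¬ p ∣ n / d)).erase n,
      ν d * ((d : ℚ) / n) ^ 2) := by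
    refine Dv.sum _ _ fun d hd => ?_
    rw [Finset.mem_erase, Finset.mem_filter, Nat.mem_divisors] at hd
    obtain ⟨hdn, ⟨hd1, -⟩, hd2⟩ := hd
    have hdpos : 0 < d := Nat.pos_of_dvd_of_pos hd1 hn
    have hdlt : d < n := lt_of_le_of_ne (Nat.le_of_dvd hn hd1) hdn
    refine (ih d hdlt hdpos).mul_right (Dv.pow0 ?_ 2)
    have hd0 : (d : ℚ) ≠ 0 := by positivity
    have h4 : (d : ℚ) / n = (((n / d : ℕ) : ℚ))⁻¹ := by
      rw [Nat.cast_div hd1 hd0, inv_div]
    rw [h4]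
    exact Dv.inv_nat ((Nat.Prime.coprime_iff_not_dvd hp.out).mpr hd2).symm
  have h5 := h1.sub h3
  rwa [add_sub_cancel_right] at h5

/-- the twisted numbers: `G(-q) = ∑ ν~_d Li_2(q^d)` -/
def nut (ν : ℕ → ℚ) (d : ℕ) : ℚ :=
  if d % 2 = 1 then -ν d else if (d / 2) % 2 = 1 then ν d + ν (d / 2) / 2 else ν d

private lemma Arith0_nut (ν : ℕ → ℚ) (d : ℕ) : nut ν d = ν d +
    ((if d % 2 = 1 then -2 * ν d else 0) + (if d % 4 = 2 then ν (d / 2) / 2 else 0)) := by
  unfold nut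
  by_cases h1 : d % 2 = 1
  · rw [if_pos h1, if_pos h1, if_neg (by omega)]
    ring
  · by_cases h2 : (d / 2) % 2 = 1
    · rw [if_neg h1, if_pos h2, if_neg h1, if_pos (by omega)]
      ring
    · rw [if_neg h1, if_neg h2, if_neg h1, if_neg (by omega)]
      ring

private lemma Arith0_odd {n d : ℕ} (hn : n % 2 = 1) (hd : d ∈ n.divisors) : d % 2 = 1 := by
  obtain ⟨e, he⟩ := Nat.dvd_of_mem_divisors hd
  rcases Nat.mod_two_eq_zero_or_one d with h | h
  · exfalso
    rw [he, Nat.mul_mod, h, zero_mul, Nat.zero_mod] at hn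
    omega
  · exact h

private lemma Arith0_two (f : ℕ → ℚ) {n : ℕ} (_hn : 1 ≤ n) (h2 : 2 ∣ n) :
    ∑ d ∈ n.divisors, (if d % 4 = 2 then f (d / 2) else 0) =
      ∑ d ∈ n.divisors, (if d % 2 = 1 then f d else 0) := by
  rw [← Finset.sum_filter, ← Finset.sum_filter]
  refine Finset.sum_nbij' (fun d => d / 2) (fun d => 2 * d) ?_ ?_ ?_ ?_ ?_
  · intro d hd
    rw [Finset.mem_filter, Nat.mem_divisors] at hd ⊢
    obtain ⟨⟨hd1, hd2⟩, hd3⟩ := hd
    refine ⟨⟨?_, hd2⟩, by omega⟩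
    exact (Nat.div_dvd_of_dvd (by omega)).trans hd1
  · intro d hd
    rw [Finset.mem_filter, Nat.mem_divisors] at hd ⊢
    obtain ⟨⟨hd1, hd2⟩, hd3⟩ := hd
    refine ⟨⟨?_, hd2⟩, by omega⟩
    have hc : Nat.Coprime 2 d := by
      rw [Nat.coprime_two_left, Nat.odd_iff]
      exact hd3
    exact hc.mul_dvd_of_dvd_of_dvd h2 hd1
  · intro d hd
    rw [Finset.mem_filter] at hd
    show 2 * (d / 2) = d
    omega
  · intro d _
    show 2 * d / 2 = d
    omega
  · intro d _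
    rfl

private lemma Arith0_half (f : ℕ → ℚ) {n : ℕ} (hn : 1 ≤ n) (h2 : 2 ∣ n) :
    ∑ d ∈ (n / 2).divisors, (if d % 2 = 1 then f d else 0) =
      ∑ d ∈ n.divisors, (if d % 2 = 1 then f d else 0) := by
  rw [← Finset.sum_filter, ← Finset.sum_filter]
  refine Finset.sum_congr ?_ fun _ _ => rfl
  obtain ⟨m, rfl⟩ := h2
  rw [Nat.mul_div_cancel_left m (by norm_num)]
  ext d
  rw [Finset.mem_filter, Nat.mem_divisors, Finset.mem_filter, Nat.mem_divisors]
  constructor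
  · rintro ⟨⟨h1, h3⟩, h4⟩
    exact ⟨⟨h1.mul_left 2, by omega⟩, h4⟩
  · rintro ⟨⟨h1, h3⟩, h4⟩
    have hc : Nat.Coprime d 2 := by
      rw [Nat.coprime_two_right, Nat.odd_iff]
      exact h4
    exact ⟨⟨hc.dvd_of_dvd_mul_left h1, by omega⟩, h4⟩

theorem isNu_nut {Gc : ℚ⟦X⟧} {ν : ℕ → ℚ} (hν : IsNu Gc ν) : IsNu (rescale (-1) Gc) (nut ν) := by
  refine ⟨?_, fun n hn => ?_⟩
  · rw [← PowerSeries.coeff_zero_eq_constantCoeff_apply, PowerSeries.coeff_rescale, pow_zero,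
      one_mul, PowerSeries.coeff_zero_eq_constantCoeff_apply, hν.1]
  · rw [PowerSeries.coeff_rescale, hν.2 n hn]
    rcases Nat.mod_two_eq_zero_or_one n with h0 | h1
    · have h2 : 2 ∣ n := Nat.dvd_of_mod_eq_zero h0
      have hev : Even n := even_iff_two_dvd.mpr h2
      rw [hev.neg_one_pow, one_mul]
      have h3 : ∀ d ∈ n.divisors, nut ν d * ((d : ℚ) / n) ^ 2 = ν d * ((d : ℚ) / n) ^ 2 +
          ((if d % 2 = 1 then -2 * ν d * ((d : ℚ) / n) ^ 2 else 0) +
          (if d % 4 = 2 then (fun x : ℕ => 2 * ν x * ((x : ℚ) / n) ^ 2) (d / 2) else 0)) := by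
        intro d _
        rw [Arith0_nut]
        by_cases h4 : d % 4 = 2
        · rw [if_pos h4, if_pos h4, if_neg (by omega), if_neg (by omega)]
          have h5 : (d : ℚ) = 2 * ((d / 2 : ℕ) : ℚ) := by
            have : d = 2 * (d / 2) := by omega
            exact_mod_cast this
          rw [h5]
          have h6 : (2 * (d / 2) / 2 : ℕ) = d / 2 := by omega
          simp only
          ring
        · rw [if_neg h4, if_neg h4]
          by_cases h5 : d % 2 = 1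
          · rw [if_pos h5, if_pos h5]
            ring
          · rw [if_neg h5, if_neg h5]
            ring
      rw [Finset.sum_congr rfl h3, Finset.sum_add_distrib, Finset.sum_add_distrib,
        Arith0_two (fun x : ℕ => 2 * ν x * ((x : ℚ) / n) ^ 2) hn h2, ← Finset.sum_add_distrib]
      have h7 : ∑ d ∈ n.divisors, ((if d % 2 = 1 then -2 * ν d * ((d : ℚ) / n) ^ 2 else 0) +
          (if d % 2 = 1 then (fun x : ℕ => 2 * ν x * ((x : ℚ) / n) ^ 2) d else 0)) = 0 := by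
        refine Finset.sum_eq_zero fun d _ => ?_
        split_ifs
        · simp only
          ring
        · ring
      rw [h7, add_zero]
    · have hod : Odd n := Nat.odd_iff.mpr h1
      rw [hod.neg_one_pow, neg_one_mul, ← Finset.sum_neg_distrib]
      refine Finset.sum_congr rfl fun d hd => ?_
      unfold nut
      rw [if_pos (Arith0_odd h1 hd)]
      ring

theorem nu_of_nut {ν : ℕ → ℚ} {s : ℕ} (h : ∀ d, 1 ≤ d → Dv 2 (s + 1) (nut ν d)) :
    ∀ d, 1 ≤ d → Dv 2 s (ν d) := by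
  have h0 : ∀ d, d % 2 = 1 → Dv 2 (s + 1) (ν d) := by
    intro d hd
    have h1 := (h d (by omega)).neg
    unfold nut at h1
    rwa [if_pos hd, neg_neg] at h1
  intro d hd
  by_cases h1 : d % 2 = 1
  · exact (h0 d h1).mono (by omega)
  · have h2 := h d hd
    unfold nut at h2
    rw [if_neg h1] at h2
    by_cases h3 : (d / 2) % 2 = 1
    · rw [if_pos h3] at h2
      have h4 := h0 (d / 2) h3
      have h5 : Dv 2 s (ν (d / 2) / 2) := by
        have : Fact (Nat.Prime 2) := ⟨Nat.prime_two⟩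
        refine Dv.of_p_mul (p := 2) ?_
        have h6 : ((2 : ℕ) : ℚ) * (ν (d / 2) / 2) = ν (d / 2) := by
          push_cast
          ring
        rw [h6]
        exact h4
      have h7 := (h2.mono (show s ≤ s + 1 by omega)).sub h5
      rwa [add_sub_cancel_right] at h7
    · rw [if_neg h3] at h2
      exact h2.mono (by omega)

theorem nut_even_part (ν : ℕ → ℚ) (n : ℕ) (hn : 1 ≤ n) :
    (-1) ^ n * ∑ d ∈ n.divisors, ν d = ∑ d ∈ n.divisors, nut ν d -
      (3 / 2) * (if 2 ∣ n then ∑ d ∈ (n / 2).divisors, (if d % 2 = 1 then nut ν d else 0) else 0) := by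
  rcases Nat.mod_two_eq_zero_or_one n with h0 | h1
  · have h2 : 2 ∣ n := Nat.dvd_of_mod_eq_zero h0
    rw [(even_iff_two_dvd.mpr h2).neg_one_pow, one_mul, if_pos h2, Arith0_half _ hn h2]
    have h3 : ∑ d ∈ n.divisors, nut ν d = ∑ d ∈ n.divisors, ν d +
        (∑ d ∈ n.divisors, (if d % 2 = 1 then -2 * ν d else 0) +
        ∑ d ∈ n.divisors, (if d % 2 = 1 then (fun x => ν x / 2) d else 0)) := by
      rw [← Arith0_two (fun x => ν x / 2) hn h2, ← Finset.sum_add_distrib,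
        ← Finset.sum_add_distrib]
      exact Finset.sum_congr rfl fun d _ => Arith0_nut ν d
    rw [h3, Finset.mul_sum, add_sub_assoc, ← Finset.sum_add_distrib, ← Finset.sum_sub_distrib]
    have h4 : ∑ d ∈ n.divisors, ((if d % 2 = 1 then -2 * ν d else 0) +
        (if d % 2 = 1 then (fun x => ν x / 2) d else 0) -
        3 / 2 * (if d % 2 = 1 then nut ν d else 0)) = 0 := by
      refine Finset.sum_eq_zero fun d _ => ?_
      by_cases h5 : d % 2 = 1
      · rw [if_pos h5, if_pos h5, if_pos h5]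
        unfold nut
        rw [if_pos h5]
        ring
      · rw [if_neg h5, if_neg h5, if_neg h5]
        ring
    rw [h4, add_zero]
  · have hod : Odd n := Nat.odd_iff.mpr h1
    have h2 : ¬ 2 ∣ n := by omega
    rw [hod.neg_one_pow, neg_one_mul, if_neg h2, mul_zero, sub_zero, ← Finset.sum_neg_distrib]
    refine Finset.sum_congr rfl fun d hd => ?_
    unfold nut
    rw [if_pos (Arith0_odd h1 hd)]

end KPInt
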