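import Mathlib

/-!
# p-divisibility of rational numbers, polynomials and power series

`Dv p k x`: the rational number `x` lies in `p^k ℤ_(p)`.
`PDv p k f`: all coefficients of the polynomial `f` do.
`TDv p k N f`: the coefficients of index `< N` of the power series `f` do.
`SDv p k f`: all coefficients of the power series `f` do.
`TEq N f g`: the power series agree below degree `N`.
-/

open PowerSeries

namespace KPInt

/-- `x ∈ p^k ℤ_(p)` -/
def Dv (p k : ℕ) (x : ℚ) : Prop := ∃ (a : ℤ) (b : ℕ), Nat.Coprime b p ∧ x * b = (p : ℚ) ^ k * a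

/-- all coefficients of a polynomial in `p^k ℤ_(p)` -/
def PDv (p k : ℕ) (f : Polynomial ℚ) : Prop := ∀ n, Dv p k (f.coeff n)

/-- coefficients of index `< N` in `p^k ℤ_(p)` -/
def TDv (p k N : ℕ) (f : ℚ⟦X⟧) : Prop := ∀ n, n < N → Dv p k (coeff n f)

/-- all coefficients in `p^k ℤ_(p)` -/
def SDv (p k : ℕ) (f : ℚ⟦X⟧) : Prop := ∀ n, Dv p k (coeff n f)

/-- equality below degree `N` -/
def TEq (N : ℕ) (f g : ℚ⟦X⟧) : Prop := ∀ n, n < N → coeff n f = coeff n g

section basic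
variable {p : ℕ}

lemma Dv.zero {k : ℕ} : Dv p k 0 := ⟨0, 1, by simp, by simp⟩

lemma Dv.int (z : ℤ) : Dv p 0 (z : ℚ) := ⟨z, 1, by simp, by simp⟩

lemma Dv.nat (z : ℕ) : Dv p 0 (z : ℚ) := ⟨z, 1, by simp, by simp⟩

lemma Dv.one : Dv p 0 (1 : ℚ) := ⟨1, 1, by simp, by simp⟩

lemma Dv.ppow (k : ℕ) : Dv p k ((p : ℚ) ^ k) := ⟨1, 1, by simp, by simp⟩

lemma Dv.p_self : Dv p 1 (p : ℚ) := ⟨1, 1, by simp, by simp⟩

lemma Dv.add {k : ℕ} {x y : ℚ} (hx : Dv p k x) (hy : Dv p k y) : Dv p k (x + y) := by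
  obtain ⟨a, b, hb, h1⟩ := hx
  obtain ⟨c, d, hd, h2⟩ := hy
  refine ⟨a * d + c * b, b * d, Nat.Coprime.mul_left hb hd, ?_⟩
  push_cast
  linear_combination (d : ℚ) * h1 + (b : ℚ) * h2

lemma Dv.neg {k : ℕ} {x : ℚ} (hx : Dv p k x) : Dv p k (-x) := by
  obtain ⟨a, b, hb, h1⟩ := hx
  refine ⟨-a, b, hb, ?_⟩
  push_cast
  linear_combination -h1

lemma Dv.sub {k : ℕ} {x y : ℚ} (hx : Dv p k x) (hy : Dv p k y) : Dv p k (x - y) := by
  rw [sub_eq_add_neg]; exact hx.add hy.neg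

lemma Dv.mul {k l : ℕ} {x y : ℚ} (hx : Dv p k x) (hy : Dv p l y) : Dv p (k + l) (x * y) := by
  obtain ⟨a, b, hb, h1⟩ := hx
  obtain ⟨c, d, hd, h2⟩ := hy
  refine ⟨a * c, b * d, Nat.Coprime.mul_left hb hd, ?_⟩
  push_cast
  rw [pow_add]
  linear_combination (y * d : ℚ) * h1 + ((p : ℚ) ^ k * a) * h2

lemma Dv.mono {k l : ℕ} {x : ℚ} (hx : Dv p k x) (h : l ≤ k) : Dv p l x := by
  obtain ⟨a, b, hb, h1⟩ := hx
  refine ⟨(p : ℤ) ^ (k - l) * a, b, hb, ?_⟩
  push_cast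
  rw [h1, ← mul_assoc, ← pow_add]
  congr 2
  omega

lemma Dv.mul_left {k : ℕ} {x y : ℚ} (hx : Dv p 0 x) (hy : Dv p k y) : Dv p k (x * y) := by
  simpa using hx.mul hy

lemma Dv.mul_right {k : ℕ} {x y : ℚ} (hx : Dv p k x) (hy : Dv p 0 y) : Dv p k (x * y) := by
  simpa using hx.mul hy

lemma Dv.pow {k : ℕ} {x : ℚ} (hx : Dv p k x) (n : ℕ) : Dv p (k * n) (x ^ n) := by
  induction n with
  | zero => simpa using Dv.one
  | succ n ih => rw [pow_succ, Nat.mul_succ]; exact ih.mul hx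

lemma Dv.pow0 {x : ℚ} (hx : Dv p 0 x) (n : ℕ) : Dv p 0 (x ^ n) := by
  simpa using hx.pow n

lemma Dv.sum {ι : Type*} {k : ℕ} (s : Finset ι) (f : ι → ℚ) (h : ∀ i ∈ s, Dv p k (f i)) :
    Dv p k (∑ i ∈ s, f i) := by
  classical
  induction s using Finset.induction_on with
  | empty => simpa using Dv.zero
  | insert a s ha ih =>
    rw [Finset.sum_insert ha]
    exact (h a (Finset.mem_insert_self a s)).add
      (ih (fun i hi => h i (Finset.mem_insert_of_mem hi)))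

lemma Dv.prod {ι : Type*} (s : Finset ι) (f : ι → ℚ) (h : ∀ i ∈ s, Dv p 0 (f i)) :
    Dv p 0 (∏ i ∈ s, f i) := by
  classical
  induction s using Finset.induction_on with
  | empty => simpa using Dv.one
  | insert a s ha ih =>
    rw [Finset.prod_insert ha]
    exact (h a (Finset.mem_insert_self a s)).mul_left
      (ih (fun i hi => h i (Finset.mem_insert_of_mem hi)))

/-- `p^k x ∈ p^(k+l)` iff `x ∈ p^l` -/
lemma Dv.ppow_mul_iff [hp : Fact p.Prime] {k l : ℕ} {x : ℚ} :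
    Dv p (k + l) ((p : ℚ) ^ k * x) ↔ Dv p l x := by
  have hp0 : (p : ℚ) ≠ 0 := by exact_mod_cast hp.out.ne_zero
  constructor
  · rintro ⟨a, b, hb, h⟩
    refine ⟨a, b, hb, ?_⟩
    have h' : (p : ℚ) ^ k * (x * b) = (p : ℚ) ^ k * ((p : ℚ) ^ l * a) := by
      rw [pow_add] at h
      linear_combination h
    exact mul_left_cancel₀ (pow_ne_zero k hp0) h'
  · intro h
    exact (Dv.ppow k).mul h

lemma Dv.of_p_mul [hp : Fact p.Prime] {l : ℕ} {x : ℚ} (h : Dv p (l + 1) ((p : ℚ) * x)) :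
    Dv p l x := by
  have : Dv p (1 + l) ((p : ℚ) ^ 1 * x) := by rw [pow_one, add_comm]; exact h
  exact Dv.ppow_mul_iff.mp this

/-- `x ∈ p^k` iff `x = p^k y` with `y` integral -/
lemma Dv.iff_exists [hp : Fact p.Prime] {k : ℕ} {x : ℚ} :
    Dv p k x ↔ ∃ y, Dv p 0 y ∧ x = (p : ℚ) ^ k * y := by
  have hp0 : (p : ℚ) ≠ 0 := by exact_mod_cast hp.out.ne_zero
  constructor
  · intro h
    refine ⟨x / (p : ℚ) ^ k, ?_, by field_simp⟩
    have h2 : x = (p : ℚ) ^ k * (x / (p : ℚ) ^ k) := by field_simp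
    rw [h2] at h
    exact Dv.ppow_mul_iff (l := 0) |>.mp (by simpa using h)
  · rintro ⟨y, hy, rfl⟩
    simpa using (Dv.ppow k).mul hy

/-- inverse of a natural number prime to `p` -/
lemma Dv.inv_nat {b : ℕ} (hb : Nat.Coprime b p) : Dv p 0 ((b : ℚ)⁻¹) := by
  rcases Nat.eq_zero_or_pos b with h | h
  · subst h; simpa using Dv.zero
  · refine ⟨1, b, hb, ?_⟩
    have : (b : ℚ) ≠ 0 := by positivity
    field_simp
    simp

/-- multiplication by a natural number prime to `p` can be cancelled -/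
lemma Dv.of_nat_mul {k b : ℕ} (hb : Nat.Coprime b p) (hb0 : b ≠ 0) {x : ℚ}
    (h : Dv p k ((b : ℚ) * x)) : Dv p k x := by
  have := (Dv.inv_nat hb).mul_left h
  have hb' : (b : ℚ) ≠ 0 := by exact_mod_cast hb0
  rwa [← mul_assoc, inv_mul_cancel₀ hb', one_mul] at this

/-- a rational number that is `q`-integral for all primes `q` is an integer -/
lemma int_of_Dv {x : ℚ} (h : ∀ q : ℕ, q.Prime → Dv q 0 x) : ∃ z : ℤ, x = z := by
  have hd : x.den = 1 := by
    by_contra hne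
    obtain ⟨q, hq, hqd⟩ := Nat.exists_prime_and_dvd hne
    obtain ⟨a, b, hb, hx⟩ := h q hq
    have h1 : (x.num : ℚ) * b = a * x.den := by
      have h2 := Rat.mul_den_eq_num x
      rw [← h2]
      linear_combination (x.den : ℚ) * hx
    have h3 : x.num * b = a * x.den := by exact_mod_cast h1
    have h4 : (x.den : ℤ) ∣ x.num * b := ⟨a, by rw [h3]; ring⟩
    have h5 : (q : ℤ) ∣ x.num * b := dvd_trans (by exact_mod_cast hqd) h4
    have h6 : IsCoprime (x.num) (x.den : ℤ) := by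
      rw [Int.isCoprime_iff_nat_coprime]
      simpa using x.reduced
    have h7 : IsCoprime (q : ℤ) (x.num) := by
      have := h6.symm
      exact IsCoprime.of_isCoprime_of_dvd_left this (by exact_mod_cast hqd)
    have h8 : (q : ℤ) ∣ (b : ℤ) := h7.dvd_of_dvd_mul_left h5
    have h9 : q ∣ b := by exact_mod_cast h8
    have h10 := Nat.Coprime.eq_one_of_dvd (Nat.Coprime.symm hb) h9
    exact hq.one_lt.ne' h10
  exact ⟨x.num, by rw [← Rat.num_div_den x, hd]; simp⟩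

end basic

section series
variable {p : ℕ}

lemma TDv.mono {k l N M : ℕ} {f : ℚ⟦X⟧} (hf : TDv p k N f) (h : l ≤ k) (hM : M ≤ N) :
    TDv p l M f := fun n hn => (hf n (by omega)).mono h

lemma TDv.add {k N : ℕ} {f g : ℚ⟦X⟧} (hf : TDv p k N f) (hg : TDv p k N g) :
    TDv p k N (f + g) := fun n hn => by rw [map_add]; exact (hf n hn).add (hg n hn)

lemma TDv.sub {k N : ℕ} {f g : ℚ⟦X⟧} (hf : TDv p k N f) (hg : TDv p k N g) :
    TDv p k N (f - g) := fun n hn => by rw [map_sub]; exact (hf n hn).sub (hg n hn)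

lemma TDv.neg {k N : ℕ} {f : ℚ⟦X⟧} (hf : TDv p k N f) :
    TDv p k N (-f) := fun n hn => by rw [map_neg]; exact (hf n hn).neg

lemma TDv.mul {k l N : ℕ} {f g : ℚ⟦X⟧} (hf : TDv p k N f) (hg : TDv p l N g) :
    TDv p (k + l) N (f * g) := fun n hn => by
  rw [coeff_mul]
  apply Dv.sum
  intro x hx
  rw [Finset.HasAntidiagonal.mem_antidiagonal] at hx
  exact (hf _ (by omega)).mul (hg _ (by omega))

lemma TDv.mul_left {k N : ℕ} {f g : ℚ⟦X⟧} (hf : TDv p 0 N f) (hg : TDv p k N g) :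
    TDv p k N (f * g) := by simpa using hf.mul hg

lemma TDv.mul_right {k N : ℕ} {f g : ℚ⟦X⟧} (hf : TDv p k N f) (hg : TDv p 0 N g) :
    TDv p k N (f * g) := by simpa using hf.mul hg

lemma TDv.zero {k N : ℕ} : TDv p k N 0 := fun n _ => by simpa using Dv.zero

lemma TDv.C {k N : ℕ} {x : ℚ} (hx : Dv p k x) : TDv p k N (PowerSeries.C x) := fun n _ => by
  rw [coeff_C]
  split_ifs
  · exact hx
  · exact Dv.zero

lemma TDv.one {N : ℕ} : TDv p 0 N 1 := by
  have := TDv.C (p := p) (N := N) (Dv.one (p := p))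
  simpa using this

lemma TDv.X {N : ℕ} : TDv p 0 N (X : ℚ⟦X⟧) := fun n _ => by
  rw [coeff_X]
  split_ifs
  · exact Dv.one
  · exact Dv.zero

lemma TDv.pow {k N : ℕ} {f : ℚ⟦X⟧} (hf : TDv p k N f) (n : ℕ) : TDv p (k * n) N (f ^ n) := by
  induction n with
  | zero => simpa using TDv.one
  | succ n ih => rw [pow_succ, Nat.mul_succ]; exact ih.mul hf

lemma TDv.pow0 {N : ℕ} {f : ℚ⟦X⟧} (hf : TDv p 0 N f) (n : ℕ) : TDv p 0 N (f ^ n) := by
  simpa using hf.pow n

lemma TDv.sum {ι : Type*} {k N : ℕ} (s : Finset ι) (f : ι → ℚ⟦X⟧)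
    (h : ∀ i ∈ s, TDv p k N (f i)) : TDv p k N (∑ i ∈ s, f i) := fun n hn => by
  rw [map_sum]
  exact Dv.sum s _ (fun i hi => h i hi n hn)

lemma TDv.smul {k l N : ℕ} {f : ℚ⟦X⟧} {x : ℚ} (hx : Dv p k x) (hf : TDv p l N f) :
    TDv p (k + l) N (x • f) := fun n hn => by
  rw [map_smul, smul_eq_mul]
  exact hx.mul (hf n hn)

lemma TDv.congr {k N : ℕ} {f g : ℚ⟦X⟧} (hf : TDv p k N f) (h : TEq N f g) :
    TDv p k N g := fun n hn => by rw [← h n hn]; exact hf n hn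

/-- the inverse of an integral series with constant coefficient one is integral -/
lemma TDv.inv {N : ℕ} {f : ℚ⟦X⟧} (hf : TDv p 0 N f) (h1 : constantCoeff f = 1) :
    TDv p 0 N f⁻¹ := by
  intro n
  induction n using Nat.strong_induction_on with
  | _ n ih =>
    intro hn
    rw [coeff_inv]
    split_ifs with h0
    · rw [h1]; simpa using Dv.one
    · rw [h1]
      simp only [inv_one, neg_mul, one_mul]
      apply Dv.neg
      apply Dv.sum
      intro x hx
      rw [Finset.HasAntidiagonal.mem_antidiagonal] at hx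
      split_ifs with hlt
      · exact (hf _ (by omega)).mul_left (ih _ hlt (by omega))
      · exact Dv.zero

/-- the inverse of an integral series whose constant coefficient is a unit is integral -/
lemma TDv.inv' {N : ℕ} {f : ℚ⟦X⟧} (hf : TDv p 0 N f) (h1 : Dv p 0 (constantCoeff f)⁻¹) :
    TDv p 0 N f⁻¹ := by
  intro n
  induction n using Nat.strong_induction_on with
  | _ n ih =>
    intro hn
    rw [coeff_inv]
    split_ifs with h0
    · exact h1
    · apply Dv.mul_left h1.neg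
      apply Dv.sum
      intro x hx
      rw [Finset.HasAntidiagonal.mem_antidiagonal] at hx
      split_ifs with hlt
      · exact (hf _ (by omega)).mul_left (ih _ hlt (by omega))
      · exact Dv.zero

/-- division by a unit -/
lemma TDv.of_mul_left' {k N : ℕ} {f g : ℚ⟦X⟧} (hf : TDv p 0 N f)
    (h1 : Dv p 0 (constantCoeff f)⁻¹) (h0 : constantCoeff f ≠ 0)
    (h : TDv p k N (f * g)) : TDv p k N g := by
  have := (hf.inv' h1).mul_left h
  rwa [← mul_assoc, PowerSeries.inv_mul_cancel _ h0, one_mul] at this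

/-- division by a unit -/
lemma TDv.of_mul_left {k N : ℕ} {f g : ℚ⟦X⟧} (hf : TDv p 0 N f) (h1 : constantCoeff f = 1)
    (h : TDv p k N (f * g)) : TDv p k N g := by
  have h0 : constantCoeff f ≠ 0 := by rw [h1]; exact one_ne_zero
  have := (hf.inv h1).mul_left h
  rwa [← mul_assoc, PowerSeries.inv_mul_cancel _ h0, one_mul] at this

lemma SDv.t {k : ℕ} {f : ℚ⟦X⟧} (hf : SDv p k f) (N : ℕ) : TDv p k N f := fun n _ => hf n

lemma SDv.of {k : ℕ} {f : ℚ⟦X⟧} (hf : ∀ N, TDv p k N f) : SDv p k f :=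
  fun n => hf (n + 1) n (Nat.lt_succ_self n)

lemma SDv.mono {k l : ℕ} {f : ℚ⟦X⟧} (hf : SDv p k f) (h : l ≤ k) : SDv p l f :=
  fun n => (hf n).mono h

lemma SDv.add {k : ℕ} {f g : ℚ⟦X⟧} (hf : SDv p k f) (hg : SDv p k g) : SDv p k (f + g) :=
  SDv.of fun N => (hf.t N).add (hg.t N)

lemma SDv.sub {k : ℕ} {f g : ℚ⟦X⟧} (hf : SDv p k f) (hg : SDv p k g) : SDv p k (f - g) :=
  SDv.of fun N => (hf.t N).sub (hg.t N)

lemma SDv.neg {k : ℕ} {f : ℚ⟦X⟧} (hf : SDv p k f) : SDv p k (-f) :=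
  SDv.of fun N => (hf.t N).neg

lemma SDv.mul {k l : ℕ} {f g : ℚ⟦X⟧} (hf : SDv p k f) (hg : SDv p l g) : SDv p (k + l) (f * g) :=
  SDv.of fun N => (hf.t N).mul (hg.t N)

lemma SDv.mul_left {k : ℕ} {f g : ℚ⟦X⟧} (hf : SDv p 0 f) (hg : SDv p k g) : SDv p k (f * g) :=
  SDv.of fun N => (hf.t N).mul_left (hg.t N)

lemma SDv.mul_right {k : ℕ} {f g : ℚ⟦X⟧} (hf : SDv p k f) (hg : SDv p 0 g) : SDv p k (f * g) :=
  SDv.of fun N => (hf.t N).mul_right (hg.t N)

lemma SDv.zero {k : ℕ} : SDv p k 0 := SDv.of fun _ => TDv.zero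

lemma SDv.C {k : ℕ} {x : ℚ} (hx : Dv p k x) : SDv p k (PowerSeries.C x) :=
  SDv.of fun _ => TDv.C hx

lemma SDv.one : SDv p 0 1 := SDv.of fun _ => TDv.one

lemma SDv.X : SDv p 0 (X : ℚ⟦X⟧) := SDv.of fun _ => TDv.X

lemma SDv.pow {k : ℕ} {f : ℚ⟦X⟧} (hf : SDv p k f) (n : ℕ) : SDv p (k * n) (f ^ n) :=
  SDv.of fun N => (hf.t N).pow n

lemma SDv.pow0 {f : ℚ⟦X⟧} (hf : SDv p 0 f) (n : ℕ) : SDv p 0 (f ^ n) :=
  SDv.of fun N => (hf.t N).pow0 n

lemma SDv.sum {ι : Type*} {k : ℕ} (s : Finset ι) (f : ι → ℚ⟦X⟧)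
    (h : ∀ i ∈ s, SDv p k (f i)) : SDv p k (∑ i ∈ s, f i) :=
  SDv.of fun N => TDv.sum s f (fun i hi => (h i hi).t N)

lemma SDv.smul {k l : ℕ} {f : ℚ⟦X⟧} {x : ℚ} (hx : Dv p k x) (hf : SDv p l f) :
    SDv p (k + l) (x • f) := SDv.of fun N => TDv.smul hx (hf.t N)

lemma SDv.inv {f : ℚ⟦X⟧} (hf : SDv p 0 f) (h1 : constantCoeff f = 1) : SDv p 0 f⁻¹ :=
  SDv.of fun N => (hf.t N).inv h1

lemma SDv.of_mul_left {k : ℕ} {f g : ℚ⟦X⟧} (hf : SDv p 0 f) (h1 : constantCoeff f = 1)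
    (h : SDv p k (f * g)) : SDv p k g := SDv.of fun N => (hf.t N).of_mul_left h1 (h.t N)

lemma TEq.refl {N : ℕ} (f : ℚ⟦X⟧) : TEq N f f := fun _ _ => rfl

lemma TEq.symm {N : ℕ} {f g : ℚ⟦X⟧} (h : TEq N f g) : TEq N g f := fun n hn => (h n hn).symm

lemma TEq.trans {N : ℕ} {f g h : ℚ⟦X⟧} (h1 : TEq N f g) (h2 : TEq N g h) : TEq N f h :=
  fun n hn => (h1 n hn).trans (h2 n hn)

lemma TEq.add {N : ℕ} {f g f' g' : ℚ⟦X⟧} (h1 : TEq N f g) (h2 : TEq N f' g') :
    TEq N (f + f') (g + g') := fun n hn => by rw [map_add, map_add, h1 n hn, h2 n hn]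

lemma TEq.sub {N : ℕ} {f g f' g' : ℚ⟦X⟧} (h1 : TEq N f g) (h2 : TEq N f' g') :
    TEq N (f - f') (g - g') := fun n hn => by rw [map_sub, map_sub, h1 n hn, h2 n hn]

lemma TEq.mul {N : ℕ} {f g f' g' : ℚ⟦X⟧} (h1 : TEq N f g) (h2 : TEq N f' g') :
    TEq N (f * f') (g * g') := fun n hn => by
  rw [coeff_mul, coeff_mul]
  apply Finset.sum_congr rfl
  intro x hx
  rw [Finset.HasAntidiagonal.mem_antidiagonal] at hx
  rw [h1 _ (by omega), h2 _ (by omega)]

end series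

section poly
variable {p : ℕ}

lemma PDv.mono {k l : ℕ} {f : Polynomial ℚ} (hf : PDv p k f) (h : l ≤ k) : PDv p l f :=
  fun n => (hf n).mono h

lemma PDv.add {k : ℕ} {f g : Polynomial ℚ} (hf : PDv p k f) (hg : PDv p k g) :
    PDv p k (f + g) := fun n => by rw [Polynomial.coeff_add]; exact (hf n).add (hg n)

lemma PDv.sub {k : ℕ} {f g : Polynomial ℚ} (hf : PDv p k f) (hg : PDv p k g) :
    PDv p k (f - g) := fun n => by rw [Polynomial.coeff_sub]; exact (hf n).sub (hg n)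

lemma PDv.neg {k : ℕ} {f : Polynomial ℚ} (hf : PDv p k f) : PDv p k (-f) := fun n => by
  rw [Polynomial.coeff_neg]; exact (hf n).neg

lemma PDv.mul {k l : ℕ} {f g : Polynomial ℚ} (hf : PDv p k f) (hg : PDv p l g) :
    PDv p (k + l) (f * g) := fun n => by
  rw [Polynomial.coeff_mul]
  exact Dv.sum _ _ (fun x _ => (hf _).mul (hg _))

lemma PDv.mul_left {k : ℕ} {f g : Polynomial ℚ} (hf : PDv p 0 f) (hg : PDv p k g) :
    PDv p k (f * g) := by simpa using hf.mul hg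

lemma PDv.mul_right {k : ℕ} {f g : Polynomial ℚ} (hf : PDv p k f) (hg : PDv p 0 g) :
    PDv p k (f * g) := by simpa using hf.mul hg

lemma PDv.zero {k : ℕ} : PDv p k 0 := fun n => by simpa using Dv.zero

lemma PDv.C {k : ℕ} {x : ℚ} (hx : Dv p k x) : PDv p k (Polynomial.C x) := fun n => by
  rw [Polynomial.coeff_C]
  split_ifs
  · exact hx
  · exact Dv.zero

lemma PDv.one : PDv p 0 1 := by
  have := PDv.C (p := p) (Dv.one (p := p))
  simpa using this

lemma PDv.X : PDv p 0 (Polynomial.X) := fun n => by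
  rw [Polynomial.coeff_X]
  split_ifs
  · exact Dv.one
  · exact Dv.zero

lemma PDv.pow {k : ℕ} {f : Polynomial ℚ} (hf : PDv p k f) (n : ℕ) : PDv p (k * n) (f ^ n) := by
  induction n with
  | zero => simpa using PDv.one
  | succ n ih => rw [pow_succ, Nat.mul_succ]; exact ih.mul hf

lemma PDv.pow0 {f : Polynomial ℚ} (hf : PDv p 0 f) (n : ℕ) : PDv p 0 (f ^ n) := by
  simpa using hf.pow n

lemma PDv.sum {ι : Type*} {k : ℕ} (s : Finset ι) (f : ι → Polynomial ℚ)
    (h : ∀ i ∈ s, PDv p k (f i)) : PDv p k (∑ i ∈ s, f i) := fun n => by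
  rw [Polynomial.finsetSum_coeff]
  exact Dv.sum s _ (fun i hi => h i hi n)

lemma PDv.prod {ι : Type*} (s : Finset ι) (f : ι → Polynomial ℚ)
    (h : ∀ i ∈ s, PDv p 0 (f i)) : PDv p 0 (∏ i ∈ s, f i) := by
  classical
  induction s using Finset.induction_on with
  | empty => simpa using PDv.one
  | insert a s ha ih =>
    rw [Finset.prod_insert ha]
    exact (h a (Finset.mem_insert_self a s)).mul_left
      (ih (fun i hi => h i (Finset.mem_insert_of_mem hi)))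

lemma PDv.comp {k : ℕ} {f g : Polynomial ℚ} (hf : PDv p k f) (hg : PDv p 0 g) :
    PDv p k (f.comp g) := by
  rw [Polynomial.comp_eq_sum_left, Polynomial.sum_def]
  exact PDv.sum _ _ (fun i _ => (PDv.C (hf i)).mul_right (hg.pow0 i))

/-- a polynomial with `p^k ∣ f g` and `g` congruent to a unit constant mod `p` -/
lemma PDv.of_mul_unit {k : ℕ} {f g : Polynomial ℚ} {u : ℚ}
    (hu' : Dv p 0 u⁻¹) (hu0 : u ≠ 0)
    (hg : PDv p 1 (g - Polynomial.C u)) (hf : PDv p 0 f) (h : PDv p k (f * g)) : PDv p k f := by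
  have key : ∀ j, j ≤ k → PDv p j f := by
    intro j
    induction j with
    | zero => intro _; exact hf
    | succ j ih =>
      intro hj
      have h1 := ih (by omega)
      have h2 : PDv p (j + 1) (f * (g - Polynomial.C u)) := h1.mul hg
      have h3 : f = Polynomial.C u⁻¹ * (f * g - f * (g - Polynomial.C u)) := by
        have : Polynomial.C u⁻¹ * Polynomial.C u = 1 := by
          rw [← Polynomial.C_mul, inv_mul_cancel₀ hu0, Polynomial.C_1]
        linear_combination (-f) * this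
      rw [h3]
      exact (PDv.C hu').mul_left ((h.mono hj).sub h2)
  exact key k le_rfl

end poly

end KPInt
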