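import Pool.Agent.Lib.KPInt.CRec

/-!
# CEq: exact relations: L0, L0 (p g - V g), L0 (p^2 G - V G - D V G1 + D^2/2)

Fix a prime `p`, `n`, a sequence `B` with `OKB B` and polynomials `h_c` with (`Rel p n B h`)
`coeff i (rescale p (B (c + p m))) = coeff i (evj m (h_c) * B m)` for `c < p`, `m < n`, `i ≤ 2`.

PROOFS.
* `rel_SS`: `p^i L_i = ∑_{c<p} X^c V(SS B i h_c)` below degree `p n`: the coefficient of index
  `c + p m` (`c < p`, `m < n`) of the right side is `coeff m (SS B i h_c)` (the terms with `c' ≠ c`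
  vanish: `c + p m - c'` is not divisible by `p`), and `coeff i (rescale p f) = p^i coeff i f`.
* `rel0` is the case `i = 0`.
* `rel1`: `SS B 1 h = β(h) + g α(h)`, `V` is a ring homomorphism, so
  `p L_1 = ∑ X^c Vβ(h_c) + (V g) ∑ X^c Vα(h_c) = ∑ X^c Vβ(h_c) + (V g) L_0` below `p n`, and
  `L_1 = g L_0`.
* `rel2`: `SS B 2 h = γ + (G + g²/2) α + (g + G₁) β` (`G₁ = tq G`), so with `D = p g - V g`:
  `p² L_2 = ∑ X^c Vγ(h_c) + (VG + (Vg)²/2) L_0 + (Vg + VG₁) L_0 D` below `p n`; `L_2 = (G + g²/2) L_0`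
  and `p² g²/2 = (Vg)²/2 + (Vg) D + D²/2`.
Use `TEq` (congruence below degree `p n`), `TEq.mul`, `TEq.add`.
-/

set_option autoImplicit false

namespace KPInt

open Polynomial

/-- the exact relations -/
def Rel (p n : ℕ) (B : ℕ → PowerSeries ℚ) (h : ℕ → ℚ[X]) : Prop :=
  ∀ c < p, ∀ m < n, ∀ i ≤ 2,
    PowerSeries.coeff i (PowerSeries.rescale (p : ℚ) (B (c + p * m))) =
      PowerSeries.coeff i (evj m (h c) * B m)

/-- `D = p g - g(z^p)` -/
noncomputable def DD (p : ℕ) [hp : Fact p.Prime] (B : ℕ → PowerSeries ℚ) : PowerSeries ℚ :=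
  PowerSeries.C (p : ℚ) * gg B - VV p (gg B)

variable {p : ℕ} [hp : Fact p.Prime] {B : ℕ → PowerSeries ℚ} {n : ℕ} {h : ℕ → ℚ[X]}

lemma rel_SS (hrel : Rel p n B h) {i : ℕ} (hi : i ≤ 2) :
    TEq (p * n) (PowerSeries.C ((p : ℚ) ^ i) * Lj B i)
      (∑ c ∈ Finset.range p, PowerSeries.X ^ c * VV p (SS B i (h c))) := by
  intro N hN
  have hp0 : 0 < p := hp.out.pos
  have hcp : N % p < p := Nat.mod_lt _ hp0
  have hmn : N / p < n := Nat.div_lt_of_lt_mul hN
  have hNc : N % p + p * (N / p) = N := Nat.mod_add_div N p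
  have h1 := hrel (N % p) hcp (N / p) hmn i hi
  rw [hNc, PowerSeries.coeff_rescale] at h1
  rw [PowerSeries.coeff_C_mul, map_sum, Finset.sum_eq_single (N % p)]
  · unfold Lj
    rw [PowerSeries.coeff_mk, h1, PowerSeries.coeff_X_pow_mul', if_pos (Nat.mod_le N p)]
    have h2 : N - N % p = p * (N / p) := by omega
    rw [h2, coeff_VV_mul]
    unfold SS
    rw [PowerSeries.coeff_mk]
  · intro c' hc' hne
    rw [Finset.mem_range] at hc'
    rw [PowerSeries.coeff_X_pow_mul']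
    split_ifs with hle
    · rw [coeff_VV, if_neg]
      intro hdvd
      apply hne
      have h3 : c' ≡ N [MOD p] := (Nat.modEq_iff_dvd' hle).mpr hdvd
      have h4 : c' % p = N % p := h3
      rw [Nat.mod_eq_of_lt hc'] at h4
      exact h4
    · rfl
  · intro hcn
    exact absurd (Finset.mem_range.mpr hcp) hcn

theorem rel0 (hrel : Rel p n B h) :
    TEq (p * n) (Lj B 0) (∑ c ∈ Finset.range p, PowerSeries.X ^ c * VV p (al B (h c))) := by
  have h0 := rel_SS hrel (i := 0) (by norm_num)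
  rw [pow_zero, map_one, one_mul] at h0
  exact h0

theorem rel1 (hB : OKB B) (hrel : Rel p n B h) :
    TEq (p * n) (Lj B 0 * DD p B)
      (∑ c ∈ Finset.range p, PowerSeries.X ^ c * VV p (be B (h c))) := by
  have h0 : PowerSeries.constantCoeff (Lj B 0) ≠ 0 := by rw [cc_L0 hB]; exact one_ne_zero
  have hinv : (Lj B 0)⁻¹ * Lj B 0 = 1 := PowerSeries.inv_mul_cancel _ h0
  have hL1 : Lj B 1 = gg B * Lj B 0 := by
    unfold gg
    linear_combination -(Lj B 1) * hinv
  have e1 : ∑ c ∈ Finset.range p, PowerSeries.X ^ c * VV p (be B (h c)) =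
      ∑ c ∈ Finset.range p, PowerSeries.X ^ c * VV p (SS B 1 (h c)) -
        VV p (gg B) * ∑ c ∈ Finset.range p, PowerSeries.X ^ c * VV p (al B (h c)) := by
    rw [Finset.mul_sum, ← Finset.sum_sub_distrib]
    refine Finset.sum_congr rfl (fun c _ => ?_)
    unfold be al
    rw [VV_sub, VV_mul]
    ring
  have e2 : Lj B 0 * DD p B = PowerSeries.C ((p : ℚ) ^ 1) * Lj B 1 - VV p (gg B) * Lj B 0 := by
    unfold DD
    rw [hL1, pow_one]
    ring
  rw [e1, e2]
  exact (rel_SS hrel (by norm_num)).sub ((TEq.refl _).mul (rel0 hrel))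

theorem rel2 (hB : OKB B) (hrel : Rel p n B h) :
    TEq (p * n) (Lj B 0 * (PowerSeries.C ((p : ℚ) ^ 2) * GG B - VV p (GG B) -
        DD p B * VV p (tq B (GG B)) + PowerSeries.C (1 / 2) * DD p B ^ 2))
      (∑ c ∈ Finset.range p, PowerSeries.X ^ c * VV p (ga B (h c))) := by
  have h0 : PowerSeries.constantCoeff (Lj B 0) ≠ 0 := by rw [cc_L0 hB]; exact one_ne_zero
  have hinv : (Lj B 0)⁻¹ * Lj B 0 = 1 := PowerSeries.inv_mul_cancel _ h0
  have hL2 : Lj B 2 = (GG B + PowerSeries.C (1 / 2) * gg B ^ 2) * Lj B 0 := by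
    have hG : GG B = Lj B 2 * (Lj B 0)⁻¹ - PowerSeries.C (1 / 2) * gg B ^ 2 := rfl
    rw [hG]
    linear_combination -(Lj B 2) * hinv
  have h2 : (PowerSeries.C (1 / 2 : ℚ)) * 2 = (1 : PowerSeries ℚ) := by
    have : (2 : PowerSeries ℚ) = PowerSeries.C (2 : ℚ) := by
      rw [map_ofNat]
    rw [this, ← map_mul]
    norm_num
  have e1 : ∑ c ∈ Finset.range p, PowerSeries.X ^ c * VV p (ga B (h c)) =
      ∑ c ∈ Finset.range p, PowerSeries.X ^ c * VV p (SS B 2 (h c)) -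
        (VV p (GG B) + PowerSeries.C (1 / 2) * VV p (gg B) ^ 2) *
          ∑ c ∈ Finset.range p, PowerSeries.X ^ c * VV p (al B (h c)) -
        (VV p (gg B) + VV p (tq B (GG B))) *
          ∑ c ∈ Finset.range p, PowerSeries.X ^ c * VV p (be B (h c)) := by
    rw [Finset.mul_sum, Finset.mul_sum, ← Finset.sum_sub_distrib, ← Finset.sum_sub_distrib]
    refine Finset.sum_congr rfl (fun c _ => ?_)
    have hga : ga B (h c) = SS B 2 (h c) -
      (GG B + PowerSeries.C (1 / 2) * gg B ^ 2) * al B (h c) -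
      (gg B + tq B (GG B)) * be B (h c) := rfl
    rw [hga, VV_sub, VV_sub, VV_mul, VV_mul, VV_add, VV_add, VV_mul, VV_C, VV_pow]
    ring
  have e2 : Lj B 0 * (PowerSeries.C ((p : ℚ) ^ 2) * GG B - VV p (GG B) -
        DD p B * VV p (tq B (GG B)) + PowerSeries.C (1 / 2) * DD p B ^ 2) =
      PowerSeries.C ((p : ℚ) ^ 2) * Lj B 2 -
        (VV p (GG B) + PowerSeries.C (1 / 2) * VV p (gg B) ^ 2) * Lj B 0 -
        (VV p (gg B) + VV p (tq B (GG B))) * (Lj B 0 * DD p B) := by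
    have hD : DD p B = PowerSeries.C (p : ℚ) * gg B - VV p (gg B) := rfl
    rw [hL2, map_pow, hD]
    linear_combination (-(Lj B 0 * VV p (gg B) *
      (PowerSeries.C (p : ℚ) * gg B - VV p (gg B)))) * h2
  rw [e1, e2]
  exact ((rel_SS hrel le_rfl).sub ((TEq.refl _).mul (rel0 hrel))).sub
    ((TEq.refl _).mul (rel1 hB hrel))

end KPInt
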