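import Pool.Agent.Lib.KPInt.Sub

/-!
# ExpLog: formal exponential and logarithm of power series

Mathlib: `PowerSeries.exp`, `PowerSeries.logOf`, `PowerSeries.derivative_subst`, `derivative_exp`,
`deriv_log`.
-/

set_option autoImplicit false

namespace KPInt

open PowerSeries

lemma constantCoeff_ex {g : ℚ⟦X⟧} (hg : constantCoeff g = 0) : constantCoeff (ex g) = 1 := by
  rw [ex, constantCoeff_sb hg, constantCoeff_exp]

lemma th_ex {g : ℚ⟦X⟧} (hg : constantCoeff g = 0) : th (ex g) = ex g * th g := by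
  have h : derivative ℚ (ex g) = ex g * derivative ℚ g := by
    rw [ex, sb, derivative_subst (hs hg), derivative_exp]
  rw [th, h, th]
  ring

private lemma ExpLog_diff {f w : ℚ⟦X⟧} (hf : th f = f * w) (w0 : constantCoeff w = 0)
    (f0 : constantCoeff f = 0) : f = 0 := by
  ext n
  rw [map_zero]
  induction n using Nat.strong_induction_on with
  | _ n ih =>
    rcases Nat.eq_zero_or_pos n with h | h
    · subst h
      rw [coeff_zero_eq_constantCoeff_apply, f0]
    · have h1 := congrArg (coeff n) hf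
      rw [coeff_th, coeff_mul, Finset.sum_eq_zero] at h1
      · have hn : (n : ℚ) ≠ 0 := by positivity
        exact (mul_eq_zero.mp h1).resolve_left hn
      · intro x hx
        rw [Finset.HasAntidiagonal.mem_antidiagonal] at hx
        rcases Nat.lt_or_ge x.1 n with h2 | h2
        · rw [ih x.1 h2, zero_mul]
        · have h3 : x.2 = 0 := by omega
          rw [h3, coeff_zero_eq_constantCoeff_apply, w0, mul_zero]

lemma ode_unique {f h w : ℚ⟦X⟧} (hf : th f = f * w) (hh : th h = h * w)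
    (f0 : constantCoeff f = 1) (h0 : constantCoeff h = 1) : f = h := by
  have w0 : constantCoeff w = 0 := by
    have h1 := congrArg constantCoeff hf
    rw [constantCoeff_th, map_mul, f0, one_mul] at h1
    exact h1.symm
  have h2 : th (f - h) = (f - h) * w := by
    rw [th_sub, hf, hh]; ring
  have h3 := ExpLog_diff h2 w0 (by rw [map_sub, f0, h0, sub_self])
  exact sub_eq_zero.mp h3

lemma ex_zero : ex 0 = 1 := by
  refine ode_unique (w := 0) ?_ ?_ ?_ ?_
  · rw [th_ex (by simp), th_zero]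
  · rw [th_one, mul_zero]
  · exact constantCoeff_ex (by simp)
  · simp

lemma ex_add {f g : ℚ⟦X⟧} (hf : constantCoeff f = 0) (hg : constantCoeff g = 0) :
    ex (f + g) = ex f * ex g := by
  have hfg : constantCoeff (f + g) = 0 := by rw [map_add, hf, hg, add_zero]
  refine ode_unique (w := th f + th g) ?_ ?_ ?_ ?_
  · rw [th_ex hfg, th_add]
  · rw [th_mul, th_ex hf, th_ex hg]; ring
  · exact constantCoeff_ex hfg
  · rw [map_mul, constantCoeff_ex hf, constantCoeff_ex hg, mul_one]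

lemma ex_neg {f : ℚ⟦X⟧} (hf : constantCoeff f = 0) : ex (-f) = (ex f)⁻¹ := by
  have hn : constantCoeff (-f) = 0 := by rw [map_neg, hf, neg_zero]
  have h := ex_add hn hf
  rw [neg_add_cancel, ex_zero] at h
  have h1 : constantCoeff (ex f) ≠ 0 := by rw [constantCoeff_ex hf]; exact one_ne_zero
  exact (PowerSeries.eq_inv_iff_mul_eq_one h1).mpr h.symm

private lemma ExpLog_cc_C_mul {f : ℚ⟦X⟧} (hf : constantCoeff f = 0) (x : ℚ) :
    constantCoeff (C x * f) = 0 := by
  rw [map_mul, hf, mul_zero]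

lemma ex_pow {f : ℚ⟦X⟧} (hf : constantCoeff f = 0) (n : ℕ) : ex (C (n : ℚ) * f) = ex f ^ n := by
  induction n with
  | zero => simp [ex_zero]
  | succ n ih =>
    have h : C ((n + 1 : ℕ) : ℚ) * f = C (n : ℚ) * f + f := by
      push_cast
      rw [map_add, map_one]
      ring
    rw [h, ex_add (ExpLog_cc_C_mul hf _) hf, ih, pow_succ]

lemma ex_VV {p : ℕ} [hp : Fact p.Prime] {f : ℚ⟦X⟧} (hf : constantCoeff f = 0) :
    ex (VV p f) = VV p (ex f) := by
  rw [ex, ex, VV_sb hf]

lemma ex_sb {Q f : ℚ⟦X⟧} (hf : constantCoeff f = 0) (hQ : constantCoeff Q = 0) :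
    ex (sb Q f) = sb Q (ex f) := by
  rw [ex, ex, sb_assoc hf hQ]

lemma constantCoeff_logOf' {f : ℚ⟦X⟧} (hf : constantCoeff f = 1) :
    constantCoeff (logOf f) = 0 := constantCoeff_logOf hf

private lemma ExpLog_sub_one {f : ℚ⟦X⟧} (hf : constantCoeff f = 1) :
    constantCoeff (f - 1) = 0 := by
  rw [map_sub, hf, map_one, sub_self]

private lemma ExpLog_logOf_eq (f : ℚ⟦X⟧) : logOf f = sb (f - 1) (log ℚ) := rfl

private lemma ExpLog_log_der : (1 + X) * derivative ℚ (log ℚ) = 1 := by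
  rw [deriv_log]
  ext n
  rw [add_mul, one_mul, map_add]
  rcases n with _ | n
  · simp
  · rw [coeff_succ_X_mul, coeff_mk, coeff_mk, coeff_one]
    simp [pow_succ]

lemma th_logOf {f : ℚ⟦X⟧} (hf : constantCoeff f = 1) : th (logOf f) = th f * f⁻¹ := by
  have hu := ExpLog_sub_one hf
  have h0 : constantCoeff f ≠ 0 := by rw [hf]; exact one_ne_zero
  have h1 : f * sb (f - 1) (derivative ℚ (log ℚ)) = 1 := by
    have h := congrArg (sb (f - 1)) ExpLog_log_der
    rw [sb_mul hu, sb_add hu, sb_one hu, sb_X hu] at h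
    have h2 : 1 + (f - 1) = f := by ring
    rwa [h2] at h
  have h2 : sb (f - 1) (derivative ℚ (log ℚ)) = f⁻¹ := by
    rw [PowerSeries.eq_inv_iff_mul_eq_one h0, mul_comm]
    exact h1
  have h3 : derivative ℚ (logOf f) = f⁻¹ * derivative ℚ f := by
    rw [ExpLog_logOf_eq, sb, derivative_subst (hs hu)]
    have h4 : (derivative ℚ (log ℚ)).subst (f - 1) = f⁻¹ := h2
    rw [h4, map_sub, derivative_one, sub_zero]
  rw [th, h3, th]
  ring

lemma logOf_ex {g : ℚ⟦X⟧} (hg : constantCoeff g = 0) : logOf (ex g) = g := by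
  have h1 := constantCoeff_ex hg
  have h0 : constantCoeff (ex g) ≠ 0 := by rw [h1]; exact one_ne_zero
  apply th_ext
  · rw [th_logOf h1, th_ex hg, mul_comm (ex g), mul_assoc, PowerSeries.mul_inv_cancel _ h0,
      mul_one]
  · rw [constantCoeff_logOf' h1, hg]

lemma ex_logOf {f : ℚ⟦X⟧} (hf : constantCoeff f = 1) : ex (logOf f) = f := by
  have h0 : constantCoeff f ≠ 0 := by rw [hf]; exact one_ne_zero
  have hl := constantCoeff_logOf' hf
  refine ode_unique (w := th f * f⁻¹) ?_ ?_ ?_ hf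
  · rw [th_ex hl, th_logOf hf]
  · rw [mul_comm f, mul_assoc, PowerSeries.inv_mul_cancel _ h0, mul_one]
  · exact constantCoeff_ex hl

lemma logOf_mul {f g : ℚ⟦X⟧} (hf : constantCoeff f = 1) (hg : constantCoeff g = 1) :
    logOf (f * g) = logOf f + logOf g := by
  have hfg : constantCoeff (f * g) = 1 := by rw [map_mul, hf, hg, mul_one]
  have f0 : constantCoeff f ≠ 0 := by rw [hf]; exact one_ne_zero
  have g0 : constantCoeff g ≠ 0 := by rw [hg]; exact one_ne_zero
  have h := ex_add (constantCoeff_logOf' hf) (constantCoeff_logOf' hg)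
  rw [ex_logOf hf, ex_logOf hg] at h
  rw [← h, logOf_ex]
  rw [map_add, constantCoeff_logOf' hf, constantCoeff_logOf' hg, add_zero]

lemma logOf_pow {f : ℚ⟦X⟧} (hf : constantCoeff f = 1) (n : ℕ) :
    logOf (f ^ n) = C (n : ℚ) * logOf f := by
  have h := ex_pow (constantCoeff_logOf' hf) n
  rw [ex_logOf hf] at h
  rw [← h, logOf_ex (ExpLog_cc_C_mul (constantCoeff_logOf' hf) _)]

lemma logOf_inv {f : ℚ⟦X⟧} (hf : constantCoeff f = 1) : logOf f⁻¹ = -logOf f := by
  have h := ex_neg (constantCoeff_logOf' hf)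
  rw [ex_logOf hf] at h
  rw [← h, logOf_ex]
  rw [map_neg, constantCoeff_logOf' hf, neg_zero]

lemma logOf_VV {p : ℕ} [hp : Fact p.Prime] {f : ℚ⟦X⟧} (hf : constantCoeff f = 1) :
    logOf (VV p f) = VV p (logOf f) := by
  have h := ex_VV (p := p) (constantCoeff_logOf' hf)
  rw [ex_logOf hf] at h
  rw [← h, logOf_ex]
  rw [constantCoeff_VV, constantCoeff_logOf' hf]

lemma logOf_sb {Q f : ℚ⟦X⟧} (hf : constantCoeff f = 1) (hQ : constantCoeff Q = 0) :
    logOf (sb Q f) = sb Q (logOf f) := by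
  have h := ex_sb (constantCoeff_logOf' hf) hQ
  rw [ex_logOf hf] at h
  rw [← h, logOf_ex]
  rw [constantCoeff_sb hQ, constantCoeff_logOf' hf]

/-- coefficients of `exp(u)` as a finite sum -/
lemma coeff_ex {u : ℚ⟦X⟧} (hu : constantCoeff u = 0) (n : ℕ) :
    coeff n (ex u) = ∑ k ∈ Finset.range (n + 1), (1 / (k.factorial : ℚ)) * coeff n (u ^ k) := by
  rw [ex, coeff_sb hu]
  apply Finset.sum_congr rfl
  intro k _
  rw [coeff_exp]
  simp

/-- coefficients of `log(1+u)` as a finite sum -/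
lemma coeff_logOf {u : ℚ⟦X⟧} (hu : constantCoeff u = 0) (n : ℕ) :
    coeff n (logOf (1 + u)) = ∑ k ∈ Finset.range (n + 1),
      (if k = 0 then 0 else (-1 : ℚ) ^ (k + 1) / (k : ℚ)) * coeff n (u ^ k) := by
  rw [ExpLog_logOf_eq, add_sub_cancel_left, coeff_sb hu]
  apply Finset.sum_congr rfl
  intro k _
  rw [coeff_log]
  simp

/-- the mirror map -/
lemma constantCoeff_qq (B : ℕ → ℚ⟦X⟧) : constantCoeff (qq B) = 0 := by
  rw [qq, map_mul, constantCoeff_X, zero_mul]

lemma coeff_one_qq (B : ℕ → ℚ⟦X⟧) (hg : constantCoeff (gg B) = 0) : coeff 1 (qq B) = 1 := by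
  have h : coeff (0 + 1) (X * ex (gg B)) = coeff 0 (ex (gg B)) := coeff_succ_X_mul 0 _
  rw [zero_add] at h
  rw [qq, h, coeff_zero_eq_constantCoeff_apply, constantCoeff_ex hg]

/-- `θ (f(q(z))) = I₁ (θ f)(q(z))` -/
lemma th_Ph (B : ℕ → ℚ⟦X⟧) (hg : constantCoeff (gg B) = 0) (f : ℚ⟦X⟧) :
    th (Ph B f) = Ph B (th f) * I1 B := by
  rw [Ph, Ph]
  apply th_sb (constantCoeff_qq B)
  rw [qq, th_mul, th_X, th_ex hg, I1]
  ring

/-- `θ_q (f(q(z))) = (θ f)(q(z))` -/
lemma tq_Ph (B : ℕ → ℚ⟦X⟧) (hg : constantCoeff (gg B) = 0) (f : ℚ⟦X⟧) :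
    tq B (Ph B f) = Ph B (th f) := by
  have h1 : constantCoeff (I1 B) ≠ 0 := by
    rw [I1, map_add, map_one, constantCoeff_th, add_zero]
    exact one_ne_zero
  rw [tq, th_Ph B hg, mul_assoc, PowerSeries.mul_inv_cancel _ h1, mul_one]

end KPInt
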