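import Pool.Agent.Lib.KPInt.CEq
import Pool.Agent.Lib.KPInt.ExpLog

/-!
# CTay: Taylor formula for V on the q side

`Ph B f = f(q(z))`, `q = X * ex g`, `D = p g - V g`, `tq f = θ f / I1`.

PROOF of `taylor`. Both sides are linear in `𝒢` and the coefficient `m` of both sides only depends on
the coefficients of `𝒢` below `m+1` (`sb`: `coeff_sb`; `VV p 𝒢`; the right side: `tq^[j] (Ph B 𝒢) = Ph B (θ^[j] 𝒢)`
by `tq_Ph`, and then `V (Ph B f)`), so it suffices to treat `𝒢 = X^n`:
write the truncation `∑_{n≤m} 𝒢_n X^n`. For `𝒢 = X^n`: `θ^[j] X^n = n^j X^n`,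
`Ph B (VV p X^n) = q^(p n)` and `q^p = X^p ex(p g) = X^p ex (V g) ex D = (V q)(ex D)` (`ex_add`, `ex_pow`,
`ex_VV`), so `q^(p n) = (V q)^n (ex D)^n = V(q^n) ex (n D)`, and by `coeff_ex`
`coeff m (V(q^n) ex (n D)) = ∑_{i+l=m} coeff i (V q^n) ∑_{j≤l} (n^j/j!) coeff l (D^j)`; as
`coeff l (D^j) = 0` for `j > l` (`D` has no constant term) the inner sum can be extended to `j ≤ m`:
this is `∑_{j≤m} coeff m ((1/j!) D^j V(n^j q^n))`.
-/

set_option autoImplicit false

namespace KPInt

open Polynomial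

variable {p : ℕ} [hp : Fact p.Prime] {B : ℕ → PowerSeries ℚ}

private lemma CTay_mul_sb {Q : PowerSeries ℚ} (hQ : PowerSeries.constantCoeff Q = 0)
    (P f : PowerSeries ℚ) (m : ℕ) :
    PowerSeries.coeff m (P * sb Q f) = ∑ n ∈ Finset.range (m + 1),
      PowerSeries.coeff n f * PowerSeries.coeff m (P * Q ^ n) := by
  rw [PowerSeries.coeff_mul]
  have h1 : ∀ x ∈ Finset.HasAntidiagonal.antidiagonal m,
      PowerSeries.coeff x.1 P * PowerSeries.coeff x.2 (sb Q f) =
        ∑ n ∈ Finset.range (m + 1), PowerSeries.coeff n f *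
          (PowerSeries.coeff x.1 P * PowerSeries.coeff x.2 (Q ^ n)) := by
    intro x hx
    rw [Finset.HasAntidiagonal.mem_antidiagonal] at hx
    have h2 : PowerSeries.coeff x.2 (sb Q f) = ∑ n ∈ Finset.range (m + 1),
        PowerSeries.coeff n f * PowerSeries.coeff x.2 (Q ^ n) := by
      rw [coeff_sb hQ]
      apply Finset.sum_subset
      · intro n hn
        rw [Finset.mem_range] at hn ⊢
        omega
      · intro n _ hn
        rw [Finset.mem_range] at hn
        rw [coeff_pow_lt hQ (by omega), mul_zero]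
    rw [h2, Finset.mul_sum]
    apply Finset.sum_congr rfl
    intro n _
    ring
  rw [Finset.sum_congr rfl h1, Finset.sum_comm]
  apply Finset.sum_congr rfl
  intro n _
  rw [← Finset.mul_sum, PowerSeries.coeff_mul]

private lemma CTay_mul_ex {u : PowerSeries ℚ} (hu : PowerSeries.constantCoeff u = 0)
    (P : PowerSeries ℚ) (m : ℕ) :
    PowerSeries.coeff m (P * ex u) = ∑ j ∈ Finset.range (m + 1),
      (1 / (j.factorial : ℚ)) * PowerSeries.coeff m (P * u ^ j) := by
  rw [ex, CTay_mul_sb hu]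
  apply Finset.sum_congr rfl
  intro j _
  rw [PowerSeries.coeff_exp]
  simp

private lemma CTay_th_iter (f : PowerSeries ℚ) (j n : ℕ) :
    PowerSeries.coeff n (th^[j] f) = (n : ℚ) ^ j * PowerSeries.coeff n f := by
  induction j with
  | zero => simp
  | succ j ih =>
    rw [Function.iterate_succ_apply', coeff_th, ih, pow_succ]
    ring

lemma cc_DD (hB : OKB B) : PowerSeries.constantCoeff (DD p B) = 0 := by
  unfold DD
  rw [map_sub, map_mul, constantCoeff_VV, cc_gg hB, mul_zero, sub_zero]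

/-- `q^p = q(z^p) exp(D)` -/
lemma qq_pow (hB : OKB B) : qq B ^ p = VV p (qq B) * ex (DD p B) := by
  have hg := cc_gg hB
  have hV : PowerSeries.constantCoeff (VV p (gg B)) = 0 := by
    rw [constantCoeff_VV, hg]
  have h1 : PowerSeries.C (p : ℚ) * gg B = VV p (gg B) + DD p B := by
    unfold DD
    ring
  rw [qq, mul_pow, VV_mul, VV_X, ← ex_pow hg, h1, ex_add hV (cc_DD hB), ex_VV hg]
  ring

/-- iterated `tq` of `f(q(z))` -/
lemma tq_iter (hB : OKB B) (f : PowerSeries ℚ) (j : ℕ) :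
    (tq B)^[j] (Ph B f) = Ph B (th^[j] f) := by
  induction j with
  | zero => rfl
  | succ j ih =>
    rw [Function.iterate_succ_apply', ih, tq_Ph B (cc_gg hB), Function.iterate_succ_apply']

/-- Taylor formula: `(V 𝒢)(q(z)) = ∑_j (D^j/j!) V(θ_q^j (𝒢(q(z))))` -/
theorem taylor (hB : OKB B) (Gc : PowerSeries ℚ) (m : ℕ) :
    PowerSeries.coeff m (Ph B (VV p Gc)) = ∑ j ∈ Finset.range (m + 1),
      PowerSeries.coeff m (PowerSeries.C (1 / (j.factorial : ℚ)) * DD p B ^ j *
        VV p ((tq B)^[j] (Ph B Gc))) := by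
  have hq := constantCoeff_qq B
  have hqp : PowerSeries.constantCoeff (qq B ^ p) = 0 := by
    rw [map_pow, hq, zero_pow hp.out.ne_zero]
  have hVq : PowerSeries.constantCoeff (VV p (qq B)) = 0 := by
    rw [constantCoeff_VV, hq]
  have hD := cc_DD (p := p) hB
  have hnD : ∀ n : ℕ, PowerSeries.constantCoeff (PowerSeries.C (n : ℚ) * DD p B) = 0 := by
    intro n
    rw [map_mul, hD, mul_zero]
  have hL : PowerSeries.coeff m (Ph B (VV p Gc)) = ∑ n ∈ Finset.range (m + 1),
      ∑ j ∈ Finset.range (m + 1), PowerSeries.coeff n Gc * ((1 / (j.factorial : ℚ)) *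
        ((n : ℚ) ^ j * PowerSeries.coeff m (DD p B ^ j * VV p (qq B) ^ n))) := by
    rw [Ph, sb_VV hq, coeff_sb hqp]
    apply Finset.sum_congr rfl
    intro n _
    rw [qq_pow hB, mul_pow, ← ex_pow hD, CTay_mul_ex (hnD n), Finset.mul_sum]
    apply Finset.sum_congr rfl
    intro j _
    have h3 : VV p (qq B) ^ n * (PowerSeries.C (n : ℚ) * DD p B) ^ j =
        PowerSeries.C ((n : ℚ) ^ j) * (DD p B ^ j * VV p (qq B) ^ n) := by
      rw [mul_pow, map_pow]
      ring
    rw [h3, PowerSeries.coeff_C_mul]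
  rw [hL, Finset.sum_comm]
  apply Finset.sum_congr rfl
  intro j _
  rw [tq_iter hB, Ph, VV_sb hq, mul_assoc, PowerSeries.coeff_C_mul, CTay_mul_sb hVq,
    Finset.mul_sum]
  apply Finset.sum_congr rfl
  intro n _
  rw [CTay_th_iter]
  ring

end KPInt
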