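import Pool.Agent.Lib.KPInt.CMir
import Pool.Agent.Lib.KPInt.CTay

/-!
# CK: core theorem: K - 1 in p^s and p^2 GG(q) - V GG(q) in p^(s+2)

PROOF. From `mirror`: `D ∈ p^(r+1)`, `I1 - 1 ∈ p^r`, `qq B` integral. `K = KK B`, `κ := θ²𝒢` (`Gc = 𝒢`,
`Ph B 𝒢 = GG B`), so `Ph B κ = tq (tq G) = K - 1` (`tq_Ph`).
* `pow_fact`: for `j ≥ 2`, `D^j/j! ∈ p^(s+2)` and moreover for `x ∈ p^(r+1)`. Cases:
  `p` odd, `r = s = 0`: `p^j/j!`, `v_p(j!) ≤ (j-1)/(p-1) ≤ (j-1)/2`, so `v ≥ j - (j-1)/2 ≥ 3/2`, i.e.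
  `≥ 2`. `p = 2`, `1 ≤ r`, `s ≤ r`: `2^((r+1) j)/j!`, `v_2(j!) ≤ j - 1`, `v ≥ r j + 1 ≥ 2 r + 1 ≥ s + 2`.
  (Mathlib: `sub_one_mul_padicValNat_factorial`.) Coefficientwise: `D^j = p^((r+1)j) (D/p^(r+1))^j`.
* `RZ := p² G - Ph B (VV p 𝒢)` (series in z). Coefficient `m`: by `taylor`
  `Ph B (V𝒢) = VG + D V(tq G) + (D²/2) V(K-1) + ∑_{j≥3} (D^j/j!) V(tq^(j-2) (K-1))`
  (`tq^[j] G = tq^[j-2](K - 1)` for `j ≥ 2`; note `tq` maps `K - 1` and `K` to the same series).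
  With `rel2`: `L_0 RZ = ∑ X^c Vγ(h_c) - L_0 ((D²/2) V K + ∑_{j≥3} (D^j/j!) V(tq^(j-2) (K-1)))` below
  `p n` (`-D²/2 - (D²/2) V(K-1) = -(D²/2) V K`).
* Claim `Q(n)`: `TDv p s n (K - 1)`. True for `n ≤ 1`. Suppose `Q(n)`, `n ≥ 1`. `K` integral below `n`, so are
  `tq^(i) (K-1)` (`TDv.th`, `I1⁻¹` integral), and `V` of them below `p n`. By `ga_bound` the sum
  `∑ X^c V γ(h_c)` is in `p^(s+2)` below `p n`; with `pow_fact` `TDv p (s+2) (p n) RZ` (divide by `L_0`).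
  Apply `tq` twice: `tq² RZ = p² (K-1) - Ph B (θ² V 𝒢) = p² ((K-1) - Ph B (V κ))`
  (`tq_Ph`, `th_VV` twice: `θ² V = p² V θ²`). `κ` is in `p^s` below `n` (`TDv_of_sb`, since
  `Ph B κ = K - 1`), so `V κ` is below `p n` and `Ph B (V κ)` too (`TDv_sb`). Hence
  `K - 1 = p⁻² tq² RZ + Ph B (V κ)` is in `p^s` below `p n ≥ n + 1`. Strong induction.
* So all statements hold for all `n`; finally `RZ = Ph B (p² 𝒢 - V 𝒢)` and `TDv_of_sb` transfers
  `RZ ∈ p^(s+2)` to `p² 𝒢 - V𝒢`.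
-/

set_option autoImplicit false

namespace KPInt

open Polynomial

variable {p : ℕ} [hp : Fact p.Prime] {B : ℕ → PowerSeries ℚ} {r s : ℕ}

/-- the admissible pairs `(r, s)` -/
def OKrs (p r s : ℕ) : Prop := (p ≠ 2 ∧ r = 0 ∧ s = 0) ∨ (p = 2 ∧ 1 ≤ r ∧ s ≤ r)

private lemma ck_fact {k l j : ℕ} {x : ℚ} (h : l + padicValNat p j.factorial ≤ k)
    (hx : Dv p k x) : Dv p l (1 / (j.factorial : ℚ) * x) := by
  have hp1 := hp.out
  have hp0 : (p : ℚ) ≠ 0 := by exact_mod_cast hp1.ne_zero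
  set v := padicValNat p j.factorial with hv
  obtain ⟨b, hb⟩ : p ^ v ∣ j.factorial := pow_padicValNat_dvd
  have hj0 : j.factorial ≠ 0 := j.factorial_ne_zero
  have hb0 : b ≠ 0 := by
    rintro rfl
    rw [mul_zero] at hb
    exact hj0 hb
  have hbp : Nat.Coprime b p := by
    rw [Nat.coprime_comm, Nat.Prime.coprime_iff_not_dvd hp1]
    rintro ⟨c, hc⟩
    have h1 : p ^ (v + 1) ∣ j.factorial := ⟨c, by rw [hb, hc, pow_succ]; ring⟩
    rw [padicValNat_dvd_iff_le hj0] at h1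
    omega
  have hx' : Dv p (v + l) x := hx.mono (by omega)
  obtain ⟨y, hy, hxy⟩ := Dv.iff_exists.1 hx'
  have hbq : (b : ℚ) ≠ 0 := by exact_mod_cast hb0
  have h2 : 1 / (j.factorial : ℚ) * x = (p : ℚ) ^ l * ((b : ℚ)⁻¹ * y) := by
    rw [hxy, hb]
    push_cast
    rw [pow_add]
    field_simp
  rw [h2, Dv.iff_exists]
  exact ⟨_, (Dv.inv_nat hbp).mul_left hy, rfl⟩

lemma pow_fact (hrs : OKrs p r s) {D : PowerSeries ℚ} (hD : SDv p (r + 1) D) {j : ℕ}
    (hj : 2 ≤ j) : SDv p (s + 2) (PowerSeries.C (1 / (j.factorial : ℚ)) * D ^ j) := by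
  intro n
  rw [PowerSeries.coeff_C_mul]
  refine ck_fact ?_ (hD.pow j n)
  have h1 := sub_one_mul_padicValNat_factorial_lt_of_ne_zero p (n := j) (by omega)
  have hp2 := hp.out.two_le
  generalize padicValNat p j.factorial = v at h1 ⊢
  rcases hrs with ⟨h2, h3, h4⟩ | ⟨h2, h3, h4⟩
  · subst h3 h4
    have h5 : 2 ≤ p - 1 := by omega
    have h6 : 2 * v ≤ (p - 1) * v := Nat.mul_le_mul_right v h5
    omega
  · subst h2
    have h5 : 2 * r ≤ r * j := by nlinarith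
    have h6 : (r + 1) * j = r * j + j := by ring
    rw [h6]
    omega

private lemma ck_tq_sub_one (B : ℕ → PowerSeries ℚ) (f : PowerSeries ℚ) :
    tq B (f - 1) = tq B f := by
  rw [tq, tq, th_sub, th_one, sub_zero]

private lemma ck_tq2 (B : ℕ → PowerSeries ℚ) : tq B (tq B (GG B)) = KK B - 1 := by
  rw [KK]
  ring

private lemma ck_iter (B : ℕ → PowerSeries ℚ) {j : ℕ} (hj : 3 ≤ j) :
    (tq B)^[j] (GG B) = (tq B)^[j - 2] (KK B) := by
  obtain ⟨i, rfl⟩ : ∃ i, j = i + 1 + 2 := ⟨j - 3, by omega⟩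
  rw [Function.iterate_add_apply, Nat.add_sub_cancel, Function.iterate_succ_apply,
    Function.iterate_succ_apply (tq B) 1, Function.iterate_one, ck_tq2, ck_tq_sub_one,
    Function.iterate_succ_apply]

private lemma ck_coeff_zero (hB : OKB B) {j m : ℕ} (h : m < j) (x : ℚ) (F : PowerSeries ℚ) :
    PowerSeries.coeff m (PowerSeries.C x * DD p B ^ j * F) = 0 := by
  have h1 : (PowerSeries.X : PowerSeries ℚ) ^ j ∣ PowerSeries.C x * DD p B ^ j * F := by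
    apply Dvd.dvd.mul_right
    apply Dvd.dvd.mul_left
    exact pow_dvd_pow_of_dvd (PowerSeries.X_dvd_iff.mpr (cc_DD hB)) j
  exact PowerSeries.X_pow_dvd_iff.1 h1 m h

private lemma ck_taylor (hB : OKB B) {M : ℕ} (hM : 2 ≤ M) (Gc : PowerSeries ℚ)
    (hG : Ph B Gc = GG B) : TEq M (Ph B (VV p Gc))
      (VV p (GG B) + DD p B * VV p (tq B (GG B)) +
        PowerSeries.C (1 / 2) * DD p B ^ 2 * VV p (KK B - 1) +
        ∑ j ∈ Finset.Ico 3 (M + 1), PowerSeries.C (1 / (j.factorial : ℚ)) * DD p B ^ j *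
            VV p ((tq B)^[j - 2] (KK B))) := by
  intro m hm
  rw [taylor hB Gc m, hG]
  have h1 : ∑ j ∈ Finset.range (m + 1),
      PowerSeries.coeff m (PowerSeries.C (1 / (j.factorial : ℚ)) * DD p B ^ j *
        VV p ((tq B)^[j] (GG B))) = ∑ j ∈ Finset.range (M + 1),
      PowerSeries.coeff m (PowerSeries.C (1 / (j.factorial : ℚ)) * DD p B ^ j *
        VV p ((tq B)^[j] (GG B))) := by
    apply Finset.sum_subset
    · intro x hx
      rw [Finset.mem_range] at hx ⊢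
      omega
    · intro x _ hx
      rw [Finset.mem_range, not_lt] at hx
      exact ck_coeff_zero hB (by omega) _ _
  rw [h1, ← Finset.sum_range_add_sum_Ico _ (show 3 ≤ M + 1 by omega), Finset.sum_range_succ,
    Finset.sum_range_succ, Finset.sum_range_succ, Finset.sum_range_zero, zero_add]
  simp only [map_add, map_sum]
  congr 1
  · congr 1
    · congr 1
      · simp
      · simp
    · rw [Function.iterate_succ_apply (tq B) 1, Function.iterate_one, ck_tq2]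
      norm_num [Nat.factorial]
  · apply Finset.sum_congr rfl
    intro j hj
    rw [Finset.mem_Ico] at hj
    rw [ck_iter B hj.1]

/-- the relation for `p² G - (V𝒢)(q(z))` -/
theorem relRZ (hB : OKB B) {n : ℕ} {h : ℕ → ℚ[X]} (hrel : Rel p n B h) (Gc : PowerSeries ℚ)
    (hG : Ph B Gc = GG B) : TEq (p * n)
      (Lj B 0 * (PowerSeries.C ((p : ℚ) ^ 2) * GG B - Ph B (VV p Gc)))
      (∑ c ∈ Finset.range p, PowerSeries.X ^ c * VV p (ga B (h c)) -
        Lj B 0 * (PowerSeries.C (1 / 2) * DD p B ^ 2 * VV p (KK B) +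
          ∑ j ∈ Finset.Ico 3 (p * n + 1), PowerSeries.C (1 / (j.factorial : ℚ)) * DD p B ^ j *
            VV p ((tq B)^[j - 2] (KK B)))) := by
  rcases Nat.eq_zero_or_pos n with h0 | h0
  · subst h0
    intro m hm
    rw [mul_zero] at hm
    exact absurd hm (Nat.not_lt_zero m)
  have hp2 := hp.out.two_le
  have hM : 2 ≤ p * n := by nlinarith
  set S : PowerSeries ℚ := ∑ j ∈ Finset.Ico 3 (p * n + 1),
    PowerSeries.C (1 / (j.factorial : ℚ)) * DD p B ^ j * VV p ((tq B)^[j - 2] (KK B)) with hS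
  have h1 := ck_taylor (p := p) hB hM Gc hG
  rw [← hS] at h1
  have h2 := (TEq.refl (N := p * n) (Lj B 0)).mul
    ((TEq.refl (N := p * n) (PowerSeries.C ((p : ℚ) ^ 2) * GG B)).sub h1)
  refine h2.trans ?_
  have h3 : Lj B 0 * (PowerSeries.C ((p : ℚ) ^ 2) * GG B -
      (VV p (GG B) + DD p B * VV p (tq B (GG B)) +
        PowerSeries.C (1 / 2) * DD p B ^ 2 * VV p (KK B - 1) + S)) =
      Lj B 0 * (PowerSeries.C ((p : ℚ) ^ 2) * GG B - VV p (GG B) -
        DD p B * VV p (tq B (GG B)) + PowerSeries.C (1 / 2) * DD p B ^ 2) -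
      Lj B 0 * (PowerSeries.C (1 / 2) * DD p B ^ 2 * VV p (KK B) + S) := by
    rw [VV_sub, VV_one]
    ring
  rw [h3]
  exact (rel2 hB hrel).sub (TEq.refl _)

omit hp in
private lemma ck_tq_int {N : ℕ} (hI : SDv p 0 (I1 B - 1)) {k : ℕ} {f : PowerSeries ℚ}
    (hf : TDv p k N f) : TDv p k N (tq B f) := by
  have h1 : SDv p 0 (I1 B) := by
    have := hI.add SDv.one
    rwa [sub_add_cancel] at this
  exact hf.th.mul_right ((h1.inv (cc_I1 B)).t N)

omit hp in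
private lemma ck_iter_int {N : ℕ} (hI : SDv p 0 (I1 B - 1)) {k : ℕ} {f : PowerSeries ℚ}
    (hf : TDv p k N f) (i : ℕ) : TDv p k N ((tq B)^[i] f) := by
  induction i with
  | zero => exact hf
  | succ i ih =>
    rw [Function.iterate_succ_apply']
    exact ck_tq_int hI ih

private lemma ck_RZ (hrs : OKrs p r s) (hB : OKB B) (hL : SDv p 0 (Lj B 0))
    (hL1 : SDv p r (Lj B 0 - 1)) (hyp : ∀ n, ∃ h, FRel p r s n B h) (Gc : PowerSeries ℚ)
    (hG : Ph B Gc = GG B) {n : ℕ} (hK : TDv p s n (KK B - 1)) :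
    TDv p (s + 2) (p * n) (PowerSeries.C ((p : ℚ) ^ 2) * GG B - Ph B (VV p Gc)) := by
  obtain ⟨hD, hI, hex, hq⟩ := mirror hB hL hL1 hyp
  obtain ⟨h, hh⟩ := hyp n
  have hsr : s ≤ r := by
    rcases hrs with ⟨_, h3, h4⟩ | ⟨_, _, h4⟩
    · omega
    · exact h4
  have hK0 : TDv p 0 n (KK B) := by
    have h1 := (hK.mono (Nat.zero_le s) le_rfl).add (TDv.one (p := p) (N := n))
    rwa [sub_add_cancel] at h1
  have h1 : ∀ c ∈ Finset.range p, TDv p (s + 2) (p * n)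
      (PowerSeries.X ^ c * VV p (ga B (h c))) := by
    intro c hc
    have hc' := Finset.mem_range.1 hc
    have h2 : TDv p (s + 2) n (ga B (h c)) :=
      ga_bound hB hsr hL hL1 (hI.t n) hK (hh.two c hc') fun k hk => hh.more c hc' k (by omega)
    exact (TDv.X.pow0 c).mul_left h2.VV
  have h2 := TDv.sum (Finset.range p) _ h1
  have h3 : TDv p (s + 2) (p * n) (PowerSeries.C (1 / 2) * DD p B ^ 2 * VV p (KK B)) := by
    have h4 := pow_fact hrs hD (le_refl 2)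
    have h5 : (1 : ℚ) / ((Nat.factorial 2 : ℕ) : ℚ) = 1 / 2 := by norm_num [Nat.factorial]
    rw [h5] at h4
    exact (h4.t _).mul_right hK0.VV
  have h4 : TDv p (s + 2) (p * n) (∑ j ∈ Finset.Ico 3 (p * n + 1),
      PowerSeries.C (1 / (j.factorial : ℚ)) * DD p B ^ j * VV p ((tq B)^[j - 2] (KK B))) := by
    apply TDv.sum
    intro j hj
    rw [Finset.mem_Ico] at hj
    exact ((pow_fact hrs hD (by omega)).t _).mul_right
      (ck_iter_int (hI.mono (Nat.zero_le r)) hK0 _).VV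
  have h5 := (h2.sub ((hL.t (p * n)).mul_left (h3.add h4))).congr (relRZ hB hh.rel Gc hG).symm
  exact TDv.of_mul_left (hL.t _) (cc_L0 hB) h5

private lemma ck_tq_RZ (hB : OKB B) (Gc : PowerSeries ℚ) :
    tq B (tq B (PowerSeries.C ((p : ℚ) ^ 2) * GG B - Ph B (VV p Gc))) =
      PowerSeries.C ((p : ℚ) ^ 2) * ((KK B - 1) - Ph B (VV p (th (th Gc)))) := by
  have hs1 : ∀ f g : PowerSeries ℚ, tq B (f - g) = tq B f - tq B g := by
    intro f g
    rw [tq, tq, tq, th_sub, sub_mul]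
  have hs2 : ∀ (x : ℚ) (f : PowerSeries ℚ), tq B (PowerSeries.C x * f) =
      PowerSeries.C x * tq B f := by
    intro x f
    rw [tq, tq, th_C_mul, mul_assoc]
  have hs3 : ∀ (x : ℚ) (f : PowerSeries ℚ), Ph B (PowerSeries.C x * f) =
      PowerSeries.C x * Ph B f := by
    intro x f
    rw [Ph, Ph, sb_mul (constantCoeff_qq B), sb_C (constantCoeff_qq B)]
  rw [hs1, hs1, hs2, hs2, ck_tq2, tq_Ph B (cc_gg hB), th_VV, hs3, hs2, tq_Ph B (cc_gg hB),
    th_VV, hs3, ← mul_assoc, ← map_mul, ← pow_two, ← mul_sub]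

private lemma ck_K (hrs : OKrs p r s) (hB : OKB B) (hL : SDv p 0 (Lj B 0))
    (hL1 : SDv p r (Lj B 0 - 1)) (hyp : ∀ n, ∃ h, FRel p r s n B h) (Gc : PowerSeries ℚ)
    (hG : Ph B Gc = GG B) {n : ℕ} (hK : TDv p s n (KK B - 1)) :
    TDv p s (p * n) (KK B - 1) := by
  obtain ⟨hD, hI, hex, hq⟩ := mirror hB hL hL1 hyp
  have hI0 := hI.mono (Nat.zero_le r)
  have h1 := ck_tq_int hI0 (ck_tq_int hI0 (ck_RZ hrs hB hL hL1 hyp Gc hG hK))
  rw [ck_tq_RZ hB] at h1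
  have h2 : TDv p s (p * n) ((KK B - 1) - Ph B (VV p (th (th Gc)))) := by
    intro k hk
    have h3 := h1 k hk
    rw [PowerSeries.coeff_C_mul, add_comm s 2] at h3
    exact Dv.ppow_mul_iff.1 h3
  have h4 : Ph B (th (th Gc)) = KK B - 1 := by
    rw [← tq_Ph B (cc_gg hB), ← tq_Ph B (cc_gg hB), hG, ck_tq2]
  have h5 : TDv p s n (th (th Gc)) := by
    refine TDv_of_sb (constantCoeff_qq B) (coeff_one_qq B (cc_gg hB)) (hq.t n) ?_
    have h6 : sb (qq B) (th (th Gc)) = KK B - 1 := h4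
    rw [h6]
    exact hK
  have h6 : TDv p s (p * n) (Ph B (VV p (th (th Gc)))) :=
    TDv_sb (constantCoeff_qq B) (hq.t _) h5.VV
  have h7 := h2.add h6
  rwa [sub_add_cancel] at h7

private lemma ck_all (hrs : OKrs p r s) (hB : OKB B) (hL : SDv p 0 (Lj B 0))
    (hL1 : SDv p r (Lj B 0 - 1)) (hyp : ∀ n, ∃ h, FRel p r s n B h) (Gc : PowerSeries ℚ)
    (hG : Ph B Gc = GG B) (n : ℕ) : TDv p s n (KK B - 1) := by
  induction n with
  | zero =>
    intro k hk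
    exact absurd hk (Nat.not_lt_zero k)
  | succ n ih =>
    rcases Nat.eq_zero_or_pos n with h0 | h0
    · subst h0
      intro k hk
      have hk0 : k = 0 := by omega
      subst hk0
      have h1 : PowerSeries.coeff 0 (KK B - 1) = 0 := by
        rw [PowerSeries.coeff_zero_eq_constantCoeff_apply, map_sub, cc_KK, map_one, sub_self]
      rw [h1]
      exact Dv.zero
    · have hp2 := hp.out.two_le
      exact (ck_K hrs hB hL hL1 hyp Gc hG ih).mono le_rfl (by nlinarith)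

/-- CORE THEOREM -/
theorem core (hrs : OKrs p r s) (hB : OKB B) (hL : SDv p 0 (Lj B 0))
    (hL1 : SDv p r (Lj B 0 - 1)) (hyp : ∀ n, ∃ h, FRel p r s n B h) (Gc : PowerSeries ℚ)
    (hG : Ph B Gc = GG B) :
    SDv p (r + 1) (DD p B) ∧ SDv p r (I1 B - 1) ∧ SDv p 0 (ex (gg B)) ∧ SDv p 0 (qq B) ∧
      SDv p s (KK B - 1) ∧ SDv p (s + 2) (PowerSeries.C ((p : ℚ) ^ 2) * Gc - VV p Gc) := by
  obtain ⟨hD, hI, hex, hq⟩ := mirror hB hL hL1 hyp
  have hall := ck_all hrs hB hL hL1 hyp Gc hG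
  refine ⟨hD, hI, hex, hq, SDv.of hall, SDv.of fun N => ?_⟩
  refine TDv_of_sb (constantCoeff_qq B) (coeff_one_qq B (cc_gg hB)) (hq.t N) ?_
  have h1 : sb (qq B) (PowerSeries.C ((p : ℚ) ^ 2) * Gc - VV p Gc) =
      PowerSeries.C ((p : ℚ) ^ 2) * GG B - Ph B (VV p Gc) := by
    rw [sb_sub (constantCoeff_qq B), sb_mul (constantCoeff_qq B), sb_C (constantCoeff_qq B),
      ← hG, Ph, Ph]
  rw [h1]
  exact (ck_RZ hrs hB hL hL1 hyp Gc hG (hall N)).mono le_rfl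
    (Nat.le_mul_of_pos_left N hp.out.pos)

end KPInt
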