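import Pool.Agent.Lib.KPInt.ExpLog

/-!
# Dwork: Dwork's lemma for exp and log, divisibility of exp and log

PROOFS.
* `fact_val`: `p^k / k! ∈ p ℤ_(p)` for `k ≥ 1`: Legendre, `v_p(k!) ≤ (k-1)/(p-1) ≤ k-1`
  (Mathlib: `Nat.Prime.multiplicity_factorial`, `padicValNat_factorial`,
  `sub_one_mul_padicValNat_factorial : (p-1) * padicValNat p n! = n - (digits p n).sum`; the digit
  sum is at least 1 for `n ≥ 1`). In terms of `Dv`: write `k! = p^v m` with `m` prime to `p`.
* `pow_div_val`: `p^k / k ∈ p ℤ_(p)`, for `k ≥ 1`: `p^(v_p k) ≤ k < p^k`, so `v_p(k) ≤ k - 1`.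
* `SDv_ex`: `exp(u)`, `u ∈ p ℤ_p[[z]]`, `u(0) = 0`: write `u = p v` (coefficientwise), coefficient `n`
  of `exp u - 1` is `∑_{1≤k≤n} (p^k/k!) [z^n] v^k` (`coeff_ex`).
* `SDv_logOf`: `log(1+u) = ∑ ± u^k/k`, `u = p^k₀ v`, `k₀ ≥ 1`: `p^(k₀ j)/j ∈ p^k₀ ℤ_(p)`:
  `v_p(j) ≤ j - 1 ≤ k₀ (j-1)`.
* `dwork_exp` (Dwork's lemma). Put `f = ex g`, `D = p g - V g ∈ p ℤ_p[[z]]`. Then
  `f^p = ex (p g) = ex (V g) ex D = (V f)(1 + u)`, `u ∈ p ℤ_p[[z]]`, `u(0)=0` (`SDv_ex`). Strong
  induction on `n`: assume `f_i` integral for `i < n` (`n ≥ 1`). Let `T` be the truncation of `f`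
  below `n`, `f = T + f_n X^n + O(X^(n+1))`, `T(0) = 1`. Then `[X^n] f^p = [X^n] T^p + p f_n`
  (binomial formula, terms `X^(2n)` do not contribute as `n ≥ 1`), `[X^n] T^p ≡ [X^n] V T mod p`
  (`TDv.frob`/`SDv.frob` for `T`), `[X^n] V f = [X^n] V T` (`n / p < n`), and
  `[X^n] (V f) u ∈ p` (only coefficients `f_i` with `p i ≤ n`, so `i < n`). Hence `p f_n ∈ p`.
* `dwork_log`: `p log f - V log f = log (f^p / V f) = log (1 + u)` with `u ∈ p ℤ_p[[z]]`
  (`SDv.frob`, `SDv.inv`), then `SDv_logOf` with `k₀ = 1`.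
-/

set_option autoImplicit false

namespace KPInt

open PowerSeries

variable {p : ℕ} [hp : Fact p.Prime]

/-- `p^a / n` for `n = p^e m`, `m` prime to `p` -/
lemma Dv_ppow_div {a e m : ℕ} (hm : ¬ p ∣ m) (he : e ≤ a) :
    Dv p (a - e) ((p : ℚ) ^ a / ((p ^ e * m : ℕ) : ℚ)) := by
  have hp0 : (p : ℚ) ≠ 0 := by exact_mod_cast hp.out.ne_zero
  have hm0 : (m : ℚ) ≠ 0 := by
    intro h
    apply hm
    have : m = 0 := by exact_mod_cast h
    rw [this]
    exact dvd_zero p
  refine ⟨1, m, ((Nat.Prime.coprime_iff_not_dvd hp.out).mpr hm).symm, ?_⟩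
  have h1 : (p : ℚ) ^ a = (p : ℚ) ^ (a - e) * (p : ℚ) ^ e := by
    rw [← pow_add]
    congr 1
    omega
  push_cast
  rw [h1]
  field_simp

lemma fact_val {k : ℕ} (hk : 1 ≤ k) : Dv p 1 ((p : ℚ) ^ k / (k.factorial : ℚ)) := by
  obtain ⟨e, m, hm, h⟩ := Nat.exists_eq_pow_mul_and_not_dvd k.factorial_ne_zero p hp.out.ne_one
  have he : padicValNat p k.factorial = e := by
    rw [h]
    have hm0 : m ≠ 0 := by
      rintro rfl
      exact hm (dvd_zero p)
    rw [padicValNat.mul (pow_ne_zero _ hp.out.ne_zero) hm0, padicValNat.prime_pow,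
      padicValNat.eq_zero_of_not_dvd hm, add_zero]
  have h2 := sub_one_mul_padicValNat_factorial (p := p) k
  rw [he] at h2
  have h3 : 1 ≤ (Nat.digits p k).sum := by
    by_contra hcon
    have h0 : (Nat.digits p k).sum = 0 := by omega
    have h4 := Nat.modEq_digits_sum
    have hall : ∀ d ∈ Nat.digits p k, d = 0 := by
      intro d hd
      have := List.single_le_sum (fun x _ => Nat.zero_le x) d hd
      omega
    have hne : Nat.digits p k ≠ [] := Nat.digits_ne_nil_iff_ne_zero.mpr (by omega)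
    exact Nat.getLast_digit_ne_zero p (m := k) (by omega) (hall _ (List.getLast_mem hne))
  have h5 : e < k := by
    have h6 : 1 ≤ p - 1 := by have := hp.out.two_le; omega
    have h7 : e ≤ (p - 1) * e := Nat.le_mul_of_pos_left e (by omega)
    omega
  rw [h]
  exact (Dv_ppow_div hm (by omega : e ≤ k)).mono (by omega)

lemma exp_lt {k e m : ℕ} (hk : 1 ≤ k) (h : k = p ^ e * m) : e < k := by
  have hm0 : 1 ≤ m := by
    rcases Nat.eq_zero_or_pos m with h0 | h0
    · rw [h0] at h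
      omega
    · exact h0
  have h1 : p ^ e ≤ k := by
    rw [h]
    exact Nat.le_mul_of_pos_right _ hm0
  have h2 : e < p ^ e := Nat.lt_pow_self hp.out.one_lt
  omega

lemma pow_div_val {k : ℕ} (hk : 1 ≤ k) : Dv p 1 ((p : ℚ) ^ k / (k : ℚ)) := by
  obtain ⟨e, m, hm, h⟩ := Nat.exists_eq_pow_mul_and_not_dvd (by omega : k ≠ 0) p hp.out.ne_one
  have h5 : e < k := exp_lt hk h
  have h6 := (Dv_ppow_div hm (by omega : e ≤ k)).mono (by omega : 1 ≤ k - e)
  rw [← h] at h6
  exact h6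

/-- division by `p^k` -/
lemma exists_div {k : ℕ} {u : ℚ⟦X⟧} (hu : constantCoeff u = 0) (h : SDv p k u) :
    ∃ v : ℚ⟦X⟧, SDv p 0 v ∧ constantCoeff v = 0 ∧ u = C ((p : ℚ) ^ k) * v := by
  have hp0 : (p : ℚ) ≠ 0 := by exact_mod_cast hp.out.ne_zero
  have hpk : (p : ℚ) ^ k ≠ 0 := pow_ne_zero k hp0
  refine ⟨C (((p : ℚ) ^ k)⁻¹) * u, ?_, ?_, ?_⟩
  · intro n
    rw [coeff_C_mul]
    have h1 := h n
    have h2 : coeff n u = (p : ℚ) ^ k * (((p : ℚ) ^ k)⁻¹ * coeff n u) := by
      rw [← mul_assoc, mul_inv_cancel₀ hpk, one_mul]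
    rw [h2] at h1
    have h3 : Dv p (k + 0) ((p : ℚ) ^ k * (((p : ℚ) ^ k)⁻¹ * coeff n u)) := by
      rw [add_zero]
      exact h1
    exact Dv.ppow_mul_iff.mp h3
  · rw [map_mul, hu, mul_zero]
  · rw [← mul_assoc, ← map_mul, mul_inv_cancel₀ hpk, map_one, one_mul]

/-- `exp(u) ≡ 1 mod p` for `u ∈ p ℤ_p[[z]]` -/
theorem SDv_ex {u : ℚ⟦X⟧} (hu : constantCoeff u = 0) (h : SDv p 1 u) : SDv p 1 (ex u - 1) := by
  obtain ⟨v, hv, hv0, huv⟩ := exists_div hu h
  intro n
  rw [map_sub, coeff_ex hu, Finset.sum_range_succ']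
  have h0 : (1 / ((Nat.factorial 0 : ℕ) : ℚ)) * coeff n (u ^ 0) = coeff n (1 : ℚ⟦X⟧) := by
    rw [pow_zero, Nat.factorial_zero]
    push_cast
    ring
  rw [h0, add_sub_cancel_right]
  apply Dv.sum
  intro k hk
  have h1 : (1 / ((Nat.factorial (k + 1) : ℕ) : ℚ)) * coeff n (u ^ (k + 1)) =
      ((p : ℚ) ^ (k + 1) / ((Nat.factorial (k + 1) : ℕ) : ℚ)) * coeff n (v ^ (k + 1)) := by
    rw [huv, mul_pow, ← map_pow, coeff_C_mul, pow_one]
    ring
  rw [h1]
  exact (fact_val (by omega)).mul_right (hv.pow0 (k + 1) n)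

/-- `log(f) ∈ p^k` for `f ≡ 1 mod p^k`, `k ≥ 1` -/
theorem SDv_logOf {k : ℕ} (hk : 1 ≤ k) {f : ℚ⟦X⟧} (hf : constantCoeff f = 1)
    (h : SDv p k (f - 1)) : SDv p k (logOf f) := by
  have hu : constantCoeff (f - 1) = 0 := by rw [map_sub, hf, map_one, sub_self]
  obtain ⟨v, hv, hv0, huv⟩ := exists_div hu h
  intro n
  have hf1 : f = 1 + (f - 1) := by ring
  rw [hf1, coeff_logOf hu]
  apply Dv.sum
  intro j hj
  by_cases hj0 : j = 0
  · rw [if_pos hj0, zero_mul]
    exact Dv.zero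
  · rw [if_neg hj0, huv, mul_pow, ← map_pow, coeff_C_mul]
    obtain ⟨e, m, hm, h1⟩ := Nat.exists_eq_pow_mul_and_not_dvd hj0 p hp.out.ne_one
    have h5 : e < j := exp_lt (by omega) h1
    have h6 : k + e ≤ k * j := by
      obtain ⟨i, rfl⟩ : ∃ i, j = i + 1 := ⟨j - 1, by omega⟩
      have h7 : i ≤ k * i := Nat.le_mul_of_pos_left i (by omega)
      rw [Nat.mul_succ]
      omega
    have h8 := (Dv_ppow_div hm (by omega : e ≤ k * j)).mono (by omega : k ≤ k * j - e)
    rw [← h1] at h8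
    have h9 : (-1 : ℚ) ^ (j + 1) / (j : ℚ) * (((p : ℚ) ^ k) ^ j * coeff n (v ^ j)) =
        ((p : ℚ) ^ (k * j) / (j : ℚ)) * ((-1 : ℚ) ^ (j + 1) * coeff n (v ^ j)) := by
      rw [← pow_mul]
      ring
    rw [h9]
    have hm1 : Dv p 0 (-1 : ℚ) := by simpa using Dv.int (p := p) (-1)
    exact h8.mul_right ((hm1.pow0 (j + 1)).mul_left (hv.pow0 j n))

/-- Dwork's lemma -/
theorem dwork_exp {g : ℚ⟦X⟧} (hg : constantCoeff g = 0)
    (h : SDv p 1 (C (p : ℚ) * g - VV p g)) : SDv p 0 (ex g) := by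
  have hD0 : constantCoeff (C (p : ℚ) * g - VV p g) = 0 := by
    rw [map_sub, map_mul, constantCoeff_VV, hg, mul_zero, sub_zero]
  have hVg : constantCoeff (VV p g) = 0 := by rw [constantCoeff_VV, hg]
  set D := C (p : ℚ) * g - VV p g with hD
  have hf0 : constantCoeff (ex g) = 1 := constantCoeff_ex hg
  have hpow : ex g ^ p = VV p (ex g) * (1 + (ex D - 1)) := by
    rw [← ex_pow hg p]
    have h1 : C (p : ℚ) * g = VV p g + D := by rw [hD]; ring
    rw [h1, ex_add hVg hD0, ex_VV hg]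
    ring
  have hu := SDv_ex hD0 h
  set u := ex D - 1 with hu_def
  set f := ex g with hf_def
  intro n
  induction n using Nat.strong_induction_on with
  | _ n ih =>
    rcases Nat.eq_zero_or_pos n with hn | hn
    · subst hn
      have h1 : coeff 0 f = 1 := by
        rw [coeff_zero_eq_constantCoeff_apply, hf0]
      rw [h1]
      exact Dv.one
    · -- truncation
      set T : ℚ⟦X⟧ := PowerSeries.mk fun i => if i < n then coeff i f else 0 with hT
      have hTc : ∀ i, coeff i T = if i < n then coeff i f else 0 := by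
        intro i
        rw [hT, coeff_mk]
      have hTi : SDv p 0 T := by
        intro i
        rw [hTc]
        split_ifs with hi
        · exact ih i hi
        · exact Dv.zero
      have hTf : TEq n T f := by
        intro i hi
        rw [hTc, if_pos hi]
      have hT0 : constantCoeff T = 1 := by
        rw [← coeff_zero_eq_constantCoeff_apply, hTc, if_pos hn,
          coeff_zero_eq_constantCoeff_apply, hf0]
      have hR : (X : ℚ⟦X⟧) ^ n ∣ f - T := by
        rw [X_pow_dvd_iff]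
        intro i hi
        rw [map_sub, hTc, if_pos hi, sub_self]
      obtain ⟨R', hR'⟩ := hR
      have hR0 : coeff n f = constantCoeff R' := by
        have h1 : coeff n (f - T) = coeff n f := by
          rw [map_sub, hTc, if_neg (lt_irrefl n), sub_zero]
        rw [← h1, hR']
        have h2 := coeff_X_pow_mul R' n 0
        rw [zero_add] at h2
        rw [h2, coeff_zero_eq_constantCoeff_apply]
      have hexp := (Polynomial.powAddExpansion T (f - T) p).2
      set K := (Polynomial.powAddExpansion T (f - T) p).1 with hK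
      rw [add_sub_cancel] at hexp
      have hc1 : coeff n (f ^ p) = coeff n (T ^ p) + (p : ℚ) * coeff n f := by
        rw [hexp, map_add, map_add]
        have h1 : coeff n ((p : ℚ⟦X⟧) * T ^ (p - 1) * (f - T)) = (p : ℚ) * coeff n f := by
          have h2 : (p : ℚ⟦X⟧) * T ^ (p - 1) * (f - T) =
              X ^ n * (C (p : ℚ) * T ^ (p - 1) * R') := by
            rw [hR', map_natCast]
            ring
          rw [h2]
          have h3 := coeff_X_pow_mul (C (p : ℚ) * T ^ (p - 1) * R') n 0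
          rw [zero_add] at h3
          rw [h3, coeff_zero_eq_constantCoeff_apply, map_mul, map_mul, map_pow, hT0, hR0]
          simp
        have h4 : coeff n (K * (f - T) ^ 2) = 0 := by
          have h5 : (X : ℚ⟦X⟧) ^ (n + n) ∣ K * (f - T) ^ 2 := by
            rw [hR']
            exact ⟨K * R' ^ 2, by rw [pow_add]; ring⟩
          exact X_pow_dvd_iff.mp h5 n (by omega)
        rw [h1, h4, add_zero]
      have hp2 := hp.out.two_le
      have hpn : n + 1 ≤ p * n := by nlinarith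
      have hc2 : coeff n (f ^ p) = coeff n (VV p T) + coeff n (VV p f * u) := by
        rw [hpow, mul_add, mul_one, map_add]
        rw [hTf.VV n (by omega)]
      have hVu : Dv p 1 (coeff n (VV p f * u)) := by
        have h1 : TDv p 0 n f := fun i hi => ih i hi
        have h2 : TDv p 0 (n + 1) (VV p f) := (h1.VV).mono le_rfl hpn
        exact h2.mul_left (hu.t (n + 1)) n (Nat.lt_succ_self n)
      have hfr := (hTi.frob) n
      rw [map_sub] at hfr
      have hfin : Dv p (0 + 1) ((p : ℚ) * coeff n f) := by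
        have h1 : (p : ℚ) * coeff n f =
            -(coeff n (T ^ p) - coeff n (VV p T)) + coeff n (VV p f * u) := by
          linear_combination hc2 - hc1
        rw [h1, zero_add]
        exact hfr.neg.add hVu
      exact Dv.of_p_mul hfin

/-- converse of Dwork's lemma -/
theorem dwork_log {f : ℚ⟦X⟧} (hf : constantCoeff f = 1) (h : SDv p 0 f) :
    SDv p 1 (C (p : ℚ) * logOf f - VV p (logOf f)) := by
  have hV0 : constantCoeff (VV p f) = 1 := by rw [constantCoeff_VV, hf]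
  have hVi : constantCoeff (VV p f)⁻¹ = 1 := by rw [constantCoeff_inv, hV0, inv_one]
  have hp0 : constantCoeff (f ^ p) = 1 := by rw [map_pow, hf, one_pow]
  have h1 : C (p : ℚ) * logOf f - VV p (logOf f) = logOf (f ^ p * (VV p f)⁻¹) := by
    rw [logOf_mul hp0 hVi, logOf_pow hf, logOf_inv hV0, logOf_VV hf]
    ring
  rw [h1]
  apply SDv_logOf le_rfl
  · rw [map_mul, hp0, hVi, one_mul]
  · have hne : constantCoeff (VV p f) ≠ 0 := by rw [hV0]; exact one_ne_zero
    have h2 : f ^ p * (VV p f)⁻¹ - 1 = (f ^ p - VV p f) * (VV p f)⁻¹ := by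
      rw [sub_mul, PowerSeries.mul_inv_cancel _ hne]
    rw [h2]
    exact h.frob.mul_right (h.VV.inv hV0)

end KPInt
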