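import Pool.Agent.Lib.KPInt.CEq
import Pool.Agent.Lib.KPInt.Dwork

/-!
# CMir: induction for the mirror map: D = p g - V g in p^(r+1), I1 - 1 in p^r, q integral

PROOF. Claim `P(n)`: `TDv p r n (I1 B - 1)`. `P(1)` (and `P(0)`): the constant coefficient of `I1 - 1` is 0.
`P(n) ⇒ P(p n)`: take `h` for `n`; `be_bound` gives `TDv p (r+1) n (be B (h c))`, hence
(`TDv.VV`) `TDv p (r+1) (p n)` of `∑ X^c V β(h_c)` (multiplication by `X^c` integral), by `rel1`
`TDv p (r+1) (p n) (L_0 D)`, and `L_0` is integral with constant coefficient 1, so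
`TDv p (r+1) (p n) D`. Then `θ D = p θg - θ V g = p (I1 - 1) - p V(θ g) = p ((I1 - 1) - V(I1 - 1))`
(`th_VV`), so `I1 - 1 = p⁻¹ θD + V(I1 - 1)` is in `p^r` below `p n`. Since `p n ≥ n + 1` for `n ≥ 1`,
strong induction gives all `n`, and the bound for `D` too.
`ex (gg B)` is integral by `dwork_exp` (`D ∈ p^(r+1) ⊂ p`), so is `qq B = X * ex (gg B)`.
-/

set_option autoImplicit false

namespace KPInt

open Polynomial

/-- hypotheses on a sequence of jets -/
structure FRel (p r s n : ℕ) (B : ℕ → PowerSeries ℚ) (h : ℕ → ℚ[X]) : Prop where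
  rel : Rel p n B h
  int : ∀ c < p, PDv p 0 (h c)
  one : ∀ c < p, Dv p (r + 1) ((h c).coeff 1)
  two : ∀ c < p, Dv p (s + 2) ((h c).coeff 2)
  more : ∀ c < p, ∀ k, 2 ≤ k → Dv p 2 ((h c).coeff k)

variable {p : ℕ} [hp : Fact p.Prime] {B : ℕ → PowerSeries ℚ} {r s : ℕ}

lemma th_DD (B : ℕ → PowerSeries ℚ) :
    th (DD p B) = PowerSeries.C (p : ℚ) * ((I1 B - 1) - VV p (I1 B - 1)) := by
  have h1 : I1 B - 1 = th (gg B) := by
    unfold I1
    ring
  unfold DD
  rw [h1, th_sub, th_C_mul, th_VV, mul_sub]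

private lemma cmir_D (hB : OKB B) (hL : SDv p 0 (Lj B 0)) (hL1 : SDv p r (Lj B 0 - 1))
    (hyp : ∀ n, ∃ h, FRel p r s n B h) {n : ℕ} (hP : TDv p r n (I1 B - 1)) :
    TDv p (r + 1) (p * n) (DD p B) := by
  obtain ⟨h, hh⟩ := hyp n
  have h1 : ∀ c ∈ Finset.range p, TDv p (r + 1) (p * n)
      (PowerSeries.X ^ c * VV p (be B (h c))) := by
    intro c hc
    have hc' := Finset.mem_range.1 hc
    have h2 : TDv p (r + 1) n (be B (h c)) :=
      be_bound hB hL hL1 hP (hh.one c hc') fun k hk => (hh.more c hc' k hk).mono (by norm_num)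
    exact (TDv.X.pow0 c).mul_left h2.VV
  have h2 := TDv.sum (Finset.range p) _ h1
  have h3 := h2.congr (rel1 hB hh.rel).symm
  exact TDv.of_mul_left (hL.t _) (cc_L0 hB) h3

private lemma cmir_P (hB : OKB B) (hL : SDv p 0 (Lj B 0)) (hL1 : SDv p r (Lj B 0 - 1))
    (hyp : ∀ n, ∃ h, FRel p r s n B h) {n : ℕ} (hP : TDv p r n (I1 B - 1)) :
    TDv p r (p * n) (I1 B - 1) := by
  have h1 := (cmir_D hB hL hL1 hyp hP).th
  rw [th_DD] at h1
  have h2 : TDv p r (p * n) ((I1 B - 1) - VV p (I1 B - 1)) := by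
    intro k hk
    have h3 := h1 k hk
    rw [PowerSeries.coeff_C_mul] at h3
    exact Dv.of_p_mul h3
  have h3 := h2.add hP.VV
  rwa [sub_add_cancel] at h3

private lemma cmir_all (hB : OKB B) (hL : SDv p 0 (Lj B 0)) (hL1 : SDv p r (Lj B 0 - 1))
    (hyp : ∀ n, ∃ h, FRel p r s n B h) (n : ℕ) : TDv p r n (I1 B - 1) := by
  induction n with
  | zero =>
    intro k hk
    exact absurd hk (Nat.not_lt_zero k)
  | succ n ih =>
    rcases Nat.eq_zero_or_pos n with h0 | h0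
    · subst h0
      intro k hk
      have hk0 : k = 0 := by omega
      subst hk0
      have h1 : PowerSeries.coeff 0 (I1 B - 1) = 0 := by
        rw [PowerSeries.coeff_zero_eq_constantCoeff_apply, map_sub, cc_I1, map_one, sub_self]
      rw [h1]
      exact Dv.zero
    · have hp2 := hp.out.two_le
      exact (cmir_P hB hL hL1 hyp ih).mono le_rfl (by nlinarith)

theorem mirror (hB : OKB B) (hL : SDv p 0 (Lj B 0)) (hL1 : SDv p r (Lj B 0 - 1))
    (hyp : ∀ n, ∃ h, FRel p r s n B h) :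
    SDv p (r + 1) (DD p B) ∧ SDv p r (I1 B - 1) ∧ SDv p 0 (ex (gg B)) ∧ SDv p 0 (qq B) := by
  have hall := cmir_all hB hL hL1 hyp
  have hD : SDv p (r + 1) (DD p B) := SDv.of fun N =>
    (cmir_D hB hL hL1 hyp (hall N)).mono le_rfl (Nat.le_mul_of_pos_left N hp.out.pos)
  have hex : SDv p 0 (ex (gg B)) := by
    refine dwork_exp (cc_gg hB) ?_
    have h1 : SDv p 1 (DD p B) := hD.mono (by omega)
    exact h1
  refine ⟨hD, SDv.of hall, hex, ?_⟩
  unfold qq
  exact SDv.X.mul_left hex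

end KPInt
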