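import Pool.Agent.Lib.KPInt.JBase

/-!
# CRec: the functionals alpha, beta, gamma on polynomials: recursion and bounds

`SS B i f` = coefficient of `ε^i` of `∑_m f(m+ε) B_m(ε) z^m`, a power series in `z`.
`OKB B`: `B 0 ≡ 1 mod ε^3`.

PROOFS.
* `SS_X`: `evj m (X f) = (C m + X) evj m f`; coefficient `i+1` of `(C m + X) u` is
  `m u_{i+1} + u_i`, coefficient 0 is `m u_0`.
* `al_X`, `be_X`, `ga_X` (recursion). Abbreviate `g, G, I = 1 + θg, G₁ = tq G = θG/I, K = 1 + θ G₁ / I`,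
  so `θ G = G₁ I`, `I K = I + θ G₁`. With `S_i = SS B i f`:
  `α(Xf) = θα`; `β(Xf) = θS_1 + S_0 - gθS_0 = θβ + I α`;
  `γ(Xf) = θS_2 + S_1 - (G+g²/2)θS_0 - (g+G₁)(θβ + Iα)`; insert `S_2 = γ + (G+g²/2)α + (g+G₁)β`,
  `S_1 = β + gα`: the result is `θγ + (θG - G₁ I) α + (I + θG₁) β = θγ + I K β`.
* `al_one`: `evj m 1 = 1`. `be_one`: `L_1 - g L_0 = 0` (`constantCoeff (Lj B 0) = 1`). `ga_one`:
  `L_2 - (G + g²/2) L_0 = 0`. `be_X1 : be (X) = I1 L_0`, `ga_X1 : ga X = 0`,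
  `ga_X2 : ga (X^2) = I1 (KK) (I1 L_0)`.
* constant coefficients: `L_0(0) = 1`, `L_1(0) = 0`, `L_2(0) = 0`, so `g(0) = 0`, `G(0) = 0`, `I(0) = 1`,
  `K(0) = 1`.
* `bounds`: induction on `k`, `X^(k+1) = X * X^k`. Below `N`, with `L_0, I, K` integral (they are
  `1 +` something in `p^r`, `p^r`, `p^s`): `α(X^k)` integral, in `p^r` for `k ≥ 1` (`θ` kills constants:
  `θ L_0 = θ (L_0 - 1)`); `β(X) = I L_0 ≡ 1 mod p^r`, `β(X^(k+1)) = θβ(X^k) + I α(X^k) ∈ p^r` for
  `k ≥ 1` (for `k = 1` use `θ(I L_0) = θ(I L_0 - 1)`); `γ(X^2) = I² K L_0 ≡ 1 mod p^s`,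
  `γ(X^(k+1)) = θγ(X^k) + I K β(X^k) ∈ p^s` for `k ≥ 2` (`s ≤ r`).
* `be_expand` etc.: `SS` is linear in `f`; write `f = ∑_k C f_k X^k`
  (`Polynomial.as_sum_range_C_mul_X_pow`).
* `be_bound`: `β(f) = ∑_{k≥1} f_k β(X^k)` (`β(1) = 0`), `f_1 ∈ p^(r+1)`, `f_k ∈ p` and
  `β(X^k) ∈ p^r` for `k ≥ 2`. `ga_bound`: `γ(f) = ∑_{k≥2} f_k γ(X^k)`, `f_2 ∈ p^(s+2)`, `f_k ∈ p^2`,
  `γ(X^k) ∈ p^s` for `k ≥ 3`.
-/

set_option autoImplicit false

namespace KPInt

open Polynomial

/-- coefficient of `ε^i` of `∑_m f(m+ε) B_m(ε) z^m` -/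
noncomputable def SS (B : ℕ → PowerSeries ℚ) (i : ℕ) (f : ℚ[X]) : PowerSeries ℚ :=
  PowerSeries.mk fun m => PowerSeries.coeff i (evj m f * B m)

noncomputable def al (B : ℕ → PowerSeries ℚ) (f : ℚ[X]) : PowerSeries ℚ := SS B 0 f

noncomputable def be (B : ℕ → PowerSeries ℚ) (f : ℚ[X]) : PowerSeries ℚ :=
  SS B 1 f - gg B * SS B 0 f

noncomputable def ga (B : ℕ → PowerSeries ℚ) (f : ℚ[X]) : PowerSeries ℚ :=
  SS B 2 f - (GG B + PowerSeries.C (1 / 2) * gg B ^ 2) * SS B 0 f - (gg B + tq B (GG B)) * be B f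

/-- `B 0 = 1 + O(ε^3)` -/
structure OKB (B : ℕ → PowerSeries ℚ) : Prop where
  c0 : PowerSeries.coeff 0 (B 0) = 1
  c1 : PowerSeries.coeff 1 (B 0) = 0
  c2 : PowerSeries.coeff 2 (B 0) = 0

variable {B : ℕ → PowerSeries ℚ} (hB : OKB B)

private lemma CRec_L (B : ℕ → PowerSeries ℚ) (i : ℕ) :
    PowerSeries.constantCoeff (Lj B i) = PowerSeries.coeff i (B 0) := by
  unfold Lj
  rw [← PowerSeries.coeff_zero_eq_constantCoeff_apply, PowerSeries.coeff_mk]

include hB in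
lemma cc_L0 : PowerSeries.constantCoeff (Lj B 0) = 1 := by
  rw [CRec_L, hB.c0]
include hB in
lemma cc_gg : PowerSeries.constantCoeff (gg B) = 0 := by
  unfold gg
  rw [map_mul, CRec_L, hB.c1, zero_mul]
include hB in
lemma cc_GG : PowerSeries.constantCoeff (GG B) = 0 := by
  unfold GG
  rw [map_sub, map_mul, map_mul, map_pow, cc_gg hB, CRec_L, hB.c2]
  simp
lemma cc_I1 (B : ℕ → PowerSeries ℚ) : PowerSeries.constantCoeff (I1 B) = 1 := by
  unfold I1
  rw [map_add, constantCoeff_th]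
  simp
lemma cc_KK (B : ℕ → PowerSeries ℚ) : PowerSeries.constantCoeff (KK B) = 1 := by
  unfold KK tq
  rw [map_add, map_mul, constantCoeff_th]
  simp

lemma SS_add (i : ℕ) (f g : ℚ[X]) : SS B i (f + g) = SS B i f + SS B i g := by
  ext n
  unfold SS
  rw [map_add, PowerSeries.coeff_mk, PowerSeries.coeff_mk, PowerSeries.coeff_mk, evj_add, add_mul,
    map_add]
lemma SS_C_mul (i : ℕ) (x : ℚ) (f : ℚ[X]) : SS B i (C x * f) = PowerSeries.C x * SS B i f := by
  ext n
  unfold SS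
  rw [PowerSeries.coeff_C_mul, PowerSeries.coeff_mk, PowerSeries.coeff_mk, evj_mul, evj_C,
    mul_assoc, PowerSeries.coeff_C_mul]

private lemma CRec_zero (i : ℕ) : SS B i 0 = 0 := by
  ext n
  unfold SS
  rw [PowerSeries.coeff_mk, evj_zero', zero_mul, map_zero, map_zero]

private lemma CRec_sum {ι : Type*} (i : ℕ) (s : Finset ι) (f : ι → ℚ[X]) :
    SS B i (∑ k ∈ s, f k) = ∑ k ∈ s, SS B i (f k) := by
  classical
  induction s using Finset.induction_on with
  | empty => simp [CRec_zero]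
  | insert a s ha ih => rw [Finset.sum_insert ha, Finset.sum_insert ha, SS_add, ih]

private lemma CRec_SS (i : ℕ) (f : ℚ[X]) : SS B i f =
    ∑ k ∈ Finset.range (f.natDegree + 1), PowerSeries.C (f.coeff k) * SS B i (X ^ k) := by
  conv_lhs => rw [f.as_sum_range_C_mul_X_pow]
  rw [CRec_sum]
  exact Finset.sum_congr rfl (fun k _ => SS_C_mul i _ _)

lemma al_sum (f : ℚ[X]) : al B f =
    ∑ k ∈ Finset.range (f.natDegree + 1), PowerSeries.C (f.coeff k) * al B (X ^ k) := by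
  unfold al
  exact CRec_SS 0 f
lemma be_sum (f : ℚ[X]) : be B f =
    ∑ k ∈ Finset.range (f.natDegree + 1), PowerSeries.C (f.coeff k) * be B (X ^ k) := by
  unfold be
  rw [CRec_SS 1 f, CRec_SS 0 f, Finset.mul_sum, ← Finset.sum_sub_distrib]
  exact Finset.sum_congr rfl (fun k _ => by ring)
lemma ga_sum (f : ℚ[X]) : ga B f =
    ∑ k ∈ Finset.range (f.natDegree + 1), PowerSeries.C (f.coeff k) * ga B (X ^ k) := by
  unfold ga
  rw [be_sum f, CRec_SS 2 f, CRec_SS 0 f, Finset.mul_sum, Finset.mul_sum,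
    ← Finset.sum_sub_distrib, ← Finset.sum_sub_distrib]
  exact Finset.sum_congr rfl (fun k _ => by ring)

private lemma CRec_X0 (f : ℚ[X]) : SS B 0 (X * f) = th (SS B 0 f) := by
  ext n
  rw [coeff_th]
  unfold SS
  rw [PowerSeries.coeff_mk, PowerSeries.coeff_mk, evj_mul, evj_X, mul_assoc, add_mul, map_add,
    PowerSeries.coeff_C_mul, PowerSeries.coeff_zero_X_mul, add_zero]

private lemma CRec_XS (i : ℕ) (f : ℚ[X]) :
    SS B (i + 1) (X * f) = th (SS B (i + 1) f) + SS B i f := by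
  ext n
  rw [map_add, coeff_th]
  unfold SS
  rw [PowerSeries.coeff_mk, PowerSeries.coeff_mk, PowerSeries.coeff_mk, evj_mul, evj_X, mul_assoc,
    add_mul, map_add, PowerSeries.coeff_C_mul, PowerSeries.coeff_succ_X_mul]

lemma al_X (f : ℚ[X]) : al B (X * f) = th (al B f) := by
  unfold al
  exact CRec_X0 f
lemma be_X (f : ℚ[X]) : be B (X * f) = th (be B f) + I1 B * al B f := by
  unfold be al
  rw [CRec_X0, CRec_XS, th_sub, th_mul]
  unfold I1
  ring
include hB in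
lemma ga_X (f : ℚ[X]) : ga B (X * f) = th (ga B f) + I1 B * KK B * be B f := by
  have hI0 : PowerSeries.constantCoeff (I1 B) ≠ 0 := by rw [cc_I1]; exact one_ne_zero
  have hI : I1 B * (I1 B)⁻¹ = 1 := PowerSeries.mul_inv_cancel _ hI0
  have hG : th (GG B) = tq B (GG B) * I1 B := by
    have h1 : tq B (GG B) = th (GG B) * (I1 B)⁻¹ := rfl
    rw [h1]
    linear_combination -(th (GG B)) * hI
  have hK : I1 B * KK B = I1 B + th (tq B (GG B)) := by
    have h1 : KK B = 1 + th (tq B (GG B)) * (I1 B)⁻¹ := rfl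
    rw [h1]
    linear_combination (th (tq B (GG B))) * hI
  have hbX := be_X (B := B) f
  have hbe : be B f = SS B 1 f - gg B * SS B 0 f := rfl
  have hgX : ga B (X * f) = SS B 2 (X * f) -
      (GG B + PowerSeries.C (1 / 2) * gg B ^ 2) * SS B 0 (X * f) -
      (gg B + tq B (GG B)) * be B (X * f) := rfl
  have hga : ga B f = SS B 2 f - (GG B + PowerSeries.C (1 / 2) * gg B ^ 2) * SS B 0 f -
      (gg B + tq B (GG B)) * be B f := rfl
  have hI1 : I1 B = 1 + th (gg B) := rfl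
  have hal : al B f = SS B 0 f := rfl
  have h2 : (PowerSeries.C (1 / 2 : ℚ)) * 2 = (1 : PowerSeries ℚ) := by
    have : (2 : PowerSeries ℚ) = PowerSeries.C (2 : ℚ) := by
      rw [map_ofNat]
    rw [this, ← map_mul]
    norm_num
  have hsq : th (PowerSeries.C (1 / 2) * gg B ^ 2) = gg B * th (gg B) := by
    rw [th_C_mul, pow_two, th_mul]
    linear_combination (gg B * th (gg B)) * h2
  rw [hgX, CRec_X0, CRec_XS, hbX, hga, th_sub, th_sub, th_mul, th_mul, th_add, th_add, hsq, hG, hK,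
    hal]
  have hthb : th (be B f) = th (SS B 1 f) - (th (gg B) * SS B 0 f + gg B * th (SS B 0 f)) := by
    rw [hbe, th_sub, th_mul]
  rw [hI1] at *
  rw [hthb, hbe]
  ring

lemma al_one : al B 1 = Lj B 0 := by
  unfold al SS Lj
  ext n
  rw [PowerSeries.coeff_mk, PowerSeries.coeff_mk, evj_one, one_mul]

private lemma CRec_one (i : ℕ) : SS B i 1 = Lj B i := by
  unfold SS Lj
  ext n
  rw [PowerSeries.coeff_mk, PowerSeries.coeff_mk, evj_one, one_mul]

include hB in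
lemma be_one : be B 1 = 0 := by
  have h0 : PowerSeries.constantCoeff (Lj B 0) ≠ 0 := by rw [cc_L0 hB]; exact one_ne_zero
  have h1 : (Lj B 0)⁻¹ * Lj B 0 = 1 := PowerSeries.inv_mul_cancel _ h0
  unfold be
  rw [CRec_one, CRec_one]
  unfold gg
  linear_combination -(Lj B 1) * h1
include hB in
lemma ga_one : ga B 1 = 0 := by
  have h0 : PowerSeries.constantCoeff (Lj B 0) ≠ 0 := by rw [cc_L0 hB]; exact one_ne_zero
  have h1 : (Lj B 0)⁻¹ * Lj B 0 = 1 := PowerSeries.inv_mul_cancel _ h0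
  unfold ga
  rw [be_one hB, CRec_one, CRec_one]
  unfold GG
  linear_combination -(Lj B 2) * h1
include hB in
lemma be_X1 : be B X = I1 B * Lj B 0 := by
  have h := be_X (B := B) 1
  rw [mul_one, be_one hB, th_zero, zero_add, al_one] at h
  exact h
include hB in
lemma ga_X1 : ga B X = 0 := by
  have h := ga_X hB 1
  rw [mul_one, be_one hB, ga_one hB, th_zero, zero_add, mul_zero] at h
  exact h
include hB in
lemma ga_X2 : ga B (X ^ 2) = I1 B ^ 2 * KK B * Lj B 0 := by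
  have h := ga_X hB X
  rw [← pow_two, ga_X1 hB, th_zero, zero_add, be_X1 hB] at h
  rw [h]
  ring

private lemma CRec_th_sub (f : PowerSeries ℚ) (k j : ℕ) :
    th (f - if k = j then 1 else 0) = th f := by
  rw [th_sub]
  split_ifs
  · rw [th_one, sub_zero]
  · rw [th_zero, sub_zero]

private lemma CRec_al {p r : ℕ} (hL1 : SDv p r (Lj B 0 - 1)) (k : ℕ) :
    SDv p r (al B (X ^ k) - if k = 0 then 1 else 0) := by
  induction k with
  | zero => rw [pow_zero, al_one, if_pos rfl]; exact hL1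
  | succ k ih =>
    rw [pow_succ', al_X, if_neg (Nat.succ_ne_zero k), sub_zero, ← CRec_th_sub _ k 0]
    exact ih.th

private lemma CRec_al0 {p : ℕ} (hL : SDv p 0 (Lj B 0)) (k : ℕ) : SDv p 0 (al B (X ^ k)) := by
  induction k with
  | zero => rw [pow_zero, al_one]; exact hL
  | succ k ih => rw [pow_succ', al_X]; exact ih.th

include hB in
private lemma CRec_be {p r N : ℕ} (hL : SDv p 0 (Lj B 0)) (hL1 : SDv p r (Lj B 0 - 1))
    (hI : TDv p r N (I1 B - 1)) (k : ℕ) :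
    TDv p r N (be B (X ^ k) - if k = 1 then 1 else 0) := by
  induction k with
  | zero =>
    rw [pow_zero, be_one hB, if_neg (by norm_num), sub_zero]
    exact TDv.zero
  | succ k ih =>
    have h1 : be B (X ^ (k + 1)) - (if k + 1 = 1 then 1 else 0) =
        th (be B (X ^ k) - if k = 1 then 1 else 0) + (I1 B - 1) * al B (X ^ k) +
          (al B (X ^ k) - if k = 0 then 1 else 0) := by
      have h2 : (if k + 1 = 1 then (1 : PowerSeries ℚ) else 0) = if k = 0 then 1 else 0 := by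
        by_cases h : k = 0
        · rw [if_pos h, if_pos (by omega)]
        · rw [if_neg h, if_neg (by omega)]
      rw [CRec_th_sub, pow_succ', be_X, h2]
      ring
    rw [h1]
    exact (ih.th.add (hI.mul_right ((CRec_al0 hL k).t N))).add ((CRec_al hL1 k).t N)

include hB in
private lemma CRec_be0 {p r N : ℕ} (hL : SDv p 0 (Lj B 0)) (hL1 : SDv p r (Lj B 0 - 1))
    (hI : TDv p r N (I1 B - 1)) (k : ℕ) : TDv p 0 N (be B (X ^ k)) := by
  have h := (CRec_be hB hL hL1 hI k).mono (Nat.zero_le r) le_rfl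
  have h2 : be B (X ^ k) = (be B (X ^ k) - if k = 1 then 1 else 0) + if k = 1 then 1 else 0 := by
    ring
  rw [h2]
  refine h.add ?_
  split_ifs
  · exact TDv.one
  · exact TDv.zero

include hB in
private lemma CRec_ga {p r s N : ℕ} (hsr : s ≤ r) (hL : SDv p 0 (Lj B 0))
    (hL1 : SDv p r (Lj B 0 - 1)) (hI : TDv p r N (I1 B - 1)) (hK : TDv p s N (KK B - 1)) (k : ℕ) :
    TDv p s N (ga B (X ^ k) - if k = 2 then 1 else 0) := by
  induction k with
  | zero =>
    rw [pow_zero, ga_one hB, if_neg (by norm_num), sub_zero]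
    exact TDv.zero
  | succ k ih =>
    have h1 : ga B (X ^ (k + 1)) - (if k + 1 = 2 then 1 else 0) =
        th (ga B (X ^ k) - if k = 2 then 1 else 0) +
          ((I1 B - 1) * (1 + (KK B - 1)) + (KK B - 1)) * be B (X ^ k) +
          (be B (X ^ k) - if k = 1 then 1 else 0) := by
      have h2 : (if k + 1 = 2 then (1 : PowerSeries ℚ) else 0) = if k = 1 then 1 else 0 := by
        by_cases h : k = 1
        · rw [if_pos h, if_pos (by omega)]
        · rw [if_neg h, if_neg (by omega)]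
      rw [CRec_th_sub, pow_succ', ga_X hB, h2]
      ring
    rw [h1]
    have hK0 : TDv p 0 N (1 + (KK B - 1)) := TDv.one.add (hK.mono (Nat.zero_le s) le_rfl)
    have hI' : TDv p s N (I1 B - 1) := hI.mono hsr le_rfl
    exact (ih.th.add (((hI'.mul_right hK0).add hK).mul_right (CRec_be0 hB hL hL1 hI k))).add
      ((CRec_be hB hL hL1 hI k).mono hsr le_rfl)

include hB in
/-- bounds below `N` for `α`, `β` -/
theorem bounds_ab {p r N : ℕ} (hL : SDv p 0 (Lj B 0)) (hL1 : SDv p r (Lj B 0 - 1))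
    (hI : TDv p r N (I1 B - 1)) (k : ℕ) :
    TDv p 0 N (al B (X ^ k)) ∧ TDv p 0 N (be B (X ^ k)) ∧
      (1 ≤ k → TDv p r N (al B (X ^ k))) ∧ (2 ≤ k → TDv p r N (be B (X ^ k))) := by
  refine ⟨(CRec_al0 hL k).t N, CRec_be0 hB hL hL1 hI k, fun hk => ?_, fun hk => ?_⟩
  · have h := (CRec_al hL1 k).t N
    rw [if_neg (by omega), sub_zero] at h
    exact h
  · have h := CRec_be hB hL hL1 hI k
    rw [if_neg (by omega), sub_zero] at h
    exact h

include hB in
/-- bounds below `N` for `γ` -/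
theorem bounds_g {p r s N : ℕ} (hsr : s ≤ r) (hL : SDv p 0 (Lj B 0))
    (hL1 : SDv p r (Lj B 0 - 1)) (hI : TDv p r N (I1 B - 1)) (hK : TDv p s N (KK B - 1)) (k : ℕ) :
    TDv p 0 N (ga B (X ^ k)) ∧ (3 ≤ k → TDv p s N (ga B (X ^ k))) := by
  have h := CRec_ga hB hsr hL hL1 hI hK k
  refine ⟨?_, fun hk => ?_⟩
  · have h2 : ga B (X ^ k) = (ga B (X ^ k) - if k = 2 then 1 else 0) + if k = 2 then 1 else 0 := by
      ring
    rw [h2]
    refine (h.mono (Nat.zero_le s) le_rfl).add ?_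
    split_ifs
    · exact TDv.one
    · exact TDv.zero
  · rw [if_neg (by omega), sub_zero] at h
    exact h

include hB in
theorem be_bound {p r N : ℕ} (hL : SDv p 0 (Lj B 0)) (hL1 : SDv p r (Lj B 0 - 1))
    (hI : TDv p r N (I1 B - 1)) {f : ℚ[X]} (h1 : Dv p (r + 1) (f.coeff 1))
    (h2 : ∀ k, 2 ≤ k → Dv p 1 (f.coeff k)) : TDv p (r + 1) N (be B f) := by
  rw [be_sum]
  apply TDv.sum
  intro k _
  rcases Nat.lt_or_ge k 2 with hk | hk
  · interval_cases k
    · rw [pow_zero, be_one hB, mul_zero]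
      exact TDv.zero
    · exact (TDv.C h1).mul_right (bounds_ab hB hL hL1 hI 1).2.1
  · have h := (TDv.C (N := N) (h2 k hk)).mul ((bounds_ab hB hL hL1 hI k).2.2.2 hk)
    rw [add_comm] at h
    exact h

include hB in
theorem ga_bound {p r s N : ℕ} (hsr : s ≤ r) (hL : SDv p 0 (Lj B 0))
    (hL1 : SDv p r (Lj B 0 - 1)) (hI : TDv p r N (I1 B - 1)) (hK : TDv p s N (KK B - 1))
    {f : ℚ[X]} (h2 : Dv p (s + 2) (f.coeff 2)) (h3 : ∀ k, 3 ≤ k → Dv p 2 (f.coeff k)) :
    TDv p (s + 2) N (ga B f) := by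
  rw [ga_sum]
  apply TDv.sum
  intro k _
  rcases Nat.lt_or_ge k 3 with hk | hk
  · interval_cases k
    · rw [pow_zero, ga_one hB, mul_zero]
      exact TDv.zero
    · rw [pow_one, ga_X1 hB, mul_zero]
      exact TDv.zero
    · exact (TDv.C h2).mul_right (bounds_g hB hsr hL hL1 hI hK 2).1
  · have h := (TDv.C (N := N) (h3 k hk)).mul ((bounds_g hB hsr hL hL1 hI hK k).2 hk)
    rw [add_comm] at h
    exact h

end KPInt
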