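import Pool.Agent.Lib.KPInt.Crit1
import Pool.Agent.Lib.MP_a4e0fb_ag.H72IntClasses

/-!
# Crit2: integrality of the genus-one numbers from the congruences for all primes
-/

set_option autoImplicit false

namespace KPInt

open Finset MPa4e0fb

/-- the exponent of `p` in 24 -/
def ee (p : ℕ) : ℕ := if p = 2 then 3 else if p = 3 then 1 else 0

lemma ee_spec {p : ℕ} [hp : Fact p.Prime] (k : ℕ) (hk : ¬ p ∣ k) :
    Dv p (ee p) ((k : ℚ) ^ 2 - 1) := by
  unfold ee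
  split_ifs with h2 h3
  · subst h2
    have h : (8 : ℤ) ∣ (k : ℤ) ^ 2 - 1 := by
      have h0 : k % 8 = 1 ∨ k % 8 = 3 ∨ k % 8 = 5 ∨ k % 8 = 7 := by omega
      have h1 : (k : ℤ) = 8 * (k / 8 : ℕ) + (k % 8 : ℕ) := by
        have := Nat.div_add_mod k 8
        push_cast at *
        omega
      rw [h1]
      rcases h0 with h0 | h0 | h0 | h0 <;> rw [h0]
      · exact ⟨8 * (k / 8 : ℕ) ^ 2 + 2 * (k / 8 : ℕ), by push_cast; ring⟩
      · exact ⟨8 * (k / 8 : ℕ) ^ 2 + 6 * (k / 8 : ℕ) + 1, by push_cast; ring⟩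
      · exact ⟨8 * (k / 8 : ℕ) ^ 2 + 10 * (k / 8 : ℕ) + 3, by push_cast; ring⟩
      · exact ⟨8 * (k / 8 : ℕ) ^ 2 + 14 * (k / 8 : ℕ) + 6, by push_cast; ring⟩
    obtain ⟨c, hc⟩ := h
    refine ⟨c, 1, by simp, ?_⟩
    have : ((k : ℚ) ^ 2 - 1) = 8 * c := by exact_mod_cast hc
    rw [this]; norm_num
  · subst h3
    have h : (3 : ℤ) ∣ (k : ℤ) ^ 2 - 1 := by
      have h0 : k % 3 = 1 ∨ k % 3 = 2 := by omega
      have h1 : (k : ℤ) = 3 * (k / 3 : ℕ) + (k % 3 : ℕ) := by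
        have := Nat.div_add_mod k 3
        push_cast at *
        omega
      rw [h1]
      rcases h0 with h0 | h0 <;> rw [h0]
      · exact ⟨3 * (k / 3 : ℕ) ^ 2 + 2 * (k / 3 : ℕ), by push_cast; ring⟩
      · exact ⟨3 * (k / 3 : ℕ) ^ 2 + 4 * (k / 3 : ℕ) + 1, by push_cast; ring⟩
    obtain ⟨c, hc⟩ := h
    refine ⟨c, 1, by simp, ?_⟩
    have : ((k : ℚ) ^ 2 - 1) = 3 * c := by exact_mod_cast hc
    rw [this]; norm_num
  · exact ((Dv.nat k).pow0 2).sub Dv.one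

lemma dv24 {x : ℚ} (h : ∀ (p : ℕ) [Fact p.Prime], Dv p (ee p) x) : ∃ z : ℤ, x / 24 = z := by
  apply int_of_Dv
  intro q hq
  have : Fact q.Prime := ⟨hq⟩
  obtain ⟨a, b, hb, hx⟩ := h q
  by_cases h2 : q = 2
  · subst h2
    refine ⟨a, 3 * b, Nat.Coprime.mul_left (by decide) hb, ?_⟩
    have h8 : ((2 : ℕ) : ℚ) ^ ee 2 = 8 := by simp [ee]; norm_num
    rw [h8] at hx
    push_cast
    rw [pow_zero, one_mul]
    linear_combination hx / 8
  · by_cases h3 : q = 3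
    · subst h3
      refine ⟨a, 8 * b, Nat.Coprime.mul_left (by decide) hb, ?_⟩
      have h8 : ((3 : ℕ) : ℚ) ^ ee 3 = 3 := by simp [ee]
      rw [h8] at hx
      push_cast
      rw [pow_zero, one_mul]
      linear_combination hx / 3
    · have hc : Nat.Coprime 24 q := by
        rw [show 24 = 2 ^ 3 * 3 by norm_num]
        apply Nat.Coprime.mul_left
        · exact Nat.Coprime.pow_left 3 ((Nat.coprime_primes Nat.prime_two hq).mpr (Ne.symm h2))
        · exact (Nat.coprime_primes Nat.prime_three hq).mpr (Ne.symm h3)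
      refine ⟨a, 24 * b, Nat.Coprime.mul_left hc hb, ?_⟩
      have h8 : ee q = 0 := by simp [ee, h2, h3]
      rw [h8] at hx
      push_cast
      linear_combination hx

lemma exists_moebius (f : ℕ → ℚ) : ∃ g : ℕ → ℚ, ∀ d : ℕ, 0 < d →
    ∑ a ∈ d.divisors, (a : ℚ) * g a = f d := by
  let F : ℕ → ℚ := fun d => ∑ x ∈ d.divisorsAntidiagonal,
    (ArithmeticFunction.moebius x.1 : ℚ) * f x.2
  have h := (ArithmeticFunction.sum_eq_iff_sum_mul_moebius_eq (R := ℚ) (f := F)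
    (g := f)).mpr (fun n _ => rfl)
  refine ⟨fun d => F d / d, fun d hd => ?_⟩
  rw [← h d hd]
  apply Finset.sum_congr rfl
  intro a ha
  have : (a : ℚ) ≠ 0 := by
    have := Nat.pos_of_mem_divisors ha
    positivity
  field_simp

theorem crit_all (κ c2 : ℚ) (hκ : κ ≠ 0) (nu y b : ℕ → ℚ) (n0 n1 : ℤ → ℚ) (m : ℤ → ℤ → ℚ)
    (hn0 : ∀ d : ℤ, d ≤ 0 → n0 d = 0)
    (hnu : ∀ d : ℕ, 0 < d → n0 (d : ℤ) = κ * nu d)
    (hm : IsMeeting (AddMonoidHom.id ℤ) (fun d => c2 * n0 d) (fun a b => n0 a * n0 b / κ) m)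
    (hn1 : IsGenusOne {d : ℤ | 0 < d} (fun d => y d.toNat / 24) (fun d => c2 * n0 d) m n1)
    (hbdef : ∀ d, b d = κ * (c2 * ∑ a ∈ d.divisors, nu a -
      ∑ x ∈ antidiagonal d, (∑ a ∈ x.1.divisors, nu a) * (∑ a ∈ x.2.divisors, nu a)))
    (hb : ∀ (p : ℕ) [Fact p.Prime], ∀ d, Dv p 0 (b d))
    (hT : ∀ (p : ℕ) [Fact p.Prime], ∀ d, 0 < d → Dv p (ee p + 1)
      ((p : ℚ) * y d - (if p ∣ d then y (d / p) else 0) +
        (p : ℚ) * b d - (p : ℚ) ^ 2 * (if p ∣ d then b (d / p) else 0))) :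
    ∀ d : ℤ, 0 < d → ∃ z : ℤ, n1 d = z := by
  have hn0' : ∀ α, α ∉ {d : ℤ | 0 < d} → n0 α = 0 := by
    intro α hα
    apply hn0
    by_contra h
    apply hα
    show 0 < α
    omega
  obtain ⟨G, hG⟩ := exists_moebius (fun d => (d : ℚ) * y d)
  -- `h a = 24 g a = G a`
  have hy : ∀ d, 0 < d → y d = ∑ a ∈ d.divisors, G a / ((d / a : ℕ) : ℚ) := by
    intro d hd
    have hd' : (d : ℚ) ≠ 0 := by positivity
    apply mul_left_cancel₀ hd'
    rw [← hG d hd, mul_sum]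
    apply sum_congr rfl
    intro a ha
    have ha' : (a : ℚ) ≠ 0 := by
      have := Nat.pos_of_mem_divisors ha
      positivity
    rw [Nat.cast_div (Nat.dvd_of_mem_divisors ha) ha']
    field_simp
  have hx : ∀ d, 0 < d → ∃ z : ℤ, ((∑ a ∈ d.divisors, ((d / a : ℕ) : ℚ) * G a) + b d) / 24 = z := by
    intro d hd
    apply dv24
    intro p hp
    exact crit_p ee_spec G b y hy (hb p) (hT p) d hd
  let g : ℤ → ℚ := fun α => if 0 < α then G α.toNat / 24 else 0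
  have hg0 : ∀ α, α ∉ {d : ℤ | 0 < d} → g α = 0 := by
    intro α hα
    have : ¬ 0 < α := hα
    simp only [g, if_neg this]
  have hgn : ∀ a : ℕ, 0 < a → g (a : ℤ) = G a / 24 := by
    intro a ha
    have : (0 : ℤ) < (a : ℤ) := by exact_mod_cast ha
    simp only [g, if_pos this, Int.toNat_natCast]
  have hc0 : ∀ α, α ∉ {d : ℤ | 0 < d} → c2 * n0 α = 0 := by
    intro α hα; rw [hn0' α hα]; ring
  have hp0 : ∀ a b, a ∉ {d : ℤ | 0 < d} ∨ b ∉ {d : ℤ | 0 < d} → n0 a * n0 b / κ = 0 := by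
    intro a b hab
    rcases hab with h | h
    · rw [hn0' a h]; ring
    · rw [hn0' b h]; ring
  have hg : ∀ β ∈ {d : ℤ | 0 < d}, y β.toNat / 24 = mcs (fun d => 1 / (d : ℚ)) g β := by
    intro β hβ
    obtain ⟨d, rfl⟩ : ∃ d : ℕ, β = d := ⟨β.toNat, by
      have : (0 : ℤ) < β := hβ
      omega⟩
    have hd : 0 < d := by
      have : (0 : ℤ) < (d : ℤ) := hβ
      exact_mod_cast this
    rw [mcs_int _ hg0, Int.toNat_natCast, hy d hd, sum_div]
    apply sum_congr rfl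
    intro a ha
    rw [hgn a (Nat.pos_of_mem_divisors ha)]
    ring
  have hcl := fun β => genusOne_closed isEff_int hc0 hp0 hm hn1 hg0 hg β
  have hpf : (fun a b : ℤ => n0 a * n0 b / κ) = fun a b => κ⁻¹ * n0 a * n0 b := by
    funext a b
    rw [div_eq_mul_inv]; ring
  have hall : ∀ β ∈ {d : ℤ | 0 < d}, IsInt (mcs (fun k => ∑ i ∈ k.divisors, (i : ℚ)) n1 β) := by
    intro β hβ
    obtain ⟨d, rfl⟩ : ∃ d : ℕ, β = d := ⟨β.toNat, by
      have : (0 : ℤ) < β := hβ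
      omega⟩
    have hd : 0 < d := by
      have : (0 : ℤ) < (d : ℤ) := hβ
      exact_mod_cast this
    rw [hcl, mcs_int _ hg0, mcs_int _ hc0, hpf, pairSum_int κ⁻¹ hn0']
    obtain ⟨z, hz⟩ := hx d hd
    refine ⟨z, ?_⟩
    rw [← hz, hbdef]
    have e1 : ∑ a ∈ d.divisors, ((d / a : ℕ) : ℚ) * g (a : ℤ) =
        (∑ a ∈ d.divisors, ((d / a : ℕ) : ℚ) * G a) / 24 := by
      rw [sum_div]
      apply sum_congr rfl
      intro a ha
      rw [hgn a (Nat.pos_of_mem_divisors ha)]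
      ring
    have e2 : ∀ i : ℕ, ∑ a ∈ i.divisors, n0 (a : ℤ) = κ * ∑ a ∈ i.divisors, nu a := by
      intro i
      rw [mul_sum]
      apply sum_congr rfl
      intro a ha
      rw [hnu a (Nat.pos_of_mem_divisors ha)]
    have e3 : ∑ a ∈ d.divisors, (1 : ℚ) * (c2 * n0 (a : ℤ)) =
        c2 * (κ * ∑ a ∈ d.divisors, nu a) := by
      rw [← e2 d, mul_sum]
      apply sum_congr rfl
      intro a _
      ring
    have e4 : ∑ x ∈ antidiagonal d, (∑ a ∈ x.1.divisors, n0 (a : ℤ)) *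
        (∑ c ∈ x.2.divisors, n0 (c : ℤ)) = κ ^ 2 * ∑ x ∈ antidiagonal d,
          (∑ a ∈ x.1.divisors, nu a) * (∑ a ∈ x.2.divisors, nu a) := by
      rw [mul_sum]
      apply sum_congr rfl
      intro x _
      rw [e2, e2]
      ring
    rw [e1, e3, e4]
    field_simp
  have hfin := (isInt_iff isEff_int hn1.1).mpr hall
  intro d hd
  exact hfin d hd

end KPInt
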