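import Pool.Agent.Lib.KPInt.Defs

/-!
# Ops: elementary operations on power series: theta, f(z^p), truncations, Frobenius congruence

Definitions: `th f = X * derivative ℚ f`, `VV p f = expand p _ f` (file Defs).

PROOFS.
* `coeff_th`: cases on `n` (`coeff_succ_X_mul`, `coeff_zero_X_mul`), `coeff_derivative`. The linearity
  lemmas, `th_mul`, `th_pow`, `th_inv` follow from the derivation properties (`Derivation.leibniz`,
  `derivative_pow`, `derivative_inv'`) or from `coeff_th`.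
* `coeff_VV` is `PowerSeries.coeff_expand`. The algebraic lemmas on `VV`: `expand` is an algebra
  homomorphism; `VV_inv`: `VV p f * VV p f⁻¹ = VV p 1 = 1` and the constant coefficient is unchanged
  (`constantCoeff_expand`), use `PowerSeries.eq_inv_iff_mul_eq_one`.
* `th_VV`: coefficient `n`: both sides vanish unless `p ∣ n`; for `n = p k` both are `p k f_k`.
* `TDv.th`: `n * coeff n f`. `TDv.VV`: if `n < p N` and `p ∣ n` then `n / p < N`.
* `TDv.frob` (Frobenius congruence `f^p ≡ f(z^p) mod p`, coefficients `< N`, for `f` `p`-integral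
  below `N`). Let `T = trunc N f` (a polynomial); replacing `f` by the polynomial does not change the
  coefficients `< N` of `f^p` (induction on the exponent with `TEq.mul`) nor of `VV p f` (those with
  index `< p N`). For polynomials with coefficients in `ℤ_(p)`: induction on the number of monomials:
  `(A + c X^i)^p ≡ A^p + c^p X^(i p)` modulo `p` (binomial coefficients `p ∣ C(p,k)`, `0<k<p`), and
  `c^p ≡ c mod p` in `ℤ_(p)` (if `c b = a`, `b` prime to `p`, then `b^p (c^p - c) = a^p - a b^(p-1)`,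
  use `ZMod.pow_card` / `Int.ModEq.pow_card_sub_one` or `Int.ModEq.pow_prime_eq_self`-like facts; a
  convenient private lemma: `Dv p 0 c → Dv p 1 (c^p - c)`). An alternative: prove by induction on `N`
  the statement for `∑_{i<N} c_i X^i`.
-/

set_option autoImplicit false

namespace KPInt

open PowerSeries

lemma coeff_th (n : ℕ) (f : ℚ⟦X⟧) : coeff n (th f) = (n : ℚ) * coeff n f := by
  unfold th
  cases n with
  | zero => simp
  | succ n =>
    rw [coeff_succ_X_mul, coeff_derivative]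
    push_cast
    ring
lemma th_add (f g : ℚ⟦X⟧) : th (f + g) = th f + th g := by
  ext n
  simp only [map_add, coeff_th, mul_add]
lemma th_sub (f g : ℚ⟦X⟧) : th (f - g) = th f - th g := by
  ext n
  simp only [map_sub, coeff_th, mul_sub]
lemma th_neg (f : ℚ⟦X⟧) : th (-f) = -th f := by
  ext n
  simp only [map_neg, coeff_th, mul_neg]
lemma th_C (x : ℚ) : th (C x) = 0 := by
  ext n
  rw [coeff_th, coeff_C]
  split_ifs with h
  · subst h; simp
  · simp
lemma th_one : th 1 = 0 := by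
  have := th_C 1
  simpa using this
lemma th_zero : th 0 = 0 := by
  ext n
  simp [coeff_th]
lemma th_X : th X = X := by
  ext n
  rw [coeff_th, coeff_X]
  split_ifs with h
  · subst h; simp
  · simp
lemma th_mul (f g : ℚ⟦X⟧) : th (f * g) = th f * g + f * th g := by
  unfold th
  rw [Derivation.leibniz]
  simp only [smul_eq_mul]
  ring
lemma th_C_mul (x : ℚ) (f : ℚ⟦X⟧) : th (C x * f) = C x * th f := by
  rw [th_mul, th_C, zero_mul, zero_add]
lemma th_smul (x : ℚ) (f : ℚ⟦X⟧) : th (x • f) = x • th f := by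
  rw [smul_eq_C_mul, smul_eq_C_mul, th_C_mul]
lemma th_sum {ι : Type*} (s : Finset ι) (f : ι → ℚ⟦X⟧) :
    th (∑ i ∈ s, f i) = ∑ i ∈ s, th (f i) := by
  ext n
  simp only [map_sum, coeff_th, Finset.mul_sum]
lemma th_pow (f : ℚ⟦X⟧) (n : ℕ) : th (f ^ (n + 1)) = C ((n : ℚ) + 1) * (f ^ n * th f) := by
  induction n with
  | zero => simp
  | succ n ih =>
    rw [pow_succ, th_mul, ih]
    have h : (C (((n + 1 : ℕ) : ℚ) + 1) : ℚ⟦X⟧) = C ((n : ℚ) + 1) + 1 := by
      rw [← map_one (C (R := ℚ)), ← map_add]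
      push_cast
      rfl
    rw [h]
    ring
lemma th_inv (f : ℚ⟦X⟧) : th f⁻¹ = -(f⁻¹ ^ 2 * th f) := by
  by_cases h : constantCoeff f = 0
  · have h0 : f⁻¹ = 0 := by
      rw [PowerSeries.inv_eq_zero]; exact h
    rw [h0, th_zero]
    simp
  · have h1 : f * f⁻¹ = 1 := PowerSeries.mul_inv_cancel f h
    have h2 : th (f * f⁻¹) = 0 := by rw [h1, th_one]
    rw [th_mul] at h2
    have h3 : f⁻¹ * (th f * f⁻¹ + f * th f⁻¹) = 0 := by rw [h2, mul_zero]
    have h4 : f⁻¹ * (f * th f⁻¹) = th f⁻¹ := by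
      rw [← mul_assoc, mul_comm f⁻¹ f, h1, one_mul]
    linear_combination h3 - h4
lemma constantCoeff_th (f : ℚ⟦X⟧) : constantCoeff (th f) = 0 := by
  have := coeff_th 0 f
  simpa using this

/-- two series with the same `θ` and the same constant coefficient agree -/
lemma th_ext {f g : ℚ⟦X⟧} (h : th f = th g) (h0 : constantCoeff f = constantCoeff g) :
    f = g := by
  ext n
  rcases Nat.eq_zero_or_pos n with hn | hn
  · subst hn
    simpa using h0
  · have h1 : coeff n (th f) = coeff n (th g) := by rw [h]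
    rw [coeff_th, coeff_th] at h1
    have h2 : (n : ℚ) ≠ 0 := by positivity
    exact mul_left_cancel₀ h2 h1

section vv
variable {p : ℕ} [hp : Fact p.Prime]

lemma coeff_VV (n : ℕ) (f : ℚ⟦X⟧) :
    coeff n (VV p f) = if p ∣ n then coeff (n / p) f else 0 := by
  unfold VV
  rw [PowerSeries.coeff_expand]
lemma coeff_VV_mul (n : ℕ) (f : ℚ⟦X⟧) : coeff (p * n) (VV p f) = coeff n f := by
  rw [coeff_VV, if_pos (dvd_mul_right p n), Nat.mul_div_cancel_left n hp.out.pos]
lemma constantCoeff_VV (f : ℚ⟦X⟧) : constantCoeff (VV p f) = constantCoeff f := by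
  have := coeff_VV_mul (p := p) 0 f
  simpa using this
lemma VV_add (f g : ℚ⟦X⟧) : VV p (f + g) = VV p f + VV p g := by
  unfold VV; exact map_add _ _ _
lemma VV_sub (f g : ℚ⟦X⟧) : VV p (f - g) = VV p f - VV p g := by
  unfold VV; exact map_sub _ _ _
lemma VV_neg (f : ℚ⟦X⟧) : VV p (-f) = -VV p f := by
  unfold VV; exact map_neg _ _
lemma VV_mul (f g : ℚ⟦X⟧) : VV p (f * g) = VV p f * VV p g := by
  unfold VV; exact map_mul _ _ _
lemma VV_pow (f : ℚ⟦X⟧) (n : ℕ) : VV p (f ^ n) = VV p f ^ n := by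
  unfold VV; exact map_pow _ _ _
lemma VV_C (x : ℚ) : VV p (C x) = C x := by
  ext n
  rw [coeff_VV, coeff_C, coeff_C]
  by_cases h : n = 0
  · subst h; simp
  · rw [if_neg h]
    split_ifs with h1 h2
    · exfalso
      obtain ⟨k, rfl⟩ := h1
      rw [Nat.mul_div_cancel_left k hp.out.pos] at h2
      subst h2
      exact h (mul_zero _)
    · rfl
    · rfl
lemma VV_one : VV p 1 = 1 := by
  unfold VV; exact map_one _
lemma VV_zero : VV p 0 = 0 := by
  unfold VV; exact map_zero _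
lemma VV_X : VV p X = X ^ p := by
  ext n
  rw [coeff_VV, coeff_X, coeff_X_pow]
  by_cases h : n = p
  · subst h
    rw [if_pos (dvd_refl _), Nat.div_self hp.out.pos, if_pos rfl, if_pos rfl]
  · rw [if_neg h]
    split_ifs with h1 h2
    · exfalso
      obtain ⟨k, rfl⟩ := h1
      rw [Nat.mul_div_cancel_left k hp.out.pos] at h2
      subst h2
      exact h (mul_one _)
    · rfl
    · rfl
lemma VV_smul (x : ℚ) (f : ℚ⟦X⟧) : VV p (x • f) = x • VV p f := by
  rw [smul_eq_C_mul, smul_eq_C_mul, VV_mul, VV_C]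
lemma VV_sum {ι : Type*} (s : Finset ι) (f : ι → ℚ⟦X⟧) :
    VV p (∑ i ∈ s, f i) = ∑ i ∈ s, VV p (f i) := by
  unfold VV; exact map_sum _ _ _
lemma VV_inv (f : ℚ⟦X⟧) (h : constantCoeff f ≠ 0) : VV p f⁻¹ = (VV p f)⁻¹ := by
  have h1 : constantCoeff (VV p f) ≠ 0 := by rw [constantCoeff_VV]; exact h
  rw [PowerSeries.eq_inv_iff_mul_eq_one h1, ← VV_mul, PowerSeries.inv_mul_cancel f h, VV_one]
lemma th_VV (f : ℚ⟦X⟧) : th (VV p f) = C (p : ℚ) * VV p (th f) := by
  ext n
  rw [coeff_th, coeff_VV, coeff_C_mul, coeff_VV]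
  split_ifs with h
  · obtain ⟨k, rfl⟩ := h
    rw [Nat.mul_div_cancel_left k hp.out.pos, coeff_th]
    push_cast
    ring
  · simp

lemma TDv.VV {k N : ℕ} {f : ℚ⟦X⟧} (hf : TDv p k N f) : TDv p k (p * N) (VV p f) := by
  intro n hn
  rw [coeff_VV]
  split_ifs with h
  · exact hf _ (Nat.div_lt_of_lt_mul hn)
  · exact Dv.zero
lemma SDv.VV {k : ℕ} {f : ℚ⟦X⟧} (hf : SDv p k f) : SDv p k (KPInt.VV p f) := by
  intro n
  rw [coeff_VV]
  split_ifs with h
  · exact hf _
  · exact Dv.zero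
lemma TEq.VV {N : ℕ} {f g : ℚ⟦X⟧} (h : TEq N f g) : TEq (p * N) (VV p f) (VV p g) := by
  intro n hn
  rw [coeff_VV, coeff_VV]
  split_ifs with h1
  · exact h _ (Nat.div_lt_of_lt_mul hn)
  · rfl

private lemma ops_pow_sub {c : ℚ} (hc : Dv p 0 c) : Dv p 1 (c ^ p - c) := by
  obtain ⟨a, b, hb, h⟩ := hc
  have hp1 := hp.out
  have hb' : ¬ p ∣ b := by
    intro hd
    have h1 := Nat.Coprime.eq_one_of_dvd (Nat.Coprime.symm hb) hd
    exact hp1.one_lt.ne' h1
  have hb0 : b ≠ 0 := by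
    rintro rfl
    exact hb' (dvd_zero p)
  have h2 : c * b = a := by simpa using h
  have h3 : (p : ℤ) ∣ a ^ p - a * (b : ℤ) ^ (p - 1) := by
    rw [← ZMod.intCast_zmod_eq_zero_iff_dvd]
    push_cast
    rw [ZMod.pow_card]
    have h4 : ((b : ZMod p)) ≠ 0 := by
      intro h5
      exact hb' ((ZMod.natCast_eq_zero_iff _ _).mp h5)
    rw [ZMod.pow_card_sub_one_eq_one h4]
    ring
  obtain ⟨e, he⟩ := h3
  refine ⟨e, b ^ p, Nat.Coprime.pow_left _ hb, ?_⟩
  have he' : (a : ℚ) ^ p - a * (b : ℚ) ^ (p - 1) = (p : ℚ) * e := by exact_mod_cast he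
  push_cast
  rw [pow_one, ← he', ← h2, mul_pow]
  have h6 : (b : ℚ) ^ p = (b : ℚ) * (b : ℚ) ^ (p - 1) := by
    rw [← pow_succ']
    congr 1
    have := hp1.one_lt
    omega
  rw [h6]
  ring

private lemma ops_add_pow {N : ℕ} {A B : ℚ⟦X⟧} (hA : TDv p 0 N A) (hB : TDv p 0 N B) :
    TDv p 1 N ((A + B) ^ p - (A ^ p + B ^ p)) := by
  have hp1 := hp.out
  have h1 : (A + B) ^ p - (A ^ p + B ^ p) =
      ∑ k ∈ Finset.Ioo 0 p, A ^ k * B ^ (p - k) * ((p.choose k : ℕ) : ℚ⟦X⟧) := by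
    have h2 : (A + B) ^ p = ∑ k ∈ Finset.range (p + 1),
        A ^ k * B ^ (p - k) * ((p.choose k : ℕ) : ℚ⟦X⟧) := add_pow A B p
    rw [h2, Finset.sum_range_succ, Finset.range_eq_Ico,
      Finset.sum_eq_sum_Ico_succ_bot hp1.pos]
    have h3 : Finset.Ico (0 + 1) p = Finset.Ioo 0 p := by
      ext x; simp only [Finset.mem_Ico, Finset.mem_Ioo]; omega
    rw [h3]
    simp only [pow_zero, Nat.sub_zero, Nat.choose_zero_right, Nat.cast_one, mul_one, one_mul,
      Nat.sub_self, Nat.choose_self]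
    ring
  rw [h1]
  apply TDv.sum
  intro k hk
  rw [Finset.mem_Ioo] at hk
  have hd : p ∣ p.choose k := hp1.dvd_choose_self (by omega) hk.2
  obtain ⟨e, he⟩ := hd
  have h4 : ((p.choose k : ℕ) : ℚ⟦X⟧) = C ((p : ℚ) * e) := by
    rw [he]
    push_cast
    rw [map_mul]
    simp
  rw [h4]
  exact ((hA.pow0 k).mul_left (hB.pow0 (p - k))).mul_left
    (TDv.C (Dv.p_self.mul_right (Dv.nat e)))

private lemma ops_frob_poly {N : ℕ} (c : ℕ → ℚ) (hc : ∀ i, i < N → Dv p 0 (c i)) (M : ℕ)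
    (hM : M ≤ N) :
    TDv p 1 N ((∑ i ∈ Finset.range M, C (c i) * X ^ i) ^ p -
      KPInt.VV p (∑ i ∈ Finset.range M, C (c i) * X ^ i)) := by
  have hp1 := hp.out
  induction M with
  | zero =>
    simp only [Finset.range_zero, Finset.sum_empty]
    rw [VV_zero, zero_pow hp1.ne_zero, sub_zero]
    exact TDv.zero
  | succ M ih =>
    have ih' := ih (by omega)
    rw [Finset.sum_range_succ]
    set A : ℚ⟦X⟧ := ∑ i ∈ Finset.range M, C (c i) * X ^ i with hA
    have hcM := hc M (by omega)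
    have hA0 : TDv p 0 N A := by
      rw [hA]
      apply TDv.sum
      intro i hi
      rw [Finset.mem_range] at hi
      exact (TDv.C (hc i (by omega))).mul_left (TDv.X.pow0 i)
    have hB0 : TDv p 0 N (C (c M) * X ^ M : ℚ⟦X⟧) :=
      (TDv.C hcM).mul_left (TDv.X.pow0 M)
    have h1 := ops_add_pow (p := p) hA0 hB0
    have h2 : TDv p 1 N ((C (c M) * X ^ M : ℚ⟦X⟧) ^ p - KPInt.VV p (C (c M) * X ^ M)) := by
      have h3 : (C (c M) * X ^ M : ℚ⟦X⟧) ^ p - KPInt.VV p (C (c M) * X ^ M) =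
          C (c M ^ p - c M) * (X ^ p) ^ M := by
        rw [VV_mul, VV_C, VV_pow, VV_X, mul_pow, ← map_pow, map_sub]
        ring
      rw [h3]
      exact (TDv.C (ops_pow_sub hcM)).mul_right ((TDv.X.pow0 p).pow0 M)
    have h4 : (A + C (c M) * X ^ M) ^ p - KPInt.VV p (A + C (c M) * X ^ M) =
        ((A + C (c M) * X ^ M) ^ p - (A ^ p + (C (c M) * X ^ M) ^ p)) +
        (A ^ p - KPInt.VV p A) + ((C (c M) * X ^ M : ℚ⟦X⟧) ^ p - KPInt.VV p (C (c M) * X ^ M)) := by
      rw [VV_add]; ring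
    rw [h4]
    exact (h1.add ih').add h2

private lemma ops_TEq_pow {N : ℕ} {f g : ℚ⟦X⟧} (h : TEq N f g) (n : ℕ) :
    TEq N (f ^ n) (g ^ n) := by
  induction n with
  | zero => simpa using TEq.refl 1
  | succ n ih => rw [pow_succ, pow_succ]; exact ih.mul h

private lemma ops_TEq_VV {N : ℕ} {f g : ℚ⟦X⟧} (h : TEq N f g) :
    TEq N (KPInt.VV p f) (KPInt.VV p g) := by
  intro n hn
  refine TEq.VV h n ?_
  have := hp.out.pos
  nlinarith

/-- Frobenius congruence -/
theorem TDv.frob {N : ℕ} {f : ℚ⟦X⟧} (hf : TDv p 0 N f) :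
    TDv p 1 N (f ^ p - KPInt.VV p f) := by
  have h1 := ops_frob_poly (p := p) (N := N) (fun i => coeff i f) hf N le_rfl
  have h2 : TEq N (∑ i ∈ Finset.range N, PowerSeries.C (coeff i f) * PowerSeries.X ^ i : ℚ⟦X⟧) f := by
    intro n hn
    rw [map_sum]
    rw [Finset.sum_eq_single n]
    · rw [coeff_C_mul, coeff_X_pow, if_pos rfl, mul_one]
    · intro b _ hbn
      rw [coeff_C_mul, coeff_X_pow, if_neg (Ne.symm hbn), mul_zero]
    · intro h; exact absurd (Finset.mem_range.mpr hn) h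
  exact h1.congr ((ops_TEq_pow h2 p).sub (ops_TEq_VV h2))
theorem SDv.frob {f : ℚ⟦X⟧} (hf : SDv p 0 f) : SDv p 1 (f ^ p - KPInt.VV p f) :=
  SDv.of fun N => (hf.t N).frob
end vv

lemma TDv.th {p k N : ℕ} {f : ℚ⟦X⟧} (hf : TDv p k N f) : TDv p k N (th f) := by
  intro n hn
  rw [coeff_th]
  exact (Dv.nat n).mul_left (hf n hn)
lemma SDv.th {p k : ℕ} {f : ℚ⟦X⟧} (hf : SDv p k f) : SDv p k (KPInt.th f) := by
  intro n
  rw [coeff_th]
  exact (Dv.nat n).mul_left (hf n)
lemma TEq.th {N : ℕ} {f g : ℚ⟦X⟧} (h : TEq N f g) : TEq N (KPInt.th f) (KPInt.th g) := by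
  intro n hn
  rw [coeff_th, coeff_th, h n hn]

/-- a series congruent to 0 below `N` in the sense of `TEq` -/
lemma TEq.of_mul_left {N : ℕ} {u f g : ℚ⟦X⟧} (hu : constantCoeff u ≠ 0)
    (h : TEq N (u * f) (u * g)) : TEq N f g := by
  have h1 : TEq N (u⁻¹ * (u * f)) (u⁻¹ * (u * g)) := (TEq.refl _).mul h
  rwa [← mul_assoc, ← mul_assoc, PowerSeries.inv_mul_cancel u hu, one_mul, one_mul] at h1

end KPInt
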