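import Pool.Agent.Lib.KPInt.CritDefs
import Pool.Agent.Lib.KPInt.Crit2
import Pool.Agent.Lib.KPInt.Ops

/-!
# Crit: the genus-one criterion in terms of power series in `q`
-/

set_option autoImplicit false

namespace KPInt

open PowerSeries MPa4e0fb

lemma coeff_Bq (κ c2 : ℚ) (nu : ℕ → ℚ) (d : ℕ) : coeff d (Bq κ c2 nu) =
    κ * (c2 * ∑ a ∈ d.divisors, nu a -
      ∑ x ∈ Finset.HasAntidiagonal.antidiagonal d, (∑ a ∈ x.1.divisors, nu a) * (∑ a ∈ x.2.divisors, nu a)) := by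
  rw [Bq, coeff_C_mul, map_sub, coeff_C_mul, Nq, coeff_mk, pow_two, coeff_mul]
  simp only [coeff_mk]

lemma SDv_Nq {p : ℕ} {nu : ℕ → ℚ} (h : ∀ d, Dv p 0 (nu d)) : SDv p 0 (Nq nu) := by
  intro n
  rw [Nq, coeff_mk]
  exact Dv.sum _ _ fun i _ => h i

lemma SDv_Bq {p : ℕ} {κ c2 : ℚ} {nu : ℕ → ℚ} (hκ : Dv p 0 κ) (hc : Dv p 0 c2)
    (h : ∀ d, Dv p 0 (nu d)) : SDv p 0 (Bq κ c2 nu) :=
  (SDv.C hκ).mul_left (((SDv.C hc).mul_left (SDv_Nq h)).sub ((SDv_Nq h).pow0 2))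

/-- **The criterion.** -/
theorem criterion (κ c2 : ℤ) (hκ : κ ≠ 0) (nu : ℕ → ℚ) (hnuZ : ∀ d, 0 < d → ∃ z : ℤ, nu d = z)
    (n0 n1 : ℤ → ℚ) (m : ℤ → ℤ → ℚ) (GW1 : ℕ → ℚ)
    (hn0 : ∀ d : ℤ, d ≤ 0 → n0 d = 0)
    (hnu : ∀ d : ℕ, 0 < d → n0 (d : ℤ) = κ * nu d)
    (hm : IsMeeting (AddMonoidHom.id ℤ) (fun d => c2 * n0 d) (fun a b => n0 a * n0 b / κ) m)
    (hn1 : IsGenusOne {d : ℤ | 0 < d} (fun d => GW1 d.toNat) (fun d => c2 * n0 d) m n1)
    (W : ℚ⟦X⟧) (hW : ∀ d, 0 < d → coeff d W = 24 * GW1 d)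
    (h5 : ∀ (p : ℕ) [Fact p.Prime], 5 ≤ p → SDv p 1 (C (p : ℚ) * W - VV p W))
    (h3 : SDv 3 1 (W - C (1 / 3) * VV 3 W + Bq κ c2 nu))
    (h2 : SDv 2 3 (W - C (1 / 2) * VV 2 W + Bq κ c2 nu - C 2 * VV 2 (Bq κ c2 nu))) :
    ∀ d : ℤ, 0 < d → ∃ z : ℤ, n1 d = z := by
  -- replace `nu 0` by `0`
  have hdiv : ∀ n : ℕ, ∑ a ∈ n.divisors, nu a =
      ∑ a ∈ n.divisors, (fun d => if 0 < d then nu d else 0) a := by
    intro n
    apply Finset.sum_congr rfl
    intro a ha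
    simp only [if_pos (Nat.pos_of_mem_divisors ha)]
  set nu' : ℕ → ℚ := fun d => if 0 < d then nu d else 0 with hnu'
  have hNq : Nq nu = Nq nu' := by
    ext n
    rw [Nq, coeff_mk, Nq, coeff_mk, hdiv]
  have hBq : Bq κ c2 nu = Bq κ c2 nu' := by rw [Bq, Bq, hNq]
  rw [hBq] at h3 h2
  have hnuD : ∀ (p : ℕ) (d : ℕ), Dv p 0 (nu' d) := by
    intro p d
    simp only [hnu']
    split_ifs with h
    · obtain ⟨z, hz⟩ := hnuZ d h
      rw [hz]; exact Dv.int z
    · exact Dv.zero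
  have hBD : ∀ p : ℕ, SDv p 0 (Bq (κ : ℚ) c2 nu') := fun p =>
    SDv_Bq (Dv.int κ) (Dv.int c2) (hnuD p)
  have hκ' : (κ : ℚ) ≠ 0 := by exact_mod_cast hκ
  refine crit_all (κ : ℚ) c2 hκ' nu' (fun d => 24 * GW1 d) (fun d => coeff d (Bq κ c2 nu')) n0 n1 m
    hn0 ?_ hm ?_ (fun d => coeff_Bq κ c2 nu' d) (fun p _ d => hBD p d) ?_
  · intro d hd
    rw [hnu d hd]
    simp only [hnu', if_pos hd]
  · have e : (fun d : ℤ => 24 * GW1 d.toNat / 24) = fun d : ℤ => GW1 d.toNat := by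
      funext d; ring
    rw [e]; exact hn1
  · intro p hp d hd
    -- the common series
    have key : SDv p (ee p + 1) (C (p : ℚ) * W - VV p W +
        C (p : ℚ) * Bq κ c2 nu' - C ((p : ℚ) ^ 2) * VV p (Bq κ c2 nu')) := by
      have hpp : SDv p 1 (C (p : ℚ)) := SDv.C Dv.p_self
      by_cases h2p : p = 2
      · subst h2p
        have h := hpp.mul h2
        have e1 : C ((2 : ℕ) : ℚ) * (W - C (1 / 2) * VV 2 W + Bq (κ : ℚ) c2 nu' -
            C 2 * VV 2 (Bq κ c2 nu')) = C ((2 : ℕ) : ℚ) * W - VV 2 W +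
            C ((2 : ℕ) : ℚ) * Bq κ c2 nu' - C (((2 : ℕ) : ℚ) ^ 2) * VV 2 (Bq κ c2 nu') := by
          have a1 : C ((2 : ℕ) : ℚ) * C (1 / 2) = (1 : ℚ⟦X⟧) := by
            rw [← map_mul]; norm_num
          have a2 : (C (((2 : ℕ) : ℚ) ^ 2) : ℚ⟦X⟧) = C ((2 : ℕ) : ℚ) * C 2 := by
            rw [← map_mul]; norm_num
          rw [a2]
          linear_combination (-VV 2 W) * a1
        rw [e1] at h
        exact h.mono (by simp [ee])
      · by_cases h3p : p = 3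
        · subst h3p
          have h := hpp.mul h3
          have hb := (hpp.mul hpp).mul_right ((hBD 3).VV)
          have e1 : C ((3 : ℕ) : ℚ) * (W - C (1 / 3) * VV 3 W + Bq (κ : ℚ) c2 nu') -
              C ((3 : ℕ) : ℚ) * C ((3 : ℕ) : ℚ) * VV 3 (Bq κ c2 nu') =
              C ((3 : ℕ) : ℚ) * W - VV 3 W +
              C ((3 : ℕ) : ℚ) * Bq κ c2 nu' - C (((3 : ℕ) : ℚ) ^ 2) * VV 3 (Bq κ c2 nu') := by
            have a1 : C ((3 : ℕ) : ℚ) * C (1 / 3) = (1 : ℚ⟦X⟧) := by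
              rw [← map_mul]; norm_num
            have a2 : (C (((3 : ℕ) : ℚ) ^ 2) : ℚ⟦X⟧) = C ((3 : ℕ) : ℚ) * C ((3 : ℕ) : ℚ) := by
              rw [← map_mul]; norm_num
            rw [a2]
            linear_combination (-VV 3 W) * a1
          have := h.sub hb
          rw [e1] at this
          exact this.mono (by simp [ee])
        · have hp5 : 5 ≤ p := by
            have := hp.out.two_le
            rcases Nat.lt_or_ge p 5 with h | h
            · interval_cases p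
              · exact absurd rfl h2p
              · exact absurd rfl h3p
              · exact absurd hp.out (by decide)
            · exact h
          have h := h5 p hp5
          have hb1 := hpp.mul_right (hBD p)
          have hb2 := ((hpp.mul hpp).mul_right ((hBD p).VV)).mono (show 1 ≤ 1 + 1 by norm_num)
          have e0 : ee p = 0 := by simp [ee, h2p, h3p]
          rw [e0]
          have e1 : C (p : ℚ) * W - VV p W + C (p : ℚ) * Bq (κ : ℚ) c2 nu' -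
              C ((p : ℚ) ^ 2) * VV p (Bq κ c2 nu') = (C (p : ℚ) * W - VV p W) +
              C (p : ℚ) * Bq κ c2 nu' - C (p : ℚ) * C (p : ℚ) * VV p (Bq κ c2 nu') := by
            have a2 : (C ((p : ℚ) ^ 2) : ℚ⟦X⟧) = C (p : ℚ) * C (p : ℚ) := by
              rw [← map_mul]; ring_nf
            rw [a2]
          rw [e1]
          exact (h.add hb1).sub hb2
    have h := key d
    simp only [map_add, map_sub, coeff_C_mul, coeff_VV] at h
    have hWd := hW d hd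
    convert h using 1
    rw [hWd]
    congr 2
    · congr 1
      split_ifs with hpd
      · have hdp : 0 < d / p := Nat.div_pos (Nat.le_of_dvd hd hpd) hp.out.pos
        rw [hW _ hdp]
      · rfl

end KPInt
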