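import Pool.Agent.Lib.KPInt.Base

/-!
# Crit1: from the congruence for one prime to divisor sums
-/

set_option autoImplicit false

namespace KPInt

open Finset

variable {p : ℕ} [hp : Fact p.Prime]

/-- splitting of the divisors of `d` according to whether `p` divides the cofactor -/
lemma divisors_split {d : ℕ} (hd : 0 < d) (f : ℕ → ℕ → ℚ) :
    ∑ a ∈ d.divisors, f a (d / a) =
      (∑ a ∈ d.divisors.filter (fun a => ¬ p ∣ d / a), f a (d / a)) +
      (if p ∣ d then ∑ a ∈ (d / p).divisors, f a (p * (d / p / a)) else 0) := by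
  rw [← sum_filter_add_sum_filter_not d.divisors (fun a => ¬ p ∣ d / a)]
  congr 1
  have hp0 : 0 < p := hp.out.pos
  split_ifs with h
  · obtain ⟨e, rfl⟩ := h
    have he : 0 < e := by
      rcases Nat.eq_zero_or_pos e with h0 | h0
      · rw [h0, mul_zero] at hd; exact absurd hd (lt_irrefl 0)
      · exact h0
    rw [Nat.mul_div_cancel_left e hp0]
    apply sum_congr
    · ext a
      simp only [mem_filter, Nat.mem_divisors, not_not]
      constructor
      · rintro ⟨⟨ha, _⟩, hpa⟩
        obtain ⟨b, hb⟩ := ha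
        have ha0 : 0 < a := by
          rcases Nat.eq_zero_or_pos a with h0 | h0
          · rw [h0, zero_mul] at hb; omega
          · exact h0
        rw [hb, Nat.mul_div_cancel_left b ha0] at hpa
        obtain ⟨c, hc⟩ := hpa
        refine ⟨⟨c, ?_⟩, by omega⟩
        apply Nat.eq_of_mul_eq_mul_left hp0
        rw [hb, hc]; ring
      · rintro ⟨⟨c, hc⟩, _⟩
        have ha0 : 0 < a := by
          rcases Nat.eq_zero_or_pos a with h0 | h0
          · rw [h0, zero_mul] at hc; omega
          · exact h0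
        refine ⟨⟨⟨p * c, by rw [hc]; ring⟩, by positivity⟩, ?_⟩
        rw [hc, show p * (a * c) = a * (p * c) by ring, Nat.mul_div_cancel_left _ ha0]
        exact dvd_mul_right p c
    · intro a ha
      have ha1 := (Nat.mem_divisors.mp ha).1
      have ha0 := Nat.pos_of_mem_divisors ha
      obtain ⟨c, hc⟩ := ha1
      rw [hc, show p * (a * c) = a * (p * c) by ring, Nat.mul_div_cancel_left _ ha0,
        Nat.mul_div_cancel_left _ ha0]
  · apply sum_eq_zero
    intro a ha
    rw [mem_filter, not_not] at ha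
    exfalso
    apply h
    exact (ha.2).trans (Nat.div_dvd_of_dvd (Nat.dvd_of_mem_divisors ha.1))

theorem crit_p {e : ℕ} (he : ∀ k : ℕ, ¬ p ∣ k → Dv p e ((k : ℚ) ^ 2 - 1))
    (h b y : ℕ → ℚ)
    (hy : ∀ d, 0 < d → y d = ∑ a ∈ d.divisors, h a / ((d / a : ℕ) : ℚ))
    (hb : ∀ d, Dv p 0 (b d))
    (hT : ∀ d, 0 < d → Dv p (e + 1) ((p : ℚ) * y d - (if p ∣ d then y (d / p) else 0) +
      (p : ℚ) * b d - (p : ℚ) ^ 2 * (if p ∣ d then b (d / p) else 0))) :
    ∀ d, 0 < d → Dv p e ((∑ a ∈ d.divisors, ((d / a : ℕ) : ℚ) * h a) + b d) := by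
  have hp0 : (p : ℚ) ≠ 0 := by exact_mod_cast hp.out.ne_zero
  have hpos : 0 < p := hp.out.pos
  set F1 : ℕ → ℚ := fun d => ∑ a ∈ d.divisors.filter (fun a => ¬ p ∣ d / a),
    h a / ((d / a : ℕ) : ℚ) with hF1
  set F2 : ℕ → ℚ := fun d => ∑ a ∈ d.divisors.filter (fun a => ¬ p ∣ d / a),
    ((d / a : ℕ) : ℚ) * h a with hF2
  set S : ℕ → ℚ := fun d => ∑ a ∈ d.divisors, ((d / a : ℕ) : ℚ) * h a with hS
  -- step 1
  have e1 : ∀ d, 0 < d → (p : ℚ) * y d - (if p ∣ d then y (d / p) else 0) = p * F1 d := by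
    intro d hd
    rw [hy d hd, divisors_split (p := p) hd (fun a k => h a / (k : ℚ))]
    split_ifs with hpd
    · have hdp : 0 < d / p := Nat.div_pos (Nat.le_of_dvd hd hpd) hpos
      rw [hy _ hdp, mul_add, mul_sum (s := (d / p).divisors)]
      have : ∑ a ∈ (d / p).divisors, (p : ℚ) * (h a / ((p * (d / p / a) : ℕ) : ℚ)) =
          ∑ a ∈ (d / p).divisors, h a / ((d / p / a : ℕ) : ℚ) := by
        apply sum_congr rfl
        intro a _
        push_cast
        rw [← mul_div_assoc, mul_div_mul_left _ _ hp0]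
      rw [this]
      ring
    · simp only [hF1]; ring
  have e2 : ∀ d, 0 < d → S d = F2 d + (p : ℚ) * (if p ∣ d then S (d / p) else 0) := by
    intro d hd
    simp only [hS]
    rw [divisors_split (p := p) hd (fun a k => (k : ℚ) * h a)]
    congr 1
    split_ifs with hpd
    · rw [mul_sum]
      apply sum_congr rfl
      intro a _
      push_cast
      ring
    · rw [mul_zero]
  -- step 2
  have e3 : ∀ d, 0 < d → Dv p e (F1 d + b d - (p : ℚ) * (if p ∣ d then b (d / p) else 0)) := by
    intro d hd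
    have h1 := hT d hd
    rw [e1 d hd] at h1
    apply Dv.of_p_mul
    convert h1 using 1
    ring
  have hbi : ∀ d, Dv p 0 ((if p ∣ d then b (d / p) else 0)) := by
    intro d
    split_ifs
    · exact hb _
    · exact Dv.zero
  have e4 : ∀ d, 0 < d → Dv p 0 (F1 d) := by
    intro d hd
    have h1 := (e3 d hd).mono (Nat.zero_le e)
    have h2 := (h1.sub (hb d)).add (((Dv.nat p).mul (hbi d)).mono (Nat.zero_le _))
    convert h2 using 1
    ring
  have hki : ∀ k : ℕ, ¬ p ∣ k → Dv p 0 ((k : ℚ)⁻¹) := fun k hk =>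
    Dv.inv_nat ((Nat.Prime.coprime_iff_not_dvd hp.out).mpr hk).symm
  -- step 3
  have e5 : ∀ d, 0 < d → Dv p 0 (h d) := by
    intro d
    induction d using Nat.strong_induction_on with
    | _ d ih =>
      intro hd
      have hmem : d ∈ d.divisors.filter (fun a => ¬ p ∣ d / a) := by
        rw [mem_filter]
        refine ⟨Nat.mem_divisors_self d hd.ne', ?_⟩
        rw [Nat.div_self hd]
        exact fun h => hp.out.one_lt.ne' (Nat.dvd_one.mp h)
      have h1 : h d = F1 d - ∑ a ∈ (d.divisors.filter (fun a => ¬ p ∣ d / a)).erase d,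
          h a / ((d / a : ℕ) : ℚ) := by
        rw [hF1]
        simp only
        rw [← add_sum_erase _ _ hmem, Nat.div_self hd]
        push_cast
        ring
      rw [h1]
      apply (e4 d hd).sub
      apply Dv.sum
      intro a ha
      rw [mem_erase, mem_filter] at ha
      have ha1 := Nat.dvd_of_mem_divisors ha.2.1
      have ha2 := Nat.le_of_dvd hd ha1
      rw [div_eq_mul_inv]
      exact (ih a (lt_of_le_of_ne ha2 ha.1) (Nat.pos_of_mem_divisors ha.2.1)).mul_left
        (hki _ ha.2.2)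
  -- step 4
  have e6 : ∀ d, 0 < d → Dv p e (F2 d - F1 d) := by
    intro d hd
    simp only [hF1, hF2]
    rw [← sum_sub_distrib]
    apply Dv.sum
    intro a ha
    rw [mem_filter] at ha
    have hk0 : ((d / a : ℕ) : ℚ) ≠ 0 := by
      have : 0 < d / a := Nat.div_pos (Nat.le_of_dvd hd (Nat.dvd_of_mem_divisors ha.1))
        (Nat.pos_of_mem_divisors ha.1)
      positivity
    have h1 : ((d / a : ℕ) : ℚ) * h a - h a / ((d / a : ℕ) : ℚ) =
        (h a * ((d / a : ℕ) : ℚ)⁻¹) * (((d / a : ℕ) : ℚ) ^ 2 - 1) := by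
      field_simp
    rw [h1]
    exact ((e5 a (Nat.pos_of_mem_divisors ha.1)).mul_left (hki _ ha.2)).mul_left (he _ ha.2)
  -- step 5
  intro d
  induction d using Nat.strong_induction_on with
  | _ d ih =>
    intro hd
    have h1 : (∑ a ∈ d.divisors, ((d / a : ℕ) : ℚ) * h a) + b d =
        (F1 d + b d - (p : ℚ) * (if p ∣ d then b (d / p) else 0)) + (F2 d - F1 d) +
        (p : ℚ) * (if p ∣ d then S (d / p) + b (d / p) else 0) := by
      have h2 := e2 d hd
      simp only [hS] at h2 ⊢
      rw [h2]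
      split_ifs <;> ring
    rw [h1]
    apply ((e3 d hd).add (e6 d hd)).add
    split_ifs with hpd
    · have hdp : 0 < d / p := Nat.div_pos (Nat.le_of_dvd hd hpd) hpos
      have hlt : d / p < d := Nat.div_lt_self hd hp.out.one_lt
      exact (Dv.nat p).mul_left (ih _ hlt hdp)
    · rw [mul_zero]; exact Dv.zero

end KPInt
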