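import Pool.Agent.Lib.KPInt.Defs

/-!
# CritDefs: the series on the `q` side used in the genus-one criterion
-/

set_option autoImplicit false

namespace KPInt

open PowerSeries

/-- `N(q) = ∑_n (∑_{d ∣ n} ν_d) q^n = ∑_d ν_d q^d / (1 - q^d)` -/
noncomputable def Nq (nu : ℕ → ℚ) : ℚ⟦X⟧ := mk fun n => ∑ d ∈ n.divisors, nu d

/-- `κ (c₂ N - N²)` -/
noncomputable def Bq (κ c2 : ℚ) (nu : ℕ → ℚ) : ℚ⟦X⟧ := C κ * (C c2 * Nq nu - Nq nu ^ 2)

end KPInt
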