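import Pool.Agent.Lib.KPInt.Base

/-!
# Hypergeometric series of a Calabi-Yau complete intersection of degrees `a` in projective space

`Bj a n` is the coefficient of `z^n` of Givental's hypergeometric series
`∑ z^n ∏_i ∏_{j=1}^{a_i n} (a_i ε + j) / ∏_{j=1}^n (ε + j)^N`, `N = ∑ a_i`, a power series in `ε`.
All other objects are defined for an arbitrary sequence `B : ℕ → ℚ⟦X⟧` of power series in `ε`.
-/

open PowerSeries

namespace KPInt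

/-- the coefficient of `z^n` in Givental's hypergeometric series, a power series in `ε = X` -/
noncomputable def Bj (a : List ℕ) (n : ℕ) : ℚ⟦X⟧ :=
  (a.map fun k => ∏ j ∈ Finset.range (k * n), (C (k : ℚ) * X + C ((j : ℚ) + 1))).prod *
    ((∏ j ∈ Finset.range n, (X + C ((j : ℚ) + 1))) ^ a.sum)⁻¹

/-- the coefficient of `ε^i`, a power series in `z = X` -/
noncomputable def Lj (B : ℕ → ℚ⟦X⟧) (i : ℕ) : ℚ⟦X⟧ := mk fun n => coeff i (B n)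

/-- `θ = X d/dX` -/
noncomputable def th (f : ℚ⟦X⟧) : ℚ⟦X⟧ := X * derivative ℚ f

/-- `g = L₁ / L₀`, so that `log q = log z + g(z)` -/
noncomputable def gg (B : ℕ → ℚ⟦X⟧) : ℚ⟦X⟧ := Lj B 1 * (Lj B 0)⁻¹

/-- `G = L₂ / L₀ - g² / 2` -/
noncomputable def GG (B : ℕ → ℚ⟦X⟧) : ℚ⟦X⟧ := Lj B 2 * (Lj B 0)⁻¹ - C (1 / 2) * gg B ^ 2

/-- `I₁ = 1 + θ g = θ log q` -/
noncomputable def I1 (B : ℕ → ℚ⟦X⟧) : ℚ⟦X⟧ := 1 + th (gg B)

/-- `θ_q = I₁⁻¹ θ`, the derivation `q d/dq` on power series in `z` -/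
noncomputable def tq (B : ℕ → ℚ⟦X⟧) (f : ℚ⟦X⟧) : ℚ⟦X⟧ := th f * (I1 B)⁻¹

/-- `K = 1 + θ_q² G` -/
noncomputable def KK (B : ℕ → ℚ⟦X⟧) : ℚ⟦X⟧ := 1 + tq B (tq B (GG B))

/-- composition of formal power series: `sb Q f = f(Q(z))` -/
noncomputable def sb (Q f : ℚ⟦X⟧) : ℚ⟦X⟧ := f.subst Q

/-- `exp(g)` for a power series `g` without constant term -/
noncomputable def ex (g : ℚ⟦X⟧) : ℚ⟦X⟧ := sb g (exp ℚ)

/-- the mirror map `q(z) = z exp(g(z))` -/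
noncomputable def qq (B : ℕ → ℚ⟦X⟧) : ℚ⟦X⟧ := X * ex (gg B)

/-- `f(q(z))` -/
noncomputable def Ph (B : ℕ → ℚ⟦X⟧) (f : ℚ⟦X⟧) : ℚ⟦X⟧ := sb (qq B) f

/-- `f(z^p)` -/
noncomputable def VV (p : ℕ) [hp : Fact p.Prime] (f : ℚ⟦X⟧) : ℚ⟦X⟧ :=
  expand p hp.out.ne_zero f

end KPInt
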