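import Pool.Agent.Lib.KPInt.Defs

/-!
# EExp: exponential of a power series over Q[x] with p-adic control

Power series in the variable `T` over the ring `ℚ[X]`, `tT = T d/dT`.

PROOFS.
* `tT_unique`: `w_0 = 0` (constant coefficient of `tT f = f w`), coefficient `n` of `tT f = f w` is
  `n f_n = ∑_{i<n} f_i w_{n-i}`, and `n` is invertible in `ℚ[X]` for `n ≥ 1`: strong induction.
* `tT_map`: apply a ring homomorphism `φ : ℚ[X] → ℚ[X]` coefficientwise.
* `exists_expT`: define `E = PowerSeries.mk (fun n => ∑_{k ≤ n} C(1/k!) * coeff n (lam^k))`. As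
  `lam` has no constant term, `coeff n (lam^k) = 0` for `k > n`; so for every `K ≥ n` the coefficient
  is the one of `∑_{k ≤ K} (1/k!) lam^k`, and `tT (lam^k) = k lam^(k-1) tT lam` gives
  `tT E = E * tT lam` coefficient by coefficient (telescoping: for the coefficient `n` use
  `K = n` on the right and `K = n+1` on the left). Constant coefficient 1, coefficient 1 is
  `coeff 1 lam`.
  (p-adic control) If `p^(j-1) lam_j` is `p`-integral for `j ≥ 1` then `p^(n-k) coeff n (lam^k)` is
  integral for all `k ≤ n` (induction on `k`: `coeff n (lam^(k+1)) = ∑_{i+j=n} lam_i coeff j (lam^k)`,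
  only `i ≥ 1`, `j ≥ k` contribute, `p^(n-k-1) = p^(i-1) p^(j-k)`). For `1 ≤ k ≤ n`,
  `p^(n-1)/k! = p^(n-k) * (p^(k-1)/k!)` and `p^(k-1)/k!` is `p`-integral
  (Legendre: `v_p(k!) ≤ k - 1` for `k ≥ 1`; Mathlib `sub_one_mul_padicValNat_factorial`, digit sum
  at least 1; in terms of `Dv` write `k! = p^v m`, `m` prime to `p`). The term `k = 0` vanishes for
  `n ≥ 1`.
  (divisibility) `X^3 ∣ lam_j` for all `j` gives `X^3 ∣ coeff n (lam^k)` for `k ≥ 1`.
-/

set_option autoImplicit false

namespace KPInt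

open Polynomial

/-- `T d/dT` on power series in `T` over `ℚ[X]` -/
noncomputable def tT (f : PowerSeries ℚ[X]) : PowerSeries ℚ[X] :=
  PowerSeries.X * PowerSeries.derivative ℚ[X] f

lemma coeff_tT (n : ℕ) (f : PowerSeries ℚ[X]) :
    PowerSeries.coeff n (tT f) = (n : ℚ[X]) * PowerSeries.coeff n f := by
  unfold tT
  cases n with
  | zero => simp
  | succ n =>
    rw [PowerSeries.coeff_succ_X_mul, PowerSeries.coeff_derivative]
    push_cast
    ring
lemma tT_add (f g : PowerSeries ℚ[X]) : tT (f + g) = tT f + tT g := by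
  unfold tT
  rw [map_add, mul_add]
lemma tT_mul (f g : PowerSeries ℚ[X]) : tT (f * g) = tT f * g + f * tT g := by
  have h : PowerSeries.derivative ℚ[X] (f * g) =
      f • PowerSeries.derivative ℚ[X] g + g • PowerSeries.derivative ℚ[X] f :=
    PowerSeries.derivativeFun_mul f g
  unfold tT
  rw [h, smul_eq_mul, smul_eq_mul]
  ring
lemma tT_C (c : ℚ[X]) : tT (PowerSeries.C c) = 0 := by
  ext1 n
  rw [coeff_tT, PowerSeries.coeff_C, map_zero]
  split_ifs with h
  · subst h; simp
  · simp

/-- if `tT f = f w` and `tT g = g v` then `tT (f g) = f g (w + v)` -/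
lemma tT_mul_of {f g w v : PowerSeries ℚ[X]} (hf : tT f = f * w) (hg : tT g = g * v) :
    tT (f * g) = (f * g) * (w + v) := by
  rw [tT_mul, hf, hg]; ring
lemma tT_pow_of {f w : PowerSeries ℚ[X]} (hf : tT f = f * w) (n : ℕ) :
    tT (f ^ n) = f ^ n * (PowerSeries.C (n : ℚ[X]) * w) := by
  induction n with
  | zero =>
    have h1 : tT (1 : PowerSeries ℚ[X]) = 0 := by
      have := tT_C 1
      rwa [map_one] at this
    simp [h1]
  | succ n ih =>
    rw [pow_succ, tT_mul_of ih hf]
    push_cast
    rw [map_add, map_one]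
    ring
lemma tT_prod_of {ι : Type*} (s : Finset ι) (f w : ι → PowerSeries ℚ[X])
    (h : ∀ i ∈ s, tT (f i) = f i * w i) : tT (∏ i ∈ s, f i) = (∏ i ∈ s, f i) * ∑ i ∈ s, w i := by
  classical
  induction s using Finset.induction_on with
  | empty =>
    have h1 : tT (1 : PowerSeries ℚ[X]) = 0 := by
      have := tT_C 1
      rwa [map_one] at this
    simp [h1]
  | insert a s ha ih =>
    rw [Finset.prod_insert ha, Finset.sum_insert ha]
    exact tT_mul_of (h a (Finset.mem_insert_self a s))
      (ih (fun i hi => h i (Finset.mem_insert_of_mem hi)))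

/-- `T d/dT (1 + c T) = (1 + c T) ∑_{j≥1} (-1)^(j+1) c^j T^j` -/
lemma tT_linear (c : ℚ[X]) : tT (1 + PowerSeries.C c * PowerSeries.X) =
    (1 + PowerSeries.C c * PowerSeries.X) *
      PowerSeries.mk (fun j => if j = 0 then 0 else (-1) ^ (j + 1) * c ^ j) := by
  ext1 n
  rw [coeff_tT, add_mul, one_mul, map_add, map_add, mul_assoc, PowerSeries.coeff_C_mul,
    PowerSeries.coeff_C_mul, PowerSeries.coeff_mk]
  rcases n with _ | _ | n
  · simp
  · rw [PowerSeries.coeff_succ_X_mul, PowerSeries.coeff_mk, PowerSeries.coeff_one]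
    simp
  · rw [PowerSeries.coeff_succ_X_mul, PowerSeries.coeff_mk, PowerSeries.coeff_one,
      PowerSeries.coeff_X]
    simp only [Nat.add_eq_zero_iff, one_ne_zero, and_false, if_false]
    have h2 : n + 1 + 1 ≠ 1 := by omega
    rw [if_neg h2]
    ring

lemma tT_unique {f h w : PowerSeries ℚ[X]} (hf : tT f = f * w) (hh : tT h = h * w)
    (f0 : PowerSeries.constantCoeff f = 1) (h0 : PowerSeries.constantCoeff h = 1) : f = h := by
  have w0 : PowerSeries.coeff 0 w = 0 := by
    have h1 := congrArg (PowerSeries.coeff 0) hf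
    rw [coeff_tT, PowerSeries.coeff_mul, Finset.HasAntidiagonal.antidiagonal_zero, Finset.sum_singleton] at h1
    have h2 : PowerSeries.coeff 0 f = 1 := by
      rw [PowerSeries.coeff_zero_eq_constantCoeff_apply]; exact f0
    rw [h2] at h1
    simpa using h1.symm
  have key : ∀ n, PowerSeries.coeff n f = PowerSeries.coeff n h := by
    intro n
    induction n using Nat.strong_induction_on with
    | _ n ih =>
      rcases Nat.eq_zero_or_pos n with h0' | hpos
      · subst h0'
        rw [PowerSeries.coeff_zero_eq_constantCoeff_apply,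
          PowerSeries.coeff_zero_eq_constantCoeff_apply, f0, h0]
      · have e1 := congrArg (PowerSeries.coeff n) hf
        have e2 := congrArg (PowerSeries.coeff n) hh
        rw [coeff_tT, PowerSeries.coeff_mul] at e1 e2
        have e3 : ∑ x ∈ Finset.HasAntidiagonal.antidiagonal n, PowerSeries.coeff x.1 f * PowerSeries.coeff x.2 w
            = ∑ x ∈ Finset.HasAntidiagonal.antidiagonal n, PowerSeries.coeff x.1 h * PowerSeries.coeff x.2 w := by
          apply Finset.sum_congr rfl
          intro x hx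
          rw [Finset.HasAntidiagonal.mem_antidiagonal] at hx
          rcases Nat.eq_zero_or_pos x.2 with hx2 | hx2
          · rw [hx2, w0, mul_zero, mul_zero]
          · rw [ih x.1 (by omega)]
        have hn : (n : ℚ[X]) ≠ 0 := by exact_mod_cast hpos.ne'
        apply mul_left_cancel₀ hn
        rw [e1, e2, e3]
  ext1 n
  exact key n

lemma tT_map (φ : ℚ[X] →+* ℚ[X]) (f : PowerSeries ℚ[X]) :
    tT (PowerSeries.map φ f) = PowerSeries.map φ (tT f) := by
  ext1 n
  rw [coeff_tT, PowerSeries.coeff_map, PowerSeries.coeff_map, coeff_tT, map_mul, map_natCast]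

/-- partial sums of the exponential series -/
private noncomputable def eexpS (lam : PowerSeries ℚ[X]) (K : ℕ) : PowerSeries ℚ[X] :=
  ∑ k ∈ Finset.range (K + 1), PowerSeries.C (C (1 / (k.factorial : ℚ))) * lam ^ k

private lemma eexp_pow_coeff {lam : PowerSeries ℚ[X]} (h0 : PowerSeries.constantCoeff lam = 0)
    {n k : ℕ} (h : n < k) : PowerSeries.coeff n (lam ^ k) = 0 := by
  have h1 : PowerSeries.X ∣ lam := PowerSeries.X_dvd_iff.mpr h0
  exact PowerSeries.X_pow_dvd_iff.mp (pow_dvd_pow_of_dvd h1 k) n h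

private lemma eexpS_stable {lam : PowerSeries ℚ[X]} (h0 : PowerSeries.constantCoeff lam = 0)
    {n K : ℕ} (h : n ≤ K) :
    PowerSeries.coeff n (eexpS lam K) = PowerSeries.coeff n (eexpS lam n) := by
  induction K, h using Nat.le_induction with
  | base => rfl
  | succ K hK ih =>
    have h1 : eexpS lam (K + 1) = eexpS lam K +
        PowerSeries.C (C (1 / ((K + 1).factorial : ℚ))) * lam ^ (K + 1) := by
      unfold eexpS
      rw [Finset.sum_range_succ]
    rw [h1, map_add, ih, PowerSeries.coeff_C_mul, eexp_pow_coeff h0 (by omega), mul_zero,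
      add_zero]

private lemma eexp_tT_pow (lam : PowerSeries ℚ[X]) (k : ℕ) :
    tT (lam ^ (k + 1)) = PowerSeries.C ((k : ℚ[X]) + 1) * lam ^ k * tT lam := by
  induction k with
  | zero => simp
  | succ k ih =>
    rw [pow_succ, tT_mul, ih]
    push_cast
    rw [map_add, map_add, map_add, map_one]
    ring

private lemma eexp_tT_S (lam : PowerSeries ℚ[X]) (K : ℕ) :
    tT (eexpS lam (K + 1)) = eexpS lam K * tT lam := by
  have hstep : ∀ K, eexpS lam (K + 1) = eexpS lam K +
      PowerSeries.C (C (1 / ((K + 1).factorial : ℚ))) * lam ^ (K + 1) := by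
    intro K
    unfold eexpS
    rw [Finset.sum_range_succ]
  have hcoef : ∀ K, tT (PowerSeries.C (C (1 / ((K + 1).factorial : ℚ))) * lam ^ (K + 1)) =
      PowerSeries.C (C (1 / (K.factorial : ℚ))) * lam ^ K * tT lam := by
    intro K
    rw [tT_mul, tT_C, zero_mul, zero_add, eexp_tT_pow]
    have h1 : PowerSeries.C (C (1 / ((K + 1).factorial : ℚ))) *
        PowerSeries.C ((K : ℚ[X]) + 1) = PowerSeries.C (C (1 / (K.factorial : ℚ))) := by
      rw [← map_mul]
      have h2 : ((K : ℚ[X]) + 1) = C ((K : ℚ) + 1) := by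
        rw [map_add, map_one, map_natCast]
      rw [h2, ← C_mul]
      have h3 : 1 / ((K + 1).factorial : ℚ) * ((K : ℚ) + 1) = 1 / (K.factorial : ℚ) := by
        rw [Nat.factorial_succ]
        push_cast
        have h4 : ((K : ℚ) + 1) ≠ 0 := by positivity
        have h5 : (K.factorial : ℚ) ≠ 0 := by positivity
        field_simp
      rw [h3]
    rw [← h1]
    ring
  induction K with
  | zero =>
    rw [hstep, tT_add, hcoef]
    have h1 : eexpS lam 0 = 1 := by
      unfold eexpS
      simp
    have h2 : tT (1 : PowerSeries ℚ[X]) = 0 := by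
      have := tT_C 1
      rwa [map_one] at this
    rw [h1, h2]
    simp
  | succ K ih =>
    rw [hstep, tT_add, ih, hcoef, hstep K]
    ring

private lemma eexp_fact {p : ℕ} (hp : p.Prime) {k : ℕ} (hk : 1 ≤ k) :
    Dv p 0 ((p : ℚ) ^ (k - 1) * (1 / (k.factorial : ℚ))) := by
  have : Fact p.Prime := ⟨hp⟩
  obtain ⟨m, hm⟩ : p ^ (padicValNat p k.factorial) ∣ k.factorial := pow_padicValNat_dvd
  have hk0 : k.factorial ≠ 0 := Nat.factorial_ne_zero k
  set v := padicValNat p k.factorial with hv
  have hm0 : m ≠ 0 := by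
    rintro rfl
    rw [mul_zero] at hm
    exact hk0 hm
  have hcop : Nat.Coprime m p := by
    rw [Nat.coprime_comm, hp.coprime_iff_not_dvd]
    intro hdvd
    have h1 : p ^ (v + 1) ∣ k.factorial := by
      rw [hm, pow_succ]
      exact mul_dvd_mul_left _ hdvd
    exact pow_succ_padicValNat_not_dvd hk0 h1
  have hvk : v ≤ k - 1 := by
    have h1 := sub_one_mul_padicValNat_factorial (p := p) k
    have h2 : 1 ≤ (Nat.digits p k).sum := by
      have hne : Nat.digits p k ≠ [] := Nat.digits_ne_nil_iff_ne_zero.mpr (by omega)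
      have h3 := Nat.getLast_digit_ne_zero p (m := k) (by omega)
      have h4 := List.le_sum_of_mem (List.getLast_mem hne)
      omega
    rw [← hv] at h1
    have h5 : 1 * v ≤ (p - 1) * v := Nat.mul_le_mul_right v (by have := hp.two_le; omega)
    omega
  obtain ⟨d, hd⟩ := Nat.exists_eq_add_of_le hvk
  refine ⟨(p : ℤ) ^ d, m, hcop, ?_⟩
  have hf : (k.factorial : ℚ) = (p : ℚ) ^ v * m := by
    rw [hm]; push_cast; rfl
  rw [hf, hd, pow_add]
  have hp0 : (p : ℚ) ≠ 0 := by exact_mod_cast hp.ne_zero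
  have hm0' : (m : ℚ) ≠ 0 := by exact_mod_cast hm0
  push_cast
  field_simp

private lemma eexp_pow_Dv {lam : PowerSeries ℚ[X]} (h0 : PowerSeries.constantCoeff lam = 0)
    {p : ℕ} (hl : ∀ j, 1 ≤ j → PDv p 0 (C ((p : ℚ) ^ (j - 1)) * PowerSeries.coeff j lam))
    (k : ℕ) : ∀ n, k ≤ n → PDv p 0 (C ((p : ℚ) ^ (n - k)) * PowerSeries.coeff n (lam ^ k)) := by
  induction k with
  | zero =>
    intro n _
    rw [pow_zero, PowerSeries.coeff_one]
    split_ifs with h
    · subst h
      simpa using PDv.one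
    · rw [mul_zero]; exact PDv.zero
  | succ k ih =>
    intro n hn
    rw [pow_succ', PowerSeries.coeff_mul, Finset.mul_sum]
    apply PDv.sum
    intro x hx
    rw [Finset.HasAntidiagonal.mem_antidiagonal] at hx
    rcases Nat.eq_zero_or_pos x.1 with h1 | h1
    · rw [h1, PowerSeries.coeff_zero_eq_constantCoeff_apply, h0, zero_mul, mul_zero]
      exact PDv.zero
    · rcases Nat.lt_or_ge x.2 k with h2 | h2
      · rw [eexp_pow_coeff h0 h2, mul_zero, mul_zero]
        exact PDv.zero
      · have h3 : n - (k + 1) = (x.1 - 1) + (x.2 - k) := by omega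
        have h4 : C ((p : ℚ) ^ (n - (k + 1))) *
            (PowerSeries.coeff x.1 lam * PowerSeries.coeff x.2 (lam ^ k)) =
            (C ((p : ℚ) ^ (x.1 - 1)) * PowerSeries.coeff x.1 lam) *
            (C ((p : ℚ) ^ (x.2 - k)) * PowerSeries.coeff x.2 (lam ^ k)) := by
          rw [h3, pow_add, C_mul]
          ring
        rw [h4]
        exact (hl x.1 h1).mul_left (ih x.2 h2)

theorem exists_expT (lam : PowerSeries ℚ[X]) (h0 : PowerSeries.constantCoeff lam = 0) :
    ∃ E : PowerSeries ℚ[X], PowerSeries.constantCoeff E = 1 ∧ tT E = E * tT lam ∧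
      PowerSeries.coeff 1 E = PowerSeries.coeff 1 lam ∧
      (∀ p : ℕ, p.Prime →
        (∀ j, 1 ≤ j → PDv p 0 (C ((p : ℚ) ^ (j - 1)) * PowerSeries.coeff j lam)) →
        ∀ n, 1 ≤ n → PDv p 0 (C ((p : ℚ) ^ (n - 1)) * PowerSeries.coeff n E)) ∧
      ((∀ j, X ^ 3 ∣ PowerSeries.coeff j lam) → ∀ n, 1 ≤ n → X ^ 3 ∣ PowerSeries.coeff n E) := by
  have hE : ∀ n K, n ≤ K → PowerSeries.coeff n (eexpS lam K) = PowerSeries.coeff n
      (PowerSeries.mk (fun n => PowerSeries.coeff n (eexpS lam n))) := by
    intro n K h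
    rw [PowerSeries.coeff_mk]
    exact eexpS_stable h0 h
  refine ⟨PowerSeries.mk (fun n => PowerSeries.coeff n (eexpS lam n)), ?_, ?_, ?_, ?_, ?_⟩
  · rw [← PowerSeries.coeff_zero_eq_constantCoeff_apply, PowerSeries.coeff_mk]
    unfold eexpS
    simp
  · ext1 n
    rw [coeff_tT, ← hE n (n + 1) (Nat.le_succ n), ← coeff_tT, eexp_tT_S, PowerSeries.coeff_mul,
      PowerSeries.coeff_mul]
    apply Finset.sum_congr rfl
    intro x hx
    rw [Finset.HasAntidiagonal.mem_antidiagonal] at hx
    rw [hE x.1 n (by omega)]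
  · rw [PowerSeries.coeff_mk]
    unfold eexpS
    rw [Finset.sum_range_succ, Finset.sum_range_one]
    simp [PowerSeries.coeff_one]
  · intro p hp hl n hn
    rw [PowerSeries.coeff_mk]
    unfold eexpS
    rw [map_sum, Finset.mul_sum]
    apply PDv.sum
    intro k hk
    rw [Finset.mem_range] at hk
    rw [PowerSeries.coeff_C_mul]
    rcases Nat.eq_zero_or_pos k with h1 | h1
    · subst h1
      have h2 : n ≠ 0 := by omega
      rw [pow_zero, PowerSeries.coeff_one, if_neg h2, mul_zero, mul_zero]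
      exact PDv.zero
    · have h3 : n - 1 = (k - 1) + (n - k) := by omega
      have h4 : C ((p : ℚ) ^ (n - 1)) * (C (1 / (k.factorial : ℚ)) *
          PowerSeries.coeff n (lam ^ k)) =
          C ((p : ℚ) ^ (k - 1) * (1 / (k.factorial : ℚ))) *
          (C ((p : ℚ) ^ (n - k)) * PowerSeries.coeff n (lam ^ k)) := by
        rw [h3, pow_add, C_mul, C_mul]
        ring
      rw [h4]
      exact (PDv.C (eexp_fact hp h1)).mul_left (eexp_pow_Dv h0 hl k n (by omega))
  · intro hd n hn
    rw [PowerSeries.coeff_mk]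
    unfold eexpS
    rw [map_sum]
    apply Finset.dvd_sum
    intro k hk
    rw [PowerSeries.coeff_C_mul]
    rcases Nat.eq_zero_or_pos k with h1 | h1
    · subst h1
      have h2 : n ≠ 0 := by omega
      rw [pow_zero, PowerSeries.coeff_one, if_neg h2, mul_zero]
      exact dvd_zero _
    · obtain ⟨m, rfl⟩ : ∃ m, k = m + 1 := ⟨k - 1, by omega⟩
      apply Dvd.dvd.mul_left
      rw [pow_succ' lam m, PowerSeries.coeff_mul]
      apply Finset.dvd_sum
      intro x _
      exact Dvd.dvd.mul_right (hd x.1) _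

end KPInt
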