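import Pool.Agent.Lib.KPInt.ELam

/-!
# EFun: functional equation of exp(Lambda) in Q[x][[T]]

PROOF. Let `E` with `E_0 = 1`, `tT E = E * tT Λ`. Write `E⁺` for the image under `x ↦ x+1`
(`PowerSeries.map (Polynomial.compRingHom (X + 1))`). Then `tT E⁺ = E⁺ * tT Λ⁺` (`tT_map`).
By `tT_mul_of`, `tT_pow_of`, `tT_prod_of`, `tT_linear` both sides `f` of the claim satisfy
`tT f = f * w` with `w = 2 tT Λ⁺ + a ∑_u ω(β_u y)` resp. `w' = 2 tT Λ + ∑_s ∑_u ω(β_u y(ax+s))`,
`ω(c) = mk (fun j => if j = 0 then 0 else (-1)^(j+1) c^j)`. The coefficients of `w` and `w'` agree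
by `lam_step` (`j ≥ 1`) and both vanish for `j = 0`. Both sides have constant coefficient 1.
Conclude by `tT_unique`.
-/

set_option autoImplicit false

namespace KPInt

open Polynomial

/-- `E(x+1)` -/
noncomputable def shiftT (E : PowerSeries ℚ[X]) : PowerSeries ℚ[X] :=
  PowerSeries.map (Polynomial.compRingHom (X + 1)) E

private lemma EFun_const (c : ℚ[X]) :
    PowerSeries.constantCoeff (1 + PowerSeries.C c * PowerSeries.X) = 1 := by
  simp

theorem funEq {T : ℕ → ℚ[X]} (hT : IsT T) (p a : ℕ) {E : PowerSeries ℚ[X]}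
    (E0 : PowerSeries.constantCoeff E = 1) (hE : tT E = E * tT (lamT T p a)) :
    shiftT E ^ 2 *
      (∏ u ∈ Finset.Ico 1 p, (1 + PowerSeries.C (C (bet p u) * yy) * PowerSeries.X)) ^ a =
    E ^ 2 * ∏ s ∈ Finset.range a, ∏ u ∈ Finset.Ico 1 p,
      (1 + PowerSeries.C (C (bet p u) * yy.comp (C (a : ℚ) * X + C (s : ℚ))) * PowerSeries.X) := by
  have hE' : tT (shiftT E) = shiftT E *
      PowerSeries.map (Polynomial.compRingHom (X + 1)) (tT (lamT T p a)) := by
    rw [shiftT, tT_map, hE, map_mul]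
  have hL := tT_mul_of (tT_pow_of hE' 2)
    (tT_pow_of (tT_prod_of (Finset.Ico 1 p)
      (fun u => 1 + PowerSeries.C (C (bet p u) * yy) * PowerSeries.X) _
      (fun u _ => tT_linear (C (bet p u) * yy))) a)
  have hR := tT_mul_of (tT_pow_of hE 2)
    (tT_prod_of (Finset.range a)
      (fun s => ∏ u ∈ Finset.Ico 1 p,
        (1 + PowerSeries.C (C (bet p u) * yy.comp (C (a : ℚ) * X + C (s : ℚ))) *
          PowerSeries.X)) _
      (fun s _ => tT_prod_of (Finset.Ico 1 p)
        (fun u => 1 + PowerSeries.C (C (bet p u) * yy.comp (C (a : ℚ) * X + C (s : ℚ))) *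
          PowerSeries.X) _
        (fun u _ => tT_linear (C (bet p u) * yy.comp (C (a : ℚ) * X + C (s : ℚ))))))
  have hw : (PowerSeries.C ((2 : ℕ) : ℚ[X]) *
        PowerSeries.map (Polynomial.compRingHom (X + 1)) (tT (lamT T p a)) +
      PowerSeries.C ((a : ℕ) : ℚ[X]) * ∑ u ∈ Finset.Ico 1 p,
        PowerSeries.mk (fun j => if j = 0 then 0 else (-1) ^ (j + 1) * (C (bet p u) * yy) ^ j)) =
      (PowerSeries.C ((2 : ℕ) : ℚ[X]) * tT (lamT T p a) +
      ∑ s ∈ Finset.range a, ∑ u ∈ Finset.Ico 1 p,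
        PowerSeries.mk (fun j => if j = 0 then 0 else (-1) ^ (j + 1) *
          (C (bet p u) * yy.comp (C (a : ℚ) * X + C (s : ℚ))) ^ j)) := by
    refine PowerSeries.ext fun j => ?_
    simp only [map_add, map_sum, PowerSeries.coeff_C_mul, PowerSeries.coeff_map, coeff_tT,
      PowerSeries.coeff_mk, Polynomial.coe_compRingHom_apply, Polynomial.mul_comp,
      Polynomial.natCast_comp]
    rcases Nat.eq_zero_or_pos j with rfl | hj
    · simp
    · have hj0 : j ≠ 0 := by omega
      have h := lam_step hT p a j hj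
      simp only [hj0, if_false]
      simp only [← Finset.mul_sum]
      rw [← Finset.mul_sum] at h
      push_cast
      linear_combination h
  rw [← hw] at hR
  refine tT_unique hL hR ?_ ?_
  · have h1 : PowerSeries.constantCoeff (shiftT E) = 1 := by
      rw [shiftT, ← PowerSeries.coeff_zero_eq_constantCoeff_apply, PowerSeries.coeff_map,
        PowerSeries.coeff_zero_eq_constantCoeff_apply, E0, map_one]
    rw [map_mul, map_pow, map_pow, map_prod, h1]
    simp
  · rw [map_mul, map_pow, map_prod, E0]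
    simp [map_prod]

end KPInt
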