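import Pool.Agent.Lib.KPInt.ETj
import Pool.Agent.Lib.KPInt.EExp

/-!
# ELam: the power series Lambda: p-integrality, divisibility by x^3, difference equation

Notation: `β_u = 1/(u(p-u))`, `Sb p j = ∑_{u=1}^{p-1} β_u^j`, `y = x(x+1)`, `τ_j = T_j(a x) - a T_j(x)`,
`Λ = ∑_{j≥1} ((-1)^(j+1)/(2j)) S_j τ_j T^j` (for `j = 0` the coefficient is `0` since `x/0 = 0`).

PROOFS.
* `lam_X3`: `T_j` has no coefficients of even index, so `τ_j` has no coefficient of index 0, 2; the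
  coefficient of index 1 is `t_1 (a - a) = 0`. (`X^3 ∣ f` iff coefficients 0,1,2 vanish:
  `Polynomial.X_pow_dvd_iff`.)
* `lam_one`: from `T_1 = (x^3-x)/3`: `τ_1 = ((a^3-a)/3) x^3`.
* `lam_int`. `Sb p j` is `p`-integral: `u (p-u)` is prime to `p` for `1 ≤ u < p`.
  Case `p = 2`: `T_j` is 2-integral (`den` with `L = 0`), `coeff i τ_j = t_i (a^i - a)`, zero for even
  `i`, and `a^i - a` is even for `i ≥ 1`; so `τ_j/2` is 2-integral, and `2^(j-1)/j` is 2-integral since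
  `2^(v_2 j) ≤ j < 2^j`. Case `p` odd: `1/2` is `p`-integral. `j = 1`: `τ_1 = ((a^3-a)/3) x^3` and
  `3 ∣ a^3 - a`. `j ≥ 2`: let `v = v_p(j)` and `L` with `p^L ≤ 2j+1 < p^(L+1)` (`Nat.log`); then
  `p^L T_j` is `p`-integral by `den` (`0 < 2k+1 < p^(L+1)` for `k ≤ j`), `p^v/j` is `p`-integral, and
  `v + L ≤ j - 1`: for `p = 3`, `j = 2`: `v = 0`, `L = 1`; otherwise
  `p^(v+L) ≤ j(2j+1) < p^j` (`j(2j+1) < 3^j` for `j ≥ 3` by induction, `10 < 25`).
* `lam_step`: coefficient `j ≥ 1` of `Λ(x+1) - Λ(x)` times `2 j`: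
  `(-1)^(j+1) S_j [T_j(a x + a) - T_j(a x) - a y^j]` and
  `T_j(a x + a) - T_j(a x) = ∑_{s<a} y(a x + s)^j` (telescoping of `step` composed with `a x + s`).
-/

set_option autoImplicit false

namespace KPInt

open Polynomial

/-- `x (x + 1)` -/
noncomputable def yy : ℚ[X] := X * (X + 1)

/-- `1 / (u (p - u))` -/
noncomputable def bet (p u : ℕ) : ℚ := 1 / ((u : ℚ) * ((p : ℚ) - u))

/-- `S_j` -/
noncomputable def Sb (p j : ℕ) : ℚ := ∑ u ∈ Finset.Ico 1 p, bet p u ^ j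

/-- `Λ` -/
noncomputable def lamT (T : ℕ → ℚ[X]) (p a : ℕ) : PowerSeries ℚ[X] :=
  PowerSeries.mk fun j => C ((-1 : ℚ) ^ (j + 1) / (2 * (j : ℚ)) * Sb p j) *
    ((T j).comp (C (a : ℚ) * X) - C (a : ℚ) * T j)

variable {T : ℕ → ℚ[X]} (hT : IsT T)

private lemma elam_coeff (T : ℕ → ℚ[X]) (p a j i : ℕ) :
    (PowerSeries.coeff j (lamT T p a)).coeff i =
      (-1 : ℚ) ^ (j + 1) / (2 * (j : ℚ)) * Sb p j * ((T j).coeff i * ((a : ℚ) ^ i - a)) := by
  unfold lamT
  rw [PowerSeries.coeff_mk, coeff_C_mul, coeff_sub, comp_C_mul_X_coeff, coeff_C_mul]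
  ring

include hT in
lemma lam_X3 (p a j : ℕ) : X ^ 3 ∣ PowerSeries.coeff j (lamT T p a) := by
  rw [X_pow_dvd_iff]
  intro d hd
  rw [elam_coeff]
  interval_cases d
  · rw [hT.odd j 0 (by decide)]; ring
  · ring
  · rw [hT.odd j 2 (by decide)]; ring

include hT in
lemma lam_one (p a : ℕ) : PowerSeries.coeff 1 (lamT T p a) =
    C (Sb p 1 * (((a : ℚ) ^ 3 - a) / 6)) * X ^ 3 := by
  unfold lamT
  rw [PowerSeries.coeff_mk, hT.one]
  apply Polynomial.funext
  intro x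
  simp only [eval_mul, eval_C, eval_sub, eval_comp, eval_pow, eval_X]
  push_cast
  ring

private lemma elam_cop {p u : ℕ} (hp : p.Prime) (hu : u ∈ Finset.Ico 1 p) :
    Nat.Coprime (u * (p - u)) p := by
  obtain ⟨h1, h2⟩ := Finset.mem_Ico.1 hu
  refine Nat.Coprime.mul_left ?_ ?_
  · exact (Nat.coprime_of_lt_prime (by omega) h2 hp).symm
  · exact (Nat.coprime_of_lt_prime (by omega) (by omega) hp).symm

lemma bet_int {p u : ℕ} (hp : p.Prime) (hu : u ∈ Finset.Ico 1 p) : Dv p 0 (bet p u) := by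
  have h := Dv.inv_nat (elam_cop hp hu)
  obtain ⟨h1, h2⟩ := Finset.mem_Ico.1 hu
  rw [Nat.cast_mul, Nat.cast_sub h2.le] at h
  unfold bet
  rwa [one_div]

lemma Sb_int {p : ℕ} (hp : p.Prime) (j : ℕ) : Dv p 0 (Sb p j) :=
  Dv.sum _ _ fun _ hu => (bet_int hp hu).pow0 j

private lemma elam_ppow_div {p : ℕ} (hp : p.Prime) {j m : ℕ} (hj : 1 ≤ j)
    (h : ∀ v, p ^ v ∣ j → v ≤ m) : Dv p 0 ((p : ℚ) ^ m / (j : ℚ)) := by
  obtain ⟨v, b, hb, hjb⟩ := Nat.exists_eq_pow_mul_and_not_dvd (n := j) (by omega) p hp.ne_one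
  have hv : v ≤ m := h v ⟨b, hjb⟩
  have hc : Nat.Coprime b p := (Nat.Prime.coprime_iff_not_dvd hp).2 hb |>.symm
  have hb0 : (b : ℚ) ≠ 0 := by
    have : b ≠ 0 := by
      rintro rfl
      simp at hb
    exact_mod_cast this
  have hp0 : (p : ℚ) ≠ 0 := by exact_mod_cast hp.ne_zero
  have h1 : (p : ℚ) ^ m / (j : ℚ) = (p : ℚ) ^ (m - v) * (b : ℚ)⁻¹ := by
    have h2 : (p : ℚ) ^ m = (p : ℚ) ^ (m - v) * (p : ℚ) ^ v := by
      rw [← pow_add]; congr 1; omega
    rw [hjb, h2]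
    push_cast
    field_simp
  rw [h1]
  exact ((Dv.nat p).pow0 _).mul_left (Dv.inv_nat hc)

private lemma elam_even_sub {a i : ℕ} (hi : 1 ≤ i) : ∃ z : ℤ, ((a : ℚ) ^ i - a) / 2 = z := by
  have h : (2 : ℤ) ∣ (a : ℤ) ^ i - a := by
    rcases Int.emod_two_eq_zero_or_one (a : ℤ) with h | h
    · have h1 : (2 : ℤ) ∣ a := Int.dvd_of_emod_eq_zero h
      exact dvd_sub (dvd_pow h1 (by omega)) h1
    · have h1 : (2 : ℤ) ∣ (a : ℤ) - 1 := by omega
      have h2 : (a : ℤ) - 1 ∣ (a : ℤ) ^ i - 1 ^ i := sub_dvd_pow_sub_pow _ _ _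
      rw [one_pow] at h2
      have h3 := dvd_sub (h1.trans h2) h1
      have h4 : (a : ℤ) ^ i - 1 - ((a : ℤ) - 1) = (a : ℤ) ^ i - a := by ring
      rwa [h4] at h3
  obtain ⟨z, hz⟩ := h
  refine ⟨z, ?_⟩
  have h5 : ((a : ℚ) ^ i - a) = 2 * z := by exact_mod_cast hz
  rw [h5]; ring

private lemma elam_six (a : ℕ) : ∃ z : ℤ, ((a : ℚ) ^ 3 - a) / 6 = z := by
  have h : ∀ a : ℕ, ∃ z : ℤ, (a : ℤ) ^ 3 - a = 6 * z := by
    intro a
    induction a with
    | zero => exact ⟨0, by simp⟩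
    | succ n ih =>
      obtain ⟨z, hz⟩ := ih
      have h2 : ∃ w : ℤ, (n : ℤ) * (n + 1) = 2 * w := by
        obtain ⟨w, hw⟩ := (Int.even_mul_succ_self (n : ℤ))
        exact ⟨w, by rw [hw]; ring⟩
      obtain ⟨w, hw⟩ := h2
      refine ⟨z + w, ?_⟩
      push_cast
      linear_combination hz + 3 * hw
  obtain ⟨z, hz⟩ := h a
  refine ⟨z, ?_⟩
  have h5 : ((a : ℚ) ^ 3 - a) = 6 * z := by exact_mod_cast hz
  rw [h5]; ring

private lemma elam_bd3 {j : ℕ} (hj : 3 ≤ j) : j * (2 * j + 1) < 3 ^ j := by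
  induction j, hj using Nat.le_induction with
  | base => norm_num
  | succ j hj ih =>
    rw [pow_succ]
    nlinarith

private lemma elam_bd {p j : ℕ} (hp : p.Prime) (hp2 : p ≠ 2) (hj : 2 ≤ j) {v L : ℕ}
    (hv : p ^ v ∣ j) (hL : p ^ L ≤ 2 * j + 1) : v + L ≤ j - 1 := by
  have hp3 : 3 ≤ p := by
    have := hp.two_le
    omega
  have hv' : p ^ v ≤ j := Nat.le_of_dvd (by omega) hv
  have h1 : p ^ (v + L) ≤ j * (2 * j + 1) := by
    rw [pow_add]
    exact Nat.mul_le_mul hv' hL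
  rcases Nat.lt_or_ge 2 j with h3 | h3
  · have h4 : j * (2 * j + 1) < p ^ j :=
      lt_of_lt_of_le (elam_bd3 h3) (Nat.pow_le_pow_left hp3 _)
    have h5 := (Nat.pow_lt_pow_iff_right (by omega : 1 < p)).1 (lt_of_le_of_lt h1 h4)
    omega
  · obtain rfl : j = 2 := by omega
    rcases Nat.lt_or_ge 4 p with h5 | h5
    · have h6 : 2 * (2 * 2 + 1) < p ^ 2 := by nlinarith
      have h7 := (Nat.pow_lt_pow_iff_right (by omega : 1 < p)).1 (lt_of_le_of_lt h1 h6)
      omega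
    · have h6 : p = 3 := by
        interval_cases p
        · rfl
        · exact absurd hp (by decide)
      subst h6
      have h7 : v = 0 := by
        by_contra h8
        have h9 : 3 ∣ 3 ^ v := dvd_pow_self 3 h8
        have h10 := h9.trans hv
        omega
      have h8 : L < 2 := by
        by_contra h9
        have h10 : 3 ^ 2 ≤ 3 ^ L := Nat.pow_le_pow_right (by norm_num) (by omega)
        omega
      omega

include hT in
theorem lam_int {p : ℕ} (hp : p.Prime) (a j : ℕ) (hj : 1 ≤ j) :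
    PDv p 0 (C ((p : ℚ) ^ (j - 1)) * PowerSeries.coeff j (lamT T p a)) := by
  intro i
  rw [coeff_C_mul]
  rcases Nat.lt_or_ge 1 j with hj2 | hj2
  · rw [elam_coeff]
    have hs : Dv p 0 ((-1 : ℚ) ^ (j + 1)) := by
      have := (Dv.int (p := p) (-1)).pow0 (j + 1)
      simpa using this
    have hj0 : (j : ℚ) ≠ 0 := by
      have : j ≠ 0 := by omega
      exact_mod_cast this
    rcases eq_or_ne p 2 with rfl | hp2
    · rcases Nat.even_or_odd i with hi | hi
      · rw [hT.odd j i hi]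
        simpa using Dv.zero
      · have hi1 : 1 ≤ i := hi.pos
        obtain ⟨z, hz⟩ := elam_even_sub (a := a) hi1
        have h1 := hT.den 2 hp 0 j (fun k _ => by omega) i
        rw [pow_zero, coeff_C_mul, one_mul] at h1
        have h2 : Dv 2 0 (((2 : ℕ) : ℚ) ^ (j - 1) / (j : ℚ)) := by
          refine elam_ppow_div hp hj fun v hv => ?_
          have h3 : 2 ^ v ≤ j := Nat.le_of_dvd (by omega) hv
          have h4 : j < 2 ^ j := Nat.lt_two_pow_self
          have h5 := (Nat.pow_lt_pow_iff_right (by norm_num : 1 < 2)).1 (lt_of_le_of_lt h3 h4)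
          omega
        have h3 := ((hs.mul_left (Sb_int hp j)).mul_left (h1.mul_left (Dv.int z))).mul_left h2
        rw [← hz] at h3
        have h4 : ((2 : ℕ) : ℚ) ^ (j - 1) * ((-1 : ℚ) ^ (j + 1) / (2 * (j : ℚ)) * Sb 2 j *
            ((T j).coeff i * ((a : ℚ) ^ i - a))) =
            (-1) ^ (j + 1) * Sb 2 j * ((T j).coeff i * (((a : ℚ) ^ i - a) / 2)) *
              (((2 : ℕ) : ℚ) ^ (j - 1) / (j : ℚ)) := by
          field_simp
        rw [h4]
        exact h3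
    · have hc2 : Nat.Coprime 2 p := (Nat.coprime_primes Nat.prime_two hp).2 (Ne.symm hp2)
      have hhalf : Dv p 0 (((2 : ℕ) : ℚ)⁻¹) := Dv.inv_nat hc2
      have hpL : 2 * j + 1 < p ^ (Nat.log p (2 * j + 1) + 1) :=
        Nat.lt_pow_succ_log_self hp.one_lt _
      have hLp : p ^ Nat.log p (2 * j + 1) ≤ 2 * j + 1 := Nat.pow_log_le_self p (by omega)
      have h1 := hT.den p hp (Nat.log p (2 * j + 1)) j (fun k hk hd => by
        have := Nat.le_of_dvd (by omega) hd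
        omega) i
      rw [coeff_C_mul] at h1
      set L := Nat.log p (2 * j + 1) with hLd
      have hLj : L ≤ j - 1 := by
        have := elam_bd (v := 0) hp hp2 hj2 (by simp) hLp
        omega
      have h2 : Dv p 0 ((p : ℚ) ^ (j - 1 - L) / (j : ℚ)) := by
        refine elam_ppow_div hp hj fun v hv => ?_
        have := elam_bd hp hp2 hj2 hv hLp
        omega
      have ha : Dv p 0 ((a : ℚ) ^ i - a) := ((Dv.nat a).pow0 i).sub (Dv.nat a)
      have h3 := (((hs.mul_left (Sb_int hp j)).mul_left (h1.mul_left ha)).mul_left h2).mul_left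
        hhalf
      have h4 : (p : ℚ) ^ (j - 1) * ((-1 : ℚ) ^ (j + 1) / (2 * (j : ℚ)) * Sb p j *
          ((T j).coeff i * ((a : ℚ) ^ i - a))) =
          (-1) ^ (j + 1) * Sb p j * ((p : ℚ) ^ L * (T j).coeff i * ((a : ℚ) ^ i - a)) *
            ((p : ℚ) ^ (j - 1 - L) / (j : ℚ)) * ((2 : ℕ) : ℚ)⁻¹ := by
        have h5 : (p : ℚ) ^ (j - 1) = (p : ℚ) ^ (j - 1 - L) * (p : ℚ) ^ L := by
          rw [← pow_add]; congr 1; omega
        rw [h5]
        push_cast
        field_simp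
      rw [h4]
      exact h3
  · obtain rfl : j = 1 := by omega
    rw [lam_one hT, coeff_C_mul, Nat.sub_self, pow_zero, one_mul, coeff_X_pow]
    obtain ⟨z, hz⟩ := elam_six a
    rw [hz]
    refine Dv.mul_right ((Sb_int hp 1).mul_left (Dv.int z)) ?_
    split_ifs
    · exact Dv.one
    · exact Dv.zero

private lemma elam_tel {t : ℚ → ℚ} {j : ℕ} (ht : ∀ x, t (x + 1) - t x = (x * (x + 1)) ^ j)
    (x : ℚ) (n : ℕ) :
    ∑ s ∈ Finset.range n, ((x + s) * (x + s + 1)) ^ j = t (x + n) - t x := by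
  induction n with
  | zero => simp
  | succ n ih =>
    rw [Finset.sum_range_succ, ih, ← ht]
    push_cast
    rw [add_assoc x (n : ℚ) 1]
    ring

include hT in
/-- difference equation of `Λ` after `T d/dT` -/
theorem lam_step (p a j : ℕ) (hj : 1 ≤ j) :
    (2 : ℚ[X]) * (j : ℚ[X]) * ((PowerSeries.coeff j (lamT T p a)).comp (X + 1)) +
      (a : ℚ[X]) * ((-1) ^ (j + 1) * ∑ u ∈ Finset.Ico 1 p, (C (bet p u) * yy) ^ j) =
    (2 : ℚ[X]) * (j : ℚ[X]) * (PowerSeries.coeff j (lamT T p a)) +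
      ∑ s ∈ Finset.range a, ((-1) ^ (j + 1) *
        ∑ u ∈ Finset.Ico 1 p, (C (bet p u) * yy.comp (C (a : ℚ) * X + C (s : ℚ))) ^ j) := by
  have ht : ∀ x, (T j).eval (x + 1) - (T j).eval x = (x * (x + 1)) ^ j := by
    intro x
    have h := congrArg (eval x) (hT.step j)
    simpa [eval_comp] using h
  have hj0 : (j : ℚ) ≠ 0 := by
    have : j ≠ 0 := by omega
    exact_mod_cast this
  have hS : ∀ Y : ℚ, ∑ u ∈ Finset.Ico 1 p, (bet p u * Y) ^ j = Sb p j * Y ^ j := by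
    intro Y
    unfold Sb
    rw [Finset.sum_mul]
    exact Finset.sum_congr rfl fun u _ => mul_pow _ _ _
  apply Polynomial.funext
  intro x
  have htel := elam_tel (t := fun x => (T j).eval x) ht ((a : ℚ) * x) a
  have hx := ht x
  unfold lamT yy
  rw [PowerSeries.coeff_mk]
  simp only [eval_add, eval_mul, eval_comp, eval_sub, eval_C, eval_X, eval_one, eval_pow,
    eval_neg, eval_natCast, eval_ofNat, eval_finsetSum]
  rw [hS]
  simp only [hS]
  rw [← Finset.mul_sum, ← Finset.mul_sum, htel, ← hx]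
  have h1 : (a : ℚ) * (x + 1) = a * x + a := by ring
  rw [h1]
  field_simp
  ring

end KPInt
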