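import Pool.Agent.Lib.KPInt.ESq

/-!
# EMain: the E-lemma: polynomial solution F of F(x+1)P(x)^a = sigma F(x) prod P(ax+s) mod p^M

PROOF. Take `T` from `exists_T`, `E` from `exists_expT (lamT T p a)` (constant coefficient of `lamT`
is 0 because of the division by `2*0`), `F = evT p (M+3) E` (any truncation order `≥ M+1`, `≥ 3`).
* `F` has coefficients `F_0 = 1`, `F_1 = F_2 = 0`: `X^3 ∣ E_n` for `n ≥ 1` (`lam_X3`), `E_0 = 1`.
* `F - 1 ∈ p^2`, `F - 1 - p^2 E_1 ∈ p^3` (`evT_E`), `E_1 = Λ_1 = C (S_1 (a^3-a)/6) X^3` (`lam_one`),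
  and `S_1 = 1` for `p = 2` and for `p = 3` (`1/(1*2) + 1/(2*1) = 1`).
* Put `A = F(X+1) P^a`, `B = F ∏_{s<a} P(aX+s)`, both `p`-integral, `A^2 - B^2 ∈ p^(M+3)`.
  Case `p` odd: `P ≡ (p-1)! mod p`, `F ≡ 1 mod p`, so `A + B ≡ 2 ((p-1)!)^a mod p`, a unit: by
  `PDv.of_mul_unit` with `f = A - B`, `g = A + B`: `A - B ∈ p^(M+3)`.
  Case `p = 2`: `P = 1 + 2x`, `F ≡ 1 mod 4`; `A ≡ (1+2x)^a ≡ 1 + 2 a x mod 4`;
  `B ≡ ∏_{s<a} (1 + 2(ax+s)) ≡ 1 + 2 a^2 x + a(a-1) mod 4` and `2a^2 ≡ 2a mod 4`; with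
  `σ = (-1)^(a(a-1)/2)`: `A - σ B ∈ 4` (if `a(a-1)/2` is even then `a(a-1) ≡ 0 mod 4`; if odd,
  `a(a-1) ≡ 2 mod 4` and `-B ≡ -3 - 2ax ≡ 1 + 2ax`). Then `A + σ B = 2σB + (A - σB) = 2 g` with
  `g ≡ σ mod 2`, `g` 2-integral, and `(A - σB)(A + σB) = A^2 - B^2 ∈ 2^(M+3)`, so `(A-σB) g ∈ 2^(M+2)`
  and `PDv.of_mul_unit` gives `A - σB ∈ 2^(M+2)`.
-/

set_option autoImplicit false

namespace KPInt

open Polynomial

/-- the sign -/
def sg (p a : ℕ) : ℚ := if p = 2 then (-1) ^ (a * (a - 1) / 2) else 1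

private lemma C2 : (C (2 : ℚ) : ℚ[X]) = 2 := map_ofNat C 2

private lemma PDv_nat (p n : ℕ) : PDv p 0 ((n : ℚ[X])) := by
  have := PDv.C (p := p) (Dv.nat (p := p) n)
  simpa using this

private lemma PDv_int (p : ℕ) (n : ℤ) : PDv p 0 ((n : ℚ[X])) := by
  have := PDv.C (p := p) (Dv.int (p := p) n)
  simpa using this

private lemma PDv_p (p : ℕ) : PDv p 1 ((p : ℚ[X])) := by
  have := PDv.C (p := p) (Dv.p_self (p := p))
  simpa using this

private lemma prod_congr_const {ι : Type*} {p : ℕ} (s : Finset ι) (f : ι → ℚ[X]) (c : ι → ℚ)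
    (hc : ∀ i ∈ s, Dv p 0 (c i)) (hf : ∀ i ∈ s, PDv p 1 (f i - C (c i))) :
    PDv p 0 (∏ i ∈ s, f i) ∧ PDv p 1 (∏ i ∈ s, f i - C (∏ i ∈ s, c i)) := by
  classical
  induction s using Finset.induction_on with
  | empty =>
    refine ⟨by simpa using PDv.one, ?_⟩
    simpa using PDv.zero
  | insert a s ha ih =>
    obtain ⟨h1, h2⟩ := ih (fun i hi => hc i (Finset.mem_insert_of_mem hi))
      (fun i hi => hf i (Finset.mem_insert_of_mem hi))
    have hfa := hf a (Finset.mem_insert_self a s)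
    have hca := hc a (Finset.mem_insert_self a s)
    have hfa0 : PDv p 0 (f a) := by
      have : f a = (f a - C (c a)) + C (c a) := by ring
      rw [this]
      exact (hfa.mono (by omega)).add (PDv.C hca)
    rw [Finset.prod_insert ha, Finset.prod_insert ha]
    refine ⟨hfa0.mul_left h1, ?_⟩
    have : f a * ∏ i ∈ s, f i - C (c a * ∏ i ∈ s, c i) =
        (f a - C (c a)) * ∏ i ∈ s, f i + C (c a) * (∏ i ∈ s, f i - C (∏ i ∈ s, c i)) := by
      rw [C_mul]; ring
    rw [this]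
    exact (hfa.mul_right h1).add ((PDv.C hca).mul_left h2)

private lemma Pp_congr (p : ℕ) : PDv p 0 (Pp p) ∧ PDv p 1 (Pp p - C (((p - 1).factorial : ℚ))) := by
  have h := prod_congr_const (p := p) (Finset.Ico 1 p) (fun u => (C (u : ℚ) + C (p : ℚ) * X))
    (fun u => (u : ℚ)) (fun i _ => Dv.nat i) (fun i _ => by
      have : (C (i : ℚ) + C (p : ℚ) * X) - C (i : ℚ) = C (p : ℚ) * X := by ring
      rw [this]
      exact (PDv.C Dv.p_self).mul_right PDv.X)
  have hfac : ∏ u ∈ Finset.Ico 1 p, (u : ℚ) = ((p - 1).factorial : ℚ) := by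
    rcases Nat.eq_zero_or_pos p with h0 | h0
    · subst h0; simp
    · have := Finset.prod_Ico_id_eq_factorial (p - 1)
      rw [Nat.sub_add_cancel h0] at this
      rw [← this]; push_cast; rfl
  rw [hfac] at h
  exact h

private lemma X3_dvd {E : PowerSeries ℚ[X]} (p M : ℕ) (E0 : PowerSeries.constantCoeff E = 1)
    (hX : ∀ n, 1 ≤ n → X ^ 3 ∣ PowerSeries.coeff n E) : X ^ 3 ∣ evT p (M + 3) E - 1 := by
  unfold evT
  rw [Finset.sum_range_succ']
  simp only [mul_zero, pow_zero, C_1, one_mul, PowerSeries.coeff_zero_eq_constantCoeff_apply, E0,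
    add_sub_cancel_right]
  apply Finset.dvd_sum
  intro n _
  exact dvd_mul_of_dvd_right (hX (n + 1) (by omega)) _

private lemma Sb_two : Sb 2 1 = 1 := by
  unfold Sb bet
  rw [show Finset.Ico 1 2 = {1} from rfl]
  simp
  norm_num

private lemma Sb_three : Sb 3 1 = 1 := by
  unfold Sb bet
  rw [show Finset.Ico 1 3 = {1, 2} from rfl]
  simp
  norm_num

private lemma Pp_two : Pp 2 = 1 + 2 * X := by
  unfold Pp
  rw [show Finset.Ico 1 2 = {1} from rfl]
  simp [C2]

private lemma pow_mod4 (a : ℕ) : PDv 2 2 ((1 + 2 * (X : ℚ[X])) ^ a - (1 + 2 * (a : ℚ[X]) * X)) := by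
  induction a with
  | zero => simpa using PDv.zero
  | succ n ih =>
    have : (1 + 2 * (X : ℚ[X])) ^ (n + 1) - (1 + 2 * ((n + 1 : ℕ) : ℚ[X]) * X) =
        ((1 + 2 * (X : ℚ[X])) ^ n - (1 + 2 * (n : ℚ[X]) * X)) * (1 + 2 * X) +
          ((2 : ℕ) : ℚ[X]) * ((2 : ℕ) : ℚ[X]) * ((n : ℚ[X]) * X ^ 2) := by
      push_cast; ring
    rw [this]
    have h2 : PDv 2 0 (1 + 2 * (X : ℚ[X])) := by
      have h := PDv.one.add ((PDv_nat 2 2).mul_left (PDv.X (p := 2)))
      simpa using h
    refine (ih.mul_right h2).add ?_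
    have h3 : PDv 2 2 ((((2 : ℕ) : ℚ[X])) * ((2 : ℕ) : ℚ[X])) := (PDv_p 2).mul (PDv_p 2)
    exact h3.mul_right ((PDv_nat 2 n).mul_left (by simpa using PDv.X.pow 2))

private lemma prod_mod4 (Y : ℚ[X]) (hY : PDv 2 0 Y) (n : ℕ) :
    PDv 2 2 (∏ s ∈ Finset.range n, (1 + 2 * (Y + (s : ℚ[X]))) -
      (1 + 2 * (n : ℚ[X]) * Y + (n : ℚ[X]) * ((n : ℚ[X]) - 1))) := by
  induction n with
  | zero => simpa using PDv.zero
  | succ n ih =>
    rw [Finset.prod_range_succ]
    obtain ⟨k, hk⟩ : ∃ k : ℤ, (n : ℤ) * ((n : ℤ) - 1) = 2 * k := by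
      have := Int.even_mul_pred_self (n : ℤ)
      obtain ⟨k, hk⟩ := this
      exact ⟨k, by rw [hk]; ring⟩
    have hk' : (n : ℚ[X]) * ((n : ℚ[X]) - 1) = 2 * (k : ℚ[X]) := by
      have := congrArg (fun z : ℤ => (z : ℚ[X])) hk
      push_cast at this
      exact this
    have : (∏ s ∈ Finset.range n, (1 + 2 * (Y + (s : ℚ[X])))) * (1 + 2 * (Y + (n : ℚ[X]))) -
        (1 + 2 * ((n + 1 : ℕ) : ℚ[X]) * Y + ((n + 1 : ℕ) : ℚ[X]) * (((n + 1 : ℕ) : ℚ[X]) - 1)) =
        (∏ s ∈ Finset.range n, (1 + 2 * (Y + (s : ℚ[X]))) -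
          (1 + 2 * (n : ℚ[X]) * Y + (n : ℚ[X]) * ((n : ℚ[X]) - 1))) * (1 + 2 * (Y + (n : ℚ[X]))) +
        ((2 : ℕ) : ℚ[X]) * ((2 : ℕ) : ℚ[X]) * ((n : ℚ[X]) * Y * (Y + n) + k * (Y + n)) := by
      push_cast
      linear_combination (2 * (Y + (n : ℚ[X]))) * hk'
    rw [this]
    have h1 : PDv 2 0 (Y + (n : ℚ[X])) := hY.add (PDv_nat 2 n)
    have h2 : PDv 2 0 (1 + 2 * (Y + (n : ℚ[X]))) := by
      have h := PDv.one.add ((PDv_nat 2 2).mul_left h1)
      simpa using h
    refine (ih.mul_right h2).add ?_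
    have h3 : PDv 2 2 ((((2 : ℕ) : ℚ[X])) * ((2 : ℕ) : ℚ[X])) := (PDv_p 2).mul (PDv_p 2)
    exact h3.mul_right ((((PDv_nat 2 n).mul_left hY).mul_left h1).add
      ((PDv_int 2 k).mul_left h1))

private lemma PDv.of_two_mul {k : ℕ} {f : ℚ[X]} (h : PDv 2 (k + 1) (2 * f)) : PDv 2 k f := by
  intro n
  haveI : Fact (Nat.Prime 2) := ⟨Nat.prime_two⟩
  have h1 := h n
  apply Dv.of_p_mul (p := 2)
  have : (2 * f).coeff n = ((2 : ℕ) : ℚ) * f.coeff n := by
    rw [← C2, coeff_C_mul]; norm_num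
  rw [this] at h1
  exact h1

theorem E_main (p : ℕ) [hp : Fact p.Prime] (a M : ℕ) : ∃ F : ℚ[X],
    F.coeff 0 = 1 ∧ F.coeff 1 = 0 ∧ F.coeff 2 = 0 ∧ PDv p 2 (F - 1) ∧
    (p = 2 ∨ p = 3 → PDv p 3 (F - 1 - C ((p : ℚ) ^ 2 * (((a : ℚ) ^ 3 - a) / 6)) * X ^ 3)) ∧
    PDv p M (F.comp (X + 1) * Pp p ^ a -
      C (sg p a) * (F * ∏ s ∈ Finset.range a, (Pp p).comp (C (a : ℚ) * X + C (s : ℚ)))) := by
  obtain ⟨T, hT⟩ := exists_T
  have hl0 : PowerSeries.constantCoeff (lamT T p a) = 0 := by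
    rw [← PowerSeries.coeff_zero_eq_constantCoeff_apply]
    unfold lamT
    rw [PowerSeries.coeff_mk]
    simp
  obtain ⟨E, E0, hE, hE1, hEd, hEX⟩ := exists_expT (lamT T p a) hl0
  have hE' := hEd p hp.out (fun j hj => lam_int hT hp.out a j hj)
  have hX := hEX (fun j => lam_X3 hT p a j)
  have hdvd := X3_dvd p M E0 hX
  obtain ⟨hF2, hF3⟩ := evT_E (p := p) E0 hE' (M := M + 3) (by omega)
  have hsq := sq_eq (p := p) hT a E0 hE hE' (M := M + 3) (by omega)
  set F := evT p (M + 3) E with hF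
  have hc := X_pow_dvd_iff.mp hdvd
  have hFint : PDv p 0 F := by
    have : F = (F - 1) + 1 := by ring
    rw [this]
    exact (hF2.mono (by omega)).add PDv.one
  refine ⟨F, ?_, ?_, ?_, hF2, ?_, ?_⟩
  · have := hc 0 (by omega)
    rw [coeff_sub, coeff_one_zero] at this
    linarith
  · have := hc 1 (by omega)
    rw [coeff_sub, coeff_one] at this
    simpa using this
  · have := hc 2 (by omega)
    rw [coeff_sub, coeff_one] at this
    simpa using this
  · intro h23
    have hS : Sb p 1 = 1 := by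
      rcases h23 with h | h
      · subst h; exact Sb_two
      · subst h; exact Sb_three
    have h3 := hF3
    rw [hE1, lam_one hT, hS, one_mul, ← mul_assoc, ← C_mul] at h3
    exact h3
  · -- the functional equation
    set A := F.comp (X + 1) * Pp p ^ a with hA
    set B := F * ∏ s ∈ Finset.range a, (Pp p).comp (C (a : ℚ) * X + C (s : ℚ)) with hB
    have hX1 : PDv p 0 ((X : ℚ[X]) + 1) := PDv.X.add PDv.one
    have hlin : ∀ s : ℕ, PDv p 0 (C (a : ℚ) * X + C (s : ℚ)) := fun s =>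
      ((PDv.C (Dv.nat a)).mul_left PDv.X).add (PDv.C (Dv.nat s))
    obtain ⟨hP0, hP1⟩ := Pp_congr p
    have hFc0 : PDv p 0 (F.comp (X + 1)) := hFint.comp hX1
    have hFc2 : PDv p 2 (F.comp (X + 1) - 1) := by
      have h := hF2.comp hX1
      rw [sub_comp, one_comp] at h
      exact h
    have hQ0 : PDv p 0 (∏ s ∈ Finset.range a, (Pp p).comp (C (a : ℚ) * X + C (s : ℚ))) :=
      PDv.prod _ _ (fun s _ => hP0.comp (hlin s))
    have hA0 : PDv p 0 A := hFc0.mul_left (hP0.pow0 a)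
    have hB0 : PDv p 0 B := hFint.mul_left hQ0
    by_cases h2 : p = 2
    · subst h2
      -- p = 2
      have hPa := pow_mod4 a
      have hprod := prod_mod4 ((a : ℚ[X]) * X) ((PDv_nat 2 a).mul_left PDv.X) a
      have hQeq : (∏ s ∈ Finset.range a, (Pp 2).comp (C (a : ℚ) * X + C (s : ℚ))) =
          ∏ s ∈ Finset.range a, (1 + 2 * ((a : ℚ[X]) * X + (s : ℚ[X]))) := by
        apply Finset.prod_congr rfl
        intro s _
        rw [Pp_two]
        simp
      have hAm : PDv 2 2 (A - (1 + 2 * (a : ℚ[X]) * X)) := by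
        have : A - (1 + 2 * (a : ℚ[X]) * X) = (F.comp (X + 1) - 1) * Pp 2 ^ a +
            ((1 + 2 * (X : ℚ[X])) ^ a - (1 + 2 * (a : ℚ[X]) * X)) := by
          rw [hA, Pp_two]; ring
        rw [this]
        exact (hFc2.mul_right (hP0.pow0 a)).add hPa
      have hBm : PDv 2 2 (B - (1 + 2 * (a : ℚ[X]) * ((a : ℚ[X]) * X) +
          (a : ℚ[X]) * ((a : ℚ[X]) - 1))) := by
        have : B - (1 + 2 * (a : ℚ[X]) * ((a : ℚ[X]) * X) + (a : ℚ[X]) * ((a : ℚ[X]) - 1)) =
            (F - 1) * (∏ s ∈ Finset.range a, (Pp 2).comp (C (a : ℚ) * X + C (s : ℚ))) +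
            (∏ s ∈ Finset.range a, (1 + 2 * ((a : ℚ[X]) * X + (s : ℚ[X]))) -
              (1 + 2 * (a : ℚ[X]) * ((a : ℚ[X]) * X) + (a : ℚ[X]) * ((a : ℚ[X]) - 1))) := by
          rw [hB, ← hQeq]; ring
        rw [this]
        exact (hF2.mul_right hQ0).add hprod
      have h22 : PDv 2 2 ((((2 : ℕ) : ℚ[X])) * ((2 : ℕ) : ℚ[X])) := (PDv_p 2).mul (PDv_p 2)
      -- parity
      obtain ⟨k, hk⟩ : ∃ k : ℕ, a * (a - 1) = 2 * k := by
        have h := Nat.even_mul_pred_self a
        obtain ⟨k, hk⟩ := h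
        exact ⟨k, by omega⟩
      have hkX : (a : ℚ[X]) * ((a : ℚ[X]) - 1) = 2 * (k : ℚ[X]) := by
        rcases Nat.eq_zero_or_pos a with h0 | h0
        · subst h0
          have : k = 0 := by omega
          subst this
          simp
        · have := congrArg (fun z : ℕ => (z : ℚ[X])) hk
          push_cast [Nat.cast_sub h0] at this
          exact this
      have hdiv : a * (a - 1) / 2 = k := by omega
      have hσ : sg 2 a = (-1) ^ k := by
        unfold sg
        rw [if_pos rfl, hdiv]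
      set σ : ℚ := sg 2 a with hσdef
      have hσ2 : σ * σ = 1 := by
        rw [hσ, ← pow_add, ← two_mul, pow_mul]
        simp
      have hσ0 : σ ≠ 0 := by
        intro h0; rw [h0] at hσ2; norm_num at hσ2
      have hσint : Dv 2 0 σ := by
        rw [hσ]
        have h : Dv 2 0 (-1 : ℚ) := Dv.one.neg
        exact h.pow0 k
      have hσinv : Dv 2 0 σ⁻¹ := by
        have : σ⁻¹ = σ := by
          rw [inv_eq_iff_eq_inv]
          exact eq_inv_of_mul_eq_one_left hσ2
        rw [this]; exact hσint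
      have hCσ2 : (C σ : ℚ[X]) * C σ = 1 := by rw [← C_mul, hσ2, C_1]
      -- D = A - σ B ∈ 4
      have hD : PDv 2 2 (A - C σ * B) := by
        rcases Nat.even_or_odd k with he | ho
        · have hs1 : σ = 1 := by rw [hσ]; exact he.neg_one_pow
          obtain ⟨l, hl⟩ := he
          have hlX : (k : ℚ[X]) = 2 * (l : ℚ[X]) := by
            have := congrArg (fun z : ℕ => (z : ℚ[X])) hl
            push_cast at this
            rw [this]; ring
          rw [hs1, C_1, one_mul]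
          have : A - B = (A - (1 + 2 * (a : ℚ[X]) * X)) -
              (B - (1 + 2 * (a : ℚ[X]) * ((a : ℚ[X]) * X) + (a : ℚ[X]) * ((a : ℚ[X]) - 1))) -
              ((2 : ℕ) : ℚ[X]) * ((2 : ℕ) : ℚ[X]) * ((k : ℚ[X]) * X + (l : ℚ[X])) := by
            push_cast
            linear_combination (-(2 * X) - 1) * hkX + (-2) * hlX
          rw [this]
          exact (hAm.sub hBm).sub (h22.mul_right
            (((PDv_nat 2 k).mul_left PDv.X).add (PDv_nat 2 l)))
        · have hs1 : σ = -1 := by rw [hσ]; exact ho.neg_one_pow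
          obtain ⟨l, hl⟩ := ho
          have hlX : (k : ℚ[X]) = 2 * (l : ℚ[X]) + 1 := by
            have := congrArg (fun z : ℕ => (z : ℚ[X])) hl
            push_cast at this
            exact this
          rw [hs1, C_neg, C_1]
          have : A - -1 * B = (A - (1 + 2 * (a : ℚ[X]) * X)) +
              (B - (1 + 2 * (a : ℚ[X]) * ((a : ℚ[X]) * X) + (a : ℚ[X]) * ((a : ℚ[X]) - 1))) +
              ((2 : ℕ) : ℚ[X]) * ((2 : ℕ) : ℚ[X]) *
                (1 + (l : ℚ[X]) + ((k : ℚ[X]) + (a : ℚ[X])) * X) := by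
            push_cast
            linear_combination (2 * X + 1) * hkX + 2 * hlX
          rw [this]
          exact (hAm.add hBm).add (h22.mul_right
            ((PDv.one.add (PDv_nat 2 l)).add (((PDv_nat 2 k).add (PDv_nat 2 a)).mul_left PDv.X)))
      -- g = σ B + D / 2
      have hhalf : PDv 2 1 (C (1 / 2 : ℚ) * (A - C σ * B)) := by
        apply PDv.of_two_mul
        have : (2 : ℚ[X]) * (C (1 / 2 : ℚ) * (A - C σ * B)) = A - C σ * B := by
          rw [← mul_assoc]
          have : (2 : ℚ[X]) * C (1 / 2 : ℚ) = 1 := by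
            rw [← C2, ← C_mul]; norm_num
          rw [this, one_mul]
        rw [this]
        exact hD
      have hB1 : PDv 2 1 (B - 1) := by
        have : B - 1 = (B - (1 + 2 * (a : ℚ[X]) * ((a : ℚ[X]) * X) +
            (a : ℚ[X]) * ((a : ℚ[X]) - 1))) +
            ((2 : ℕ) : ℚ[X]) * ((a : ℚ[X]) * ((a : ℚ[X]) * X) + (k : ℚ[X])) := by
          push_cast
          linear_combination hkX
        rw [this]
        exact (hBm.mono (by omega)).add ((PDv_p 2).mul_right
          (((PDv_nat 2 a).mul_left ((PDv_nat 2 a).mul_left PDv.X)).add (PDv_nat 2 k)))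
      have hg : PDv 2 1 ((C σ * B + C (1 / 2 : ℚ) * (A - C σ * B)) - C σ) := by
        have : (C σ * B + C (1 / 2 : ℚ) * (A - C σ * B)) - C σ =
            C σ * (B - 1) + C (1 / 2 : ℚ) * (A - C σ * B) := by ring
        rw [this]
        exact ((PDv.C hσint).mul_left hB1).add hhalf
      have hprodDg : PDv 2 (M + 2) ((A - C σ * B) *
          (C σ * B + C (1 / 2 : ℚ) * (A - C σ * B))) := by
        apply PDv.of_two_mul
        have : (2 : ℚ[X]) * ((A - C σ * B) * (C σ * B + C (1 / 2 : ℚ) * (A - C σ * B))) =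
            A ^ 2 - B ^ 2 := by
          have h1 : (2 : ℚ[X]) * C (1 / 2 : ℚ) = 1 := by
            rw [← C2, ← C_mul]; norm_num
          linear_combination ((A - C σ * B) ^ 2) * h1 + (-B ^ 2) * hCσ2
        rw [this]
        exact hsq
      exact (PDv.of_mul_unit hσinv hσ0 hg (hD.mono (by omega)) hprodDg).mono (by omega)
    · -- p odd
      have hs : sg p a = 1 := by unfold sg; rw [if_neg h2]
      rw [hs, C_1, one_mul]
      set u : ℕ := 2 * ((p - 1).factorial) ^ a with hu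
      have hcop : Nat.Coprime u p := by
        rw [hu]
        apply Nat.Coprime.mul_left
        · rw [Nat.coprime_primes Nat.prime_two hp.out]
          exact fun h => h2 h.symm
        · apply Nat.Coprime.pow_left
          rw [Nat.coprime_comm, Nat.Prime.coprime_iff_not_dvd hp.out, Nat.Prime.dvd_factorial hp.out]
          have := hp.out.pos
          omega
      have hu0 : (u : ℚ) ≠ 0 := by
        have : u ≠ 0 := by
          intro h0
          rw [h0, Nat.coprime_zero_left] at hcop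
          exact hp.out.one_lt.ne' hcop
        exact_mod_cast this
      have hfacint : Dv p 0 (((p - 1).factorial : ℚ)) := Dv.nat _
      have hPa : PDv p 1 (Pp p ^ a - C ((((p - 1).factorial : ℚ)) ^ a)) := by
        have h := (prod_congr_const (p := p) (Finset.range a) (fun _ => Pp p)
          (fun _ => ((p - 1).factorial : ℚ)) (fun _ _ => hfacint) (fun _ _ => hP1)).2
        simpa [Finset.prod_const] using h
      have hQ : PDv p 1 ((∏ s ∈ Finset.range a, (Pp p).comp (C (a : ℚ) * X + C (s : ℚ))) -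
          C ((((p - 1).factorial : ℚ)) ^ a)) := by
        have h := (prod_congr_const (p := p) (Finset.range a)
          (fun s => (Pp p).comp (C (a : ℚ) * X + C (s : ℚ)))
          (fun _ => ((p - 1).factorial : ℚ)) (fun _ _ => hfacint) (fun s _ => by
            have h := hP1.comp (hlin s)
            rw [sub_comp, C_comp] at h
            exact h)).2
        rw [Finset.prod_const, Finset.card_range] at h
        exact h
      have hA1 : PDv p 1 (A - C ((((p - 1).factorial : ℚ)) ^ a)) := by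
        have : A - C ((((p - 1).factorial : ℚ)) ^ a) = (F.comp (X + 1) - 1) * Pp p ^ a +
            (Pp p ^ a - C ((((p - 1).factorial : ℚ)) ^ a)) := by rw [hA]; ring
        rw [this]
        exact ((hFc2.mono (by omega)).mul_right (hP0.pow0 a)).add hPa
      have hB1 : PDv p 1 (B - C ((((p - 1).factorial : ℚ)) ^ a)) := by
        have : B - C ((((p - 1).factorial : ℚ)) ^ a) =
            (F - 1) * (∏ s ∈ Finset.range a, (Pp p).comp (C (a : ℚ) * X + C (s : ℚ))) +
            ((∏ s ∈ Finset.range a, (Pp p).comp (C (a : ℚ) * X + C (s : ℚ))) -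
              C ((((p - 1).factorial : ℚ)) ^ a)) := by rw [hB]; ring
        rw [this]
        exact ((hF2.mono (by omega)).mul_right hQ0).add hQ
      have hg : PDv p 1 ((A + B) - C (u : ℚ)) := by
        have : (A + B) - C (u : ℚ) = (A - C ((((p - 1).factorial : ℚ)) ^ a)) +
            (B - C ((((p - 1).factorial : ℚ)) ^ a)) := by
          have : (C (u : ℚ) : ℚ[X]) = 2 * C ((((p - 1).factorial : ℚ)) ^ a) := by
            rw [← C2, ← C_mul, hu]
            push_cast; rfl
          rw [this]; ring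
        rw [this]
        exact hA1.add hB1
      have hfg : PDv p (M + 3) ((A - B) * (A + B)) := by
        have : (A - B) * (A + B) = A ^ 2 - B ^ 2 := by ring
        rw [this]; exact hsq
      exact (PDv.of_mul_unit (Dv.inv_nat hcop) hu0 hg (hA0.sub hB0) hfg).mono (by omega)

end KPInt
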