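import Pool.Agent.Lib.KPInt.EFun

/-!
# ESq: evaluation at T = p^2 and the squared functional equation modulo p^M

Fix a prime `p` and `M ≥ 2`. `evT M f = ∑_{n<M} p^(2n) f_n`. Class `WT p f`: `p^n f_n` is `p`-integral
for all `n`.

PROOFS.
* `WT` is closed under products (`coeff_mul`), powers, finite products; contains `1`, `1 + c T` with
  `c` `p`-integral (`p c` integral), and `E` with `p^(n-1) E_n` integral for `n ≥ 1`, `E_0 = 1`;
  closed under `shiftT` (`PDv.comp`).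
* `evT_int`: `p^(2n) f_n = p^n (p^n f_n)`.
* `evT_mul`: `evT M (f g) - evT M f * evT M g = - ∑_{i,j<M, i+j≥M} p^(2i) f_i p^(2j) g_j`, each term is in
  `p^(i+j)`. (Write `evT M (f g) = ∑_{i,j<M, i+j<M} p^(2i) f_i p^(2j) g_j`.)
* `evT_pow`, `evT_prod`: induction with `evT_mul`, `evT_int`.
* `evT_linear`: for `M ≥ 2` exactly `1 + p^2 c`.
* `Pp_sq`: `P(x) = ∏_{u=1}^{p-1} (u + p x)`. `P^2 = ∏_u (u + p x)(p - u + p x)` (reflection `u ↦ p - u`,
  `Finset.prod_Ico_reflect` or `Finset.prod_bij`), `(u + p x)(p - u + p x) = u(p-u) + p^2 x(x+1)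
  = u(p-u)(1 + p^2 β_u y)`, and `∏_u u (p-u) = ((p-1)!)^2`.
* `sq_eq`: apply `evT M` to `funEq` (`F = evT M E`, `evT M (shiftT E) = F.comp (X+1)`), multiply by
  `((p-1)!)^(2a)` and use `Pp_sq` and its composition with `a x + s`.
* `evT_E`: coefficients: `F - 1 = ∑_{1≤n<M} p^(2n) E_n`, `p^(2n) E_n = p^(n+1) (p^(n-1) E_n)`.
-/

set_option autoImplicit false

namespace KPInt

open Polynomial

variable {p : ℕ} [hp : Fact p.Prime]

/-- `p^n f_n` integral -/
def WT (p : ℕ) (f : PowerSeries ℚ[X]) : Prop :=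
  ∀ n, PDv p 0 (C ((p : ℚ) ^ n) * PowerSeries.coeff n f)

/-- evaluation at `T = p^2`, truncated -/
noncomputable def evT (p M : ℕ) (f : PowerSeries ℚ[X]) : ℚ[X] :=
  ∑ n ∈ Finset.range M, C ((p : ℚ) ^ (2 * n)) * PowerSeries.coeff n f

/-- `P(x) = ∏_{u=1}^{p-1} (u + p x)` -/
noncomputable def Pp (p : ℕ) : ℚ[X] := ∏ u ∈ Finset.Ico 1 p, (C (u : ℚ) + C (p : ℚ) * X)

private lemma esq_C_mul_pow (k l : ℕ) (f g : ℚ[X]) :
    C ((p : ℚ) ^ (k + l)) * (f * g) = (C ((p : ℚ) ^ k) * f) * (C ((p : ℚ) ^ l) * g) := by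
  rw [pow_add, C_mul]; ring

lemma WT.mul {f g : PowerSeries ℚ[X]} (hf : WT p f) (hg : WT p g) : WT p (f * g) := by
  intro n
  rw [PowerSeries.coeff_mul, Finset.mul_sum]
  apply PDv.sum
  intro x hx
  rw [Finset.HasAntidiagonal.mem_antidiagonal] at hx
  rw [← hx, esq_C_mul_pow]
  exact (hf _).mul_left (hg _)

lemma WT.one : WT p 1 := by
  intro n
  rw [PowerSeries.coeff_one]
  split_ifs with h
  · subst h
    simpa using PDv.one
  · simpa using PDv.zero

lemma WT.pow {f : PowerSeries ℚ[X]} (hf : WT p f) (n : ℕ) : WT p (f ^ n) := by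
  induction n with
  | zero => simpa using WT.one
  | succ n ih => rw [pow_succ]; exact ih.mul hf

lemma WT.prod {ι : Type*} (s : Finset ι) (f : ι → PowerSeries ℚ[X]) (h : ∀ i ∈ s, WT p (f i)) :
    WT p (∏ i ∈ s, f i) := by
  classical
  induction s using Finset.induction_on with
  | empty => simpa using WT.one
  | insert a s ha ih =>
    rw [Finset.prod_insert ha]
    exact (h a (Finset.mem_insert_self a s)).mul
      (ih (fun i hi => h i (Finset.mem_insert_of_mem hi)))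

private lemma esq_coeff_lin (c : ℚ[X]) (n : ℕ) :
    PowerSeries.coeff n (1 + PowerSeries.C c * PowerSeries.X) =
      if n = 0 then 1 else if n = 1 then c else 0 := by
  rw [map_add, PowerSeries.coeff_C_mul, PowerSeries.coeff_one, PowerSeries.coeff_X]
  rcases Nat.eq_zero_or_pos n with h | h
  · subst h; simp
  · rcases Nat.eq_or_lt_of_le h with h1 | h1
    · have : n = 1 := h1.symm
      subst this; simp
    · have h0 : n ≠ 0 := by omega
      have h2 : n ≠ 1 := by omega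
      simp [h0, h2]

lemma WT.linear {c : ℚ[X]} (hc : PDv p 0 c) : WT p (1 + PowerSeries.C c * PowerSeries.X) := by
  intro n
  rw [esq_coeff_lin]
  split_ifs with h h1
  · subst h; simpa using PDv.one
  · exact (PDv.C ((Dv.ppow n).mono (Nat.zero_le n))).mul_left hc
  · simpa using PDv.zero

private lemma esq_coeff_shift (f : PowerSeries ℚ[X]) (n : ℕ) :
    PowerSeries.coeff n (shiftT f) = (PowerSeries.coeff n f).comp (X + 1) := by
  rw [shiftT, PowerSeries.coeff_map, Polynomial.coe_compRingHom_apply]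

private lemma esq_PDv_X1 : PDv p 0 (X + 1 : ℚ[X]) := PDv.X.add PDv.one

lemma WT.shift {f : PowerSeries ℚ[X]} (hf : WT p f) : WT p (shiftT f) := by
  intro n
  rw [esq_coeff_shift]
  have h := (hf n).comp (esq_PDv_X1 (p := p))
  rwa [mul_comp, C_comp] at h

lemma WT.of_sub {E : PowerSeries ℚ[X]} (E0 : PowerSeries.constantCoeff E = 1)
    (hE : ∀ n, 1 ≤ n → PDv p 0 (C ((p : ℚ) ^ (n - 1)) * PowerSeries.coeff n E)) : WT p E := by
  intro n
  rcases Nat.eq_zero_or_pos n with h | h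
  · subst h
    rw [PowerSeries.coeff_zero_eq_constantCoeff_apply, E0]
    simpa using PDv.one
  · have h1 := hE n h
    have h2 : C ((p : ℚ) ^ n) * PowerSeries.coeff n E =
        C ((p : ℚ) ^ 1) * (C ((p : ℚ) ^ (n - 1)) * PowerSeries.coeff n E) := by
      rw [← mul_assoc, ← C_mul, ← pow_add]
      congr 3
      omega
    rw [h2]
    exact (PDv.C ((Dv.ppow 1).mono (Nat.zero_le 1))).mul_left h1

private lemma esq_term {f : PowerSeries ℚ[X]} (hf : WT p f) (n : ℕ) :
    PDv p n (C ((p : ℚ) ^ (2 * n)) * PowerSeries.coeff n f) := by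
  have h2 : C ((p : ℚ) ^ (2 * n)) * PowerSeries.coeff n f =
      C ((p : ℚ) ^ n) * (C ((p : ℚ) ^ n) * PowerSeries.coeff n f) := by
    rw [← mul_assoc, ← C_mul, ← pow_add]
    congr 3
    omega
  rw [h2]
  exact (PDv.C (Dv.ppow n)).mul_right (hf n)

lemma evT_int {f : PowerSeries ℚ[X]} (hf : WT p f) (M : ℕ) : PDv p 0 (evT p M f) := by
  unfold evT
  exact PDv.sum _ _ (fun n _ => (esq_term hf n).mono (Nat.zero_le n))

private lemma esq_evT_mul_eq (f g : PowerSeries ℚ[X]) (M : ℕ) :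
    evT p M (f * g) = ∑ m ∈ Finset.range M, ∑ k ∈ Finset.range (M - m),
      (C ((p : ℚ) ^ (2 * m)) * PowerSeries.coeff m f) *
        (C ((p : ℚ) ^ (2 * k)) * PowerSeries.coeff k g) := by
  rw [← Finset.sum_range_diag_flip]
  unfold evT
  apply Finset.sum_congr rfl
  intro n _
  rw [PowerSeries.coeff_mul, Finset.mul_sum,
    Finset.Nat.sum_antidiagonal_eq_sum_range_succ_mk]
  apply Finset.sum_congr rfl
  intro k hk
  rw [Finset.mem_range] at hk
  rw [← esq_C_mul_pow]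
  congr 3
  omega

lemma evT_mul {f g : PowerSeries ℚ[X]} (hf : WT p f) (hg : WT p g) (M : ℕ) :
    PDv p M (evT p M (f * g) - evT p M f * evT p M g) := by
  have h1 : evT p M (f * g) - evT p M f * evT p M g =
      -∑ m ∈ Finset.range M, ∑ k ∈ Finset.Ico (M - m) M,
      (C ((p : ℚ) ^ (2 * m)) * PowerSeries.coeff m f) *
        (C ((p : ℚ) ^ (2 * k)) * PowerSeries.coeff k g) := by
    rw [esq_evT_mul_eq]
    unfold evT
    rw [Finset.sum_mul_sum, ← Finset.sum_sub_distrib, ← Finset.sum_neg_distrib]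
    apply Finset.sum_congr rfl
    intro m _
    have h2 := Finset.sum_range_add_sum_Ico (fun k =>
      (C ((p : ℚ) ^ (2 * m)) * PowerSeries.coeff m f) *
        (C ((p : ℚ) ^ (2 * k)) * PowerSeries.coeff k g)) (Nat.sub_le M m)
    rw [← h2]
    ring
  rw [h1]
  apply PDv.neg
  apply PDv.sum
  intro m _
  apply PDv.sum
  intro k hk
  rw [Finset.mem_Ico] at hk
  exact ((esq_term hf m).mul (esq_term hg k)).mono (by omega)

private lemma esq_evT_one {M : ℕ} (hM : 1 ≤ M) : evT p M 1 = 1 := by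
  unfold evT
  rw [Finset.sum_eq_single 0]
  · simp
  · intro b _ hb
    rw [PowerSeries.coeff_one, if_neg hb, mul_zero]
  · intro h
    exact absurd (Finset.mem_range.mpr hM) h

lemma evT_pow {f : PowerSeries ℚ[X]} (hf : WT p f) {M : ℕ} (hM : 1 ≤ M) (n : ℕ) :
    PDv p M (evT p M (f ^ n) - evT p M f ^ n) := by
  induction n with
  | zero =>
    rw [pow_zero, pow_zero, esq_evT_one hM, sub_self]
    exact PDv.zero
  | succ n ih =>
    have h1 := evT_mul (hf.pow n) hf M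
    have h2 := ih.mul_right (evT_int hf M)
    have h3 := h1.add h2
    rw [pow_succ, pow_succ]
    convert h3 using 1
    ring

lemma evT_prod {M : ℕ} (hM : 1 ≤ M) {ι : Type*} (s : Finset ι) (f : ι → PowerSeries ℚ[X])
    (h : ∀ i ∈ s, WT p (f i)) :
    PDv p M (evT p M (∏ i ∈ s, f i) - ∏ i ∈ s, evT p M (f i)) := by
  classical
  induction s using Finset.induction_on with
  | empty =>
    rw [Finset.prod_empty, Finset.prod_empty, esq_evT_one hM, sub_self]
    exact PDv.zero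
  | insert a s ha ih =>
    rw [Finset.prod_insert ha, Finset.prod_insert ha]
    have ha' := h a (Finset.mem_insert_self a s)
    have hs' : ∀ i ∈ s, WT p (f i) := fun i hi => h i (Finset.mem_insert_of_mem hi)
    have h1 := evT_mul ha' (WT.prod s f hs') M
    have h2 := (evT_int ha' M).mul_left (ih hs')
    convert h1.add h2 using 1
    ring

lemma evT_linear (c : ℚ[X]) {M : ℕ} (hM : 2 ≤ M) :
    evT p M (1 + PowerSeries.C c * PowerSeries.X) = 1 + C ((p : ℚ) ^ 2) * c := by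
  unfold evT
  have h1 : Finset.range M = Finset.range 2 ∪ Finset.Ico 2 M := by
    ext x
    simp only [Finset.mem_range, Finset.mem_union, Finset.mem_Ico]
    omega
  have h2 := Finset.sum_range_add_sum_Ico (fun n => C ((p : ℚ) ^ (2 * n)) *
    PowerSeries.coeff n (1 + PowerSeries.C c * PowerSeries.X)) hM
  rw [← h2]
  have h3 : ∑ n ∈ Finset.Ico 2 M, C ((p : ℚ) ^ (2 * n)) *
      PowerSeries.coeff n (1 + PowerSeries.C c * PowerSeries.X) = 0 := by
    apply Finset.sum_eq_zero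
    intro n hn
    rw [Finset.mem_Ico] at hn
    rw [esq_coeff_lin, if_neg (by omega), if_neg (by omega), mul_zero]
  rw [h3, add_zero, Finset.sum_range_succ, Finset.sum_range_one, esq_coeff_lin, esq_coeff_lin]
  simp

lemma evT_shift (f : PowerSeries ℚ[X]) (M : ℕ) :
    evT p M (shiftT f) = (evT p M f).comp (X + 1) := by
  unfold evT
  rw [Polynomial.sum_comp]
  apply Finset.sum_congr rfl
  intro n _
  rw [esq_coeff_shift, mul_comp, C_comp]

private lemma esq_refl_prod (f : ℕ → ℚ[X]) :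
    ∏ u ∈ Finset.Ico 1 p, f u = ∏ u ∈ Finset.Ico 1 p, f (p - u) := by
  apply Finset.prod_bij (fun u _ => p - u)
  · intro u hu
    rw [Finset.mem_Ico] at hu ⊢
    omega
  · intro u hu v hv huv
    rw [Finset.mem_Ico] at hu hv
    omega
  · intro v hv
    rw [Finset.mem_Ico] at hv
    exact ⟨p - v, by rw [Finset.mem_Ico]; omega, by omega⟩
  · intro u hu
    rw [Finset.mem_Ico] at hu
    congr 1
    omega

private lemma esq_refl_prodQ (f : ℕ → ℚ) :
    ∏ u ∈ Finset.Ico 1 p, f u = ∏ u ∈ Finset.Ico 1 p, f (p - u) := by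
  apply Finset.prod_bij (fun u _ => p - u)
  · intro u hu
    rw [Finset.mem_Ico] at hu ⊢
    omega
  · intro u hu v hv huv
    rw [Finset.mem_Ico] at hu hv
    omega
  · intro v hv
    rw [Finset.mem_Ico] at hv
    exact ⟨p - v, by rw [Finset.mem_Ico]; omega, by omega⟩
  · intro u hu
    rw [Finset.mem_Ico] at hu
    congr 1
    omega

private lemma esq_fact : ∏ u ∈ Finset.Ico 1 p, (u : ℚ) = ((p - 1).factorial : ℚ) := by
  have h := Finset.prod_Ico_id_eq_factorial (p - 1)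
  have h1 : p - 1 + 1 = p := Nat.sub_add_cancel hp.out.one_lt.le
  rw [h1] at h
  rw [← h]
  push_cast
  rfl

private lemma esq_fact2 :
    ∏ u ∈ Finset.Ico 1 p, ((u : ℚ) * ((p : ℚ) - u)) = ((p - 1).factorial : ℚ) ^ 2 := by
  rw [Finset.prod_mul_distrib, esq_fact, sq]
  congr 1
  rw [← esq_fact, esq_refl_prodQ]
  apply Finset.prod_congr rfl
  intro u hu
  rw [Finset.mem_Ico] at hu
  rw [Nat.cast_sub (by omega)]
  try ring

lemma Pp_sq : Pp p ^ 2 = C (((p - 1).factorial : ℚ) ^ 2) *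
    ∏ u ∈ Finset.Ico 1 p, (1 + C ((p : ℚ) ^ 2) * (C (bet p u) * yy)) := by
  have h1 : Pp p = ∏ u ∈ Finset.Ico 1 p, (C (((p - u : ℕ) : ℚ)) + C (p : ℚ) * X) := by
    unfold Pp
    rw [esq_refl_prod]
  have h2 : Pp p ^ 2 = (∏ u ∈ Finset.Ico 1 p, (C (u : ℚ) + C (p : ℚ) * X)) *
      ∏ u ∈ Finset.Ico 1 p, (C (((p - u : ℕ) : ℚ)) + C (p : ℚ) * X) := by
    rw [← h1, sq]
    rfl
  rw [h2, ← Finset.prod_mul_distrib, ← esq_fact2, map_prod, ← Finset.prod_mul_distrib]
  apply Finset.prod_congr rfl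
  intro u hu
  rw [Finset.mem_Ico] at hu
  rw [Nat.cast_sub (by omega)]
  have hu0 : (u : ℚ) ≠ 0 := by
    have : u ≠ 0 := by omega
    exact_mod_cast this
  have hpu : (p : ℚ) - u ≠ 0 := by
    have : (u : ℚ) < p := by exact_mod_cast hu.2
    intro h
    linarith
  have hb : C ((u : ℚ) * ((p : ℚ) - u)) * C (bet p u) = (1 : ℚ[X]) := by
    rw [← C_mul, bet, mul_one_div_cancel (mul_ne_zero hu0 hpu), C_1]
  have h4 : C ((u : ℚ) * ((p : ℚ) - u)) * (1 + C ((p : ℚ) ^ 2) * (C (bet p u) * yy)) =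
      C ((u : ℚ) * ((p : ℚ) - u)) +
        (C ((u : ℚ) * ((p : ℚ) - u)) * C (bet p u)) * (C ((p : ℚ) ^ 2) * yy) := by ring
  rw [h4, hb, yy, C_mul, C_sub, C_pow]
  ring

private lemma esq_evT_E_sum {E : PowerSeries ℚ[X]} (E0 : PowerSeries.constantCoeff E = 1)
    {M : ℕ} (hM : 2 ≤ M) : evT p M E - 1 - C ((p : ℚ) ^ 2) * PowerSeries.coeff 1 E =
      ∑ n ∈ Finset.Ico 2 M, C ((p : ℚ) ^ (2 * n)) * PowerSeries.coeff n E := by
  unfold evT
  rw [← Finset.sum_range_add_sum_Ico (fun n => C ((p : ℚ) ^ (2 * n)) *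
    PowerSeries.coeff n E) hM, Finset.sum_range_succ, Finset.sum_range_one,
    PowerSeries.coeff_zero_eq_constantCoeff_apply, E0]
  simp only [mul_zero, pow_zero, C_1, mul_one]
  ring

private lemma esq_term2 {E : PowerSeries ℚ[X]}
    (hE : ∀ n, 1 ≤ n → PDv p 0 (C ((p : ℚ) ^ (n - 1)) * PowerSeries.coeff n E)) {n : ℕ}
    (hn : 1 ≤ n) : PDv p (n + 1) (C ((p : ℚ) ^ (2 * n)) * PowerSeries.coeff n E) := by
  have h2 : C ((p : ℚ) ^ (2 * n)) * PowerSeries.coeff n E =
      C ((p : ℚ) ^ (n + 1)) * (C ((p : ℚ) ^ (n - 1)) * PowerSeries.coeff n E) := by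
    rw [← mul_assoc, ← C_mul, ← pow_add]
    congr 3
    omega
  rw [h2]
  exact (PDv.C (Dv.ppow (n + 1))).mul_right (hE n hn)

/-- the truncated value `F` of `E` at `T = p^2` -/
lemma evT_E {E : PowerSeries ℚ[X]} (E0 : PowerSeries.constantCoeff E = 1)
    (hE : ∀ n, 1 ≤ n → PDv p 0 (C ((p : ℚ) ^ (n - 1)) * PowerSeries.coeff n E)) {M : ℕ}
    (hM : 2 ≤ M) : PDv p 2 (evT p M E - 1) ∧
      PDv p 3 (evT p M E - 1 - C ((p : ℚ) ^ 2) * PowerSeries.coeff 1 E) := by
  have h3 : PDv p 3 (evT p M E - 1 - C ((p : ℚ) ^ 2) * PowerSeries.coeff 1 E) := by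
    rw [esq_evT_E_sum E0 hM]
    apply PDv.sum
    intro n hn
    rw [Finset.mem_Ico] at hn
    exact (esq_term2 hE (by omega)).mono (by omega)
  refine ⟨?_, h3⟩
  have h1 := esq_term2 hE (n := 1) le_rfl
  have h4 := (h3.mono (by omega : 2 ≤ 3)).add h1
  convert h4 using 1
  ring

/-- the squared functional equation modulo `p^M` -/
theorem sq_eq {T : ℕ → ℚ[X]} (hT : IsT T) (a : ℕ) {E : PowerSeries ℚ[X]}
    (E0 : PowerSeries.constantCoeff E = 1) (hE : tT E = E * tT (lamT T p a))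
    (hE' : ∀ n, 1 ≤ n → PDv p 0 (C ((p : ℚ) ^ (n - 1)) * PowerSeries.coeff n E)) {M : ℕ}
    (hM : 2 ≤ M) :
    PDv p M (((evT p M E).comp (X + 1) * Pp p ^ a) ^ 2 -
      (evT p M E * ∏ s ∈ Finset.range a, (Pp p).comp (C (a : ℚ) * X + C (s : ℚ))) ^ 2) := by
  have hM1 : 1 ≤ M := by omega
  have hW := WT.of_sub E0 hE'
  have hyy : PDv p 0 yy := PDv.X.mul_left esq_PDv_X1
  have hlin : ∀ s : ℕ, PDv p 0 (C (a : ℚ) * X + C (s : ℚ)) := fun s =>
    ((PDv.C (Dv.nat a)).mul_left PDv.X).add (PDv.C (Dv.nat s))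
  have hu1 : ∀ u ∈ Finset.Ico 1 p,
      WT p (1 + PowerSeries.C (C (bet p u) * yy) * PowerSeries.X) := fun u hu =>
    WT.linear ((PDv.C (bet_int hp.out hu)).mul_left hyy)
  have hu2 : ∀ s : ℕ, ∀ u ∈ Finset.Ico 1 p,
      WT p (1 + PowerSeries.C (C (bet p u) * yy.comp (C (a : ℚ) * X + C (s : ℚ))) *
        PowerSeries.X) := fun s u hu =>
    WT.linear ((PDv.C (bet_int hp.out hu)).mul_left (hyy.comp (hlin s)))
  -- the left-hand side
  set Q1 : PowerSeries ℚ[X] := ∏ u ∈ Finset.Ico 1 p,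
    (1 + PowerSeries.C (C (bet p u) * yy) * PowerSeries.X) with hQ1
  set Q2 : ℕ → PowerSeries ℚ[X] := fun s => ∏ u ∈ Finset.Ico 1 p,
    (1 + PowerSeries.C (C (bet p u) * yy.comp (C (a : ℚ) * X + C (s : ℚ))) *
      PowerSeries.X) with hQ2
  set q1 : ℚ[X] := ∏ u ∈ Finset.Ico 1 p, (1 + C ((p : ℚ) ^ 2) * (C (bet p u) * yy)) with hq1
  set q2 : ℕ → ℚ[X] := fun s => ∏ u ∈ Finset.Ico 1 p, (1 + C ((p : ℚ) ^ 2) *
    (C (bet p u) * yy.comp (C (a : ℚ) * X + C (s : ℚ)))) with hq2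
  have wQ1 : WT p Q1 := WT.prod _ _ hu1
  have wQ2 : ∀ s, WT p (Q2 s) := fun s => WT.prod _ _ (hu2 s)
  have iq1 : PDv p M (evT p M Q1 - q1) := by
    have h := evT_prod hM1 (Finset.Ico 1 p) _ hu1
    have h2 : ∏ u ∈ Finset.Ico 1 p,
        evT p M (1 + PowerSeries.C (C (bet p u) * yy) * PowerSeries.X) = q1 :=
      Finset.prod_congr rfl (fun u _ => evT_linear _ hM)
    rw [h2] at h
    exact h
  have iq2 : ∀ s, PDv p M (evT p M (Q2 s) - q2 s) := by
    intro s
    have h := evT_prod hM1 (Finset.Ico 1 p) _ (hu2 s)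
    have h2 : ∏ u ∈ Finset.Ico 1 p,
        evT p M (1 + PowerSeries.C (C (bet p u) * yy.comp (C (a : ℚ) * X + C (s : ℚ))) *
          PowerSeries.X) = q2 s :=
      Finset.prod_congr rfl (fun u _ => evT_linear _ hM)
    rw [h2] at h
    exact h
  have hfun := funEq hT p a E0 hE
  have hfun' : shiftT E ^ 2 * Q1 ^ a = E ^ 2 * ∏ s ∈ Finset.range a, Q2 s := hfun
  set F := evT p M E with hF
  set G := F.comp (X + 1) with hG
  have iF : PDv p 0 F := evT_int hW M
  have iG : PDv p 0 G := iF.comp esq_PDv_X1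
  have intq1 : PDv p 0 q1 := by
    have h := (evT_int wQ1 M).sub (iq1.mono (Nat.zero_le M))
    convert h using 1
    ring
  have intq2 : ∀ s, PDv p 0 (q2 s) := by
    intro s
    have h := (evT_int (wQ2 s) M).sub ((iq2 s).mono (Nat.zero_le M))
    convert h using 1
    ring
  -- congruences
  have hpowcongr : ∀ (n : ℕ) (f g : ℚ[X]), PDv p 0 f → PDv p 0 g → PDv p M (f - g) →
      PDv p M (f ^ n - g ^ n) := by
    intro n f g hf hg hfg
    induction n with
    | zero => simpa using PDv.zero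
    | succ n ih =>
      have := (ih.mul_right hf).add ((hg.pow0 n).mul_left hfg)
      convert this using 1
      ring
  have hprodcongr : ∀ (s : Finset ℕ) (f g : ℕ → ℚ[X]), (∀ i, PDv p 0 (f i)) →
      (∀ i, PDv p 0 (g i)) → (∀ i, PDv p M (f i - g i)) →
      PDv p M (∏ i ∈ s, f i - ∏ i ∈ s, g i) := by
    intro s f g hf hg hfg
    induction s using Finset.induction_on with
    | empty => simpa using PDv.zero
    | insert i s hi ih =>
      rw [Finset.prod_insert hi, Finset.prod_insert hi]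
      have := ((hfg i).mul_right (PDv.prod s f (fun j _ => hf j))).add ((hg i).mul_left ih)
      convert this using 1
      ring
  have L : PDv p M (evT p M (shiftT E ^ 2 * Q1 ^ a) - G ^ 2 * q1 ^ a) := by
    have h1 := evT_mul (hW.shift.pow 2) (wQ1.pow a) M
    have h2 := evT_pow hW.shift hM1 2
    have h3 := evT_pow wQ1 hM1 a
    rw [evT_shift] at h2
    have h4 := hpowcongr a _ _ (evT_int wQ1 M) intq1 iq1
    have h5 := h1.add (h2.mul_right (evT_int (wQ1.pow a) M))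
    have h6 := h5.add ((iG.pow0 2).mul_left (h3.add h4))
    convert h6 using 1
    ring
  have R : PDv p M (evT p M (E ^ 2 * ∏ s ∈ Finset.range a, Q2 s) -
      F ^ 2 * ∏ s ∈ Finset.range a, q2 s) := by
    have wP : WT p (∏ s ∈ Finset.range a, Q2 s) := WT.prod _ _ (fun s _ => wQ2 s)
    have h1 := evT_mul (hW.pow 2) wP M
    have h2 := evT_pow hW hM1 2
    have h3 := evT_prod hM1 (Finset.range a) Q2 (fun s _ => wQ2 s)
    have h4 := hprodcongr (Finset.range a) _ _ (fun s => evT_int (wQ2 s) M) intq2 iq2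
    have h5 := h1.add (h2.mul_right (evT_int wP M))
    have h6 := h5.add ((iF.pow0 2).mul_left (h3.add h4))
    convert h6 using 1
    ring
  rw [hfun'] at L
  have D : PDv p M (G ^ 2 * q1 ^ a - F ^ 2 * ∏ s ∈ Finset.range a, q2 s) := by
    convert R.sub L using 1
    ring
  set c : ℚ := ((p - 1).factorial : ℚ) ^ 2 with hc
  have hcint : PDv p 0 (C c ^ a) := (PDv.C ((Dv.nat _).pow0 2)).pow0 a
  have D2 := hcint.mul_left D
  have e1 : Pp p ^ 2 = C c * q1 := Pp_sq
  have e2 : ∀ s : ℕ, ((Pp p).comp (C (a : ℚ) * X + C (s : ℚ))) ^ 2 = C c * q2 s := by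
    intro s
    rw [← Polynomial.pow_comp, Pp_sq, mul_comp, C_comp, hq2]
    congr 1
    rw [Polynomial.prod_comp]
    apply Finset.prod_congr rfl
    intro u _
    rw [add_comp, one_comp, mul_comp, C_comp, mul_comp, C_comp]
  have e3 : (G * Pp p ^ a) ^ 2 - (F * ∏ s ∈ Finset.range a,
      (Pp p).comp (C (a : ℚ) * X + C (s : ℚ))) ^ 2 =
      C c ^ a * (G ^ 2 * q1 ^ a - F ^ 2 * ∏ s ∈ Finset.range a, q2 s) := by
    have e4 : (∏ s ∈ Finset.range a, (Pp p).comp (C (a : ℚ) * X + C (s : ℚ))) ^ 2 =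
        C c ^ a * ∏ s ∈ Finset.range a, q2 s := by
      rw [← Finset.prod_pow, Finset.prod_congr rfl (fun s _ => e2 s), Finset.prod_mul_distrib,
        Finset.prod_const, Finset.card_range]
    have e5 : (Pp p ^ a) ^ 2 = C c ^ a * q1 ^ a := by
      rw [← pow_mul, Nat.mul_comm a 2, pow_mul, e1, mul_pow]
    rw [mul_pow, mul_pow, e4, e5]
    ring
  rw [e3]
  exact D2

end KPInt
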