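import Pool.Agent.Lib.KPInt.Defs

/-!
# ETj: odd antidifferences of (x(x+1))^j with small denominators (pure polynomial algebra)

PROOF. Put `y = x(x+1)`, `r_k = x ∏_{i=1}^k (x^2 - i^2)`, `e_k = ∏_{i=0}^{k-1} (y - i(i+1))`
(recursively: `r_{k+1} = r_k (x^2 - (k+1)^2)`, `e_{k+1} = e_k (y - k(k+1))`).
1. By induction on `k`: `r_k(x) = (x - k) e_k` and `r_k(x+1) = (x + k + 1) e_k`
   (use `(x-k)(x+k+1) = y - k(k+1)` and `(x+1)^2 - (k+1)^2 = (x-k)(x+k+2)`). Hence
   `r_k(x+1) - r_k(x) = (2k+1) e_k`.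
2. `y e_k = e_{k+1} + k(k+1) e_k`, so for every `j` there are integers `c_k` with
   `y^j = ∑_{k≤j} c_k e_k` (induction on `j`).
3. `T_j := ∑_{k≤j} (c_k/(2k+1)) r_k`. Then `T_j(x+1) - T_j(x) = y^j`; `r_k` is an odd polynomial with
   integer coefficients (induction), so `T_j` is odd; and if `p^(L+1)` divides no `2k+1`, `k ≤ j`,
   then `p^L/(2k+1)` is `p`-integral (write `2k+1 = p^v m`, `m` prime to `p`, `v ≤ L`).
4. For `j = 1` take `T_1 = (x^3-x)/3 = r_1/3` explicitly (check the four properties; in `den`, for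
   `p = 3` the hypothesis with `k = 1` gives `L ≥ 1`). For the other `j` use the existence and choice.
-/

set_option autoImplicit false

namespace KPInt

open Polynomial

/-- `T j` is an odd antidifference of `(x(x+1))^j` with controlled denominators -/
structure IsT (T : ℕ → ℚ[X]) : Prop where
  step : ∀ j, (T j).comp (X + 1) - T j = (X * (X + 1)) ^ j
  odd : ∀ j i, Even i → (T j).coeff i = 0
  den : ∀ p : ℕ, p.Prime → ∀ L j, (∀ k, k ≤ j → ¬ p ^ (L + 1) ∣ 2 * k + 1) →
    PDv p 0 (C ((p : ℚ) ^ L) * T j)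
  one : T 1 = C (1 / 3) * (X ^ 3 - X)

/-- `r_k` -/
noncomputable def rrT : ℕ → ℚ[X]
  | 0 => X
  | k + 1 => rrT k * (X ^ 2 - ((k : ℚ[X]) + 1) ^ 2)

/-- `e_k` -/
noncomputable def eeT : ℕ → ℚ[X]
  | 0 => 1
  | k + 1 => eeT k * (X * (X + 1) - (k : ℚ[X]) * ((k : ℚ[X]) + 1))

theorem rr_eq (k : ℕ) : rrT k = (X - (k : ℚ[X])) * eeT k := by
  induction k with
  | zero => simp [rrT, eeT]
  | succ k ih =>
    rw [rrT, eeT, ih]
    push_cast
    ring

theorem rr_comp (k : ℕ) : (rrT k).comp (X + 1) = (X + (k : ℚ[X]) + 1) * eeT k := by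
  induction k with
  | zero => simp [rrT, eeT]
  | succ k ih =>
    rw [rrT, eeT, mul_comp, ih]
    simp only [sub_comp, pow_comp, X_comp, add_comp, natCast_comp, one_comp]
    push_cast
    ring

theorem rr_step (k : ℕ) : (rrT k).comp (X + 1) - rrT k = (2 * (k : ℚ[X]) + 1) * eeT k := by
  rw [rr_comp, rr_eq]
  ring

theorem rr_odd (k : ℕ) : ∀ i, Even i → (rrT k).coeff i = 0 := by
  induction k with
  | zero =>
    intro i hi
    rw [rrT, coeff_X, if_neg]
    rintro rfl
    exact absurd hi (by decide)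
  | succ k ih =>
    intro i hi
    have e : rrT (k + 1) = rrT k * X ^ 2 - rrT k * C (((k : ℚ) + 1) ^ 2) := by
      rw [rrT, mul_sub]
      simp
    rw [e, coeff_sub, coeff_mul_X_pow', coeff_mul_C, ih i hi]
    split_ifs with h
    · rw [ih (i - 2) ((Nat.even_sub h).2 (by simp [hi]))]
      simp
    · simp

theorem rr_pdv (p k : ℕ) : PDv p 0 (rrT k) := by
  induction k with
  | zero => exact PDv.X
  | succ k ih =>
    have e : rrT (k + 1) = rrT k * (X ^ 2 - C (((k : ℚ) + 1) ^ 2)) := by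
      rw [rrT]
      simp
    rw [e]
    refine ih.mul_left (PDv.sub (PDv.X.pow0 2) (PDv.C ?_))
    have := (Dv.nat (p := p) ((k + 1) ^ 2))
    push_cast at this
    exact this

theorem exists_c (j : ℕ) : ∃ c : ℕ → ℤ, (∀ k, j < k → c k = 0) ∧
    (X * (X + 1) : ℚ[X]) ^ j = ∑ k ∈ Finset.range (j + 1), C ((c k : ℚ)) * eeT k := by
  induction j with
  | zero =>
    refine ⟨fun k => if k = 0 then 1 else 0, fun k hk => if_neg (by omega), ?_⟩
    simp [eeT]
  | succ j ih =>
    obtain ⟨c, hc, h⟩ := ih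
    refine ⟨fun k => (if k = 0 then 0 else c (k - 1)) + k * (k + 1) * c k, fun k hk => ?_, ?_⟩
    · simp only
      rw [if_neg (by omega), hc (k - 1) (by omega), hc k (by omega)]
      simp
    · have hy : ∀ k, (X * (X + 1) : ℚ[X]) * eeT k = eeT (k + 1) + (k : ℚ[X]) * ((k : ℚ[X]) + 1) * eeT k := by
        intro k
        rw [eeT]
        ring
      rw [pow_succ, h, Finset.sum_mul]
      have e1 : ∀ k ∈ Finset.range (j + 1), C ((c k : ℚ)) * eeT k * (X * (X + 1)) =
          C ((c k : ℚ)) * eeT (k + 1) + C (((k : ℚ) * (k + 1) * c k)) * eeT k := by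
        intro k _
        calc C ((c k : ℚ)) * eeT k * (X * (X + 1)) = C ((c k : ℚ)) * ((X * (X + 1)) * eeT k) := by ring
          _ = _ := by
            rw [hy]
            simp only [map_mul, map_add, map_one, map_natCast]
            ring
      rw [Finset.sum_congr rfl e1, Finset.sum_add_distrib]
      have e2 : ∑ k ∈ Finset.range (j + 1 + 1), C ((((if k = 0 then 0 else c (k - 1)) +
          (k : ℤ) * (k + 1) * c k : ℤ) : ℚ)) * eeT k =
          ∑ k ∈ Finset.range (j + 1 + 1), C ((((if k = 0 then 0 else c (k - 1)) : ℤ) : ℚ)) * eeT k +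
          ∑ k ∈ Finset.range (j + 1 + 1), C (((k : ℚ) * (k + 1) * c k)) * eeT k := by
        rw [← Finset.sum_add_distrib]
        refine Finset.sum_congr rfl fun k _ => ?_
        rw [← add_mul, ← map_add]
        congr 2
        push_cast
        ring
      rw [e2]
      congr 1
      · rw [Finset.sum_range_succ' _ (j + 1)]
        simp
      · rw [Finset.sum_range_succ _ (j + 1), hc (j + 1) (by omega)]
        simp

/-- the candidate -/
noncomputable def tt (c : ℕ → ℤ) (j : ℕ) : ℚ[X] :=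
  ∑ k ∈ Finset.range (j + 1), C ((c k : ℚ) / (2 * k + 1)) * rrT k

theorem tt_step (c : ℕ → ℤ) (j : ℕ)
    (h : (X * (X + 1) : ℚ[X]) ^ j = ∑ k ∈ Finset.range (j + 1), C ((c k : ℚ)) * eeT k) :
    (tt c j).comp (X + 1) - tt c j = (X * (X + 1)) ^ j := by
  unfold tt
  rw [h, Polynomial.sum_comp, ← Finset.sum_sub_distrib]
  refine Finset.sum_congr rfl fun k _ => ?_
  rw [mul_comp, C_comp, ← mul_sub, rr_step, ← mul_assoc]
  congr 1
  have h0 : (2 * (k : ℚ) + 1) ≠ 0 := by positivity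
  have : (2 * (k : ℚ[X]) + 1) = C (2 * (k : ℚ) + 1) := by
    rw [C_add, C_mul, C_1, map_natCast]
    rfl
  rw [this, ← C_mul, div_mul_cancel₀ _ h0]

theorem tt_odd (c : ℕ → ℤ) (j i : ℕ) (hi : Even i) : (tt c j).coeff i = 0 := by
  unfold tt
  rw [finsetSum_coeff]
  refine Finset.sum_eq_zero fun k _ => ?_
  rw [coeff_C_mul, rr_odd k i hi, mul_zero]

theorem dv_div (p : ℕ) (hp : p.Prime) (L N : ℕ) (hN : N ≠ 0) (h : ¬ p ^ (L + 1) ∣ N) (c : ℤ) :
    Dv p 0 ((p : ℚ) ^ L * ((c : ℚ) / N)) := by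
  obtain ⟨v, m, hm, e⟩ := Nat.exists_eq_pow_mul_and_not_dvd hN p hp.ne_one
  have hv : v ≤ L := by
    by_contra hlt
    push Not at hlt
    exact h (e ▸ (pow_dvd_pow p hlt).mul_right m)
  have hm0 : m ≠ 0 := by
    rintro rfl
    exact hm (dvd_zero _)
  refine ⟨c * p ^ (L - v), m, ((Nat.Prime.coprime_iff_not_dvd hp).2 hm).symm, ?_⟩
  have hp0 : (p : ℚ) ≠ 0 := by exact_mod_cast hp.ne_zero
  have hm0' : (m : ℚ) ≠ 0 := by exact_mod_cast hm0
  have eL : (p : ℚ) ^ L = p ^ v * p ^ (L - v) := by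
    rw [← pow_add]
    congr 1
    omega
  rw [e, eL]
  push_cast
  field_simp

theorem tt_den (c : ℕ → ℤ) (j p : ℕ) (hp : p.Prime) (L : ℕ)
    (h : ∀ k, k ≤ j → ¬ p ^ (L + 1) ∣ 2 * k + 1) : PDv p 0 (C ((p : ℚ) ^ L) * tt c j) := by
  unfold tt
  rw [Finset.mul_sum]
  refine PDv.sum _ _ fun k hk => ?_
  rw [← mul_assoc, ← C_mul]
  refine (PDv.C ?_).mul_left (rr_pdv p k)
  have := dv_div p hp L (2 * k + 1) (by omega) (h k (by simpa [Nat.lt_succ_iff] using hk)) (c k)
  push_cast at this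
  exact this

theorem exists_T : ∃ T, IsT T := by
  choose c hc0 hc using exists_c
  let d : ℕ → ℕ → ℤ := fun j => if j = 1 then fun k => if k = 1 then 1 else 0 else c j
  have hd : ∀ j, (X * (X + 1) : ℚ[X]) ^ j = ∑ k ∈ Finset.range (j + 1), C ((d j k : ℚ)) * eeT k := by
    intro j
    by_cases hj : j = 1
    · subst hj
      simp [d, eeT]
    · simp only [d, if_neg hj]
      exact hc j
  refine ⟨fun j => tt (d j) j, fun j => tt_step _ _ (hd j), fun j i hi => tt_odd _ _ _ hi,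
    fun p hp L j h => tt_den _ _ p hp L h, ?_⟩
  simp only [d, if_true, tt, Finset.sum_range_succ, Finset.sum_range_zero, rrT]
  norm_num
  ring

end KPInt
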