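import Pool.Agent.Lib.KPInt.KId

/-!
# The recursion of the hypergeometric jets for the seven types, and the K-identity
-/

open PowerSeries Finset

namespace KPInt

/-- numerator of `Bj a n` -/
noncomputable def Bnum (a : List ℕ) (n : ℕ) : ℚ⟦X⟧ :=
  (a.map fun k => ∏ j ∈ range (k * n), (C (k : ℚ) * X + C ((j : ℚ) + 1))).prod

lemma Bnum_succ (a : List ℕ) (n : ℕ) : Bnum a (n + 1) = Bnum a n *
    (a.map fun k => ∏ i ∈ range k, (C (k : ℚ) * (X + C (n : ℚ)) + C ((i : ℚ) + 1))).prod := by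
  induction a with
  | nil => simp [Bnum]
  | cons d a ih =>
    have e : ∏ j ∈ range (d * (n + 1)), (C (d : ℚ) * X + C ((j : ℚ) + 1)) =
        (∏ j ∈ range (d * n), (C (d : ℚ) * X + C ((j : ℚ) + 1))) *
          ∏ i ∈ range d, (C (d : ℚ) * (X + C (n : ℚ)) + C ((i : ℚ) + 1)) := by
      rw [mul_add, mul_one, prod_range_add]
      congr 1
      apply prod_congr rfl
      intro i _
      push_cast
      simp only [map_add, map_mul]
      ring
    simp only [Bnum, List.map_cons, List.prod_cons] at ih ⊢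
    rw [ih, e]
    ring

lemma constantCoeff_den (n : ℕ) (N : ℕ) :
    constantCoeff ((∏ j ∈ range n, ((X : ℚ⟦X⟧) + C ((j : ℚ) + 1))) ^ N) ≠ 0 := by
  rw [map_pow, map_prod]
  apply pow_ne_zero
  apply prod_ne_zero_iff.mpr
  intro j _
  simp only [map_add, constantCoeff_X, constantCoeff_C, zero_add]
  positivity

lemma rec_of_poly (a : List ℕ) (c p r : ℚ)
    (hpoly : ∀ y : ℚ⟦X⟧, 32 * (y + 1) ^ 5 *
      (a.map fun k => ∏ i ∈ range k, (C (k : ℚ) * y + C ((i : ℚ) + 1))).prod =
      (C c * (32 * y ^ 5 + 80 * y ^ 4 + 80 * y ^ 3 + 40 * y ^ 2 + 10 * y ^ 1 + y ^ 0) +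
      C p * (32 * y ^ 3 + 48 * y ^ 2 + 24 * y ^ 1 + 4 * y ^ 0) +
      C r * (32 * y ^ 1 + 16 * y ^ 0)) * (y + 1) ^ a.sum) :
    Rec (Bj a) c p r := by
  constructor
  · simp [Bj]
  · intro n
    have hd := constantCoeff_den n a.sum
    have hd1 := constantCoeff_den (n + 1) a.sum
    set D := (∏ j ∈ range n, ((X : ℚ⟦X⟧) + C ((j : ℚ) + 1))) ^ a.sum with hD
    have e1 : (∏ j ∈ range (n + 1), ((X : ℚ⟦X⟧) + C ((j : ℚ) + 1))) ^ a.sum =
        D * (X + C (n : ℚ) + 1) ^ a.sum := by
      rw [prod_range_succ, mul_pow, ← hD, show (C ((n : ℚ) + 1) : ℚ⟦X⟧) = C (n : ℚ) + 1 by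
        rw [map_add, map_one], ← add_assoc]
    have hne : D * (X + C (n : ℚ) + 1) ^ a.sum ≠ 0 := by
      intro h0
      rw [← e1] at h0
      rw [h0, map_zero] at hd1
      exact hd1 rfl
    have hB0 : Bj a n * D = Bnum a n := by
      rw [Bj, ← hD, mul_assoc, PowerSeries.inv_mul_cancel _ hd, mul_one, Bnum]
    have hB1 : Bj a (n + 1) * (D * (X + C (n : ℚ) + 1) ^ a.sum) = Bnum a (n + 1) := by
      rw [Bj, ← e1, mul_assoc, PowerSeries.inv_mul_cancel _ hd1, mul_one, Bnum]
    have hC : (C ((n : ℚ) + 1) : ℚ⟦X⟧) = C (n : ℚ) + 1 := by rw [map_add, map_one]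
    apply mul_right_cancel₀ hne
    rw [mul_assoc, hB1, Bnum_succ, ← hB0, hC, ← add_assoc]
    linear_combination (Bj a n * D) * hpoly (X + C (n : ℚ))

lemma rec_6 : Rec (Bj [6]) 46656 (-6480) 144 := by
  apply rec_of_poly
  intro y
  simp only [List.map_cons, List.map_nil, List.prod_cons, List.prod_nil, prod_range_succ,
    prod_range_zero, List.sum_cons, List.sum_nil, map_neg, map_add, map_one, Nat.cast_ofNat,
    map_ofNat, Nat.cast_zero, Nat.cast_one, map_zero]
  ring

lemma rec_34 : Rec (Bj [3, 4]) 6912 (-624) 12 := by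
  apply rec_of_poly
  intro y
  simp only [List.map_cons, List.map_nil, List.prod_cons, List.prod_nil, prod_range_succ,
    prod_range_zero, List.sum_cons, List.sum_nil, map_neg, map_add, map_one, Nat.cast_ofNat,
    map_ofNat, Nat.cast_zero, Nat.cast_one, map_zero]
  ring

lemma rec_25 : Rec (Bj [2, 5]) 12500 (-1250) (45 / 4) := by
  apply rec_of_poly
  intro y
  have h4 : (C (45 / 4 : ℚ) : ℚ⟦X⟧) * 4 = 45 := by
    rw [show (4 : ℚ⟦X⟧) = C (4 : ℚ) by rw [map_ofNat], ← map_mul]
    norm_num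
    exact map_ofNat C 45
  simp only [List.map_cons, List.map_nil, List.prod_cons, List.prod_nil, prod_range_succ,
    prod_range_zero, List.sum_cons, List.sum_nil, map_neg, map_add, map_one, Nat.cast_ofNat,
    map_ofNat, Nat.cast_zero, Nat.cast_one, map_zero]
  linear_combination (-(8 * y + 4) * (y + 1) ^ 7) * h4

lemma rec_224 : Rec (Bj [2, 2, 4]) 4096 (-256) 0 := by
  apply rec_of_poly
  intro y
  simp only [List.map_cons, List.map_nil, List.prod_cons, List.prod_nil, prod_range_succ,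
    prod_range_zero, List.sum_cons, List.sum_nil, map_neg, map_add, map_one, Nat.cast_ofNat,
    map_ofNat, Nat.cast_zero, Nat.cast_one, map_zero]
  ring

lemma rec_233 : Rec (Bj [2, 3, 3]) 2916 (-162) (9 / 4) := by
  apply rec_of_poly
  intro y
  have h4 : (C (9 / 4 : ℚ) : ℚ⟦X⟧) * 4 = 9 := by
    rw [show (4 : ℚ⟦X⟧) = C (4 : ℚ) by rw [map_ofNat], ← map_mul]
    norm_num
    exact map_ofNat C 9
  simp only [List.map_cons, List.map_nil, List.prod_cons, List.prod_nil, prod_range_succ,
    prod_range_zero, List.sum_cons, List.sum_nil, map_neg, map_add, map_one, Nat.cast_ofNat,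
    map_ofNat, Nat.cast_zero, Nat.cast_one, map_zero]
  linear_combination (-(8 * y + 4) * (y + 1) ^ 8) * h4

lemma rec_2223 : Rec (Bj [2, 2, 2, 3]) 1728 (-48) 0 := by
  apply rec_of_poly
  intro y
  simp only [List.map_cons, List.map_nil, List.prod_cons, List.prod_nil, prod_range_succ,
    prod_range_zero, List.sum_cons, List.sum_nil, map_neg, map_add, map_one, Nat.cast_ofNat,
    map_ofNat, Nat.cast_zero, Nat.cast_one, map_zero]
  ring

lemma rec_22222 : Rec (Bj [2, 2, 2, 2, 2]) 1024 0 0 := by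
  apply rec_of_poly
  intro y
  simp only [List.map_cons, List.map_nil, List.prod_cons, List.prod_nil, prod_range_succ,
    prod_range_zero, List.sum_cons, List.sum_nil, map_add, map_one, Nat.cast_ofNat,
    map_ofNat, Nat.cast_zero, Nat.cast_one, map_zero]
  ring

/-- the seven types of Calabi-Yau 4-folds -/
def types : List (List ℕ) :=
  [[6], [2, 5], [3, 4], [2, 2, 4], [2, 3, 3], [2, 2, 2, 3], [2, 2, 2, 2, 2]]

/-- `∏ d^d` -/
def disc (a : List ℕ) : ℕ := (a.map fun d => d ^ d).prod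

/-- **The K-identity for the seven types.** -/
theorem K_identity_types {a : List ℕ} (ha : a ∈ types) :
    (1 - C (disc a : ℚ) * X) * KK (Bj a) ^ 2 * Lj (Bj a) 0 ^ 2 * I1 (Bj a) ^ 4 = 1 := by
  simp only [types, List.mem_cons, List.not_mem_nil, or_false] at ha
  rcases ha with rfl | rfl | rfl | rfl | rfl | rfl | rfl
  · simpa [disc] using K_identity rec_6
  · simpa [disc] using K_identity rec_25
  · simpa [disc] using K_identity rec_34
  · simpa [disc] using K_identity rec_224
  · simpa [disc] using K_identity rec_233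
  · simpa [disc] using K_identity rec_2223
  · simpa [disc] using K_identity rec_22222

end KPInt
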