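import Pool.Agent.Lib.KPInt.JMain
import Pool.Agent.Lib.KPInt.CRec
import Pool.Agent.Lib.KPInt.KRec

/-!
# Fam0: numerical facts for the seven types: A(n), signs, numerators at p = 2

PROOFS.
* `L0_coeff`: `constantCoeff_Bj` (file JProd).
* `L0_int`: `A(n) = ∏ (a_i n)!/(n!)^(a_i)` is a product of multinomial coefficients
  (`(n!)^k ∣ (k n)!`: Mathlib `Nat.factorial_prod_dvd...`/`Nat.multinomial`, or induction on `k` with
  `Nat.add_choose`), induction on the list.
* `L0_two`: for `n ≥ 1`, `(k n)!/(n!^k k!)` is an integer (`Nat.factorial_mul_pow_dvd..`-like; by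
  induction: `C(k n, n) = k C(k n - 1, n - 1)`, so `(kn)! /(n!)^k = ∏_{j≤k} C(j n, n) = ∏_j j C(jn-1,n-1)`
  is divisible by `k!`). So `A(n)` is divisible by `∏ a_i!`, which is divisible by 8 for the seven types
  (720, 240, 144, 96, 72, 48, 32). Coefficient 0 of `L0 - 1` is 0.
* `sgt_odd`, `sgt_types`, explicit signs: `sg 2 2 = -1`, `sg 2 3 = -1`, `sg 2 4 = 1`, `sg 2 5 = 1`,
  `sg 2 6 = -1`.
* `Num_two`: `Num a 2 1 = ∏_{k ∈ a} ∏_{j<k} (C (j+1) + C (2k) X)`, e.g. for `k = 2`: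
  `(1+4X)(2+4X) = 2(1+4X)(1+2X)`, `k = 3`: `(1+6X)(2+6X)(3+6X) = 6(1+6X)(1+3X)(1+2X)`,
  `k = 4`: `24(1+8X)(1+4X)(1+(8/3)X)(1+2X)` (`(3+8X)` is fine), `k = 5`:
  `(1+10X)(2+10X)(3+10X)(4+10X)(5+10X) = 4 (1+10X)(1+5X)(3+10X)(2+5X)(5+10X)`, `k = 6`:
  `16 (1+12X)(1+6X)(3+12X)(1+3X)(5+12X)(3+6X)`. So `[2,5]`: content `2*4 = 8`; `[2,3,3]`: `2*2*2 = 8`;
  the others at least 16.
* `Num_mod`: `[2,5]`: `Num ≡ 8X + 8X² mod 16`; `[2,3,3]`: `Num ≡ 8 + 8X² mod 16`.
* `Num_six`: for `[6]` and `[3,4]`: content 16 and `Num ≡ 16 (1 + X) mod 32`, so the coefficient of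
  `X²` is divisible by 32.
  (Write `Num = C 16 * R` with `R` an explicit integer polynomial product, expand `R` completely with
  `ring_nf` / `norm_num` to read off coefficients, or `R - (1+X) = C 2 * (...)`.)
-/

set_option autoImplicit false

namespace KPInt

open Polynomial

private lemma Fam0_pdv_int {k : ℕ} {f : ℚ[X]} (g : ℤ[X])
    (h : f = C ((2 : ℚ) ^ k) * g.map (Int.castRingHom ℚ)) : PDv 2 k f := by
  rw [h]
  intro n
  rw [coeff_C_mul, coeff_map]
  have h1 : Dv 2 k ((2 : ℚ) ^ k) := by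
    have := Dv.ppow (p := 2) k
    exact_mod_cast this
  exact h1.mul_right (Dv.int _)

lemma L0_coeff (a : List ℕ) (n : ℕ) : PowerSeries.coeff n (Lj (Bj a) 0) =
    (a.map fun k => ((k * n).factorial : ℚ)).prod / (n.factorial : ℚ) ^ a.sum := by
  rw [← constantCoeff_Bj]
  unfold Lj
  rw [PowerSeries.coeff_mk, PowerSeries.coeff_zero_eq_constantCoeff_apply]

lemma Bj_OKB (a : List ℕ) : OKB (Bj a) := by
  constructor
  · rw [Bj_zero]; simp
  · rw [Bj_zero, PowerSeries.coeff_one]; simp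
  · rw [Bj_zero, PowerSeries.coeff_one]; simp

private lemma Fam0_A (a : List ℕ) {n : ℕ} (hn : n ≠ 0) :
    (a.map fun k => ((k * n).factorial : ℚ)).prod / (n.factorial : ℚ) ^ a.sum =
      ((a.map fun k => Nat.uniformBell k n).prod : ℕ) * ((a.map fun k => k.factorial).prod : ℕ) := by
  induction a with
  | nil => simp
  | cons b l ih =>
    have hf : (n.factorial : ℚ) ≠ 0 := by exact_mod_cast n.factorial_ne_zero
    have hb : ((b * n).factorial : ℚ) =
        (Nat.uniformBell b n : ℚ) * (n.factorial : ℚ) ^ b * (b.factorial : ℚ) := by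
      exact_mod_cast (Nat.uniformBell_mul_eq b hn).symm
    rw [List.map_cons, List.prod_cons, List.sum_cons, List.map_cons, List.prod_cons,
      List.map_cons, List.prod_cons, pow_add, mul_div_mul_comm, ih, hb]
    push_cast
    field_simp

lemma L0_int (a : List ℕ) (p : ℕ) : SDv p 0 (Lj (Bj a) 0) := by
  intro n
  rw [L0_coeff]
  rcases Nat.eq_zero_or_pos n with h | h
  · subst h
    have h1 : (a.map fun k => ((k * 0).factorial : ℚ)).prod / ((0 : ℕ).factorial : ℚ) ^ a.sum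
        = 1 := by
      simp
    rw [h1]
    exact Dv.one
  · rw [Fam0_A a h.ne', ← Nat.cast_mul]
    exact Dv.nat _

lemma L0_two {a : List ℕ} (ha : a ∈ types) : SDv 2 3 (Lj (Bj a) 0 - 1) := by
  intro n
  rw [map_sub, L0_coeff, PowerSeries.coeff_one]
  rcases Nat.eq_zero_or_pos n with h | h
  · subst h
    have h1 : (a.map fun k => ((k * 0).factorial : ℚ)).prod / ((0 : ℕ).factorial : ℚ) ^ a.sum
        = 1 := by
      simp
    rw [h1, if_pos rfl, sub_self]
    exact Dv.zero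
  · rw [Fam0_A a h.ne', if_neg h.ne', sub_zero]
    have h8 : 8 ∣ (a.map fun k => k.factorial).prod := by
      simp only [types, List.mem_cons, List.not_mem_nil, or_false] at ha
      rcases ha with rfl | rfl | rfl | rfl | rfl | rfl | rfl <;> decide
    obtain ⟨m, hm⟩ := h8
    rw [hm, Nat.cast_mul]
    have h2 : Dv 2 3 ((8 : ℕ) : ℚ) := by
      have := Dv.ppow (p := 2) 3
      norm_num at this ⊢
      exact this
    exact (Dv.nat _).mul_left (h2.mul_right (Dv.nat _))

lemma sgt_odd (a : List ℕ) {p : ℕ} (hp : p ≠ 2) : sgt p a = 1 := by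
  unfold sgt
  induction a with
  | nil => simp
  | cons b l ih =>
    rw [List.map_cons, List.prod_cons, ih, mul_one]
    unfold sg
    rw [if_neg hp]

lemma sgt_pm (a : List ℕ) (p : ℕ) : sgt p a = 1 ∨ sgt p a = -1 := by
  have hs : ∀ k, sg p k = 1 ∨ sg p k = -1 := by
    intro k
    unfold sg
    split_ifs
    · exact neg_one_pow_eq_or ℚ _
    · left; rfl
  unfold sgt
  induction a with
  | nil => simp
  | cons b l ih =>
    rw [List.map_cons, List.prod_cons]
    rcases hs b with h | h <;> rcases ih with h' | h' <;> rw [h, h'] <;> simp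

lemma sgt_vals : sgt 2 [6] = -1 ∧ sgt 2 [2, 5] = -1 ∧ sgt 2 [3, 4] = -1 ∧ sgt 2 [2, 2, 4] = 1 ∧
    sgt 2 [2, 3, 3] = -1 ∧ sgt 2 [2, 2, 2, 3] = 1 ∧ sgt 2 [2, 2, 2, 2, 2] = -1 := by
  refine ⟨?_, ?_, ?_, ?_, ?_, ?_, ?_⟩ <;> norm_num [sgt, sg]

private noncomputable def Fam0_F (k : ℕ) : ℚ[X] :=
  ∏ j ∈ Finset.range (k * 1), (C ((j : ℚ) + 1) + C ((k : ℚ) * (2 : ℕ)) * X)

private lemma Fam0_F2 : PDv 2 1 (Fam0_F 2) := by
  refine Fam0_pdv_int ((1 + 4 * X) * (1 + 2 * X)) ?_
  simp only [Fam0_F, Finset.prod_range_succ, Finset.prod_range_zero, Polynomial.map_mul,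
    Polynomial.map_add, Polynomial.map_one, Polynomial.map_X, Polynomial.map_ofNat]
  norm_num [map_ofNat]
  ring

private lemma Fam0_F3 : PDv 2 1 (Fam0_F 3) := by
  refine Fam0_pdv_int ((1 + 6 * X) * (1 + 3 * X) * (3 + 6 * X)) ?_
  simp only [Fam0_F, Finset.prod_range_succ, Finset.prod_range_zero, Polynomial.map_mul,
    Polynomial.map_add, Polynomial.map_one, Polynomial.map_X, Polynomial.map_ofNat]
  norm_num [map_ofNat]
  ring

private lemma Fam0_F4 : PDv 2 3 (Fam0_F 4) := by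
  refine Fam0_pdv_int ((1 + 8 * X) * (1 + 4 * X) * (3 + 8 * X) * (1 + 2 * X)) ?_
  simp only [Fam0_F, Finset.prod_range_succ, Finset.prod_range_zero, Polynomial.map_mul,
    Polynomial.map_add, Polynomial.map_one, Polynomial.map_X, Polynomial.map_ofNat]
  norm_num [map_ofNat]
  ring

private lemma Fam0_F5 : PDv 2 2 (Fam0_F 5) := by
  refine Fam0_pdv_int ((1 + 10 * X) * (1 + 5 * X) * (3 + 10 * X) * (2 + 5 * X) *
    (5 + 10 * X)) ?_
  simp only [Fam0_F, Finset.prod_range_succ, Finset.prod_range_zero, Polynomial.map_mul,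
    Polynomial.map_add, Polynomial.map_one, Polynomial.map_X, Polynomial.map_ofNat]
  norm_num [map_ofNat]
  ring

private lemma Fam0_F6 : PDv 2 4 (Fam0_F 6) := by
  refine Fam0_pdv_int ((1 + 12 * X) * (1 + 6 * X) * (3 + 12 * X) * (1 + 3 * X) *
    (5 + 12 * X) * (3 + 6 * X)) ?_
  simp only [Fam0_F, Finset.prod_range_succ, Finset.prod_range_zero, Polynomial.map_mul,
    Polynomial.map_add, Polynomial.map_one, Polynomial.map_X, Polynomial.map_ofNat]
  norm_num [map_ofNat]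
  ring

private lemma Fam0_Num (a : List ℕ) : Num a 2 1 = (a.map Fam0_F).prod := rfl

lemma Num_two {a : List ℕ} (ha : a ∈ types) : PDv 2 3 (Num a 2 1) := by
  simp only [types, List.mem_cons, List.not_mem_nil, or_false] at ha
  rcases ha with rfl | rfl | rfl | rfl | rfl | rfl | rfl <;>
    simp only [Fam0_Num, List.map_cons, List.map_nil, List.prod_cons, List.prod_nil]
  · exact (Fam0_F6.mul PDv.one).mono (by norm_num)
  · exact (Fam0_F2.mul (Fam0_F5.mul PDv.one)).mono (by norm_num)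
  · exact (Fam0_F3.mul (Fam0_F4.mul PDv.one)).mono (by norm_num)
  · exact (Fam0_F2.mul (Fam0_F2.mul (Fam0_F4.mul PDv.one))).mono (by norm_num)
  · exact (Fam0_F2.mul (Fam0_F3.mul (Fam0_F3.mul PDv.one))).mono (by norm_num)
  · exact (Fam0_F2.mul (Fam0_F2.mul (Fam0_F2.mul (Fam0_F3.mul PDv.one)))).mono (by norm_num)
  · exact (Fam0_F2.mul (Fam0_F2.mul (Fam0_F2.mul (Fam0_F2.mul (Fam0_F2.mul
      PDv.one))))).mono (by norm_num)

lemma Num_mod_25 : PDv 2 4 (Num [2, 5] 2 1 - (C 8 * X + C 8 * X ^ 2)) := by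
  refine Fam0_pdv_int (15 + 432 * X + 4987 * X ^ 2 + 30240 * X ^ 3 + 105000 * X ^ 4 + 210000 * X ^ 5 + 225000 * X ^ 6 + 100000 * X ^ 7) ?_
  simp only [Fam0_Num, Fam0_F, List.map_cons, List.map_nil, List.prod_cons, List.prod_nil,
    Finset.prod_range_succ, Finset.prod_range_zero, Polynomial.map_mul, Polynomial.map_pow,
    Polynomial.map_add, Polynomial.map_one, Polynomial.map_X, Polynomial.map_ofNat]
  norm_num [map_ofNat]
  ring

lemma Num_mod_233 : PDv 2 4 (Num [2, 3, 3] 2 1 - (C 8 + C 8 * X ^ 2)) := by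
  refine Fam0_pdv_int (4 + 126 * X + 1498 * X ^ 2 + 9891 * X ^ 3 + 39672 * X ^ 4 + 99144 * X ^ 5 + 150984 * X ^ 6 + 128304 * X ^ 7 + 46656 * X ^ 8) ?_
  simp only [Fam0_Num, Fam0_F, List.map_cons, List.map_nil, List.prod_cons, List.prod_nil,
    Finset.prod_range_succ, Finset.prod_range_zero, Polynomial.map_mul, Polynomial.map_pow,
    Polynomial.map_add, Polynomial.map_one, Polynomial.map_X, Polynomial.map_ofNat]
  norm_num [map_ofNat]
  ring

private lemma Fam0_n6 : Num [6] 2 1 = C 16 * (C 45 + C 1323 * X + C 14616 * X ^ 2 +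
    X ^ 3 * (C 79380 + C 226800 * X + C 326592 * X ^ 2 + C 186624 * X ^ 3)) := by
  simp only [Fam0_Num, Fam0_F, List.map_cons, List.map_nil, List.prod_cons, List.prod_nil,
    Finset.prod_range_succ, Finset.prod_range_zero]
  norm_num [map_ofNat]
  ring

private lemma Fam0_n34 : Num [3, 4] 2 1 = C 16 * (C 9 + C 249 * X + C 2814 * X ^ 2 +
    X ^ 3 * (C 16884 + C 58296 * X + C 116256 * X ^ 2 + C 124416 * X ^ 3 + C 55296 * X ^ 4)) := by
  simp only [Fam0_Num, Fam0_F, List.map_cons, List.map_nil, List.prod_cons, List.prod_nil,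
    Finset.prod_range_succ, Finset.prod_range_zero]
  norm_num [map_ofNat]
  ring

private lemma Fam0_coeff {u v w : ℚ} (S : ℚ[X]) :
    (C 16 * (C u + C v * X + C w * X ^ 2 + X ^ 3 * S)).coeff 2 = 16 * w := by
  rw [coeff_C_mul, coeff_add, coeff_add, coeff_add, coeff_C_mul_X_pow, coeff_X_pow_mul']
  simp

private lemma Fam0_dv5 (m : ℕ) : Dv 2 5 (16 * ((2 : ℚ) * m)) := by
  refine ⟨m, 1, by simp, ?_⟩
  push_cast
  ring

lemma Num_six {a : List ℕ} (ha : a = [6] ∨ a = [3, 4]) : PDv 2 4 (Num a 2 1) ∧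
    Dv 2 5 ((Num a 2 1).coeff 2) := by
  rcases ha with rfl | rfl
  · constructor
    · simp only [Fam0_Num, List.map_cons, List.map_nil, List.prod_cons, List.prod_nil]
      exact (Fam0_F6.mul PDv.one).mono (by norm_num)
    · rw [Fam0_n6, Fam0_coeff]
      have h := Fam0_dv5 7308
      norm_num at h ⊢
      exact h
  · constructor
    · simp only [Fam0_Num, List.map_cons, List.map_nil, List.prod_cons, List.prod_nil]
      exact (Fam0_F3.mul (Fam0_F4.mul PDv.one)).mono (by norm_num)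
    · rw [Fam0_n34, Fam0_coeff]
      have h := Fam0_dv5 1407
      norm_num at h ⊢
      exact h

end KPInt
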