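import Pool.Agent.Lib.KPInt.CRec
import Pool.Agent.Lib.KPInt.ExpLog

/-!
# Resc: twisted jets sigma^n B_n: all series are rescaled

`Bs σ B n = C (σ^n) * B n`.
PROOFS. Everything coefficientwise or by the ring homomorphism property of `rescale σ`.
* `th_rescale`: coefficient `n`: `n σ^n f_n`. `rescale_inv'`: if the constant coefficient is 0 both
  sides are 0, otherwise multiply by `rescale σ f`.
* `sb_rescale`: coefficient `n` (`coeff_sb`): `∑ f_m [z^n](C σ Q)^m = ∑ σ^m f_m [z^n] Q^m`.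
  `rescale_sb`: `[z^n] (rescale σ Q)^m = σ^n [z^n] Q^m`.
* `ex_rescale`, `logOf_rescale`: special cases of `rescale_sb` (`logOf f = (log).subst (f - 1)`).
* `SDv_rescale`: `σ^n = ±1`. `rescale_VV_two`: coefficients of odd index of `VV 2 f` vanish.
* `Lj_Bs`: `coeff i (C (σ^n) * B n) = σ^n coeff i (B n)`. Then `gg_Bs`, `GG_Bs`, `I1_Bs`, `tq_Bs`,
  `KK_Bs` follow from the ring homomorphism property, `th_rescale`, `rescale_inv'`.
* `qq_Bs`: `rescale σ (X * ex g) = C σ * X * ex (rescale σ g)`.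
* `Ph_Bs`: `sb (qq (Bs σ B)) (rescale σ f) = sb (C σ * qq (Bs σ B)) f = sb (rescale σ (qq B)) f
  = rescale σ (sb (qq B) f)`.
-/

set_option autoImplicit false

namespace KPInt

open PowerSeries

/-- twisted jets -/
noncomputable def Bs (σ : ℚ) (B : ℕ → ℚ⟦X⟧) (n : ℕ) : ℚ⟦X⟧ := C (σ ^ n) * B n

lemma th_rescale (σ : ℚ) (f : ℚ⟦X⟧) : th (rescale σ f) = rescale σ (th f) := by
  ext n
  rw [coeff_th, coeff_rescale, coeff_rescale, coeff_th]
  ring
lemma rescale_inv' (σ : ℚ) (f : ℚ⟦X⟧) : rescale σ f⁻¹ = (rescale σ f)⁻¹ := by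
  have hc : constantCoeff (rescale σ f) = constantCoeff f := by
    rw [← coeff_zero_eq_constantCoeff_apply, ← coeff_zero_eq_constantCoeff_apply, coeff_rescale,
      pow_zero, one_mul]
  by_cases h : constantCoeff f = 0
  · rw [PowerSeries.inv_eq_zero.mpr h, map_zero, PowerSeries.inv_eq_zero.mpr (hc.trans h)]
  · have h' : constantCoeff (rescale σ f) ≠ 0 := by rw [hc]; exact h
    rw [PowerSeries.eq_inv_iff_mul_eq_one h', ← map_mul, PowerSeries.inv_mul_cancel _ h, map_one]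
lemma cc_rescale (σ : ℚ) (f : ℚ⟦X⟧) : constantCoeff (rescale σ f) = constantCoeff f := by
  rw [← coeff_zero_eq_constantCoeff_apply, ← coeff_zero_eq_constantCoeff_apply, coeff_rescale,
    pow_zero, one_mul]
lemma rescale_C (σ x : ℚ) : rescale σ (C x : ℚ⟦X⟧) = C x := by
  ext n
  rw [coeff_rescale, coeff_C]
  split_ifs with h
  · rw [h, pow_zero, one_mul]
  · rw [mul_zero]
lemma sb_rescale {Q : ℚ⟦X⟧} (hQ : constantCoeff Q = 0) (σ : ℚ) (f : ℚ⟦X⟧) :
    sb (C σ * Q) f = sb Q (rescale σ f) := by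
  have hQ' : constantCoeff (C σ * Q) = 0 := by rw [map_mul, hQ, mul_zero]
  ext n
  rw [coeff_sb hQ', coeff_sb hQ]
  apply Finset.sum_congr rfl
  intro m _
  rw [coeff_rescale, mul_pow, ← map_pow, coeff_C_mul]
  ring
lemma rescale_sb {Q : ℚ⟦X⟧} (hQ : constantCoeff Q = 0) (σ : ℚ) (f : ℚ⟦X⟧) :
    rescale σ (sb Q f) = sb (rescale σ Q) f := by
  have hQ' : constantCoeff (rescale σ Q) = 0 := by rw [cc_rescale, hQ]
  ext n
  rw [coeff_rescale, coeff_sb hQ', coeff_sb hQ, Finset.mul_sum]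
  apply Finset.sum_congr rfl
  intro m _
  rw [← map_pow, coeff_rescale]
  ring
lemma ex_rescale {g : ℚ⟦X⟧} (hg : constantCoeff g = 0) (σ : ℚ) :
    ex (rescale σ g) = rescale σ (ex g) := by
  rw [ex, ex, rescale_sb hg]
lemma logOf_rescale {f : ℚ⟦X⟧} (hf : constantCoeff f = 1) (σ : ℚ) :
    logOf (rescale σ f) = rescale σ (logOf f) := by
  have h : constantCoeff (f - 1) = 0 := by rw [map_sub, hf, map_one, sub_self]
  have h1 : logOf (rescale σ f) = sb (rescale σ f - 1) (log ℚ) := rfl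
  have h2 : logOf f = sb (f - 1) (log ℚ) := rfl
  rw [h1, h2, rescale_sb h, map_sub, map_one]
lemma SDv_rescale {p k : ℕ} {σ : ℚ} (hσ : σ = 1 ∨ σ = -1) {f : ℚ⟦X⟧} (hf : SDv p k f) :
    SDv p k (rescale σ f) := by
  intro n
  rw [coeff_rescale]
  refine Dv.mul_left ?_ (hf n)
  apply Dv.pow0
  rcases hσ with rfl | rfl
  · exact Dv.one
  · exact Dv.one.neg
lemma rescale_twice {σ : ℚ} (hσ : σ = 1 ∨ σ = -1) (f : ℚ⟦X⟧) :
    rescale σ (rescale σ f) = f := by
  ext n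
  rw [coeff_rescale, coeff_rescale, ← mul_assoc, ← mul_pow]
  rcases hσ with rfl | rfl <;> simp
lemma SDv_rescale_iff {p k : ℕ} {σ : ℚ} (hσ : σ = 1 ∨ σ = -1) {f : ℚ⟦X⟧} :
    SDv p k (rescale σ f) ↔ SDv p k f := by
  constructor
  · intro h
    have h2 := SDv_rescale hσ h
    rwa [rescale_twice hσ] at h2
  · exact SDv_rescale hσ
lemma rescale_VV_two {σ : ℚ} (hσ : σ = 1 ∨ σ = -1) (f : ℚ⟦X⟧) :
    rescale σ (VV 2 f) = VV 2 f := by
  ext n
  rw [coeff_rescale, coeff_VV]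
  split_ifs with h
  · obtain ⟨m, rfl⟩ := h
    rw [pow_mul]
    rcases hσ with rfl | rfl <;> simp
  · rw [mul_zero]

variable (σ : ℚ) (B : ℕ → ℚ⟦X⟧)

lemma Lj_Bs (i : ℕ) : Lj (Bs σ B) i = rescale σ (Lj B i) := by
  ext n
  unfold Lj Bs
  rw [coeff_rescale, coeff_mk, coeff_mk, coeff_C_mul]
lemma gg_Bs : gg (Bs σ B) = rescale σ (gg B) := by
  unfold gg
  rw [Lj_Bs, Lj_Bs, map_mul, rescale_inv']
lemma GG_Bs : GG (Bs σ B) = rescale σ (GG B) := by
  unfold GG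
  rw [Lj_Bs, Lj_Bs, gg_Bs, map_sub, map_mul, map_mul, rescale_inv', rescale_C, map_pow]
lemma I1_Bs : I1 (Bs σ B) = rescale σ (I1 B) := by
  unfold I1
  rw [gg_Bs, th_rescale, map_add, map_one]
lemma tq_Bs (f : ℚ⟦X⟧) : tq (Bs σ B) (rescale σ f) = rescale σ (tq B f) := by
  unfold tq
  rw [I1_Bs, th_rescale, map_mul, rescale_inv']
lemma KK_Bs : KK (Bs σ B) = rescale σ (KK B) := by
  unfold KK
  rw [GG_Bs, tq_Bs, tq_Bs, map_add, map_one]
lemma OKB_Bs (hB : OKB B) : OKB (Bs σ B) := by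
  have h : Bs σ B 0 = B 0 := by
    unfold Bs
    rw [pow_zero, map_one, one_mul]
  exact ⟨by rw [h]; exact hB.c0, by rw [h]; exact hB.c1, by rw [h]; exact hB.c2⟩
lemma qq_Bs (hB : OKB B) : C σ * qq (Bs σ B) = rescale σ (qq B) := by
  have h : rescale σ (X : ℚ⟦X⟧) = C σ * X := by
    ext n
    rw [coeff_rescale, coeff_C_mul, coeff_X]
    split_ifs with h
    · rw [h, pow_one]
    · rw [mul_zero, mul_zero]
  unfold qq
  rw [gg_Bs, ex_rescale (cc_gg hB), map_mul, h, mul_assoc]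
lemma Ph_Bs (hB : OKB B) (f : ℚ⟦X⟧) : Ph (Bs σ B) (rescale σ f) = rescale σ (Ph B f) := by
  have h1 : constantCoeff (qq B) = 0 := by
    unfold qq
    simp
  have h2 : constantCoeff (qq (Bs σ B)) = 0 := by
    unfold qq
    simp
  unfold Ph
  rw [← sb_rescale h2, qq_Bs σ B hB, rescale_sb h1]

end KPInt
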