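import Pool.Agent.Lib.KPInt.Fam0
import Pool.Agent.Lib.KPInt.Resc
import Pool.Agent.Lib.KPInt.CK
import Pool.Agent.Lib.KPInt.Arith0

/-!
# Fam1: hypotheses of the core theorem for the families; consequences

PROOFS.
* `frel_odd`: `exists_h a p n 3`; `sgt p a = 1`; `Fc` gives the conditions (`coeff 1 ∈ p`,
  `coeff k ∈ p²` for `k ≥ 2`, `min k 2`), `Rel` is the last component with `σ = 1`.
* `core_odd`: `core` with `(r,s) = (0,0)`, `Bj_OKB`, `L0_int`; `SDv p 0 (I1 - 1)` gives `SDv p 0 I1`, etc.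
* `h_two` (properties of `h_0, h_1` at `p = 2`, from `exists_h a 2 n 6`): with `N = a.sum`, `Den 2 0 = 1`,
  `Num a 2 0 = 1`: `h_0 ≡ F mod 2^6`; `h_1 (1 + 2X)^N ≡ F Num mod 2^6`. If `Num ∈ 2^k` (`k = 3` or `4`)
  then `h_1 ∈ 2^k` (`PDv.of_mul_unit`, `(1+2X)^N ≡ 1 mod 2`), and
  `h_1 - Num = (h_1 (1+2X)^N - F Num) - h_1 ((1+2X)^N - 1) + (F - 1) Num ∈ 2^(k+1)`
  (`(1+2X)^N - 1 ∈ 2`, `F - 1 ∈ 4`).
* `frel_two`: the polynomials for `Bs σ (Bj a)` are `h'_c = C (σ^c) * h_c`: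
  `rescale 2 (Bs σ B (c+2m)) = C (σ^(c+2m)) rescale 2 (B (c+2m))` and `σ^(2m) = 1`, so its
  coefficients are `σ^c σ^m coeff i (evj m h_c * B_m)` which is `coeff i (evj m h'_c * Bs σ B m)`.
  Conditions for `(r,s) = (2,1)`: `c = 0`: `h_0 ≡ F`, `F_1 = F_2 = 0`, so coefficients 1, 2 in `2^6`, the
  others in `4`; `c = 1`: `h_1 ∈ 8`. For `(3,3)` (`[6]`, `[3,4]`): `h_1 ∈ 16`, and
  `h_1 ≡ Num mod 32`, so its coefficient 2 is in 32 (`Num_six`).
* `core_two`, `core_two6`: `core` for `Bs σ (Bj a)` with `Lj_Bs`, `SDv_rescale`, `Ph_Bs`, `GG_Bs`.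
* `nu_int_all`: for `p ≠ 2`: `core_odd`, `nu_int` with `s = 0`. For `p = 2`: if `σ = 1`: `core_two` and
  `nu_int` with `s = 1` (`rescale 1 = id`, `rescale_one`); if `σ = -1`: `isNu_nut`, `nu_int` with `s = 1` for
  `nut ν`, `nu_of_nut`. Then `int_of_Dv`. `nu_four`: `core_two6` (`s = 3`), `nu_of_nut` with `s = 2`.
-/

set_option autoImplicit false

namespace KPInt

open Polynomial

private lemma fam1_pow {p M : ℕ} {f : ℚ[X]} (hf : PDv p 0 f) (h : PDv p M (f - 1)) (n : ℕ) :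
    PDv p M (f ^ n - 1) := by
  induction n with
  | zero => simpa using PDv.zero
  | succ n ih =>
    have e : f ^ (n + 1) - 1 = f * (f ^ n - 1) + (f - 1) := by ring
    rw [e]
    exact (hf.mul_left ih).add h

private lemma frel_odd (a : List ℕ) {p : ℕ} [hp : Fact p.Prime] (h2 : p ≠ 2) (n : ℕ) :
    ∃ h : ℕ → ℚ[X], FRel p 0 0 n (Bj a) h := by
  obtain ⟨F, h, _, _, h3, _, h5⟩ := exists_h a p n 3
  refine ⟨h, ⟨?_, ?_, ?_, ?_, ?_⟩⟩
  · intro c hc m hm i hi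
    have := h5 c hc m hm i hi
    rw [sgt_odd a h2, one_pow, one_mul] at this
    exact this
  · exact fun c hc => (h3 c hc).int
  · intro c hc
    have := h3 c hc 1
    simpa using this
  · intro c hc
    have := h3 c hc 2
    simpa using this
  · intro c hc k hk
    have := h3 c hc k
    rwa [min_eq_right hk] at this

theorem core_odd (a : List ℕ) {p : ℕ} [hp : Fact p.Prime] (h2 : p ≠ 2) (Gc : PowerSeries ℚ)
    (hG : Ph (Bj a) Gc = GG (Bj a)) :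
    SDv p 1 (DD p (Bj a)) ∧ SDv p 0 (I1 (Bj a)) ∧ SDv p 0 (ex (gg (Bj a))) ∧
      SDv p 0 (qq (Bj a)) ∧ SDv p 0 (KK (Bj a)) ∧
      SDv p 2 (PowerSeries.C ((p : ℚ) ^ 2) * Gc - VV p Gc) := by
  obtain ⟨h1, h3, h4, h5, h6, h7⟩ := core (p := p) (r := 0) (s := 0) (Or.inl ⟨h2, rfl, rfl⟩)
    (Bj_OKB a) (L0_int a p) ((L0_int a p).sub SDv.one) (fun n => frel_odd a h2 n) Gc hG
  refine ⟨h1, ?_, h4, h5, ?_, h7⟩
  · have := h3.add (SDv.one (p := p))
    rwa [sub_add_cancel] at this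
  · have := h6.add (SDv.one (p := p))
    rwa [sub_add_cancel] at this

private lemma fam1_Den : Den 2 1 = 1 + C (2 : ℚ) * X := by
  simp [Den]

private lemma fam1_h (a : List ℕ) {t : ℕ} (ht : t ≤ 4) (hN : PDv 2 t (Num a 2 1)) (n : ℕ) :
    ∃ (F : ℚ[X]) (h : ℕ → ℚ[X]),
      (F.coeff 1 = 0 ∧ F.coeff 2 = 0) ∧ PDv 2 3 (F - 1 - C (4 * c3 a) * X ^ 3) ∧
      (∀ c < 2, Fc 2 (h c)) ∧ PDv 2 6 (h 0 - F) ∧ PDv 2 t (h 1) ∧
      PDv 2 (t + 1) (h 1 - Num a 2 1) ∧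
      (∀ c < 2, ∀ m < n, ∀ i ≤ 2,
        PowerSeries.coeff i (PowerSeries.rescale ((2 : ℕ) : ℚ) (Bj a (c + 2 * m))) =
          sgt 2 a ^ m * PowerSeries.coeff i (evj m (h c) * Bj a m)) := by
  haveI : Fact (Nat.Prime 2) := ⟨Nat.prime_two⟩
  obtain ⟨F, h, ⟨f0, f1, f2, f3⟩, h2, h3, h4, h5⟩ := exists_h a 2 n 6
  have hFi : PDv 2 0 F := by
    have := (f3.mono (Nat.zero_le 2)).add (PDv.one (p := 2))
    rwa [sub_add_cancel] at this
  have h6 : PDv 2 6 (h 0 - F) := by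
    have := h4 0 (by norm_num)
    have e1 : Den 2 0 = 1 := by simp [Den]
    have e2 : Num a 2 0 = 1 := by simp [Num]
    rwa [e1, e2, one_pow, mul_one, mul_one] at this
  have hQ0 : PDv 2 0 (1 + C (2 : ℚ) * X) := by
    refine PDv.one.add ((PDv.C ?_).mul_right PDv.X)
    have := Dv.nat (p := 2) 2
    exact_mod_cast this
  have hQ1 : PDv 2 1 ((1 + C (2 : ℚ) * X) - 1) := by
    rw [add_sub_cancel_left]
    refine (PDv.C ?_).mul_right PDv.X
    have := Dv.p_self (p := 2)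
    exact_mod_cast this
  have hQ := fam1_pow hQ0 hQ1 a.sum
  have h7 := h4 1 (by norm_num)
  rw [fam1_Den] at h7
  set Q := (1 + C (2 : ℚ) * X) ^ a.sum with hQdef
  have h1i : PDv 2 0 (h 1) := (h3 1 (by norm_num)).int
  have h8 : PDv 2 t (h 1 * Q) := by
    have := (h7.mono (show t ≤ 6 by omega)).add (hFi.mul_left hN)
    rwa [sub_add_cancel] at this
  have h9 : PDv 2 t (h 1) := by
    refine PDv.of_mul_unit (u := 1) (g := Q) ?_ one_ne_zero ?_ h1i h8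
    · rw [inv_one]; exact Dv.one
    · rw [C_1]; exact hQ
  refine ⟨F, h, ⟨f1, f2⟩, ?_, h3, h6, h9, ?_, h5⟩
  · have := h2 (Or.inl rfl)
    norm_num at this ⊢
    exact this
  · have e : h 1 - Num a 2 1 = (h 1 * Q - F * Num a 2 1) - h 1 * (Q - 1) + (F - 1) * Num a 2 1 := by
      ring
    rw [e]
    refine ((h7.mono (show t + 1 ≤ 6 by omega)).sub (h9.mul hQ)).add ?_
    exact (f3.mul hN).mono (by omega)

private lemma fam1_rel (a : List ℕ) {n : ℕ} {h : ℕ → ℚ[X]}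
    (h5 : ∀ c < 2, ∀ m < n, ∀ i ≤ 2,
        PowerSeries.coeff i (PowerSeries.rescale ((2 : ℕ) : ℚ) (Bj a (c + 2 * m))) =
          sgt 2 a ^ m * PowerSeries.coeff i (evj m (h c) * Bj a m)) :
    Rel 2 n (Bs (sgt 2 a) (Bj a)) (fun c => C (sgt 2 a ^ c) * h c) := by
  intro c hc m hm i hi
  have hs : sgt 2 a ^ (2 * m) = 1 := by rw [pow_mul, sgt_sq, one_pow]
  have e1 : PowerSeries.rescale ((2 : ℕ) : ℚ) (Bs (sgt 2 a) (Bj a) (c + 2 * m)) =
      PowerSeries.C (sgt 2 a ^ (c + 2 * m)) *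
        PowerSeries.rescale ((2 : ℕ) : ℚ) (Bj a (c + 2 * m)) := by
    rw [Bs, map_mul, rescale_C]
  have e2 : evj m (C (sgt 2 a ^ c) * h c) * Bs (sgt 2 a) (Bj a) m =
      PowerSeries.C (sgt 2 a ^ c * sgt 2 a ^ m) * (evj m (h c) * Bj a m) := by
    rw [Bs, evj_mul, evj_C, map_mul]
    ring
  have e3 : PowerSeries.coeff i (evj m (C (sgt 2 a ^ c) * h c) * Bs (sgt 2 a) (Bj a) m) =
      sgt 2 a ^ c * sgt 2 a ^ m * PowerSeries.coeff i (evj m (h c) * Bj a m) := by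
    rw [e2, PowerSeries.coeff_C_mul]
  change _ = PowerSeries.coeff i (evj m (C (sgt 2 a ^ c) * h c) * Bs (sgt 2 a) (Bj a) m)
  rw [e3, e1, PowerSeries.coeff_C_mul, h5 c hc m hm i hi, pow_add, hs]
  ring

private lemma fam1_sg (a : List ℕ) : Dv 2 0 (sgt 2 a) := by
  rcases sgt_pm a 2 with h | h
  · rw [h]; exact Dv.one
  · rw [h]; exact Dv.one.neg

/-- polynomials `h'_0, h'_1` for the twisted jets at `p = 2` -/
theorem frel_two {a : List ℕ} (ha : a ∈ types) (n : ℕ) : ∃ (F : ℚ[X]) (h : ℕ → ℚ[X]),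
    FRel 2 2 1 n (Bs (sgt 2 a) (Bj a)) h ∧
    (F.coeff 1 = 0 ∧ F.coeff 2 = 0) ∧ PDv 2 3 (F - 1 - C (4 * c3 a) * X ^ 3) ∧
    PDv 2 6 (h 0 - F) ∧ PDv 2 3 (h 1) ∧ PDv 2 4 (h 1 - C (sgt 2 a) * Num a 2 1) := by
  obtain ⟨F, h, ⟨f1, f2⟩, f3, h3, h6, h9, h10, h5⟩ := fam1_h a (by norm_num) (Num_two ha) n
  have hs := fam1_sg a
  refine ⟨F, fun c => C (sgt 2 a ^ c) * h c, ⟨fam1_rel a h5, ?_, ?_, ?_, ?_⟩, ⟨f1, f2⟩, f3, ?_, ?_, ?_⟩
  · exact fun c hc => (PDv.C (hs.pow0 c)).mul_left (h3 c hc).int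
  · intro c hc
    change Dv 2 3 ((C (sgt 2 a ^ c) * h c).coeff 1)
    rw [Polynomial.coeff_C_mul]
    refine (hs.pow0 c).mul_left ?_
    interval_cases c
    · have := h6 1
      rw [Polynomial.coeff_sub, f1, sub_zero] at this
      exact this.mono (by norm_num)
    · exact h9 1
  · intro c hc
    change Dv 2 3 ((C (sgt 2 a ^ c) * h c).coeff 2)
    rw [Polynomial.coeff_C_mul]
    refine (hs.pow0 c).mul_left ?_
    interval_cases c
    · have := h6 2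
      rw [Polynomial.coeff_sub, f2, sub_zero] at this
      exact this.mono (by norm_num)
    · exact h9 2
  · intro c hc k hk
    change Dv 2 2 ((C (sgt 2 a ^ c) * h c).coeff k)
    rw [Polynomial.coeff_C_mul]
    refine (hs.pow0 c).mul_left ?_
    have := h3 c hc k
    rwa [min_eq_right hk] at this
  · change PDv 2 6 (C (sgt 2 a ^ 0) * h 0 - F)
    rw [pow_zero, C_1, one_mul]
    exact h6
  · change PDv 2 3 (C (sgt 2 a ^ 1) * h 1)
    exact (PDv.C (hs.pow0 1)).mul_left h9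
  · change PDv 2 4 (C (sgt 2 a ^ 1) * h 1 - C (sgt 2 a) * Num a 2 1)
    rw [pow_one, ← mul_sub]
    exact (PDv.C hs).mul_left h10

theorem frel_two6 {a : List ℕ} (ha : a = [6] ∨ a = [3, 4]) (n : ℕ) :
    ∃ h : ℕ → ℚ[X], FRel 2 3 3 n (Bs (sgt 2 a) (Bj a)) h := by
  obtain ⟨F, h, ⟨f1, f2⟩, f3, h3, h6, h9, h10, h5⟩ := fam1_h a le_rfl (Num_six ha).1 n
  have hs := fam1_sg a
  refine ⟨fun c => C (sgt 2 a ^ c) * h c, ⟨fam1_rel a h5, ?_, ?_, ?_, ?_⟩⟩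
  · exact fun c hc => (PDv.C (hs.pow0 c)).mul_left (h3 c hc).int
  · intro c hc
    change Dv 2 4 ((C (sgt 2 a ^ c) * h c).coeff 1)
    rw [Polynomial.coeff_C_mul]
    refine (hs.pow0 c).mul_left ?_
    interval_cases c
    · have := h6 1
      rw [Polynomial.coeff_sub, f1, sub_zero] at this
      exact this.mono (by norm_num)
    · exact h9 1
  · intro c hc
    change Dv 2 5 ((C (sgt 2 a ^ c) * h c).coeff 2)
    rw [Polynomial.coeff_C_mul]
    refine (hs.pow0 c).mul_left ?_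
    interval_cases c
    · have := h6 2
      rw [Polynomial.coeff_sub, f2, sub_zero] at this
      exact this.mono (by norm_num)
    · have := h10 2
      rw [Polynomial.coeff_sub] at this
      have h11 := this.add (Num_six ha).2
      rwa [sub_add_cancel] at h11
  · intro c hc k hk
    change Dv 2 2 ((C (sgt 2 a ^ c) * h c).coeff k)
    rw [Polynomial.coeff_C_mul]
    refine (hs.pow0 c).mul_left ?_
    have := h3 c hc k
    rwa [min_eq_right hk] at this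

private lemma fam1_hL (a : List ℕ) : SDv 2 0 (Lj (Bs (sgt 2 a) (Bj a)) 0) := by
  rw [Lj_Bs]
  exact SDv_rescale (sgt_pm a 2) (L0_int a 2)

private lemma fam1_hL1 {a : List ℕ} (ha : a ∈ types) :
    SDv 2 3 (Lj (Bs (sgt 2 a) (Bj a)) 0 - 1) := by
  have e : Lj (Bs (sgt 2 a) (Bj a)) 0 - 1 =
      PowerSeries.rescale (sgt 2 a) (Lj (Bj a) 0 - 1) := by
    rw [Lj_Bs, map_sub, map_one]
  rw [e]
  exact SDv_rescale (sgt_pm a 2) (L0_two ha)

private lemma fam1_G (a : List ℕ) (Gc : PowerSeries ℚ) (hG : Ph (Bj a) Gc = GG (Bj a)) :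
    Ph (Bs (sgt 2 a) (Bj a)) (PowerSeries.rescale (sgt 2 a) Gc) =
      GG (Bs (sgt 2 a) (Bj a)) := by
  rw [Ph_Bs _ _ (Bj_OKB a), hG, GG_Bs]

theorem core_two {a : List ℕ} (ha : a ∈ types) (Gc : PowerSeries ℚ)
    (hG : Ph (Bj a) Gc = GG (Bj a)) :
    SDv 2 3 (DD 2 (Bs (sgt 2 a) (Bj a))) ∧ SDv 2 2 (I1 (Bs (sgt 2 a) (Bj a)) - 1) ∧
      SDv 2 0 (ex (gg (Bs (sgt 2 a) (Bj a)))) ∧ SDv 2 0 (qq (Bs (sgt 2 a) (Bj a))) ∧
      SDv 2 1 (KK (Bs (sgt 2 a) (Bj a)) - 1) ∧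
      SDv 2 3 (PowerSeries.C ((2 : ℚ) ^ 2) * PowerSeries.rescale (sgt 2 a) Gc -
        VV 2 (PowerSeries.rescale (sgt 2 a) Gc)) := by
  have h := core (p := 2) (r := 2) (s := 1) (Or.inr ⟨rfl, by norm_num, by norm_num⟩)
    (OKB_Bs (sgt 2 a) (Bj a) (Bj_OKB a)) (fam1_hL a) ((fam1_hL1 ha).mono (by norm_num))
    (fun n => by
      obtain ⟨_, h, hh, _⟩ := frel_two ha n
      exact ⟨h, hh⟩)
    (PowerSeries.rescale (sgt 2 a) Gc) (fam1_G a Gc hG)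
  simpa using h

theorem core_two6 {a : List ℕ} (ha : a = [6] ∨ a = [3, 4]) (Gc : PowerSeries ℚ)
    (hG : Ph (Bj a) Gc = GG (Bj a)) :
    SDv 2 5 (PowerSeries.C ((2 : ℚ) ^ 2) * PowerSeries.rescale (sgt 2 a) Gc -
        VV 2 (PowerSeries.rescale (sgt 2 a) Gc)) := by
  have ha' : a ∈ types := by
    rcases ha with rfl | rfl <;> simp [types]
  obtain ⟨_, _, _, _, _, h⟩ := core (p := 2) (r := 3) (s := 3)
    (Or.inr ⟨rfl, by norm_num, by norm_num⟩)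
    (OKB_Bs (sgt 2 a) (Bj a) (Bj_OKB a)) (fam1_hL a) (fam1_hL1 ha')
    (fun n => frel_two6 ha n)
    (PowerSeries.rescale (sgt 2 a) Gc) (fam1_G a Gc hG)
  simpa using h

theorem nu_int_all {a : List ℕ} (ha : a ∈ types) (Gc : PowerSeries ℚ)
    (hG : Ph (Bj a) Gc = GG (Bj a)) {ν : ℕ → ℚ} (hν : IsNu Gc ν) :
    ∀ d, 1 ≤ d → ∃ z : ℤ, ν d = z := by
  intro d hd
  apply int_of_Dv
  intro q hq
  haveI : Fact q.Prime := ⟨hq⟩
  by_cases h2 : q = 2
  · subst h2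
    have h3 := (core_two ha Gc hG).2.2.2.2.2
    rcases sgt_pm a 2 with hs | hs
    · rw [hs, PowerSeries.rescale_one, RingHom.id_apply] at h3
      refine (nu_int (p := 2) (s := 1) ?_ hν d hd).mono (Nat.zero_le 1)
      simpa using h3
    · rw [hs] at h3
      refine nu_of_nut (s := 0) ?_ d hd
      refine nu_int (p := 2) (s := 1) ?_ (isNu_nut hν)
      simpa using h3
  · exact nu_int (s := 0) (core_odd a h2 Gc hG).2.2.2.2.2 hν d hd

theorem nu_four {a : List ℕ} (ha : a = [6] ∨ a = [3, 4]) (Gc : PowerSeries ℚ)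
    (hG : Ph (Bj a) Gc = GG (Bj a)) {ν : ℕ → ℚ} (hν : IsNu Gc ν) :
    ∀ d, 1 ≤ d → Dv 2 2 (ν d) := by
  have hs : sgt 2 a = -1 := by
    rcases ha with rfl | rfl
    · exact sgt_vals.1
    · exact sgt_vals.2.2.1
  have h3 := core_two6 ha Gc hG
  rw [hs] at h3
  refine nu_of_nut (s := 2) ?_
  refine nu_int (p := 2) (s := 3) ?_ (isNu_nut hν)
  simpa using h3

end KPInt
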