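import Pool.Agent.Lib.KPInt.M3Rd

/-!
# M3Fin: the algebraic identities modulo 3 for X25, X224, X22222
-/

set_option autoImplicit false

namespace KPInt

open PowerSeries

/-- the data modulo 3 of a Calabi-Yau complete intersection -/
structure D3 (P0 P1 P2 : (ZMod 3)⟦X⟧) (c e ec : ZMod 3) (l i k u n R : (ZMod 3)⟦X⟧) : Prop where
  l0 : constantCoeff l = 1
  i0 : constantCoeff i = 1
  k0 : constantCoeff k = 1
  n0 : constantCoeff n = 0
  hl : P0 * l ^ 2 = 1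
  hu : P0 * u = P1
  hi : i ^ 2 * (1 + tb u) = 1
  hk : (1 - C c * X) * k ^ 2 * l ^ 2 * i ^ 4 = 1
  hn : P0 * (n - n ^ 3) =
    i ^ 6 * k ^ 3 * (P2 + P0 * u ^ 2) + P0 * i ^ 6 * tb k ^ 3 * (C e + u ^ 3)
  hR : (1 - C c * X ^ 3) * R = -(C c * X) + C c ^ 2 * X ^ 2 + C ec * X ^ 3 + C c * u * X ^ 3

private lemma m3_three : (3 : (ZMod 3)⟦X⟧) = 0 := by
  have h : (C (3 : ZMod 3) : (ZMod 3)⟦X⟧) = 3 := map_ofNat _ 3
  rw [← h, show (3 : ZMod 3) = 0 from by decide, map_zero]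

/-- the equation `n - n^3 = Φ` determines `n` -/
lemma unique_n {n m : (ZMod 3)⟦X⟧} (hn : constantCoeff n = 0) (hm : constantCoeff m = 0)
    (h : n - n ^ 3 = m - m ^ 3) : n = m := by
  have h1 : (n - m) * (1 - (n ^ 2 + n * m + m ^ 2)) = 0 := by linear_combination h
  rcases mul_eq_zero.mp h1 with h2 | h2
  · exact sub_eq_zero.mp h2
  · exfalso
    have h3 := congrArg constantCoeff h2
    simp only [map_sub, map_add, map_mul, map_pow, map_one, map_zero, hn, hm] at h3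
    norm_num at h3

/-- a square root of one with constant coefficient one is one -/
lemma sqrt_one {f : (ZMod 3)⟦X⟧} (h0 : constantCoeff f = 1) (h : f ^ 2 = 1) : f = 1 := by
  have h1 : (f - 1) * (f + 1) = 0 := by linear_combination h
  rcases mul_eq_zero.mp h1 with h2 | h2
  · exact sub_eq_zero.mp h2
  · exfalso
    have h3 := congrArg constantCoeff h2
    simp only [map_add, map_one, map_zero, h0] at h3
    exact absurd h3 (by decide)

section types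
variable {l i k u n R : (ZMod 3)⟦X⟧}

/-- X25: `P0 = 1, P1 = z, P2 = -z`, `c = -1`, `e = 0`. -/
theorem fin_25 (h : D3 1 X (-X) (-1) 0 0 l i k u n R) : R = -n - n ^ 2 := by
  have h3 := m3_three
  have hu : u = X := by simpa using h.hu
  have hC : (C (-1 : ZMod 3) : (ZMod 3)⟦X⟧) = -1 := by rw [map_neg, map_one]
  have hC0 : (C (0 : ZMod 3) : (ZMod 3)⟦X⟧) = 0 := map_zero _
  have hl : l ^ 2 = 1 := by simpa using h.hl
  have hi := h.hi
  rw [hu, tb_X] at hi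
  have hk := h.hk
  rw [hC, hl] at hk
  have hki : k * i = 1 := by
    apply sqrt_one
    · rw [map_mul, h.k0, h.i0, mul_one]
    · linear_combination hk - k ^ 2 * i ^ 2 * hi
  have hk2 : k ^ 2 = 1 + X := by
    linear_combination (-k ^ 2) * hi + (1 + X) * (k * i + 1) * hki
  have ht : k * tb k = -X := by
    have h1 : tb (k ^ 2) = X := by rw [hk2, tb_add, tb_one, tb_X, zero_add]
    rw [pow_two, tb_mul] at h1
    linear_combination (-1) * h1 + k * tb k * h3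
  have ht' : tb k = -X * i := by
    linear_combination i * ht - tb k * hki
  have hn := h.hn
  rw [hu, hC0, ht'] at hn
  have hn' : n - n ^ 3 = i ^ 3 * (X ^ 2 - X) - X ^ 6 * i ^ 9 := by
    linear_combination hn + (X ^ 2 - X) * i ^ 3 * ((k * i) ^ 2 + k * i + 1) * hki
  have hm : n = 1 - (1 + X - X ^ 2) * i ^ 3 := by
    apply unique_n h.n0
    · simp [h.i0]
    · rw [hn']
      linear_combination (-(i ^ 3 * ((i ^ 2 * (1 + X)) ^ 2 + i ^ 2 * (1 + X) + 1))) * hi -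
        (i ^ 3 + X * i ^ 3 + (-1) * X ^ 2 * i ^ 3 + (-1) * i ^ 6 + (-2) * X * i ^ 6 + X ^ 2 * i ^ 6 + 2 * X ^ 3 * i ^ 6 + (-1) * X ^ 4 * i ^ 6 + (-1) * X ^ 2 * i ^ 9 + (-2) * X ^ 3 * i ^ 9 + X ^ 5 * i ^ 9) * h3
  have hR := h.hR
  rw [hu, hC, hC0] at hR
  have h1 : (1 + X ^ 3) * (R + n + n ^ 2) = 0 := by
    rw [hm]
    linear_combination hR + (1 + X - X ^ 2) ^ 2 * ((i ^ 2 * (1 + X)) ^ 2 + i ^ 2 * (1 + X) + 1) * hi +
      (1 + X + (-1) * i ^ 3 + (-1) * X * i ^ 3 + X ^ 2 * i ^ 3 + (-1) * X ^ 3 * i ^ 3 + (-1) * X * i ^ 6 + (-1) * X ^ 4 * i ^ 3 + (-3) * X ^ 2 * i ^ 6 + X ^ 5 * i ^ 3 + (-1) * X ^ 3 * i ^ 6 + 3 * X ^ 4 * i ^ 6 + X ^ 5 * i ^ 6 + (-1) * X ^ 6 * i ^ 6) * h3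
  rcases mul_eq_zero.mp h1 with h2 | h2
  · exfalso
    have h3 := congrArg constantCoeff h2
    simp at h3
  · linear_combination h2

/-- X224: `P0 = 1, P1 = -z, P2 = z`, `c = 1`, `e = 0`. -/
theorem fin_224 (h : D3 1 (-X) X 1 0 0 l i k u n R) : R = -n - n ^ 2 := by
  have h3 := m3_three
  have hu : u = -X := by simpa using h.hu
  have hC : (C (1 : ZMod 3) : (ZMod 3)⟦X⟧) = 1 := map_one _
  have hC0 : (C (0 : ZMod 3) : (ZMod 3)⟦X⟧) = 0 := map_zero _
  have hl : l ^ 2 = 1 := by simpa using h.hl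
  have htX : tb (-X : (ZMod 3)⟦X⟧) = -X := by
    rw [← zero_sub, tb_sub, tb_zero, tb_X]
  have hi := h.hi
  rw [hu, htX] at hi
  have hk := h.hk
  rw [hC, hl] at hk
  have hki : k * i = 1 := by
    apply sqrt_one
    · rw [map_mul, h.k0, h.i0, mul_one]
    · linear_combination hk - k ^ 2 * i ^ 2 * hi
  have hk2 : k ^ 2 = 1 - X := by
    linear_combination (-k ^ 2) * hi + (1 - X) * (k * i + 1) * hki
  have ht : k * tb k = X := by
    have h1 : tb (k ^ 2) = -X := by rw [hk2, tb_sub, tb_one, tb_X, zero_sub]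
    rw [pow_two, tb_mul] at h1
    linear_combination (-1) * h1 + k * tb k * h3
  have ht' : tb k = X * i := by
    linear_combination i * ht - tb k * hki
  have hn := h.hn
  rw [hu, hC0, ht'] at hn
  have hn' : n - n ^ 3 = i ^ 3 * (X ^ 2 + X) - X ^ 6 * i ^ 9 := by
    linear_combination hn + (X ^ 2 + X) * i ^ 3 * ((k * i) ^ 2 + k * i + 1) * hki
  have hm : n = 1 - (1 - X - X ^ 2) * i ^ 3 := by
    apply unique_n h.n0
    · simp [h.i0]
    · rw [hn']
      linear_combination (-(i ^ 3 * ((i ^ 2 * (1 - X)) ^ 2 + i ^ 2 * (1 - X) + 1))) * hi -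
        (i ^ 3 + (-1) * X * i ^ 3 + (-1) * X ^ 2 * i ^ 3 + (-1) * i ^ 6 + 2 * X * i ^ 6 + X ^ 2 * i ^ 6 + (-2) * X ^ 3 * i ^ 6 + (-1) * X ^ 4 * i ^ 6 + (-1) * X ^ 2 * i ^ 9 + 2 * X ^ 3 * i ^ 9 + (-1) * X ^ 5 * i ^ 9) * h3
  have hR := h.hR
  rw [hu, hC, hC0] at hR
  have h1 : (1 - X ^ 3) * (R + n + n ^ 2) = 0 := by
    rw [hm]
    linear_combination hR + (1 - X - X ^ 2) ^ 2 * ((i ^ 2 * (1 - X)) ^ 2 + i ^ 2 * (1 - X) + 1) * hi +
      (1 + (-1) * X + (-1) * i ^ 3 + X * i ^ 3 + X ^ 2 * i ^ 3 + X ^ 3 * i ^ 3 + X * i ^ 6 + (-1) * X ^ 4 * i ^ 3 + (-3) * X ^ 2 * i ^ 6 + (-1) * X ^ 5 * i ^ 3 + X ^ 3 * i ^ 6 + 3 * X ^ 4 * i ^ 6 + (-1) * X ^ 5 * i ^ 6 + (-1) * X ^ 6 * i ^ 6) * h3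
  rcases mul_eq_zero.mp h1 with h2 | h2
  · exfalso
    have h3 := congrArg constantCoeff h2
    simp at h3
  · linear_combination h2

/-- X22222: `P0 = 1 - z, P1 = z, P2 = z`, `c = 1`, `e = -1`. -/
theorem fin_22222 (h : D3 (1 - X) X X 1 (-1) (-1) l i k u n R) : R = u + n + n ^ 2 := by
  have h3 := m3_three
  have hC : (C (1 : ZMod 3) : (ZMod 3)⟦X⟧) = 1 := map_one _
  have hC1 : (C (-1 : ZMod 3) : (ZMod 3)⟦X⟧) = -1 := by rw [map_neg, map_one]
  have hl := h.hl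
  have hu := h.hu
  have hv : (1 - X) * (1 + u) = 1 := by linear_combination hu
  -- `X` and `1 - X` are nonzero
  have hy : (1 - X : (ZMod 3)⟦X⟧) ≠ 0 := by
    intro h0
    have := congrArg constantCoeff h0
    simp at this
  have hy' : (1 + X : (ZMod 3)⟦X⟧) ≠ 0 := by
    intro h0
    have := congrArg constantCoeff h0
    simp at this
  -- `θu`
  have htu : (1 - X) ^ 2 * tb u = X := by
    have h1 : tb ((1 - X) * u) = X := by rw [hu, tb_X]
    rw [tb_mul, tb_sub, tb_one, tb_X] at h1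
    linear_combination (1 - X) * h1 + X * hu
  have hi1 : (i * (1 + X)) ^ 2 = (1 - X) ^ 2 := by
    linear_combination (1 - X) ^ 2 * h.hi - i ^ 2 * htu + i ^ 2 * X * h3
  have hi : i * (1 + X) = 1 - X := by
    have h1 : (i * (1 + X) - (1 - X)) * (i * (1 + X) + (1 - X)) = 0 := by
      linear_combination hi1
    rcases mul_eq_zero.mp h1 with h2 | h2
    · exact sub_eq_zero.mp h2
    · exfalso
      have h3 := congrArg constantCoeff h2
      simp only [map_add, map_sub, map_mul, map_one, map_zero, h.i0, constantCoeff_X] at h3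
      exact absurd h3 (by decide)
  have hk := h.hk
  rw [hC] at hk
  have hki : k * i ^ 2 = 1 := by
    apply sqrt_one
    · rw [map_mul, map_pow, h.k0, h.i0]; norm_num
    · linear_combination hk - k ^ 2 * i ^ 4 * hl
  have hti : (1 + X) ^ 2 * tb i = X := by
    have h1 : tb (i * (1 + X)) = -X := by rw [hi, tb_sub, tb_one, tb_X, zero_sub]
    rw [tb_mul, tb_add, tb_one, tb_X] at h1
    linear_combination (1 + X) * h1 - X * hi - X * h3
  have htk : (1 - X) * (1 + X) * (i ^ 2 * tb k) = X := by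
    have h1 : tb (k * i ^ 2) = 0 := by rw [hki, tb_one]
    rw [tb_mul, pow_two, tb_mul] at h1
    have h2 : i ^ 2 * tb k = k * i * tb i := by linear_combination h1 - k * i * tb i * h3
    have h4 : (1 + X) * ((1 - X) * (1 + X) * (i ^ 2 * tb k)) = (1 + X) * X := by
      rw [h2]
      linear_combination (1 - X) * (k * i) * hti - k * i * X * hi + (1 + X) * X * hki
    exact mul_left_cancel₀ hy' h4
  have hz : ((1 - X) * (1 + X) : (ZMod 3)⟦X⟧) ^ 3 ≠ 0 := pow_ne_zero _ (mul_ne_zero hy hy')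
  have hA : (i ^ 2 * tb k) ^ 3 * (-1 + u ^ 3) = -(X ^ 3 * (1 + u) ^ 6) := by
    have h4 : ((1 - X) * (1 + X)) ^ 3 * ((i ^ 2 * tb k) ^ 3 * (-1 + u ^ 3) + X ^ 3 * (1 + u) ^ 6) =
        0 := by
      set w := i ^ 2 * tb k with hw
      linear_combination (-1 + u ^ 3) * (((1 - X) * (1 + X) * w) ^ 2 +
        (1 - X) * (1 + X) * w * X + X ^ 2) * htk +
        (X ^ 3 * (1 + X) ^ 3 * (1 + u) ^ 3 - X ^ 3) *
          (((1 - X) * (1 + u)) ^ 2 + (1 - X) * (1 + u) + 1) * hv +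
        (2 * X ^ 3 * u + 2 * X ^ 3 * u ^ 2 + 2 * X ^ 5 + X ^ 3 * u ^ 3 + 6 * X ^ 5 * u + 6 * X ^ 5 * u ^ 2 + 2 * X ^ 5 * u ^ 3) * h3
    rcases mul_eq_zero.mp h4 with h5 | h5
    · exact absurd h5 hz
    · linear_combination h5
  have hn : n = X * (1 + u) ^ 2 := by
    apply unique_n h.n0
    · simp
    · apply mul_left_cancel₀ hy
      rw [h.hn, hC1]
      have hk3 : i ^ 6 * k ^ 3 = 1 := by
        linear_combination ((k * i ^ 2) ^ 2 + k * i ^ 2 + 1) * hki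
      linear_combination (X + (1 - X) * u ^ 2) * hk3 + (1 - X) * hA + u * hu - X * (1 + u) * hv
  have hR := h.hR
  rw [hC, hC1] at hR
  have h1 : (1 - X) ^ 4 * ((1 - X ^ 3) * (R - (u + n + n ^ 2))) = 0 := by
    rw [hn]
    linear_combination (1 - X) ^ 4 * hR +
      ((1 - X) ^ 3 * (X ^ 3 - (1 - X ^ 3)) + (-(1 - X ^ 3) * X) * (1 - X) ^ 2 *
        ((1 - X) * (1 + u) + 1) + (-(1 - X ^ 3) * X ^ 2) * (((1 - X) * (1 + u)) ^ 3 +
        ((1 - X) * (1 + u)) ^ 2 + (1 - X) * (1 + u) + 1)) * hv +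
      ((-1) * X + 3 * X ^ 2 + (-5) * X ^ 3 + 6 * X ^ 4 + (-6) * X ^ 5 + 4 * X ^ 6 + (-1) * X ^ 7) * h3
  rcases mul_eq_zero.mp h1 with h2 | h2
  · exact absurd h2 (pow_ne_zero _ hy)
  · rcases mul_eq_zero.mp h2 with h2 | h2
    · exfalso
      have h3 := congrArg constantCoeff h2
      simp at h3
    · exact sub_eq_zero.mp h2

end types

end KPInt
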