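import Pool.Agent.Lib.KPInt.M3U
import Pool.Agent.Lib.KPInt.M3Fin
import Pool.Agent.Lib.KPInt.KRec

/-!
# M3H: the condition at 3 for X25, X224, X22222
-/

set_option autoImplicit false

namespace KPInt

open PowerSeries

/-! ### multiple covers modulo 3 -/

private lemma m3h_filter {n : ℕ} (h3n : 3 ∣ n) (hn : 1 ≤ n) :
    n.divisors.filter (fun d => 3 ∣ n / d) = (n / 3).divisors := by
  obtain ⟨m, rfl⟩ := h3n
  have hm : 0 < m := by omega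
  rw [Nat.mul_div_cancel_left m (by norm_num)]
  ext d
  rw [Finset.mem_filter, Nat.mem_divisors, Nat.mem_divisors]
  constructor
  · rintro ⟨⟨⟨e, he⟩, -⟩, h2⟩
    have hd : 0 < d := Nat.pos_of_ne_zero (by rintro rfl; simp at he; omega)
    rw [he, Nat.mul_div_cancel_left e hd] at h2
    obtain ⟨f, rfl⟩ := h2
    refine ⟨⟨f, ?_⟩, hm.ne'⟩
    have h3 : 3 * m = 3 * (d * f) := by rw [he]; ring
    exact Nat.eq_of_mul_eq_mul_left (by norm_num) h3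
  · rintro ⟨⟨e, rfl⟩, -⟩
    have hd : 0 < d := Nat.pos_of_ne_zero (by rintro rfl; simp at hm)
    refine ⟨⟨⟨3 * e, by ring⟩, by positivity⟩, ?_⟩
    have h3 : 3 * (d * e) / d = 3 * e := by
      rw [show 3 * (d * e) = d * (3 * e) by ring, Nat.mul_div_cancel_left _ hd]
    rw [h3]
    exact Dvd.intro e rfl

/-- the sum over the divisors `d` with `3 ∤ n / d` -/
private lemma m3h_coeffG {Gc : ℚ⟦X⟧} {ν : ℕ → ℚ} (hν : IsNu Gc ν) (n : ℕ) (hn : 1 ≤ n) :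
    coeff n (Gc - C (1 / 9) * VV 3 Gc) =
      ∑ d ∈ n.divisors with ¬ 3 ∣ n / d, ν d * ((d : ℚ) / n) ^ 2 := by
  have hn0 : (n : ℚ) ≠ 0 := by positivity
  rw [map_sub, PowerSeries.coeff_C_mul, coeff_VV, hν.2 n hn]
  by_cases hpn : 3 ∣ n
  · have h1 : 1 ≤ n / 3 := Nat.div_pos (Nat.le_of_dvd hn hpn) (by norm_num)
    rw [if_pos hpn, hν.2 (n / 3) h1]
    have h2 := Finset.sum_filter_add_sum_filter_not n.divisors (fun d => 3 ∣ n / d)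
      (fun d => ν d * ((d : ℚ) / n) ^ 2)
    rw [← h2, m3h_filter hpn hn]
    have h3 : (1 / 9 : ℚ) * ∑ d ∈ (n / 3).divisors, ν d * ((d : ℚ) / ((n / 3 : ℕ) : ℚ)) ^ 2 =
        ∑ d ∈ (n / 3).divisors, ν d * ((d : ℚ) / n) ^ 2 := by
      rw [Finset.mul_sum]
      refine Finset.sum_congr rfl fun d _ => ?_
      rw [Nat.cast_div hpn (by norm_num)]
      push_cast
      field_simp
      ring
    rw [h3]
    ring
  · rw [if_neg hpn, mul_zero, sub_zero, Finset.filter_true_of_mem]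
    intro d hd h
    exact hpn (h.trans (Nat.div_dvd_of_dvd (Nat.dvd_of_mem_divisors hd)))

private lemma m3h_coeffN (ν : ℕ → ℚ) (n : ℕ) (hn : 1 ≤ n) :
    coeff n (Nq ν - VV 3 (Nq ν)) = ∑ d ∈ n.divisors with ¬ 3 ∣ n / d, ν d := by
  rw [map_sub, coeff_VV, Nq, coeff_mk]
  by_cases hpn : 3 ∣ n
  · rw [if_pos hpn, coeff_mk]
    have h2 := Finset.sum_filter_add_sum_filter_not n.divisors (fun d => 3 ∣ n / d)
      (fun d => ν d)
    rw [← h2, m3h_filter hpn hn]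
    ring
  · rw [if_neg hpn, sub_zero, Finset.filter_true_of_mem]
    intro d hd h
    exact hpn (h.trans (Nat.div_dvd_of_dvd (Nat.dvd_of_mem_divisors hd)))

private lemma m3h_sq {k : ℕ} (hk : ¬ 3 ∣ k) : Dv 3 1 ((1 / (k : ℚ)) ^ 2 - 1) := by
  have hk0 : k ≠ 0 := by rintro rfl; simp at hk
  have hkq : (k : ℚ) ≠ 0 := by exact_mod_cast hk0
  have hc : Nat.Coprime (k ^ 2) 3 := by
    apply Nat.Coprime.pow_left
    exact ((Nat.Prime.coprime_iff_not_dvd Nat.prime_three).mpr hk).symm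
  apply Dv.of_nat_mul hc (pow_ne_zero 2 hk0)
  have e : ((k ^ 2 : ℕ) : ℚ) * ((1 / (k : ℚ)) ^ 2 - 1) = ((1 - (k : ℤ) ^ 2 : ℤ) : ℚ) := by
    push_cast
    field_simp
  rw [e]
  have h3 : (3 : ℤ) ∣ 1 - (k : ℤ) ^ 2 := by
    have h0 : ((1 - (k : ℤ) ^ 2 : ℤ) : ZMod 3) = 0 := by
      push_cast
      have hk' : (k : ZMod 3) ≠ 0 := by
        intro h; rw [ZMod.natCast_eq_zero_iff] at h; exact hk h
      revert hk'
      generalize (k : ZMod 3) = x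
      revert x; decide
    exact (ZMod.intCast_zmod_eq_zero_iff_dvd _ 3).mp h0
  obtain ⟨m, hm⟩ := h3
  refine ⟨m, 1, by norm_num, ?_⟩
  rw [hm]; push_cast; ring

/-- `G - V G / 9 ≡ N - V N mod 3` -/
lemma m3h_cover {Gc : ℚ⟦X⟧} {ν : ℕ → ℚ} (hν : IsNu Gc ν) (hint : ∀ d, 1 ≤ d → Dv 3 0 (ν d)) :
    SDv 3 1 ((Gc - C (1 / 9) * VV 3 Gc) - (Nq ν - VV 3 (Nq ν))) := by
  intro n
  rcases Nat.eq_zero_or_pos n with h0 | hn
  · subst h0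
    have h1 : constantCoeff Gc = 0 := hν.1
    have h2 : constantCoeff (Nq ν) = 0 := by
      rw [← coeff_zero_eq_constantCoeff_apply, Nq, coeff_mk]; simp
    rw [coeff_zero_eq_constantCoeff_apply, map_sub, map_sub, map_sub, map_mul, constantCoeff_VV,
      constantCoeff_VV, h1, h2]
    simp
    exact Dv.zero
  · rw [map_sub, m3h_coeffG hν n hn, m3h_coeffN ν n hn, ← Finset.sum_sub_distrib]
    apply Dv.sum
    intro d hd
    rw [Finset.mem_filter, Nat.mem_divisors] at hd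
    obtain ⟨⟨hd1, -⟩, hd2⟩ := hd
    have hdpos : 0 < d := Nat.pos_of_dvd_of_pos hd1 hn
    have hd0 : (d : ℚ) ≠ 0 := by positivity
    have h4 : (d : ℚ) / n = 1 / ((n / d : ℕ) : ℚ) := by
      rw [Nat.cast_div hd1 hd0, one_div, inv_div]
    have e : ν d * ((d : ℚ) / n) ^ 2 - ν d = ν d * ((1 / ((n / d : ℕ) : ℚ)) ^ 2 - 1) := by
      rw [h4]; ring
    rw [e]
    exact (hint d hdpos).mul_left (m3h_sq hd2)

/-! ### the data modulo 3 -/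

variable {B : ℕ → ℚ⟦X⟧} {A : ℕ → ZMod 3 × ZMod 3 × ZMod 3} {e : ℚ} {Z : ℚ⟦X⟧}

private lemma m3h_one : (((1 : ℚ)) : ZMod 3) = 1 := by simp

/-- assembling the data modulo 3 -/
theorem m3h_D3 (hB : OKB B) (hL : SDv 3 0 (Lj B 0)) (hI : SDv 3 0 (I1 B))
    (hK : SDv 3 0 (KK B)) (hD : SDv 3 1 (DD 3 B)) (hq : SDv 3 0 (qq B)) (he : Dv 3 0 e)
    (hyp : ∀ n, ∃ h, F27 n B h A e) {Gc : ℚ⟦X⟧} (hG : Ph B Gc = GG B) {ν : ℕ → ℚ}
    (hν : IsNu Gc ν) (hint : ∀ d, 1 ≤ d → Dv 3 0 (ν d))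
    {c : ℚ} (hc : Dv 3 0 c) (hc3 : Dv 3 1 (c - c ^ 3))
    (hKid : (1 - C c * X) * KK B ^ 2 * Lj B 0 ^ 2 * I1 B ^ 4 = 1)
    {R : ℚ⟦X⟧} (hR0 : SDv 3 0 R)
    (hR : SDv 3 1 ((1 - C c * X ^ 3) * R - (-(C c * X) + C c ^ 2 * X ^ 2 +
      C ((c - c ^ 3) / 3) * X ^ 3 + C c * uu B * X ^ 3))) :
    D3 (Pb fun c => (A c).1) (Pb fun c => (A c).2.1) (Pb fun c => (A c).2.2) (c : ZMod 3)
      (e : ZMod 3) (((c - c ^ 3) / 3 : ℚ) : ZMod 3) (rd 3 (Lj B 0)) (rd 3 (I1 B)) (rd 3 (KK B))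
      (rd 3 (uu B)) (rd 3 (Ph B (Nq ν))) (rd 3 R) := by
  have hqq := constantCoeff_qq B
  have hD' : SDv 3 0 (D3' B) := hD.third
  have hT : SDv 3 0 (tq B (KK B)) := tq_int hI hK
  have huu := uu_int hI hD
  have hCc : SDv 3 0 (C c : ℚ⟦X⟧) := SDv.C hc
  have hN : SDv 3 0 (Nq ν) := by
    intro n
    rw [Nq, coeff_mk]
    exact Dv.sum _ _ fun d hd => hint d (Nat.pos_of_mem_divisors hd)
  have l0 : constantCoeff (rd 3 (Lj B 0)) = 1 := by rw [cc_rd, cc_L0 hB, m3h_one]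
  have i0 : constantCoeff (rd 3 (I1 B)) = 1 := by rw [cc_rd, cc_I1, m3h_one]
  have hlne : rd 3 (Lj B 0) ≠ 0 := by
    intro h; rw [h, map_zero] at l0; exact zero_ne_one l0
  have hine : rd 3 (I1 B) ≠ 0 := by
    intro h; rw [h, map_zero] at i0; exact zero_ne_one i0
  have r0 := m3_rel0 hB hL hI hyp
  have r1 := m3_rel1 hB hL hI hD hyp
  have rt := m3_th (B := B) hI hD
  -- `P0 l^2 = 1`
  have hl : Pb (fun c => (A c).1) * rd 3 (Lj B 0) ^ 2 = 1 := by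
    apply mul_left_cancel₀ hlne
    linear_combination (-1 : (ZMod 3)⟦X⟧) * r0
  -- `d = u i^3`
  have hdu : rd 3 (D3' B) = rd 3 (uu B) * rd 3 (I1 B) ^ 3 := by
    have hVI : SDv 3 0 (VV 3 (I1 B)) := hI.VV
    have h0 : constantCoeff (VV 3 (I1 B)) = 1 := by rw [constantCoeff_VV, cc_I1]
    have h1 : D3' B = uu B * VV 3 (I1 B) := by
      have h2 : VV 3 (I1 B) * (VV 3 (I1 B))⁻¹ = 1 :=
        PowerSeries.mul_inv_cancel _ (by rw [h0]; exact one_ne_zero)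
      rw [uu]
      linear_combination (-(D3' B)) * h2
    rw [← rd_VV hI, ← rd_mul huu hVI, ← h1]
  have hu : Pb (fun c => (A c).1) * rd 3 (uu B) = Pb (fun c => (A c).2.1) := by
    have h1 : (rd 3 (Lj B 0) * rd 3 (I1 B) ^ 3) * (Pb (fun c => (A c).1) * rd 3 (uu B)) =
        (rd 3 (Lj B 0) * rd 3 (I1 B) ^ 3) * Pb (fun c => (A c).2.1) := by
      rw [hdu] at r1
      linear_combination Pb (fun c => (A c).1) * r1 +
        (Pb (fun c => (A c).2.1) * rd 3 (I1 B) ^ 3 * rd 3 (Lj B 0)) * hl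
    exact mul_left_cancel₀ (mul_ne_zero hlne (pow_ne_zero 3 hine)) h1
  have hi : rd 3 (I1 B) ^ 2 * (1 + tb (rd 3 (uu B))) = 1 := by
    have h1 : tb (rd 3 (D3' B)) = tb (rd 3 (uu B)) * rd 3 (I1 B) ^ 3 := by
      have h2 : rd 3 (I1 B) ^ 3 = rd 3 (VV 3 (I1 B)) := (rd_VV hI).symm
      have h3 : tb (rd 3 (VV 3 (I1 B))) = 0 := by
        rw [← rd_th hI.VV, th_VV, rd_mul (SDv.C (Dv.nat 3)) hI.th.VV, rd_C]
        have : (((3 : ℕ) : ℚ) : ZMod 3) = 0 := cast_eq_zero_of_Dv Dv.p_self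
        rw [this, map_zero, zero_mul]
      rw [hdu, tb_mul, h2, h3, mul_zero, add_zero]
    apply mul_left_cancel₀ hine
    linear_combination rt - h1
  have hTi : rd 3 (tq B (KK B)) * rd 3 (I1 B) = tb (rd 3 (KK B)) := by
    rw [← rd_th hK, ← rd_mul hT hI]
    congr 1
    rw [tq, mul_assoc, PowerSeries.inv_mul_cancel _ (by rw [cc_I1]; exact one_ne_zero), mul_one]
  have hcov := m3h_cover hν hint
  have hF : SDv 3 0 (Gc - C (1 / 9) * VV 3 Gc) := by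
    have h1 := (hcov.mono (Nat.zero_le 1)).add (hN.sub hN.VV)
    rwa [sub_add_cancel] at h1
  have hrF : rd 3 (Ph B (Gc - C (1 / 9) * VV 3 Gc)) =
      rd 3 (Ph B (Nq ν)) - rd 3 (Ph B (Nq ν)) ^ 3 := by
    have hPN : SDv 3 0 (Ph B (Nq ν)) := Ph_int hq hN
    have h1 : SDv 3 1 (Ph B ((Gc - C (1 / 9) * VV 3 Gc) - (Nq ν - Nq ν ^ 3))) := by
      apply Ph_int hq
      have h2 : SDv 3 1 (Nq ν ^ 3 - VV 3 (Nq ν)) := hN.frob
      have h3 := hcov.add h2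
      have e1 : Gc - C (1 / 9) * VV 3 Gc - (Nq ν - VV 3 (Nq ν)) + (Nq ν ^ 3 - VV 3 (Nq ν)) =
          Gc - C (1 / 9) * VV 3 Gc - (Nq ν - Nq ν ^ 3) := by ring
      rwa [e1] at h3
    have e2 : Ph B ((Gc - C (1 / 9) * VV 3 Gc) - (Nq ν - Nq ν ^ 3)) =
        Ph B (Gc - C (1 / 9) * VV 3 Gc) - (Ph B (Nq ν) - Ph B (Nq ν) ^ 3) := by
      unfold Ph
      rw [sb_sub hqq, sb_sub hqq (Nq ν), sb_pow hqq]
    rw [e2] at h1
    rw [rd_congr (hPN.sub (hPN.pow0 3)) h1, rd_sub hPN (hPN.pow0 3), rd_pow hPN]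
  have r2 := m3_rel2 hB hL hI hK hD hq he hyp hG hF
  rw [hrF, hdu] at r2
  refine ⟨l0, i0, ?_, ?_, hl, hu, hi, ?_, ?_, ?_⟩
  · rw [cc_rd, cc_KK, m3h_one]
  · have h2 : constantCoeff (Nq ν) = 0 := by
      rw [← coeff_zero_eq_constantCoeff_apply, Nq, coeff_mk]; simp
    rw [cc_rd, Ph, constantCoeff_sb hqq, h2, Rat.cast_zero]
  · have h1 := congrArg (rd 3) hKid
    have hX : SDv 3 0 (1 - C c * X : ℚ⟦X⟧) := SDv.one.sub (hCc.mul_left SDv.X)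
    rw [rd_mul ((hX.mul_left (hK.pow0 2)).mul_left (hL.pow0 2)) (hI.pow0 4),
      rd_mul (hX.mul_left (hK.pow0 2)) (hL.pow0 2), rd_mul hX (hK.pow0 2),
      rd_sub SDv.one (hCc.mul_left SDv.X), rd_mul hCc SDv.X, rd_pow hK, rd_pow hL, rd_pow hI,
      rd_one, rd_C, rd_X] at h1
    exact h1
  · apply mul_left_cancel₀ hlne
    linear_combination Pb (fun c => (A c).1) * r2 +
      (Pb (fun c => (A c).2.2) * rd 3 (I1 B) ^ 6 * rd 3 (KK B) ^ 3 * rd 3 (Lj B 0) +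
        C (e : ZMod 3) * Pb (fun c => (A c).1) * rd 3 (Lj B 0) * rd 3 (I1 B) ^ 6 *
          tb (rd 3 (KK B)) ^ 3) * hl +
      Pb (fun c => (A c).1) * rd 3 (Lj B 0) * rd 3 (uu B) ^ 3 * rd 3 (I1 B) ^ 6 *
        ((rd 3 (tq B (KK B)) * rd 3 (I1 B)) ^ 2 +
          rd 3 (tq B (KK B)) * rd 3 (I1 B) * tb (rd 3 (KK B)) + tb (rd 3 (KK B)) ^ 2) * hTi
  · have hX3 : SDv 3 0 (1 - C c * X ^ 3 : ℚ⟦X⟧) := SDv.one.sub (hCc.mul_left (SDv.X.pow0 3))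
    have hk : SDv 3 0 (C ((c - c ^ 3) / 3) : ℚ⟦X⟧) := SDv.C (Dv_div3 hc3)
    have m1 : SDv 3 0 (-(C c * X) : ℚ⟦X⟧) := (hCc.mul_left SDv.X).neg
    have m2 : SDv 3 0 (C c ^ 2 * X ^ 2 : ℚ⟦X⟧) := (hCc.pow0 2).mul_left (SDv.X.pow0 2)
    have m3 : SDv 3 0 (C ((c - c ^ 3) / 3) * X ^ 3 : ℚ⟦X⟧) := hk.mul_left (SDv.X.pow0 3)
    have m4 : SDv 3 0 (C c * uu B * X ^ 3) := (hCc.mul_left huu).mul_left (SDv.X.pow0 3)
    have h1 := rd_congr (((m1.add m2).add m3).add m4) hR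
    rw [rd_mul hX3 hR0, rd_sub SDv.one (hCc.mul_left (SDv.X.pow0 3)),
      rd_mul hCc (SDv.X.pow0 3), rd_add ((m1.add m2).add m3) m4, rd_add (m1.add m2) m3,
      rd_add m1 m2, rd_neg, rd_mul hCc SDv.X, rd_mul (hCc.pow0 2) (SDv.X.pow0 2),
      rd_mul hk (SDv.X.pow0 3), rd_mul (hCc.mul_left huu) (SDv.X.pow0 3), rd_mul hCc huu,
      rd_pow hCc, rd_X_pow, rd_X_pow, rd_X, rd_C, rd_C, rd_one] at h1
    exact h1

/-! ### the final statement -/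

private lemma m3h_sb {a : List ℕ} (hQ : constantCoeff Z = 0) : sb Z (Wz a) =
    C (chi a - 72) * sb Z (logOf (Lj (Bj a) 0)) - C 24 * sb Z (logOf (I1 (Bj a))) -
      sb Z (logOf (1 - C (disc a : ℚ) * X)) + C (c3H a) * sb Z (gg (Bj a)) := by
  unfold Wz
  rw [sb_add hQ, sb_sub hQ, sb_sub hQ, sb_mul hQ, sb_mul hQ, sb_mul hQ, sb_C hQ, sb_C hQ, sb_C hQ]

/-- the general reduction of the condition at 3 to an identity in `(ZMod 3)⟦X⟧` -/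
theorem h3_gen {a : List ℕ} {Gc : ℚ⟦X⟧} {ν : ℕ → ℚ}
    (hA : ∀ n, ∃ h, F27 n (Bj a) h A (c3 a))
    (hKid : (1 - C (disc a : ℚ) * X) * KK (Bj a) ^ 2 * Lj (Bj a) 0 ^ 2 * I1 (Bj a) ^ 4 = 1)
    (hχ : Dv 3 1 (chi a - 72)) (hκ : Dv 3 0 (kap a)) (hc2 : Dv 3 0 (cc2 a))
    (hc3H : Dv 3 0 (c3H a)) (hd : Dv 3 1 ((disc a : ℚ) - (disc a : ℚ) ^ 3))
    (fin : ∀ l i k u n R : (ZMod 3)⟦X⟧, D3 (Pb fun c => (A c).1) (Pb fun c => (A c).2.1)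
      (Pb fun c => (A c).2.2) ((disc a : ℚ) : ZMod 3) (c3 a : ZMod 3)
      ((((disc a : ℚ) - (disc a : ℚ) ^ 3) / 3 : ℚ) : ZMod 3) l i k u n R →
      -R + C (c3H a : ZMod 3) * u + C (kap a : ZMod 3) * (C (cc2 a : ZMod 3) * n - n ^ 2) = 0)
    (hZ : IsInv (Bj a) Z) (hG : Ph (Bj a) Gc = GG (Bj a)) (hν : IsNu Gc ν)
    (hint : ∀ d, 1 ≤ d → Dv 3 0 (ν d)) :
    SDv 3 1 (sb Z (Wz a) - C (1 / 3) * VV 3 (sb Z (Wz a)) + Bq (kap a) (cc2 a) ν) := by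
  have hB : OKB (Bj a) := Bj_OKB a
  obtain ⟨hD, hI, hex, hq, hK, -⟩ := core_odd a (p := 3) (by norm_num) Gc hG
  have hL := L0_int a 3
  have hqq := constantCoeff_qq (Bj a)
  have hdi : Dv 3 0 (disc a : ℚ) := Dv.nat _
  obtain ⟨R, hR0, hR1, hR2⟩ := m3u_disc hB hZ hI hD hdi hd
  have hdata := m3h_D3 hB hL hI hK hD hq (c3_int a) hA hG hν hint hdi hd hKid hR0 hR2
  have hfin := fin _ _ _ _ _ _ hdata
  have huu := uu_int hI hD
  have hN : SDv 3 0 (Nq ν) := by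
    intro n
    rw [Nq, coeff_mk]
    exact Dv.sum _ _ fun d hd => hint d (Nat.pos_of_mem_divisors hd)
  have hPN : SDv 3 0 (Ph (Bj a) (Nq ν)) := Ph_int hq hN
  -- the four terms
  have w1 := int_W (p := 3) (by norm_num) hZ hG (cc_L0 hB) hL
  have w2 := int_W (p := 3) (by norm_num) hZ hG (cc_I1 (Bj a)) hI
  have hU : ∀ f : ℚ⟦X⟧, SDv 3 1 (C ((3 : ℕ) : ℚ) * f - VV 3 f) →
      SDv 3 0 (f - C (1 / 3) * VV 3 f) := by
    intro f hf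
    have h1 := SDv.third hf
    have e1 : C (1 / 3) * (C ((3 : ℕ) : ℚ) * f - VV 3 f) = f - C (1 / 3) * VV 3 f := by
      have h3 : (C (1 / 3) * C ((3 : ℕ) : ℚ) : ℚ⟦X⟧) = 1 := by rw [← map_mul]; norm_num
      linear_combination f * h3
    rwa [e1] at h1
  have h24 : Dv 3 1 (24 : ℚ) := by
    have := (Dv.nat (p := 3) 8)
    have h2 := Dv_three this
    norm_num at h2
    exact h2
  rw [m3h_sb hZ.c0]
  set A1 := sb Z (logOf (Lj (Bj a) 0)) with hA1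
  set A2 := sb Z (logOf (I1 (Bj a))) with hA2
  set A3 := sb Z (logOf (1 - C (disc a : ℚ) * X)) with hA3
  set A4 := sb Z (gg (Bj a)) with hA4
  have e0 : C (chi a - 72) * A1 - C 24 * A2 - A3 + C (c3H a) * A4 -
      C (1 / 3) * VV 3 (C (chi a - 72) * A1 - C 24 * A2 - A3 + C (c3H a) * A4) +
      Bq (kap a) (cc2 a) ν =
      C (chi a - 72) * (A1 - C (1 / 3) * VV 3 A1) - C 24 * (A2 - C (1 / 3) * VV 3 A2) +
      (-(A3 - C (1 / 3) * VV 3 A3) + C (c3H a) * (A4 - C (1 / 3) * VV 3 A4) +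
        Bq (kap a) (cc2 a) ν) := by
    rw [VV_add, VV_sub, VV_sub, VV_mul, VV_mul, VV_mul, VV_C, VV_C, VV_C]
    ring
  rw [e0]
  refine (((SDv.C hχ).mul_right (hU A1 w1)).sub ((SDv.C h24).mul_right (hU A2 w2))).add ?_
  apply of_Ph hB hq
  have e1 : Ph (Bj a) (-(A3 - C (1 / 3) * VV 3 A3) + C (c3H a) * (A4 - C (1 / 3) * VV 3 A4) +
        Bq (kap a) (cc2 a) ν) = -(Ph (Bj a) (A3 - C (1 / 3) * VV 3 A3)) +
        C (c3H a) * Ph (Bj a) (A4 - C (1 / 3) * VV 3 A4) +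
        C (kap a) * (C (cc2 a) * Ph (Bj a) (Nq ν) - Ph (Bj a) (Nq ν) ^ 2) := by
    unfold Ph Bq
    rw [sb_add hqq, sb_add hqq, sb_neg hqq, sb_mul hqq, sb_C hqq, sb_mul hqq, sb_C hqq,
      sb_sub hqq (C (cc2 a) * Nq ν), sb_mul hqq, sb_C hqq, sb_pow hqq]
  rw [e1]
  have hu1 := m3u_U hB hZ hI hD
  rw [← hA4] at hu1
  have hCk : SDv 3 0 (C (kap a) : ℚ⟦X⟧) := SDv.C hκ
  have hC2 : SDv 3 0 (C (cc2 a) : ℚ⟦X⟧) := SDv.C hc2
  have hC3 : SDv 3 0 (C (c3H a) : ℚ⟦X⟧) := SDv.C hc3H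
  have hBi : SDv 3 0 (C (kap a) * (C (cc2 a) * Ph (Bj a) (Nq ν) - Ph (Bj a) (Nq ν) ^ 2)) :=
    hCk.mul_left ((hC2.mul_left hPN).sub (hPN.pow0 2))
  have hmain : SDv 3 1 (-R + C (c3H a) * uu (Bj a) +
      C (kap a) * (C (cc2 a) * Ph (Bj a) (Nq ν) - Ph (Bj a) (Nq ν) ^ 2)) := by
    apply SDv_of_rd_eq_zero ((hR0.neg.add (hC3.mul_left huu)).add hBi)
    rw [rd_add (hR0.neg.add (hC3.mul_left huu)) hBi, rd_add hR0.neg (hC3.mul_left huu), rd_neg,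
      rd_mul hC3 huu, rd_mul hCk ((hC2.mul_left hPN).sub (hPN.pow0 2)),
      rd_sub (hC2.mul_left hPN) (hPN.pow0 2), rd_mul hC2 hPN, rd_pow hPN, rd_C, rd_C, rd_C]
    exact hfin
  have e2 : -(Ph (Bj a) (A3 - C (1 / 3) * VV 3 A3)) +
        C (c3H a) * Ph (Bj a) (A4 - C (1 / 3) * VV 3 A4) +
        C (kap a) * (C (cc2 a) * Ph (Bj a) (Nq ν) - Ph (Bj a) (Nq ν) ^ 2) =
      -(Ph (Bj a) (A3 - C (1 / 3) * VV 3 A3) - R) +
        C (c3H a) * (Ph (Bj a) (A4 - C (1 / 3) * VV 3 A4) - uu (Bj a)) +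
      (-R + C (c3H a) * uu (Bj a) +
        C (kap a) * (C (cc2 a) * Ph (Bj a) (Nq ν) - Ph (Bj a) (Nq ν) ^ 2)) := by ring
  rw [e2]
  exact ((hR1.neg).add (hC3.mul_left hu1)).add hmain

private lemma m3h_nat (n : ℕ) {x : ℚ} (h : x = n) : (x : ZMod 3) = (n : ZMod 3) := by
  rw [h, Rat.cast_natCast]

private lemma m3h_int (n : ℤ) {x : ℚ} (h : x = n) : (x : ZMod 3) = (n : ZMod 3) := by
  rw [h, Rat.cast_intCast]

private lemma m3h_dint (n : ℤ) {x : ℚ} (h : x = n) : Dv 3 0 x := h ▸ Dv.int n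

private lemma m3h_d1 (n : ℤ) {x : ℚ} (h : x = 3 * n) : Dv 3 1 x := by
  rw [h]
  have := Dv_three (Dv.int (p := 3) n)
  exact this

private lemma m3h_Pb (A : ℕ → ZMod 3) :
    Pb A = C (A 0) + C (A 1) * X + C (A 2) * X ^ 2 := by
  simp only [Pb, Finset.sum_range_succ, Finset.sum_range_zero, zero_add, pow_zero, mul_one,
    pow_one]

private lemma m3h_C1 : (C (1 : ZMod 3) : (ZMod 3)⟦X⟧) = 1 := map_one _
private lemma m3h_C0 : (C (0 : ZMod 3) : (ZMod 3)⟦X⟧) = 0 := map_zero _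
private lemma m3h_Cm : (C (-1 : ZMod 3) : (ZMod 3)⟦X⟧) = -1 := by rw [map_neg, map_one]

theorem h3_25 {Gc : ℚ⟦X⟧} {ν : ℕ → ℚ} (hZ : IsInv (Bj [2, 5]) Z)
    (hG : Ph (Bj [2, 5]) Gc = GG (Bj [2, 5])) (hν : IsNu Gc ν) :
    SDv 3 1 (sb Z (Wz [2, 5]) - C (1 / 3) * VV 3 (sb Z (Wz [2, 5])) +
      Bq (kap [2, 5]) (cc2 [2, 5]) ν) := by
  obtain ⟨k1, k2, k3, k4, k5⟩ := data_25
  have ht : ([2, 5] : List ℕ) ∈ types := by simp [types]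
  have hc3 : c3 [2, 5] = 21 := by norm_num [c3]
  refine h3_gen (A := A25) F27_25 (K_identity_types ht) ?_ ?_ ?_ ?_ ?_ ?_ hZ hG hν ?_
  · exact m3h_d1 706 (by rw [k4]; norm_num)
  · exact m3h_dint 10 (by rw [k1]; norm_num)
  · exact m3h_dint 11 (by rw [k2]; norm_num)
  · exact m3h_dint (-420) (by rw [k3]; norm_num)
  · exact m3h_d1 (-651041662500) (by rw [k5]; norm_num)
  · intro l i k u n R h
    have a1 : (((disc [2, 5] : ℕ) : ℚ) : ZMod 3) = -1 := by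
      rw [k5, Rat.cast_natCast]; decide
    have a2 : ((c3 [2, 5] : ℚ) : ZMod 3) = 0 := by
      rw [m3h_int 21 (by rw [hc3]; norm_num)]; decide
    have a3 : ((((disc [2, 5] : ℕ) : ℚ) - ((disc [2, 5] : ℕ) : ℚ) ^ 3) / 3 : ℚ) =
        ((-651041662500 : ℤ) : ℚ) := by rw [k5]; norm_num
    have a4 : (((((disc [2, 5] : ℕ) : ℚ) - ((disc [2, 5] : ℕ) : ℚ) ^ 3) / 3 : ℚ) : ZMod 3) =
        0 := by rw [m3h_int _ a3]; decide
    have b1 : ((c3H [2, 5] : ℚ) : ZMod 3) = 0 := by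
      rw [m3h_int (-420) (by rw [k3]; norm_num)]; decide
    have b2 : ((kap [2, 5] : ℚ) : ZMod 3) = 1 := by
      rw [m3h_int 10 (by rw [k1]; norm_num)]; decide
    have b3 : ((cc2 [2, 5] : ℚ) : ZMod 3) = -1 := by
      rw [m3h_int 11 (by rw [k2]; norm_num)]; decide
    have p0 : (Pb fun c => (A25 c).1) = 1 := by
      rw [m3h_Pb]; simp [A25]
    have p1 : (Pb fun c => (A25 c).2.1) = X := by
      rw [m3h_Pb]; simp [A25]
    have p2 : (Pb fun c => (A25 c).2.2) = -X := by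
      rw [m3h_Pb]; simp [A25, m3h_Cm]
    rw [a1, a2, a4, p0, p1, p2] at h
    have hf := fin_25 h
    rw [b1, b2, b3, m3h_C0, m3h_C1, m3h_Cm, hf]
    ring
  · intro d hd
    obtain ⟨z, hz⟩ := nu_int_all ht Gc hG hν d hd
    rw [hz]; exact Dv.int z

theorem h3_224 {Gc : ℚ⟦X⟧} {ν : ℕ → ℚ} (hZ : IsInv (Bj [2, 2, 4]) Z)
    (hG : Ph (Bj [2, 2, 4]) Gc = GG (Bj [2, 2, 4])) (hν : IsNu Gc ν) :
    SDv 3 1 (sb Z (Wz [2, 2, 4]) - C (1 / 3) * VV 3 (sb Z (Wz [2, 2, 4])) +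
      Bq (kap [2, 2, 4]) (cc2 [2, 2, 4]) ν) := by
  obtain ⟨k1, k2, k3, k4, k5⟩ := data_224
  have ht : ([2, 2, 4] : List ℕ) ∈ types := by simp [types]
  have hc3 : c3 [2, 2, 4] = 12 := by norm_num [c3]
  refine h3_gen (A := A224) F27_224 (K_identity_types ht) ?_ ?_ ?_ ?_ ?_ ?_ hZ hG hν ?_
  · exact m3h_d1 520 (by rw [k4]; norm_num)
  · exact m3h_dint 16 (by rw [k1]; norm_num)
  · exact m3h_dint 8 (by rw [k2]; norm_num)
  · exact m3h_dint (-384) (by rw [k3]; norm_num)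
  · exact m3h_d1 ((4096 - 4096 ^ 3) / 3) (by rw [k5]; norm_num)
  · intro l i k u n R h
    have a1 : (((disc [2, 2, 4] : ℕ) : ℚ) : ZMod 3) = 1 := by
      rw [k5, Rat.cast_natCast]; decide
    have a2 : ((c3 [2, 2, 4] : ℚ) : ZMod 3) = 0 := by
      rw [m3h_int 12 (by rw [hc3]; norm_num)]; decide
    have a3 : ((((disc [2, 2, 4] : ℕ) : ℚ) - ((disc [2, 2, 4] : ℕ) : ℚ) ^ 3) / 3 : ℚ) =
        (((4096 - 4096 ^ 3) / 3 : ℤ) : ℚ) := by rw [k5]; norm_num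
    have a4 : (((((disc [2, 2, 4] : ℕ) : ℚ) - ((disc [2, 2, 4] : ℕ) : ℚ) ^ 3) / 3 : ℚ) :
        ZMod 3) = 0 := by rw [m3h_int _ a3]; decide
    have b1 : ((c3H [2, 2, 4] : ℚ) : ZMod 3) = 0 := by
      rw [m3h_int (-384) (by rw [k3]; norm_num)]; decide
    have b2 : ((kap [2, 2, 4] : ℚ) : ZMod 3) = 1 := by
      rw [m3h_int 16 (by rw [k1]; norm_num)]; decide
    have b3 : ((cc2 [2, 2, 4] : ℚ) : ZMod 3) = -1 := by
      rw [m3h_int 8 (by rw [k2]; norm_num)]; decide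
    have p0 : (Pb fun c => (A224 c).1) = 1 := by
      rw [m3h_Pb]; simp [A224]
    have p1 : (Pb fun c => (A224 c).2.1) = -X := by
      rw [m3h_Pb]; simp [A224, m3h_Cm]
    have p2 : (Pb fun c => (A224 c).2.2) = X := by
      rw [m3h_Pb]; simp [A224]
    rw [a1, a2, a4, p0, p1, p2] at h
    have hf := fin_224 h
    rw [b1, b2, b3, m3h_C0, m3h_C1, m3h_Cm, hf]
    ring
  · intro d hd
    obtain ⟨z, hz⟩ := nu_int_all ht Gc hG hν d hd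
    rw [hz]; exact Dv.int z

theorem h3_22222 {Gc : ℚ⟦X⟧} {ν : ℕ → ℚ} (hZ : IsInv (Bj [2, 2, 2, 2, 2]) Z)
    (hG : Ph (Bj [2, 2, 2, 2, 2]) Gc = GG (Bj [2, 2, 2, 2, 2])) (hν : IsNu Gc ν) :
    SDv 3 1 (sb Z (Wz [2, 2, 2, 2, 2]) - C (1 / 3) * VV 3 (sb Z (Wz [2, 2, 2, 2, 2])) +
      Bq (kap [2, 2, 2, 2, 2]) (cc2 [2, 2, 2, 2, 2]) ν) := by
  obtain ⟨k1, k2, k3, k4, k5⟩ := data_22222
  have ht : ([2, 2, 2, 2, 2] : List ℕ) ∈ types := by simp [types]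
  have hc3 : c3 [2, 2, 2, 2, 2] = 5 := by norm_num [c3]
  refine h3_gen (A := A22222) F27_22222 (K_identity_types ht) ?_ ?_ ?_ ?_ ?_ ?_ hZ hG hν ?_
  · exact m3h_d1 296 (by rw [k4]; norm_num)
  · exact m3h_dint 32 (by rw [k1]; norm_num)
  · exact m3h_dint 5 (by rw [k2]; norm_num)
  · exact m3h_dint (-320) (by rw [k3]; norm_num)
  · exact m3h_d1 ((1024 - 1024 ^ 3) / 3) (by rw [k5]; norm_num)
  · intro l i k u n R h
    have a1 : (((disc [2, 2, 2, 2, 2] : ℕ) : ℚ) : ZMod 3) = 1 := by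
      rw [k5, Rat.cast_natCast]; decide
    have a2 : ((c3 [2, 2, 2, 2, 2] : ℚ) : ZMod 3) = -1 := by
      rw [m3h_int 5 (by rw [hc3]; norm_num)]; decide
    have a3 : ((((disc [2, 2, 2, 2, 2] : ℕ) : ℚ) - ((disc [2, 2, 2, 2, 2] : ℕ) : ℚ) ^ 3) / 3 : ℚ) =
        (((1024 - 1024 ^ 3) / 3 : ℤ) : ℚ) := by rw [k5]; norm_num
    have a4 : (((((disc [2, 2, 2, 2, 2] : ℕ) : ℚ) - ((disc [2, 2, 2, 2, 2] : ℕ) : ℚ) ^ 3) / 3 : ℚ) :
        ZMod 3) = -1 := by rw [m3h_int _ a3]; decide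
    have b1 : ((c3H [2, 2, 2, 2, 2] : ℚ) : ZMod 3) = 1 := by
      rw [m3h_int (-320) (by rw [k3]; norm_num)]; decide
    have b2 : ((kap [2, 2, 2, 2, 2] : ℚ) : ZMod 3) = -1 := by
      rw [m3h_int 32 (by rw [k1]; norm_num)]; decide
    have b3 : ((cc2 [2, 2, 2, 2, 2] : ℚ) : ZMod 3) = -1 := by
      rw [m3h_int 5 (by rw [k2]; norm_num)]; decide
    have p0 : (Pb fun c => (A22222 c).1) = 1 - X := by
      rw [m3h_Pb]; simp [A22222, m3h_Cm]; ring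
    have p1 : (Pb fun c => (A22222 c).2.1) = X := by
      rw [m3h_Pb]; simp [A22222]
    have p2 : (Pb fun c => (A22222 c).2.2) = X := by
      rw [m3h_Pb]; simp [A22222]
    rw [a1, a2, a4, p0, p1, p2] at h
    have hf := fin_22222 h
    rw [b1, b2, b3, m3h_C1, m3h_Cm, hf]
    ring
  · intro d hd
    obtain ⟨z, hz⟩ := nu_int_all ht Gc hG hν d hd
    rw [hz]; exact Dv.int z

/-- **The condition at 3 for X25, X224, X22222.** -/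
theorem h3_hard {a : List ℕ} (ha : a = [2, 5] ∨ a = [2, 2, 4] ∨ a = [2, 2, 2, 2, 2])
    {Gc : ℚ⟦X⟧} {ν : ℕ → ℚ} (hZ : IsInv (Bj a) Z) (hG : Ph (Bj a) Gc = GG (Bj a))
    (hν : IsNu Gc ν) :
    SDv 3 1 (sb Z (Wz a) - C (1 / 3) * VV 3 (sb Z (Wz a)) + Bq (kap a) (cc2 a) ν) := by
  rcases ha with rfl | rfl | rfl
  · exact h3_25 hZ hG hν
  · exact h3_224 hZ hG hν
  · exact h3_22222 hZ hG hν

end KPInt
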