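import Pool.Agent.Lib.KPInt.CTay
import Pool.Agent.Lib.KPInt.CMir
import Pool.Agent.Lib.KPInt.CK

/-!
# QS: the q side: inverse Z of the mirror map, transport, psi(g)

`IsInv B Z`: `Z(q(z)) = z` and `q(Z(q)) = q`. A series `f(z)` becomes `sb Z f` on the q side.
PROOFS.
* `exists_inv`: `sb_surj` gives `Z` with `sb (qq B) Z = X`; its constant coefficient is 0
  (`constantCoeff_sb`). `sb (qq B) (sb Z (qq B)) = sb (sb (qq B) Z) (qq B) = sb X (qq B) = qq B = sb (qq B) X`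
  and injectivity (`sb_inj`) give `right`.
* `Ph_sbZ`: `sb (qq B) (sb Z f) = sb (sb (qq B) Z) f = sb X f = f` (`sb X f = f`: `X_subst` or `coeff_sb`).
* `Z_int`: `Ph B Z = X` is integral, `TDv_of_sb`. `SDv_sbZ`: `TDv_sb`. `cc1_Z`: coefficient 1 of
  `sb (qq B) Z = X`.
* `th_sbZ`: apply `Ph` (injective): `Ph (th (sb Z f)) = tq (Ph (sb Z f)) = tq f` (`tq_Ph`).
* `psi_g`: put `gq = sb Z (gg B)`, so `Ph B gq = gg B`. By `taylor` the coefficient `m` of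
  `Ph B (C p * gq - VV p gq)` is that of `p g - V g - D V(tq g) - ∑_{j≥2} (D^j/j!) V(tq^[j] g)`. `tq g =
  (I1 - 1)/I1` is integral, so are `tq^[j] g` for `j ≥ 1`, and `D^j/j! ∈ p^(r+1)` for all `j ≥ 1`
  (for `j ≥ 2`: `p` odd, `r = 0`: `pow_fact` with `s = 0`; `p = 2`, `r ≥ 1`: `v ≥ j(r+1) - (j-1) ≥ r+1`).
  So everything is in `p^(r+1)`; transfer back with `TDv_of_sb`.
-/

set_option autoImplicit false

namespace KPInt

open PowerSeries

/-- `Z` is the inverse of the mirror map -/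
structure IsInv (B : ℕ → ℚ⟦X⟧) (Z : ℚ⟦X⟧) : Prop where
  c0 : constantCoeff Z = 0
  left : sb (qq B) Z = X
  right : sb Z (qq B) = X

variable {p : ℕ} [hp : Fact p.Prime] {B : ℕ → ℚ⟦X⟧} {Z : ℚ⟦X⟧} {r s : ℕ}

lemma sb_Xf (f : ℚ⟦X⟧) : sb X f = f := by
  rw [sb, X_subst]

lemma exists_inv (hB : OKB B) : ∃ Z, IsInv B Z := by
  obtain ⟨Z, hZ⟩ := sb_surj (constantCoeff_qq B) (coeff_one_qq B (cc_gg hB)) X
  have h0 : constantCoeff Z = 0 := by
    rw [← constantCoeff_sb (constantCoeff_qq B) Z, hZ, constantCoeff_X]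
  refine ⟨Z, h0, hZ, ?_⟩
  apply sb_inj (constantCoeff_qq B) (coeff_one_qq B (cc_gg hB))
  rw [sb_assoc h0 (constantCoeff_qq B), hZ, sb_Xf, sb_X (constantCoeff_qq B)]

lemma Ph_sbZ (hZ : IsInv B Z) (f : ℚ⟦X⟧) : Ph B (sb Z f) = f := by
  rw [Ph, sb_assoc hZ.c0 (constantCoeff_qq B), hZ.left, sb_Xf]

lemma sbZ_Ph (hZ : IsInv B Z) (f : ℚ⟦X⟧) : sb Z (Ph B f) = f := by
  rw [Ph, sb_assoc (constantCoeff_qq B) hZ.c0, hZ.right, sb_Xf]

lemma cc1_Z (hB : OKB B) (hZ : IsInv B Z) : coeff 1 Z = 1 := by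
  have h1 : coeff 1 (sb (qq B) Z) = 1 := by rw [hZ.left, coeff_one_X]
  rw [coeff_sb (constantCoeff_qq B), Finset.sum_range_succ, Finset.sum_range_succ,
    Finset.sum_range_zero, zero_add, pow_zero, pow_one, coeff_one_qq B (cc_gg hB), mul_one,
    PowerSeries.coeff_one, if_neg one_ne_zero, mul_zero, zero_add] at h1
  exact h1

lemma Z_int (hB : OKB B) (hZ : IsInv B Z) (hq : SDv p 0 (qq B)) : SDv p 0 Z :=
  SDv.of fun N => TDv_of_sb (constantCoeff_qq B) (coeff_one_qq B (cc_gg hB)) (hq.t N)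
    (by rw [hZ.left]; exact TDv.X)

lemma SDv_sbZ (hB : OKB B) (hZ : IsInv B Z) (hq : SDv p 0 (qq B)) {k : ℕ} {f : ℚ⟦X⟧}
    (hf : SDv p k f) : SDv p k (sb Z f) :=
  SDv.of fun N => TDv_sb hZ.c0 ((Z_int hB hZ hq).t N) (hf.t N)

lemma th_sbZ (hB : OKB B) (hZ : IsInv B Z) (f : ℚ⟦X⟧) : th (sb Z f) = sb Z (tq B f) := by
  apply sb_inj (constantCoeff_qq B) (coeff_one_qq B (cc_gg hB))
  have h1 := tq_Ph B (cc_gg hB) (sb Z f)
  have h2 := Ph_sbZ hZ (tq B f)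
  rw [Ph_sbZ hZ] at h1
  rw [Ph] at h1 h2
  rw [← h1, h2]

omit hp in
private lemma QS_tq_int (hI : SDv p 0 (I1 B)) {k : ℕ} {f : ℚ⟦X⟧} (hf : SDv p k f) :
    SDv p k (tq B f) :=
  hf.th.mul_right (hI.inv (cc_I1 B))

omit hp in
private lemma QS_iter (hI : SDv p 0 (I1 B)) (j : ℕ) : SDv p 0 ((tq B)^[j + 1] (gg B)) := by
  induction j with
  | zero =>
    have h1 : th (gg B) = I1 B - 1 := by rw [I1]; ring
    have h2 : (tq B)^[0 + 1] (gg B) = (I1 B - 1) * (I1 B)⁻¹ := by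
      rw [zero_add, Function.iterate_one, tq, h1]
    rw [h2]
    exact (hI.sub SDv.one).mul_right (hI.inv (cc_I1 B))
  | succ j ih =>
    rw [Function.iterate_succ_apply']
    exact QS_tq_int hI ih

private lemma QS_fact (hrs : OKrs p r s) {D : ℚ⟦X⟧} (hD : SDv p (r + 1) D) (j : ℕ) :
    SDv p (r + 1) (C (1 / ((j + 1).factorial : ℚ)) * D ^ (j + 1)) := by
  rcases Nat.eq_zero_or_pos j with h | h
  · subst h
    have h1 : C (1 / ((0 + 1).factorial : ℚ)) * D ^ (0 + 1) = D := by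
      simp
    rw [h1]
    exact hD
  · have hrs' : OKrs p r r := by
      rcases hrs with ⟨h2, h3, h4⟩ | ⟨h2, h3, h4⟩
      · exact Or.inl ⟨h2, h3, h3⟩
      · exact Or.inr ⟨h2, h3, le_rfl⟩
    exact (pow_fact hrs' hD (show 2 ≤ j + 1 by omega)).mono (by omega)

theorem psi_g (hrs : OKrs p r s) (hB : OKB B) (hZ : IsInv B Z) (hD : SDv p (r + 1) (DD p B))
    (hI : SDv p 0 (I1 B)) (hq : SDv p 0 (qq B)) :
    SDv p (r + 1) (C (p : ℚ) * sb Z (gg B) - VV p (sb Z (gg B))) := by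
  have hG : Ph B (sb Z (gg B)) = gg B := Ph_sbZ hZ (gg B)
  set Gc : ℚ⟦X⟧ := sb Z (gg B) with hGc
  have hqq := constantCoeff_qq B
  have key : SDv p (r + 1) (sb (qq B) (C (p : ℚ) * Gc - VV p Gc)) := by
    intro m
    have e1 : sb (qq B) (C (p : ℚ) * Gc - VV p Gc) = C (p : ℚ) * gg B - Ph B (VV p Gc) := by
      rw [sb_sub hqq, sb_mul hqq, sb_C hqq]
      rw [Ph] at hG
      rw [hG, Ph]
    have e2 : coeff m (sb (qq B) (C (p : ℚ) * Gc - VV p Gc)) = coeff m (DD p B) -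
        ∑ j ∈ Finset.range m, coeff m (C (1 / ((j + 1).factorial : ℚ)) * DD p B ^ (j + 1) *
          VV p ((tq B)^[j + 1] (gg B))) := by
      rw [e1, map_sub, taylor hB Gc m, hG, Finset.sum_range_succ']
      have e3 : C (1 / ((0 : ℕ).factorial : ℚ)) * DD p B ^ 0 * VV p ((tq B)^[0] (gg B)) =
          VV p (gg B) := by
        simp
      rw [e3, DD, map_sub]
      ring
    rw [e2]
    apply Dv.sub (hD m)
    apply Dv.sum
    intro j _
    exact ((QS_fact hrs hD j).mul_right (QS_iter hI j).VV) m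
  exact SDv.of fun N => TDv_of_sb hqq (coeff_one_qq B (cc_gg hB)) (hq.t N) (key.t N)

end KPInt
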