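import Pool.Agent.Lib.KPInt.Fam1
import Pool.Agent.Lib.KPInt.QS

/-!
# P35: primes at least 3: the easy congruences

PROOFS. `core_odd a h2 Gc hG` for any prime `p ≠ 2` (with `hG` from the hypotheses).
* `int_W`: for `f` one of `Lj (Bj a) 0`, `I1 (Bj a)`, `1 - C (disc a) X`, `ex (gg (Bj a))`: `f` is
  `p`-integral with constant coefficient 1, so is `sb Z f` (`SDv_sbZ`), and `dwork_log` with `logOf_sb`
  gives `C p * sb Z (logOf f) - VV p (sb Z (logOf f)) ∈ p`; `logOf (ex gg) = gg`.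
* `h5_all`: the coefficients `chi a - 72, 24, 1, c3H a` are `p`-integral (integers for the seven types,
  data lemmas of PData), linear combination.
* `h3_easy`: `a = [6], [3,4], [2,3,3], [2,2,2,3]`: `chi a - 72, 24, c3H a` and `kap a` are divisible by 3, and
  `f - (1/3) V f` is 3-integral for the four logarithms (`int_W` divided by 3); `disc a ∈ 3^3`, so
  `logOf (1 - C disc X) ∈ 3^3` (`SDv_logOf`) and `f - (1/3)Vf ∈ 3^2` for it; `Bq ∈ 3` because `κ ∈ 3` and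
  `Nq ν` is integral (`nu_int_all`, `Dv.int`; the term `ν 0` does not occur in `Nq`).
-/

set_option autoImplicit false

namespace KPInt

open PowerSeries

variable {a : List ℕ} {Gc : ℚ⟦X⟧} {ν : ℕ → ℚ} {Z : ℚ⟦X⟧}

private lemma P35_sb (hQ : constantCoeff Z = 0) : sb Z (Wz a) =
    C (chi a - 72) * sb Z (logOf (Lj (Bj a) 0)) - C 24 * sb Z (logOf (I1 (Bj a))) -
      sb Z (logOf (1 - C (disc a : ℚ) * X)) + C (c3H a) * sb Z (gg (Bj a)) := by
  unfold Wz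
  rw [sb_add hQ, sb_sub hQ, sb_sub hQ, sb_mul hQ, sb_mul hQ, sb_mul hQ, sb_C hQ, sb_C hQ, sb_C hQ]

/-- generic statement for a logarithm -/
lemma int_W {p : ℕ} [hp : Fact p.Prime] (h2 : p ≠ 2) (hZ : IsInv (Bj a) Z)
    (hG : Ph (Bj a) Gc = GG (Bj a)) {f : ℚ⟦X⟧} (h1 : constantCoeff f = 1) (hf : SDv p 0 f) :
    SDv p 1 (C (p : ℚ) * sb Z (logOf f) - VV p (sb Z (logOf f))) := by
  have hq := (core_odd a h2 Gc hG).2.2.2.1
  have h3 : SDv p 0 (sb Z f) := SDv_sbZ (Bj_OKB a) hZ hq hf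
  have h4 : constantCoeff (sb Z f) = 1 := by rw [constantCoeff_sb hZ.c0, h1]
  have h5 := dwork_log h4 h3
  rw [logOf_sb h1 hZ.c0] at h5
  exact h5

private lemma P35_ccd : constantCoeff (1 - C (disc a : ℚ) * X : ℚ⟦X⟧) = 1 := by simp

private lemma P35_four {p : ℕ} [hp : Fact p.Prime] (h2 : p ≠ 2) (hZ : IsInv (Bj a) Z)
    (hG : Ph (Bj a) Gc = GG (Bj a)) :
    SDv p 1 (C (p : ℚ) * sb Z (logOf (Lj (Bj a) 0)) - VV p (sb Z (logOf (Lj (Bj a) 0)))) ∧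
    SDv p 1 (C (p : ℚ) * sb Z (logOf (I1 (Bj a))) - VV p (sb Z (logOf (I1 (Bj a))))) ∧
    SDv p 1 (C (p : ℚ) * sb Z (logOf (1 - C (disc a : ℚ) * X)) -
      VV p (sb Z (logOf (1 - C (disc a : ℚ) * X)))) ∧
    SDv p 1 (C (p : ℚ) * sb Z (gg (Bj a)) - VV p (sb Z (gg (Bj a)))) := by
  obtain ⟨-, hI, he, -, -, -⟩ := core_odd a h2 Gc hG
  refine ⟨int_W h2 hZ hG (cc_L0 (Bj_OKB a)) (L0_int a p), int_W h2 hZ hG (cc_I1 _) hI,
    int_W h2 hZ hG P35_ccd ?_, ?_⟩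
  · exact SDv.one.sub ((SDv.C (Dv.nat _)).mul_left SDv.X)
  · have h := int_W h2 hZ hG (constantCoeff_ex (cc_gg (Bj_OKB a))) he
    rwa [logOf_ex (cc_gg (Bj_OKB a))] at h

private lemma P35_nat {p : ℕ} (n : ℕ) {x : ℚ} (h : x = n) : Dv p 0 x := h ▸ Dv.nat n

private lemma P35_int {p : ℕ} (n : ℤ) {x : ℚ} (h : x = n) : Dv p 0 x := h ▸ Dv.int n

private lemma P35_consts (ha : a ∈ types) (p : ℕ) : Dv p 0 (chi a - 72) ∧ Dv p 0 (c3H a) := by
  simp only [types, List.mem_cons, List.not_mem_nil, or_false] at ha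
  rcases ha with h | h | h | h | h | h | h <;> subst h
  · obtain ⟨-, -, h1, h2, -⟩ := data_6
    rw [h1, h2]
    exact ⟨P35_int 2538 (by norm_num), P35_int (-420) (by norm_num)⟩
  · obtain ⟨-, -, h1, h2, -⟩ := data_25
    rw [h1, h2]
    exact ⟨P35_int 2118 (by norm_num), P35_int (-420) (by norm_num)⟩
  · obtain ⟨-, -, h1, h2, -⟩ := data_34
    rw [h1, h2]
    exact ⟨P35_int 1404 (by norm_num), P35_int (-336) (by norm_num)⟩
  · obtain ⟨-, -, h1, h2, -⟩ := data_224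
    rw [h1, h2]
    exact ⟨P35_int 1560 (by norm_num), P35_int (-384) (by norm_num)⟩
  · obtain ⟨-, -, h1, h2, -⟩ := data_233
    rw [h1, h2]
    exact ⟨P35_int 1134 (by norm_num), P35_int (-324) (by norm_num)⟩
  · obtain ⟨-, -, h1, h2, -⟩ := data_2223
    rw [h1, h2]
    exact ⟨P35_int 1080 (by norm_num), P35_int (-336) (by norm_num)⟩
  · obtain ⟨-, -, h1, h2, -⟩ := data_22222
    rw [h1, h2]
    exact ⟨P35_int 888 (by norm_num), P35_int (-320) (by norm_num)⟩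

theorem h5_all (ha : a ∈ types) (hZ : IsInv (Bj a) Z) (hG : Ph (Bj a) Gc = GG (Bj a))
    (p : ℕ) [hp : Fact p.Prime] (h5 : 5 ≤ p) :
    SDv p 1 (C (p : ℚ) * sb Z (Wz a) - VV p (sb Z (Wz a))) := by
  obtain ⟨w1, w2, w3, w4⟩ := P35_four (a := a) (Z := Z) (Gc := Gc) (p := p) (by omega) hZ hG
  obtain ⟨k1, k2⟩ := P35_consts ha p
  rw [P35_sb hZ.c0]
  set A1 := sb Z (logOf (Lj (Bj a) 0))
  set A2 := sb Z (logOf (I1 (Bj a)))
  set A3 := sb Z (logOf (1 - C (disc a : ℚ) * X))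
  set A4 := sb Z (gg (Bj a))
  rw [VV_add, VV_sub, VV_sub, VV_mul, VV_mul, VV_mul, VV_C, VV_C, VV_C]
  have e : C (p : ℚ) * (C (chi a - 72) * A1 - C 24 * A2 - A3 + C (c3H a) * A4) -
      (C (chi a - 72) * VV p A1 - C 24 * VV p A2 - VV p A3 + C (c3H a) * VV p A4) =
      C (chi a - 72) * (C (p : ℚ) * A1 - VV p A1) - C 24 * (C (p : ℚ) * A2 - VV p A2) -
        (C (p : ℚ) * A3 - VV p A3) + C (c3H a) * (C (p : ℚ) * A4 - VV p A4) := by ring
  rw [e]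
  exact ((((SDv.C k1).mul_left w1).sub ((SDv.C (P35_nat 24 (by norm_num))).mul_left w2)).sub
    w3).add ((SDv.C k2).mul_left w4)

private lemma P35_third_C : (C (1 / 3 : ℚ) : ℚ⟦X⟧) * C (3 : ℚ) = 1 := by
  rw [← map_mul]
  norm_num

private lemma P35_third {k : ℕ} {f : ℚ⟦X⟧} (h : SDv 3 (k + 1) f) : SDv 3 k (C (1 / 3) * f) := by
  intro n
  haveI : Fact (Nat.Prime 3) := ⟨Nat.prime_three⟩
  apply Dv.of_p_mul
  have h1 := h n
  rw [coeff_C_mul]
  have e : ((3 : ℕ) : ℚ) * (1 / 3 * coeff n f) = coeff n f := by push_cast; ring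
  rw [e]
  exact h1

private lemma P35_half {f : ℚ⟦X⟧} (h : SDv 3 1 (C ((3 : ℕ) : ℚ) * f - VV 3 f)) :
    SDv 3 0 (f - C (1 / 3) * VV 3 f) := by
  have h1 := P35_third h
  have e : C (1 / 3 : ℚ) * (C ((3 : ℕ) : ℚ) * f - VV 3 f) = f - C (1 / 3) * VV 3 f := by
    have h3 : (C (1 / 3 : ℚ) : ℚ⟦X⟧) * C ((3 : ℕ) : ℚ) = 1 := by exact_mod_cast P35_third_C
    rw [mul_sub, ← mul_assoc, h3, one_mul]
  rw [e] at h1
  exact h1

private lemma P35_three (m : ℤ) {x : ℚ} (h : x = 3 * m) : Dv 3 1 x := by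
  rw [h]
  have h1 : Dv 3 1 ((3 : ℕ) : ℚ) := Dv.p_self
  have h2 := h1.mul_right (Dv.int (p := 3) m)
  exact_mod_cast h2

private lemma P35_27 (m : ℕ) {x : ℚ} (h : x = 27 * m) : Dv 3 3 x := by
  rw [h]
  have h1 : Dv 3 3 (((3 : ℕ) : ℚ) ^ 3) := Dv.ppow 3
  have h2 := h1.mul_right (Dv.nat (p := 3) m)
  have e : (((3 : ℕ) : ℚ) ^ 3) * (m : ℚ) = 27 * m := by norm_num
  rwa [e] at h2

private lemma P35_easy_consts (ha : a = [6] ∨ a = [3, 4] ∨ a = [2, 3, 3] ∨ a = [2, 2, 2, 3]) :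
    Dv 3 1 (chi a - 72) ∧ Dv 3 1 (c3H a) ∧ Dv 3 1 (kap a) ∧ Dv 3 0 (cc2 a) ∧
      Dv 3 3 (disc a : ℚ) ∧ a ∈ types := by
  rcases ha with h | h | h | h <;> subst h
  · obtain ⟨h0, h1, h2, h3, h4⟩ := data_6
    rw [h0, h1, h2, h3, h4]
    refine ⟨P35_three 846 (by norm_num), P35_three (-140) (by norm_num),
      P35_three 2 (by norm_num), P35_nat 15 (by norm_num), P35_27 1728 (by norm_num), ?_⟩
    simp [types]
  · obtain ⟨h0, h1, h2, h3, h4⟩ := data_34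
    rw [h0, h1, h2, h3, h4]
    refine ⟨P35_three 468 (by norm_num), P35_three (-112) (by norm_num),
      P35_three 4 (by norm_num), P35_nat 9 (by norm_num), P35_27 256 (by norm_num), ?_⟩
    simp [types]
  · obtain ⟨h0, h1, h2, h3, h4⟩ := data_233
    rw [h0, h1, h2, h3, h4]
    refine ⟨P35_three 378 (by norm_num), P35_three (-108) (by norm_num),
      P35_three 6 (by norm_num), P35_nat 7 (by norm_num), P35_27 108 (by norm_num), ?_⟩
    simp [types]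
  · obtain ⟨h0, h1, h2, h3, h4⟩ := data_2223
    rw [h0, h1, h2, h3, h4]
    refine ⟨P35_three 360 (by norm_num), P35_three (-112) (by norm_num),
      P35_three 8 (by norm_num), P35_nat 6 (by norm_num), P35_27 64 (by norm_num), ?_⟩
    simp [types]

theorem h3_easy (ha : a = [6] ∨ a = [3, 4] ∨ a = [2, 3, 3] ∨ a = [2, 2, 2, 3])
    (hZ : IsInv (Bj a) Z) (hG : Ph (Bj a) Gc = GG (Bj a)) (hν : IsNu Gc ν) :
    SDv 3 1 (sb Z (Wz a) - C (1 / 3) * VV 3 (sb Z (Wz a)) + Bq (kap a) (cc2 a) ν) := by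
  haveI : Fact (Nat.Prime 3) := ⟨Nat.prime_three⟩
  obtain ⟨k1, k2, k3, k4, k5, hty⟩ := P35_easy_consts ha
  obtain ⟨w1, w2, -, w4⟩ := P35_four (a := a) (Z := Z) (Gc := Gc) (p := 3) (by norm_num) hZ hG
  have hq := (core_odd a (p := 3) (by norm_num) Gc hG).2.2.2.1
  have w3 : SDv 3 3 (sb Z (logOf (1 - C (disc a : ℚ) * X))) := by
    apply SDv_sbZ (Bj_OKB a) hZ hq
    apply SDv_logOf (by norm_num) P35_ccd
    have e : (1 - C (disc a : ℚ) * X : ℚ⟦X⟧) - 1 = -(C (disc a : ℚ) * X) := by ring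
    rw [e]
    exact ((SDv.C k5).mul_right SDv.X).neg
  have hB : SDv 3 1 (Bq (kap a) (cc2 a) ν) := by
    have hN : SDv 3 0 (Nq ν) := by
      intro n
      rw [Nq, coeff_mk]
      refine Dv.sum _ _ fun d hd => ?_
      have hd1 : 1 ≤ d := Nat.pos_of_mem_divisors hd
      obtain ⟨z, hz⟩ := nu_int_all hty Gc hG hν d hd1
      rw [hz]
      exact Dv.int z
    have hN2 : SDv 3 0 (Nq ν ^ 2) := by simpa using hN.pow 2
    exact (SDv.C k3).mul_right (((SDv.C k4).mul_left hN).sub hN2)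
  have v1 := P35_half w1
  have v2 := P35_half w2
  have v4 := P35_half w4
  rw [P35_sb hZ.c0]
  set A1 := sb Z (logOf (Lj (Bj a) 0))
  set A2 := sb Z (logOf (I1 (Bj a)))
  set A3 := sb Z (logOf (1 - C (disc a : ℚ) * X))
  set A4 := sb Z (gg (Bj a))
  have v3 : SDv 3 1 (A3 - C (1 / 3) * VV 3 A3) :=
    (w3.mono (by norm_num)).sub ((P35_third (k := 2) w3.VV).mono (by norm_num))
  rw [VV_add, VV_sub, VV_sub, VV_mul, VV_mul, VV_mul, VV_C, VV_C, VV_C]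
  have e : (C (chi a - 72) * A1 - C 24 * A2 - A3 + C (c3H a) * A4) -
      C (1 / 3) * (C (chi a - 72) * VV 3 A1 - C 24 * VV 3 A2 - VV 3 A3 + C (c3H a) * VV 3 A4) =
      C (chi a - 72) * (A1 - C (1 / 3) * VV 3 A1) - C 24 * (A2 - C (1 / 3) * VV 3 A2) -
        (A3 - C (1 / 3) * VV 3 A3) + C (c3H a) * (A4 - C (1 / 3) * VV 3 A4) := by ring
  rw [e]
  exact (((((SDv.C k1).mul_right v1).sub
    ((SDv.C (P35_three 8 (by norm_num))).mul_right v2)).sub v3).add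
    ((SDv.C k2).mul_right v4)).add hB

end KPInt
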