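import Pool.Agent.Lib.KPInt.P2Hc
import Pool.Agent.Lib.KPInt.P35
import Pool.Agent.Lib.KPInt.M3H
import Pool.Agent.Lib.KPInt.Crit
import Pool.Agent.Lib.MP_a4e0fb_ag.H72IntClasses

/-!
# Final: genus-zero and genus-one integrality for the seven Calabi-Yau 4-fold complete intersections
-/

set_option autoImplicit false

namespace KPInt

open PowerSeries MPa4e0fb

lemma kap_pos {a : List ℕ} (ha : a ∈ types) : kap a ≠ 0 := by
  simp only [types, List.mem_cons, List.not_mem_nil, or_false] at ha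
  rcases ha with rfl | rfl | rfl | rfl | rfl | rfl | rfl <;> norm_num [kap]

/-- the data are integers -/
lemma data_int {a : List ℕ} (ha : a ∈ types) : (∃ z : ℤ, kap a = z) ∧ (∃ z : ℤ, cc2 a = z) := by
  simp only [types, List.mem_cons, List.not_mem_nil, or_false] at ha
  rcases ha with rfl | rfl | rfl | rfl | rfl | rfl | rfl
  · exact ⟨⟨6, by rw [data_6.1]; norm_num⟩, ⟨15, by rw [data_6.2.1]; norm_num⟩⟩
  · exact ⟨⟨10, by rw [data_25.1]; norm_num⟩, ⟨11, by rw [data_25.2.1]; norm_num⟩⟩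
  · exact ⟨⟨12, by rw [data_34.1]; norm_num⟩, ⟨9, by rw [data_34.2.1]; norm_num⟩⟩
  · exact ⟨⟨16, by rw [data_224.1]; norm_num⟩, ⟨8, by rw [data_224.2.1]; norm_num⟩⟩
  · exact ⟨⟨18, by rw [data_233.1]; norm_num⟩, ⟨7, by rw [data_233.2.1]; norm_num⟩⟩
  · exact ⟨⟨24, by rw [data_2223.1]; norm_num⟩, ⟨6, by rw [data_2223.2.1]; norm_num⟩⟩
  · exact ⟨⟨32, by rw [data_22222.1]; norm_num⟩, ⟨5, by rw [data_22222.2.1]; norm_num⟩⟩

/-- the congruence modulo 8 for all types -/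
lemma h2_all {a : List ℕ} (ha : a ∈ types) {Z Gc : ℚ⟦X⟧} {ν : ℕ → ℚ} (hZ : IsInv (Bj a) Z)
    (hG : Ph (Bj a) Gc = GG (Bj a)) (hν : IsNu Gc ν) :
    SDv 2 3 (sb Z (Wz a) - C (1 / 2) * VV 2 (sb Z (Wz a)) + Bq (kap a) (cc2 a) ν -
      C 2 * VV 2 (Bq (kap a) (cc2 a) ν)) := by
  by_cases h1 : a = [2, 5]
  · exact p2_hard (Or.inl h1) hZ hG hν
  · by_cases h2 : a = [2, 3, 3]
    · exact p2_hard (Or.inr h2) hZ hG hν
    · exact p2_easy ha h1 h2 hZ hG hν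

/-- the congruence modulo 3 for all types -/
lemma h3_all {a : List ℕ} (ha : a ∈ types) {Z Gc : ℚ⟦X⟧} {ν : ℕ → ℚ} (hZ : IsInv (Bj a) Z)
    (hG : Ph (Bj a) Gc = GG (Bj a)) (hν : IsNu Gc ν) :
    SDv 3 1 (sb Z (Wz a) - C (1 / 3) * VV 3 (sb Z (Wz a)) + Bq (kap a) (cc2 a) ν) := by
  have ha' := ha
  simp only [types, List.mem_cons, List.not_mem_nil, or_false] at ha'
  rcases ha' with h | h | h | h | h | h | h
  · exact h3_easy (Or.inl h) hZ hG hν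
  · exact h3_hard (Or.inl h) hZ hG hν
  · exact h3_easy (Or.inr (Or.inl h)) hZ hG hν
  · exact h3_hard (Or.inr (Or.inl h)) hZ hG hν
  · exact h3_easy (Or.inr (Or.inr (Or.inl h))) hZ hG hν
  · exact h3_easy (Or.inr (Or.inr (Or.inr h))) hZ hG hν
  · exact h3_hard (Or.inr (Or.inr h)) hZ hG hν

/-- Main theorem. -/
theorem main (a : List ℕ) (ha : a ∈ types) (n0 n1 : ℤ → ℚ) (m : ℤ → ℤ → ℚ) (GW0 GW1 : ℕ → ℚ)
    (hn0 : ∀ d : ℤ, d ≤ 0 → n0 d = 0)
    (hGW0 : ∀ d : ℕ, 0 < d → GW0 d = mcs (fun k => 1 / (k : ℚ) ^ 2) n0 (d : ℤ))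
    (mirror0 : Ph (Bj a) (mk fun d => if d = 0 then 0 else GW0 d) = C (kap a) * GG (Bj a))
    (hm : IsMeeting (AddMonoidHom.id ℤ) (fun d => cc2 a * n0 d)
      (fun x y => n0 x * n0 y / kap a) m)
    (hn1 : IsGenusOne {d : ℤ | 0 < d} (fun d => GW1 d.toNat) (fun d => cc2 a * n0 d) m n1)
    (mirror1 : Ph (Bj a) (mk fun d => if d = 0 then 0 else GW1 d) = C (1 / 24) * Wz a) :
    ∀ d : ℤ, 0 < d → (∃ z : ℤ, n0 d = kap a * z) ∧ (∃ z : ℤ, n1 d = z) := by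
  have hκ := kap_pos ha
  have hB := Bj_OKB a
  obtain ⟨Z, hZ⟩ := exists_inv hB
  obtain ⟨⟨κ, hκz⟩, ⟨c2, hc2⟩⟩ := data_int ha
  set ν : ℕ → ℚ := fun d => n0 (d : ℤ) / kap a with hνdef
  set Gc : ℚ⟦X⟧ := C (kap a)⁻¹ * (mk fun d => if d = 0 then 0 else GW0 d) with hGc
  have hq0 : constantCoeff (qq (Bj a)) = 0 := constantCoeff_qq _
  have hG : Ph (Bj a) Gc = GG (Bj a) := by
    have h1 : Ph (Bj a) Gc = C (kap a)⁻¹ * Ph (Bj a) (mk fun d => if d = 0 then 0 else GW0 d) := by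
      rw [hGc, Ph, sb_mul hq0, sb_C hq0]; rfl
    rw [h1, mirror0, ← mul_assoc, ← map_mul, inv_mul_cancel₀ hκ, map_one, one_mul]
  have hout : ∀ α, α ∉ {d : ℤ | 0 < d} → n0 α = 0 := by
    intro α hα
    apply hn0
    by_contra h
    exact hα (by show 0 < α; omega)
  have hν : IsNu Gc ν := by
    constructor
    · rw [hGc]; simp
    · intro n hn
      rw [hGc, coeff_C_mul, coeff_mk, if_neg (by omega), hGW0 n hn, mcs_int _ hout,
        Finset.mul_sum]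
      apply Finset.sum_congr rfl
      intro d hd
      have hd0 := Nat.pos_of_mem_divisors hd
      have hdq : (d : ℚ) ≠ 0 := by positivity
      have hnq : (n : ℚ) ≠ 0 := by positivity
      rw [Nat.cast_div (Nat.dvd_of_mem_divisors hd) hdq, hνdef]
      field_simp
  have hνZ := nu_int_all ha Gc hG hν
  have hW : sb Z (C (1 / 24) * Wz a) = mk fun d => if d = 0 then 0 else GW1 d := by
    rw [← mirror1]; exact sbZ_Ph hZ _
  have hW' : ∀ d, 0 < d → coeff d (sb Z (Wz a)) = 24 * GW1 d := by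
    intro d hd
    have h1 := congrArg (coeff d) hW
    rw [sb_mul hZ.c0, sb_C hZ.c0, coeff_C_mul, coeff_mk, if_neg (by omega)] at h1
    linear_combination 24 * h1
  have hn1' : ∀ d : ℤ, 0 < d → ∃ z : ℤ, n1 d = z := by
    have hκ0 : κ ≠ 0 := by
      intro h; rw [h] at hκz; exact hκ (by rw [hκz]; simp)
    have hm' : IsMeeting (AddMonoidHom.id ℤ) (fun d => (c2 : ℚ) * n0 d)
        (fun x y => n0 x * n0 y / (κ : ℚ)) m := by rw [← hc2, ← hκz]; exact hm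
    have hn1'' : IsGenusOne {d : ℤ | 0 < d} (fun d => GW1 d.toNat) (fun d => (c2 : ℚ) * n0 d)
        m n1 := by rw [← hc2]; exact hn1
    refine criterion κ c2 hκ0 ν (fun d hd => hνZ d hd) n0 n1 m GW1 hn0 ?_ hm' hn1''
      (sb Z (Wz a)) hW' ?_ ?_ ?_
    · intro d hd
      rw [← hκz, hνdef]
      field_simp
    · intro p _ h5
      exact h5_all ha hZ hG p h5
    · rw [← hκz, ← hc2]; exact h3_all ha hZ hG hν
    · rw [← hκz, ← hc2]; exact h2_all ha hZ hG hν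
  intro d hd
  refine ⟨?_, hn1' d hd⟩
  obtain ⟨k, rfl⟩ : ∃ k : ℕ, d = k := ⟨d.toNat, by omega⟩
  obtain ⟨z, hz⟩ := hνZ k (by omega)
  refine ⟨z, ?_⟩
  rw [← hz, hνdef]
  field_simp

end KPInt
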