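import Pool.Agent.Lib.KPInt.Ops

/-!
# JBase: jets: evaluation of polynomials at m + epsilon, classes of polynomials

`evj m f = f(m + ε)`, a power series in `ε = X` (`Polynomial.aeval`, an algebra homomorphism).

PROOFS. The algebraic lemmas are the `AlgHom` lemmas. `evj_comp`: `aeval (C m + X) (f.comp g)
= aeval (aeval (C m + X) g) f` (`Polynomial.aeval_comp`). `evj_int`: write `f` as the sum of its
monomials; powers of `C m + X` are `p`-integral. `evj_zero`: `coeff i (evj 0 f) = f.coeff i`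
(`evj 0 f` is `f` as a power series).
`Wp p f` means `f ∈ ℤ_(p)[p X]`; closure under products: `coeff_mul` with antidiagonal
`i + j = k`. `Fc p f`: coefficients in `ℤ_(p), p, p^2, p^2, ...`; `Wp → Fc`; `Fc` closed under
products: for `i + j = k ≥ 2`: `min i 2 + min j 2 ≥ 2`.
`Num_Wp`, `Den_Wp`: induction on the list / product. `Den_unit`: `Den ≡ c! mod p`.
-/

set_option autoImplicit false

namespace KPInt

open Polynomial

/-- `f(m + ε)` -/
noncomputable def evj (m : ℕ) (f : ℚ[X]) : PowerSeries ℚ :=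
  Polynomial.aeval (PowerSeries.C (m : ℚ) + PowerSeries.X : PowerSeries ℚ) f

lemma evj_add (m : ℕ) (f g : ℚ[X]) : evj m (f + g) = evj m f + evj m g := by
  simp [evj]
lemma evj_sub (m : ℕ) (f g : ℚ[X]) : evj m (f - g) = evj m f - evj m g := by
  simp [evj]
lemma evj_mul (m : ℕ) (f g : ℚ[X]) : evj m (f * g) = evj m f * evj m g := by
  simp [evj]
lemma evj_pow (m : ℕ) (f : ℚ[X]) (n : ℕ) : evj m (f ^ n) = evj m f ^ n := by
  simp [evj]
lemma evj_C (m : ℕ) (x : ℚ) : evj m (C x) = PowerSeries.C x := by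
  rw [evj, Polynomial.aeval_C]
  rfl
lemma evj_X (m : ℕ) : evj m X = PowerSeries.C (m : ℚ) + PowerSeries.X := by
  rw [evj, Polynomial.aeval_X]
lemma evj_one (m : ℕ) : evj m 1 = 1 := by
  simp [evj]
lemma evj_zero' (m : ℕ) : evj m 0 = 0 := by
  simp [evj]
lemma evj_prod {ι : Type*} (m : ℕ) (s : Finset ι) (f : ι → ℚ[X]) :
    evj m (∏ i ∈ s, f i) = ∏ i ∈ s, evj m (f i) := by
  simp only [evj]
  exact map_prod _ _ _
lemma evj_sum {ι : Type*} (m : ℕ) (s : Finset ι) (f : ι → ℚ[X]) :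
    evj m (∑ i ∈ s, f i) = ∑ i ∈ s, evj m (f i) := by
  simp only [evj]
  exact map_sum _ _ _
lemma evj_listprod (m : ℕ) (l : List ℚ[X]) : evj m l.prod = (l.map (evj m)).prod := by
  induction l with
  | nil => simp [evj_one]
  | cons a l ih => rw [List.prod_cons, evj_mul, ih, List.map_cons, List.prod_cons]
lemma evj_succ (m : ℕ) (f : ℚ[X]) : evj m (f.comp (X + 1)) = evj (m + 1) f := by
  rw [evj, evj, Polynomial.aeval_comp]
  congr 2
  rw [map_add, Polynomial.aeval_X, map_one, Nat.cast_add, Nat.cast_one, map_add, map_one]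
  ring
lemma constantCoeff_evj (m : ℕ) (f : ℚ[X]) :
    PowerSeries.constantCoeff (evj m f) = f.eval (m : ℚ) := by
  rw [evj, Polynomial.aeval_def, Polynomial.hom_eval₂, Polynomial.eval, map_add,
    PowerSeries.constantCoeff_C, PowerSeries.constantCoeff_X, add_zero]
  congr 1
lemma coeff_evj_zero (i : ℕ) (f : ℚ[X]) : PowerSeries.coeff i (evj 0 f) = f.coeff i := by
  induction f using Polynomial.induction_on' with
  | add p q hp hq => rw [evj_add, map_add, hp, hq, Polynomial.coeff_add]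
  | monomial n a =>
    rw [← Polynomial.C_mul_X_pow_eq_monomial, evj_mul, evj_C, evj_pow, evj_X, Nat.cast_zero,
      map_zero, zero_add, PowerSeries.coeff_C_mul, PowerSeries.coeff_X_pow,
      Polynomial.coeff_C_mul, Polynomial.coeff_X_pow]
lemma evj_int {p k : ℕ} (m : ℕ) {f : ℚ[X]} (hf : PDv p k f) : SDv p k (evj m f) := by
  rw [evj, Polynomial.aeval_def, Polynomial.eval₂_eq_sum_range]
  apply SDv.sum
  intro n _
  exact (SDv.C (hf n)).mul_right (((SDv.C (Dv.nat m)).add SDv.X).pow0 n)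

/-- `f ∈ ℤ_(p)[p X]` -/
def Wp (p : ℕ) (f : ℚ[X]) : Prop := ∀ k, Dv p k (f.coeff k)

/-- coefficients in `ℤ_(p), p, p^2, p^2, ...` -/
def Fc (p : ℕ) (f : ℚ[X]) : Prop := ∀ k, Dv p (min k 2) (f.coeff k)

lemma Wp.int {p : ℕ} {f : ℚ[X]} (hf : Wp p f) : PDv p 0 f :=
  fun n => (hf n).mono (Nat.zero_le n)
lemma Wp.fc {p : ℕ} {f : ℚ[X]} (hf : Wp p f) : Fc p f :=
  fun n => (hf n).mono (min_le_left n 2)
lemma Wp.mul {p : ℕ} {f g : ℚ[X]} (hf : Wp p f) (hg : Wp p g) : Wp p (f * g) := by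
  intro k
  rw [Polynomial.coeff_mul]
  apply Dv.sum
  intro x hx
  rw [Finset.HasAntidiagonal.mem_antidiagonal] at hx
  rw [← hx]
  exact (hf _).mul (hg _)
lemma Wp.one {p : ℕ} : Wp p 1 := by
  intro k
  rw [Polynomial.coeff_one]
  split_ifs with h
  · rw [h]; exact Dv.one
  · exact Dv.zero
lemma Wp.pow {p : ℕ} {f : ℚ[X]} (hf : Wp p f) (n : ℕ) : Wp p (f ^ n) := by
  induction n with
  | zero => rw [pow_zero]; exact Wp.one
  | succ n ih => rw [pow_succ]; exact ih.mul hf
lemma Wp.sum {p : ℕ} {ι : Type*} (s : Finset ι) (f : ι → ℚ[X]) (h : ∀ i ∈ s, Wp p (f i)) :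
    Wp p (∑ i ∈ s, f i) := by
  intro k
  rw [Polynomial.finsetSum_coeff]
  exact Dv.sum _ _ (fun i hi => h i hi k)
lemma Wp.linear {p : ℕ} {x y : ℚ} (hx : Dv p 0 x) (hy : Dv p 1 y) : Wp p (C x + C y * X) := by
  intro k
  rw [Polynomial.coeff_add, Polynomial.coeff_C, Polynomial.coeff_C_mul, Polynomial.coeff_X]
  rcases k with _ | _ | k
  · simpa using hx
  · simpa using hy
  · simpa using Dv.zero
lemma Fc.mul {p : ℕ} {f g : ℚ[X]} (hf : Fc p f) (hg : Fc p g) : Fc p (f * g) := by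
  intro k
  rw [Polynomial.coeff_mul]
  apply Dv.sum
  intro x hx
  rw [Finset.HasAntidiagonal.mem_antidiagonal] at hx
  exact ((hf x.1).mul (hg x.2)).mono (by omega)
lemma Fc.int {p : ℕ} {f : ℚ[X]} (hf : Fc p f) : PDv p 0 f :=
  fun n => (hf n).mono (Nat.zero_le _)
/-- a polynomial `1 + p^2 (...)` is in the class -/
lemma Fc.of_sub_one {p : ℕ} {f : ℚ[X]} (hf : PDv p 2 (f - 1)) (h1 : f.coeff 1 = 0) : Fc p f := by
  have _ := h1
  intro k
  have h := (hf k).mono (min_le_right k 2)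
  have h2 : Dv p (min k 2) ((1 : ℚ[X]).coeff k) := (Wp.one k).mono (min_le_left k 2)
  have h3 := h.add h2
  rwa [← Polynomial.coeff_add, sub_add_cancel] at h3
/-- adding something in `p^2` -/
lemma Fc.add_p2 {p : ℕ} {f g : ℚ[X]} (hf : Fc p f) (hg : PDv p 2 g) : Fc p (f + g) := by
  intro k
  rw [Polynomial.coeff_add]
  exact (hf k).add ((hg k).mono (min_le_right k 2))

/-- numerator `∏_i ∏_{j ≤ a_i c} (j + a_i p X)` -/
noncomputable def Num (a : List ℕ) (p c : ℕ) : ℚ[X] :=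
  (a.map fun k => ∏ j ∈ Finset.range (k * c), (C ((j : ℚ) + 1) + C ((k : ℚ) * p) * X)).prod

/-- denominator `∏_{j ≤ c} (j + p X)` -/
noncomputable def Den (p c : ℕ) : ℚ[X] := ∏ j ∈ Finset.range c, (C ((j : ℚ) + 1) + C (p : ℚ) * X)

private lemma JBase_Wp_prod {p : ℕ} {ι : Type*} (s : Finset ι) (f : ι → ℚ[X])
    (h : ∀ i ∈ s, Wp p (f i)) : Wp p (∏ i ∈ s, f i) := by
  classical
  induction s using Finset.induction_on with
  | empty => rw [Finset.prod_empty]; exact Wp.one
  | insert a s ha ih =>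
    rw [Finset.prod_insert ha]
    exact (h a (Finset.mem_insert_self a s)).mul
      (ih (fun i hi => h i (Finset.mem_insert_of_mem hi)))

private lemma JBase_nat_succ (p j : ℕ) : Dv p 0 ((j : ℚ) + 1) := by
  have := Dv.nat (p := p) (j + 1)
  rwa [Nat.cast_add, Nat.cast_one] at this

lemma Num_Wp (a : List ℕ) (p c : ℕ) : Wp p (Num a p c) := by
  rw [Num]
  induction a with
  | nil => rw [List.map_nil, List.prod_nil]; exact Wp.one
  | cons k a ih =>
    rw [List.map_cons, List.prod_cons]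
    refine (JBase_Wp_prod _ _ ?_).mul ih
    intro j _
    exact Wp.linear (JBase_nat_succ p j) ((Dv.nat k).mul_left Dv.p_self)

lemma Den_Wp (p c : ℕ) : Wp p (Den p c) := by
  rw [Den]
  refine JBase_Wp_prod _ _ ?_
  intro j _
  exact Wp.linear (JBase_nat_succ p j) Dv.p_self

lemma Den_unit (p c : ℕ) : PDv p 1 (Den p c - C (c.factorial : ℚ)) := by
  induction c with
  | zero =>
    have h : Den p 0 - C ((Nat.factorial 0 : ℕ) : ℚ) = 0 := by simp [Den]
    rw [h]
    exact PDv.zero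
  | succ c ih =>
    have h : Den p (c + 1) - C ((Nat.factorial (c + 1) : ℕ) : ℚ) =
        (Den p c - C (c.factorial : ℚ)) * (C ((c : ℚ) + 1) + C (p : ℚ) * X) +
          C (c.factorial : ℚ) * (C (p : ℚ) * X) := by
      rw [Den, Finset.prod_range_succ, ← Den, Nat.factorial_succ, Nat.cast_mul, Nat.cast_add,
        Nat.cast_one, Polynomial.C_mul]
      ring
    rw [h]
    refine (ih.mul_right (Wp.linear (JBase_nat_succ p c) Dv.p_self).int).add ?_
    exact (PDv.C (Dv.nat _)).mul_left ((PDv.C Dv.p_self).mul_right PDv.X)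

end KPInt
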