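import Pool.Agent.Lib.KPInt.JBase

/-!
# JHerm: Hermite interpolation of jets (mod epsilon^3) with p-adic control

PROOF. For `m < n` let `Π_m(X) = ∏_{m'<n, m'≠m} (X - m')^3` and `U_m = evj m Π_m`, constant coefficient
`∏ (m - m')^3 ≠ 0`. For `m' ≠ m`, `evj m' Π_m` is divisible by `X^3` (its factor
`(evj m' (X - m'))^3 = X^3`). Let `C₀` be such that `p^C₀` times the coefficients 0, 1, 2 of `U_m⁻¹`
is `p`-integral for all `m < n` (finitely many rationals: `exists_pow_int`, every rational number `x`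
has some `c` with `Dv p 0 (p^c x)`; monotone in `c`). Given jets `e_m` with coefficients 0, 1, 2 in
`p^(K+C₀)`, put `w_m = trunc 3 (e_m U_m⁻¹)` (polynomial of degree `≤ 2`, coefficients in `p^K`) and
`η = ∑_{m<n} Π_m * w_m.comp (X - C m)`. `PDv p K η` since `Π_m` and `X - C m` are integral. For the
jets: `evj m' (Π_m ...)` has vanishing coefficients 0,1,2 for `m ≠ m'`; for `m = m'`,
`evj m (w_m.comp (X - m)) = w_m` as a power series, and `U_m w_m ≡ U_m e_m U_m⁻¹ = e_m mod X^3`.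
-/

set_option autoImplicit false

namespace KPInt

open Polynomial

lemma exists_pow_int {p : ℕ} [hp : Fact p.Prime] (x : ℚ) :
    ∃ c, ∀ c', c ≤ c' → Dv p 0 ((p : ℚ) ^ c' * x) := by
  obtain ⟨e, d, hd, hden⟩ := Nat.exists_eq_pow_mul_and_not_dvd x.den_nz p hp.out.ne_one
  refine ⟨e, fun c' hc => ?_⟩
  refine ⟨(p : ℤ) ^ (c' - e) * x.num, d, ?_, ?_⟩
  · exact ((Nat.Prime.coprime_iff_not_dvd hp.out).2 hd).symm
  · have h1 : x * (x.den : ℚ) = x.num := Rat.mul_den_eq_num x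
    rw [hden] at h1
    push_cast at h1 ⊢
    have h2 : (p : ℚ) ^ c' = (p : ℚ) ^ (c' - e) * (p : ℚ) ^ e := by
      rw [← pow_add, Nat.sub_add_cancel hc]
    rw [h2, pow_zero, one_mul, ← h1]
    ring

/-- the product of the cubes of the other linear factors -/
private noncomputable def JHerm_P (n m : ℕ) : ℚ[X] :=
  ∏ m' ∈ (Finset.range n).erase m, (X - C (m' : ℚ)) ^ 3

private lemma JHerm_P_int (p n m : ℕ) : PDv p 0 (JHerm_P n m) := by
  unfold JHerm_P
  exact PDv.prod _ _ fun i _ => (PDv.X.sub (PDv.C (Dv.nat i))).pow0 3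

private lemma JHerm_lin (m : ℕ) : evj m (X - C (m : ℚ)) = PowerSeries.X := by
  rw [evj_sub, evj_X, evj_C, add_sub_cancel_left]

private lemma JHerm_P_ne (n m : ℕ) : PowerSeries.constantCoeff (evj m (JHerm_P n m)) ≠ 0 := by
  rw [constantCoeff_evj, JHerm_P, Polynomial.eval_prod, Finset.prod_ne_zero_iff]
  intro i hi
  rw [Polynomial.eval_pow, Polynomial.eval_sub, Polynomial.eval_X, Polynomial.eval_C]
  have h1 : i ≠ m := (Finset.mem_erase.1 hi).1
  refine pow_ne_zero 3 (sub_ne_zero.2 fun hc => h1 ?_)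
  exact_mod_cast hc.symm

private lemma JHerm_P_dvd (n m m' : ℕ) (hm : m' < n) (h : m' ≠ m) (g : PowerSeries ℚ) (i : ℕ)
    (hi : i ≤ 2) : PowerSeries.coeff i (evj m' (JHerm_P n m) * g) = 0 := by
  have h1 : (X - C (m' : ℚ)) ^ 3 ∣ JHerm_P n m := by
    unfold JHerm_P
    exact Finset.dvd_prod_of_mem (fun m' : ℕ => (X - C (m' : ℚ)) ^ 3)
      (Finset.mem_erase.2 ⟨h, Finset.mem_range.2 hm⟩)
  obtain ⟨Q, hQ⟩ := h1
  rw [hQ, evj_mul, evj_pow, JHerm_lin, mul_assoc, PowerSeries.coeff_X_pow_mul', if_neg (by omega)]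

private lemma JHerm_comp (m : ℕ) (w : ℚ[X]) : evj m (w.comp (X - C (m : ℚ))) = evj 0 w := by
  have h1 := JHerm_lin m
  rw [evj] at h1
  rw [evj, evj, Polynomial.aeval_comp, h1, Nat.cast_zero, map_zero, zero_add]

private lemma JHerm_mul {p : ℕ} [hp : Fact p.Prime] (K c : ℕ) (x v : ℚ) (hx : Dv p (K + c) x)
    (hv : Dv p 0 ((p : ℚ) ^ c * v)) : Dv p K (x * v) := by
  obtain ⟨y, hy, rfl⟩ := Dv.iff_exists.1 hx
  have h1 : (p : ℚ) ^ (K + c) * y * v = ((p : ℚ) ^ K * y) * ((p : ℚ) ^ c * v) := by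
    rw [pow_add]
    ring
  rw [h1]
  exact ((Dv.ppow K).mul_right hy).mul_right hv

private lemma JHerm_C (p n : ℕ) [hp : Fact p.Prime] : ∃ C₀ : ℕ, ∀ m < n, ∀ i ≤ 2,
    Dv p 0 ((p : ℚ) ^ C₀ * PowerSeries.coeff i (evj m (JHerm_P n m))⁻¹) := by
  choose c hc using fun m i : ℕ =>
    exists_pow_int (p := p) (PowerSeries.coeff i (evj m (JHerm_P n m))⁻¹)
  refine ⟨∑ m ∈ Finset.range n, ∑ i ∈ Finset.range 3, c m i, fun m hm i hi => hc m i _ ?_⟩
  calc c m i ≤ ∑ i ∈ Finset.range 3, c m i :=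
        Finset.single_le_sum (f := fun i => c m i) (fun _ _ => Nat.zero_le _)
          (Finset.mem_range.2 (by omega))
    _ ≤ _ := Finset.single_le_sum (f := fun m => ∑ i ∈ Finset.range 3, c m i)
          (fun _ _ => Nat.zero_le _) (Finset.mem_range.2 hm)

theorem hermite (p n : ℕ) [hp : Fact p.Prime] : ∃ C₀ : ℕ, ∀ (K : ℕ) (e : ℕ → PowerSeries ℚ),
    (∀ m < n, ∀ i ≤ 2, Dv p (K + C₀) (PowerSeries.coeff i (e m))) →
    ∃ η : ℚ[X], PDv p K η ∧ ∀ m < n, ∀ i ≤ 2,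
      PowerSeries.coeff i (evj m η) = PowerSeries.coeff i (e m) := by
  obtain ⟨C₀, hC⟩ := JHerm_C p n
  refine ⟨C₀, fun K e he => ?_⟩
  refine ⟨∑ m ∈ Finset.range n, JHerm_P n m *
    (PowerSeries.trunc 3 (e m * (evj m (JHerm_P n m))⁻¹)).comp (X - C (m : ℚ)), ?_, ?_⟩
  · refine PDv.sum _ _ fun m hm => (JHerm_P_int p n m).mul_left ?_
    refine PDv.comp ?_ (PDv.X.sub (PDv.C (Dv.nat m)))
    intro k
    rw [PowerSeries.coeff_trunc]
    split_ifs with hk
    · rw [PowerSeries.coeff_mul]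
      refine Dv.sum _ _ fun x hx => ?_
      rw [Finset.HasAntidiagonal.mem_antidiagonal] at hx
      exact JHerm_mul K C₀ _ _ (he m (Finset.mem_range.1 hm) x.1 (by omega))
        (hC m (Finset.mem_range.1 hm) x.2 (by omega))
    · exact Dv.zero
  · intro m₀ hm₀ i hi
    rw [evj_sum, map_sum, Finset.sum_eq_single m₀]
    · have h1 : TEq 3 (evj 0 (PowerSeries.trunc 3 (e m₀ * (evj m₀ (JHerm_P n m₀))⁻¹)))
          (e m₀ * (evj m₀ (JHerm_P n m₀))⁻¹) := by
        intro k hk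
        rw [coeff_evj_zero, PowerSeries.coeff_trunc, if_pos hk]
      have h2 := (TEq.refl (N := 3) (evj m₀ (JHerm_P n m₀))).mul h1
      have h3 : evj m₀ (JHerm_P n m₀) * (e m₀ * (evj m₀ (JHerm_P n m₀))⁻¹) = e m₀ := by
        rw [mul_left_comm, PowerSeries.mul_inv_cancel _ (JHerm_P_ne n m₀), mul_one]
      rw [h3] at h2
      rw [evj_mul, JHerm_comp]
      exact h2 i (by omega)
    · intro m _ hm
      rw [evj_mul]
      exact JHerm_P_dvd n m m₀ hm₀ (fun hc => hm hc.symm) _ i hi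
    · intro h
      exact absurd (Finset.mem_range.2 hm₀) h

end KPInt
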