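import Pool.Agent.Lib.KPInt.JTel
import Pool.Agent.Lib.KPInt.JHerm

/-!
# JMain: exact Frobenius relations for the jets B_n with polynomials h_c

PROOF. `N = a.sum`. Let `C₀` be the constant of `hermite p n` and `M' = max M 3 + C₀`. For `k ∈ a` (for
all `k`) let `Fs k` be the polynomial of `E_main p k M'`, `F = (a.map Fs).prod`. Then `F` has
coefficients `F_0 = 1`, `F_1 = F_2 = 0`, `F - 1 ∈ p^2`, and for `p = 2, 3`:
`F ≡ 1 + p^2 (∑ (k^3-k)/6) X^3 mod p^3` (induction on the list; cross terms are in `p^4`).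
Let `Di = ∏_{j<c} C (1/(j+1)) ∑_{i<M'} (-(C (p/(j+1)) X))^i` (a function of `c < p`); it is in the
class `Wp`, and `Den p c * Di - 1 ∈ p^M'` (geometric sum: `(1 + y) ∑_{i<M'} (-y)^i = 1 - (-y)^M'`,
`y = C (p/(j+1)) X ∈ p`). Put `h⁰_c = F * Num a p c * Di^N`; it is in the class `Fc`.
Let `H = WW a p m * evj m (Num) * (UU p m ^ N * evj m (Den p c) ^ N)⁻¹`, a `p`-integral power series
(`UU_unit`, `Den_unit`: `c! ` is prime to `p`), with `rescale p (Bj a (c + p m)) = Bj a m * H`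
(`Bj_prod`). Claim: `e_m := C (σ^m) * H - evj m h⁰_c` has coefficients 0,1,2 in `p^M'`. Multiply by the
unit `UU^N * evj m Den^N * evj 0 F` (`evj 0 F ≡ 1 mod X^3`, `coeff_evj_zero`): by `tel`
`C σ^m * evj 0 F * WW ≡ evj m F * UU^N mod p^M'` (use `σ^(2m) = 1`), and
`evj m (Di * Den)^N ≡ 1`, so the product is `≡ evj m F * UU^N * evj m Num * (1 - evj 0 F) mod p^M'`,
whose coefficients 0,1,2 vanish modulo `p^M'`. Divide by the unit (coefficients 0,1,2 only depend on
coefficients 0,1,2: use `TDv` with `N = 3` and `TDv.of_mul_left'`).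
`hermite` with `K = max M 3` gives `η_c ∈ p^K` with the jets of `e_m`, `m < n`. Put `h_c = h⁰_c + η_c`.
Then `coeff i (evj m h_c) = coeff i (C σ^m * H)` for `i ≤ 2`, `m < n`, so
`σ^m coeff i (evj m h_c * B_m) = coeff i (B_m * H)` for `i ≤ 2` (`σ^(2m) = 1`). Finally
`h_c * Den^N - F * Num = F * Num * ((Di Den)^N - 1) + η_c Den^N ∈ p^M`, and `h_c ∈ Fc`
(`Fc.add_p2`).
-/

set_option autoImplicit false

namespace KPInt

open Polynomial

/-- `∑ (a_i^3 - a_i)/6` -/
def c3 (a : List ℕ) : ℚ := (a.map fun k => ((k : ℚ) ^ 3 - k) / 6).sum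

private lemma jmain_prod {p : ℕ} (Fs : ℕ → ℚ[X])
    (h : ∀ k, (Fs k).coeff 0 = 1 ∧ (Fs k).coeff 1 = 0 ∧ (Fs k).coeff 2 = 0 ∧ PDv p 2 (Fs k - 1) ∧
      (p = 2 ∨ p = 3 →
        PDv p 3 (Fs k - 1 - C ((p : ℚ) ^ 2 * (((k : ℚ) ^ 3 - k) / 6)) * X ^ 3))) (a : List ℕ) :
    ((a.map Fs).prod.coeff 0 = 1 ∧ (a.map Fs).prod.coeff 1 = 0 ∧ (a.map Fs).prod.coeff 2 = 0 ∧
      PDv p 2 ((a.map Fs).prod - 1)) ∧
    (p = 2 ∨ p = 3 → PDv p 3 ((a.map Fs).prod - 1 - C ((p : ℚ) ^ 2 * c3 a) * X ^ 3)) := by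
  induction a with
  | nil =>
    refine ⟨⟨?_, ?_, ?_, ?_⟩, ?_⟩
    · simp
    · simp [Polynomial.coeff_one]
    · simp [Polynomial.coeff_one]
    · simpa using PDv.zero
    · intro _
      simpa [c3] using PDv.zero
  | cons k a ih =>
    obtain ⟨⟨i0, i1, i2, i3⟩, i4⟩ := ih
    obtain ⟨k0, k1, k2, k3, k4⟩ := h k
    simp only [List.map_cons, List.prod_cons]
    set F := (a.map Fs).prod with hF
    have e1 : (Fs k * F - 1) = (Fs k - 1) * (F - 1) + (Fs k - 1) + (F - 1) := by ring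
    refine ⟨⟨?_, ?_, ?_, ?_⟩, ?_⟩
    · rw [Polynomial.mul_coeff_zero, k0, i0, one_mul]
    · rw [Polynomial.mul_coeff_one, k0, i1, k1, i0]; ring
    · rw [Polynomial.coeff_mul]
      simp only [Finset.Nat.antidiagonal_succ, Finset.Nat.antidiagonal_zero, Finset.map_singleton,
        Finset.sum_cons, Finset.map_cons, Finset.sum_singleton]
      simp [k0, k1, k2, i0, i1, i2]
    · rw [e1]
      exact ((PDv.mono (k3.mul i3) (by omega)).add k3).add i3
    · intro hp23
      have e2 : (Fs k * F - 1) - C ((p : ℚ) ^ 2 * c3 (k :: a)) * X ^ 3 =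
          (Fs k - 1) * (F - 1) + (Fs k - 1 - C ((p : ℚ) ^ 2 * (((k : ℚ) ^ 3 - k) / 6)) * X ^ 3) +
          (F - 1 - C ((p : ℚ) ^ 2 * c3 a) * X ^ 3) := by
        have : c3 (k :: a) = ((k : ℚ) ^ 3 - k) / 6 + c3 a := by simp [c3]
        rw [this, mul_add, C_add]
        ring
      rw [e2]
      exact ((PDv.mono (k3.mul i3) (by omega)).add (k4 hp23)).add (i4 hp23)

private lemma jmain_coprime {p c : ℕ} (hp : p.Prime) (hc : c + 1 < p) :
    Nat.Coprime (c + 1) p :=
  ((Nat.Prime.coprime_iff_not_dvd hp).mpr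
    (Nat.not_dvd_of_pos_of_lt (Nat.succ_pos c) hc)).symm

private lemma jmain_Di {p : ℕ} [hp : Fact p.Prime] (M : ℕ) (c : ℕ) (hc : c < p) :
    ∃ Di : ℚ[X], Wp p Di ∧ PDv p M (Den p c * Di - 1) := by
  induction c with
  | zero =>
    refine ⟨1, Wp.one, ?_⟩
    have : Den p 0 * 1 - 1 = 0 := by simp [Den]
    rw [this]; exact PDv.zero
  | succ c ih =>
    obtain ⟨Di, h1, h2⟩ := ih (by omega)
    have hcop := jmain_coprime hp.out hc
    have hinv : Dv p 0 (((c : ℚ) + 1)⁻¹) := by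
      have := Dv.inv_nat hcop
      push_cast at this
      exact this
    have hne : ((c : ℚ) + 1) ≠ 0 := by positivity
    set y : ℚ[X] := C ((p : ℚ) * ((c : ℚ) + 1)⁻¹) * X with hy
    have hy1 : PDv p 1 y := (PDv.C (Dv.p_self.mul_right hinv)).mul_right PDv.X
    have hWy : Wp p (-y) := by
      have := Wp.linear (p := p) (x := 0) (y := -((p : ℚ) * ((c : ℚ) + 1)⁻¹))
        Dv.zero (Dv.p_self.mul_right hinv).neg
      have e : (C (0 : ℚ) + C (-((p : ℚ) * ((c : ℚ) + 1)⁻¹)) * X : ℚ[X]) = -y := by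
        rw [hy, C_neg]; simp
      rwa [e] at this
    have hWc : Wp p (C (((c : ℚ) + 1)⁻¹)) := by
      have := Wp.linear (p := p) (x := ((c : ℚ) + 1)⁻¹) (y := 0) hinv Dv.zero
      simpa using this
    have hgeo : (1 + y) * ∑ i ∈ Finset.range M, (-y) ^ i = 1 - (-y) ^ M := by
      have := mul_neg_geom_sum (-y) M
      rw [sub_neg_eq_add] at this
      exact this
    have hDen : Den p (c + 1) = Den p c * (C ((c : ℚ) + 1) + C (p : ℚ) * X) := by
      rw [Den, Finset.prod_range_succ, ← Den]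
    have hlin : (C ((c : ℚ) + 1) + C (p : ℚ) * X) * C (((c : ℚ) + 1)⁻¹) = 1 + y := by
      have e : (C ((c : ℚ) + 1) * C (((c : ℚ) + 1)⁻¹) : ℚ[X]) = 1 := by
        rw [← C_mul, mul_inv_cancel₀ hne, C_1]
      rw [hy, C_mul]
      linear_combination e
    refine ⟨Di * (C (((c : ℚ) + 1)⁻¹) * ∑ i ∈ Finset.range M, (-y) ^ i),
      h1.mul (hWc.mul (Wp.sum _ _ fun i _ => hWy.pow i)), ?_⟩
    have e : Den p (c + 1) * (Di * (C (((c : ℚ) + 1)⁻¹) * ∑ i ∈ Finset.range M, (-y) ^ i)) - 1 =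
        (Den p c * Di - 1) - (Den p c * Di) * (-y) ^ M := by
      rw [hDen]
      linear_combination (Den p c * Di) * (∑ i ∈ Finset.range M, (-y) ^ i) * hlin +
        (Den p c * Di) * hgeo
    rw [e]
    have hyM : PDv p M ((-y) ^ M) := by
      have := hy1.neg.pow M
      rwa [one_mul] at this
    exact h2.sub (((Den_Wp p c).mul h1).int.mul_left hyM)

private lemma jmain_pow {p M : ℕ} {f : ℚ[X]} (hf : PDv p 0 f) (h : PDv p M (f - 1)) (n : ℕ) :
    PDv p M (f ^ n - 1) := by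
  induction n with
  | zero => simpa using PDv.zero
  | succ n ih =>
    have e : f ^ (n + 1) - 1 = f * (f ^ n - 1) + (f - 1) := by ring
    rw [e]
    exact (hf.mul_left ih).add h

private lemma jmain_Den_eval {p : ℕ} (hp : p.Prime) (c m : ℕ) (hc : c < p) :
    ∃ b : ℕ, Nat.Coprime b p ∧ b ≠ 0 ∧ (Den p c).eval (m : ℚ) = b := by
  induction c with
  | zero => exact ⟨1, by simp, one_ne_zero, by simp [Den]⟩
  | succ c ih =>
    obtain ⟨b, h1, h2, h3⟩ := ih (by omega)
    refine ⟨b * (c + 1 + p * m), ?_, ?_, ?_⟩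
    · refine Nat.Coprime.mul_left h1 ?_
      have := jmain_coprime hp hc
      rw [Nat.coprime_add_mul_left_left]
      exact this
    · exact Nat.mul_ne_zero h2 (by omega)
    · rw [Den, Finset.prod_range_succ, ← Den, eval_mul, h3]
      simp

private lemma jmain_unit {p : ℕ} [hp : Fact p.Prime] (c m N : ℕ) (hc : c < p) :
    SDv p 0 (UU p m ^ N * evj m (Den p c) ^ N) ∧
    Dv p 0 (PowerSeries.constantCoeff (UU p m ^ N * evj m (Den p c) ^ N))⁻¹ ∧
    PowerSeries.constantCoeff (UU p m ^ N * evj m (Den p c) ^ N) ≠ 0 := by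
  obtain ⟨u1, u2, u3⟩ := UU_unit (p := p) m
  obtain ⟨b, b1, b2, b3⟩ := jmain_Den_eval hp.out c m hc
  have hD : SDv p 0 (evj m (Den p c)) := evj_int m (Den_Wp p c).int
  have hb : (b : ℚ) ≠ 0 := by exact_mod_cast b2
  refine ⟨(u1.pow0 N).mul_left (hD.pow0 N), ?_, ?_⟩
  · rw [map_mul, map_pow, map_pow, constantCoeff_evj, b3, mul_inv, ← inv_pow, ← inv_pow]
    exact (u3.pow0 N).mul_left ((Dv.inv_nat b1).pow0 N)
  · rw [map_mul, map_pow, map_pow, constantCoeff_evj, b3]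
    exact mul_ne_zero (pow_ne_zero _ u2) (pow_ne_zero _ hb)

/-- the key congruence of jets -/
private lemma jmain_jet {p : ℕ} [hp : Fact p.Prime] (a : List ℕ) (M c m : ℕ) (hc : c < p)
    (Fs : ℕ → ℚ[X]) (hF : ∀ k ∈ a, PDv p 0 (Fs k)) (h : ∀ k ∈ a, FEq p M k (Fs k))
    (hFi : PDv p 0 (a.map Fs).prod)
    (h0 : (a.map Fs).prod.coeff 0 = 1) (h1 : (a.map Fs).prod.coeff 1 = 0)
    (h2 : (a.map Fs).prod.coeff 2 = 0) (Di : ℚ[X]) (hDi : Wp p Di)
    (hD : PDv p M (Den p c * Di - 1)) :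
    TDv p M 3 (PowerSeries.C (sgt p a ^ m) * (WW a p m * evj m (Num a p c) *
      (UU p m ^ a.sum * evj m (Den p c) ^ a.sum)⁻¹) -
      evj m ((a.map Fs).prod * Num a p c * Di ^ a.sum)) := by
  obtain ⟨v1, v2, v3⟩ := jmain_unit (p := p) c m a.sum hc
  have htel := tel (p := p) a hF h m
  set F := (a.map Fs).prod with hFdef
  set N := a.sum with hN
  set u := UU p m ^ N * evj m (Den p c) ^ N with hu
  apply TDv.of_mul_left' (v1.t 3) v2 v3
  have huu : u * u⁻¹ = 1 := PowerSeries.mul_inv_cancel _ v3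
  have hE : evj m ((Den p c * Di) ^ N - 1) = evj m (Den p c) ^ N * evj m Di ^ N - 1 := by
    rw [evj_sub, evj_pow, evj_mul, evj_one, mul_pow]
  have e : u * (PowerSeries.C (sgt p a ^ m) * (WW a p m * evj m (Num a p c) * u⁻¹) -
      evj m (F * Num a p c * Di ^ N)) =
      evj m (Num a p c) * (PowerSeries.C (sgt p a ^ m) * (WW a p m * (1 - evj 0 F)) -
        (evj m F * UU p m ^ N - PowerSeries.C (sgt p a ^ m) * (evj 0 F * WW a p m)) -
        evj m F * UU p m ^ N * evj m ((Den p c * Di) ^ N - 1)) := by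
    rw [hE, evj_mul, evj_mul, evj_pow]
    have h3 : u * (PowerSeries.C (sgt p a ^ m) * (WW a p m * evj m (Num a p c) * u⁻¹)) =
        PowerSeries.C (sgt p a ^ m) * (WW a p m * evj m (Num a p c)) := by
      linear_combination (PowerSeries.C (sgt p a ^ m) * (WW a p m * evj m (Num a p c))) * huu
    rw [mul_sub, h3, hu]
    ring
  rw [e]
  have hsg : Dv p 0 (sgt p a ^ m) := by
    have hs : sgt p a = 1 ∨ sgt p a = -1 := by
      have h0 : (sgt p a - 1) * (sgt p a + 1) = 0 := by linear_combination sgt_sq (p := p) a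
      rcases mul_eq_zero.mp h0 with h0 | h0
      · left; linarith
      · right; linarith
    have hs' : Dv p 0 (sgt p a) := by
      rcases hs with hs | hs
      · rw [hs]; exact Dv.one
      · rw [hs]; exact Dv.one.neg
    exact hs'.pow0 m
  have hNum : SDv p 0 (evj m (Num a p c)) := evj_int m (Num_Wp a p c).int
  have hF1 : TDv p M 3 (1 - evj 0 F) := by
    intro i hi
    have : PowerSeries.coeff i (1 - evj 0 F) = 0 := by
      rw [map_sub, coeff_evj_zero, PowerSeries.coeff_one]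
      interval_cases i
      · simp [h0]
      · simp [h1]
      · simp [h2]
    rw [this]
    exact Dv.zero
  have hpw : PDv p M ((Den p c * Di) ^ N - 1) :=
    jmain_pow ((Den_Wp p c).mul hDi).int hD N
  refine (hNum.t 3).mul_left (TDv.sub (TDv.sub ?_ (htel.t 3)) ?_)
  · exact (TDv.C hsg).mul_left (((WW_int (p := p) a m).t 3).mul_left hF1)
  · refine TDv.mul_left (TDv.mul_left ((evj_int m hFi).t 3) (((UU_unit (p := p) m).1.pow0 N).t 3)) ?_
    exact (evj_int m hpw).t 3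

theorem exists_h (a : List ℕ) (p : ℕ) [hp : Fact p.Prime] (n M : ℕ) :
    ∃ (F : ℚ[X]) (h : ℕ → ℚ[X]),
      (F.coeff 0 = 1 ∧ F.coeff 1 = 0 ∧ F.coeff 2 = 0 ∧ PDv p 2 (F - 1)) ∧
      (p = 2 ∨ p = 3 → PDv p 3 (F - 1 - C ((p : ℚ) ^ 2 * c3 a) * X ^ 3)) ∧
      (∀ c < p, Fc p (h c)) ∧
      (∀ c < p, PDv p M (h c * Den p c ^ a.sum - F * Num a p c)) ∧
      (∀ c < p, ∀ m < n, ∀ i ≤ 2,
        PowerSeries.coeff i (PowerSeries.rescale (p : ℚ) (Bj a (c + p * m))) =
          sgt p a ^ m * PowerSeries.coeff i (evj m (h c) * Bj a m)) := by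
  obtain ⟨C₀, hC₀⟩ := hermite p n
  set K := max M 3 with hK
  choose Fs f0 f1 f2 f3 f4 f5 using fun k => E_main p k (K + C₀)
  obtain ⟨⟨g0, g1, g2, g3⟩, g4⟩ := jmain_prod (p := p) Fs
    (fun k => ⟨f0 k, f1 k, f2 k, f3 k, f4 k⟩) a
  have hint : ∀ G : ℚ[X], PDv p 2 (G - 1) → PDv p 0 G := by
    intro G hG
    have := (hG.mono (Nat.zero_le 2)).add (PDv.one (p := p))
    rwa [sub_add_cancel] at this
  have hFi : PDv p 0 (a.map Fs).prod := hint _ g3
  have key : ∀ c, ∃ h : ℚ[X], c < p → (Fc p h ∧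
      PDv p M (h * Den p c ^ a.sum - (a.map Fs).prod * Num a p c) ∧
      (∀ m < n, ∀ i ≤ 2,
        PowerSeries.coeff i (PowerSeries.rescale (p : ℚ) (Bj a (c + p * m))) =
          sgt p a ^ m * PowerSeries.coeff i (evj m h * Bj a m))) := by
    intro c
    by_cases hc : c < p
    swap
    · exact ⟨0, fun h => absurd h hc⟩
    obtain ⟨Di, d1, d2⟩ := jmain_Di (p := p) (K + C₀) c hc
    have hjet : ∀ m, _ := fun m => jmain_jet (p := p) a (K + C₀) c m hc Fs
      (fun k _ => hint _ (f3 k)) (fun k _ => f5 k) hFi g0 g1 g2 Di d1 d2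
    obtain ⟨η, η1, η2⟩ := hC₀ K _ (fun m _ i hi => hjet m i (by omega))
    refine ⟨(a.map Fs).prod * Num a p c * Di ^ a.sum + η, fun _ => ⟨?_, ?_, ?_⟩⟩
    · refine Fc.add_p2 ?_ (η1.mono (by omega))
      exact ((Fc.of_sub_one g3 g1).mul (Num_Wp a p c).fc).mul (d1.pow _).fc
    · have e : ((a.map Fs).prod * Num a p c * Di ^ a.sum + η) * Den p c ^ a.sum -
          (a.map Fs).prod * Num a p c =
          ((a.map Fs).prod * Num a p c) * ((Den p c * Di) ^ a.sum - 1) + η * Den p c ^ a.sum := by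
        rw [mul_pow]; ring
      rw [e]
      have hpw : PDv p (K + C₀) ((Den p c * Di) ^ a.sum - 1) :=
        jmain_pow ((Den_Wp p c).mul d1).int d2 _
      exact ((hFi.mul_left (Num_Wp a p c).int).mul_left (hpw.mono (by omega))).add
        ((η1.mono (by omega)).mul_right ((Den_Wp p c).int.pow0 _))
    · intro m hm i hi
      obtain ⟨v1, v2, v3⟩ := jmain_unit (p := p) c m a.sum hc
      have hB := Bj_prod a p c m
      set u := UU p m ^ a.sum * evj m (Den p c) ^ a.sum with hu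
      set H := WW a p m * evj m (Num a p c) * u⁻¹ with hH
      have huu : u * u⁻¹ = 1 := PowerSeries.mul_inv_cancel _ v3
      have hBH : PowerSeries.rescale (p : ℚ) (Bj a (c + p * m)) = H * Bj a m := by
        rw [hH]
        linear_combination u⁻¹ * hB -
          (PowerSeries.rescale (p : ℚ) (Bj a (c + p * m))) * huu
      have hT : TEq 3 (evj m ((a.map Fs).prod * Num a p c * Di ^ a.sum + η))
          (PowerSeries.C (sgt p a ^ m) * H) := by
        intro j hj
        have := η2 m hm j (by omega)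
        rw [evj_add, map_add, this, map_sub]
        ring
      have hT2 := hT.mul (TEq.refl (N := 3) (Bj a m)) i (by omega)
      have hs : sgt p a ^ (m + m) = 1 := by
        rw [← two_mul, pow_mul, sgt_sq, one_pow]
      have hc2 : PowerSeries.coeff i (PowerSeries.C (sgt p a ^ m) * H * Bj a m) =
          sgt p a ^ m * PowerSeries.coeff i (H * Bj a m) := by
        rw [mul_assoc, PowerSeries.coeff_C_mul]
      rw [hT2, hBH, hc2, ← mul_assoc, ← pow_add, hs, one_mul]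
  choose h hh using key
  exact ⟨(a.map Fs).prod, h, ⟨g0, g1, g2, g3⟩, g4, fun c hc => (hh c hc).1,
    fun c hc => (hh c hc).2.1, fun c hc => (hh c hc).2.2⟩

end KPInt
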