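import Pool.Agent.Lib.KPInt.JBase
import Pool.Agent.Lib.KPInt.ESq

/-!
# JProd: product formula: rescale p (B_{c+pm}) = B_m * (p-adic unit) * a_c(m+eps)

PROOF. For `k, n` put `NN k n = ∏_{j<kn} (C k * X + C (j+1))` (power series in `ε = X`).
BLOCK FORMULA. For all `k`, `c`, `m`:
 `rescale p (NN k (c + p m)) = C (p^(k m)) * NN k m *
    (∏_{t<m} ∏_{s<k} evj t (P.comp (C k X + C s))) * evj m (∏_{j<kc} (C (j+1) + C (k p) X))`.
The numerator of `Bj a n` is the product of `NN k n` over `k ∈ a`; the denominator is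
`(NN 1 n)^N`, `N = a.sum`.
-/

set_option autoImplicit false

namespace KPInt

open Polynomial

/-- `∏_{k ∈ a} ∏_{t<m} ∏_{s<k} P(k(t + ε) + s)` -/
noncomputable def WW (a : List ℕ) (p m : ℕ) : PowerSeries ℚ :=
  (a.map fun k => ∏ t ∈ Finset.range m, ∏ s ∈ Finset.range k,
    evj t ((Pp p).comp (C (k : ℚ) * X + C (s : ℚ)))).prod

/-- `∏_{t<m} P(t + ε)` -/
noncomputable def UU (p m : ℕ) : PowerSeries ℚ := ∏ t ∈ Finset.range m, evj t (Pp p)

/-- `∏_{j<kn} (k ε + j + 1)` -/
private noncomputable def JProd_NN (k n : ℕ) : PowerSeries ℚ :=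
  ∏ j ∈ Finset.range (k * n), (PowerSeries.C (k : ℚ) * PowerSeries.X + PowerSeries.C ((j : ℚ) + 1))

/-- grouping a product over `range (n * q)` in blocks of length `q` -/
private lemma JProd_blocks {R : Type*} [CommMonoid R] (f : ℕ → R) (n q : ℕ) :
    ∏ j ∈ Finset.range (n * q), f j =
      ∏ i ∈ Finset.range n, ∏ u ∈ Finset.range q, f (i * q + u) := by
  induction n with
  | zero => simp
  | succ n ih => rw [Nat.succ_mul, Finset.prod_range_add, Finset.prod_range_succ, ih]

private lemma JProd_evjPp (p t k s : ℕ) :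
    evj t ((Pp p).comp (C (k : ℚ) * X + C (s : ℚ))) =
      ∏ u ∈ Finset.Ico 1 p, (PowerSeries.C ((k : ℚ) * p) * PowerSeries.X +
        PowerSeries.C (((t * k + s : ℕ) : ℚ) * p + u)) := by
  rw [Pp, Polynomial.prod_comp, evj_prod]
  refine Finset.prod_congr rfl fun u _ => ?_
  rw [Polynomial.add_comp, Polynomial.C_comp, Polynomial.mul_comp, Polynomial.C_comp,
    Polynomial.X_comp, evj_add, evj_mul, evj_add, evj_mul, evj_C, evj_C, evj_C, evj_C, evj_X]
  simp only [map_add, map_mul, Nat.cast_add, Nat.cast_mul]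
  ring

private lemma JProd_rescale (p k : ℕ) (x : ℚ) :
    PowerSeries.rescale (p : ℚ) (PowerSeries.C (k : ℚ) * PowerSeries.X + PowerSeries.C x) =
      PowerSeries.C ((k : ℚ) * p) * PowerSeries.X + PowerSeries.C x := by
  ext n
  rw [PowerSeries.coeff_rescale]
  rcases n with _ | n
  · simp
  · simp only [map_add, PowerSeries.coeff_C_mul, PowerSeries.coeff_X, PowerSeries.coeff_C]
    rcases n with _ | n
    · simp; ring
    · simp

private lemma JProd_block (p : ℕ) [hp : Fact p.Prime] (k c m : ℕ) :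
    PowerSeries.rescale (p : ℚ) (JProd_NN k (c + p * m)) =
      PowerSeries.C ((p : ℚ) ^ (k * m)) * JProd_NN k m *
        (∏ t ∈ Finset.range m, ∏ s ∈ Finset.range k,
          evj t ((Pp p).comp (C (k : ℚ) * X + C (s : ℚ)))) *
        evj m (∏ j ∈ Finset.range (k * c), (C ((j : ℚ) + 1) + C ((k : ℚ) * p) * X)) := by
  have h1 : k * (c + p * m) = (m * k) * p + k * c := by ring
  have hpos : 1 ≤ p := hp.out.one_lt.le
  rw [JProd_NN, map_prod, h1, Finset.prod_range_add, JProd_blocks]
  congr 1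
  · -- the first `m k p` factors
    have h2 : ∀ i : ℕ, ∏ u ∈ Finset.range p, PowerSeries.rescale (p : ℚ)
        (PowerSeries.C (k : ℚ) * PowerSeries.X + PowerSeries.C (((i * p + u : ℕ) : ℚ) + 1)) =
        (PowerSeries.C (p : ℚ) * (PowerSeries.C (k : ℚ) * PowerSeries.X +
          PowerSeries.C ((i : ℚ) + 1))) *
        ∏ u ∈ Finset.Ico 1 p, (PowerSeries.C ((k : ℚ) * p) * PowerSeries.X +
          PowerSeries.C ((i : ℚ) * p + u)) := by
      intro i
      have h3 : p = (p - 1) + 1 := by omega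
      have h4 : ∏ u ∈ Finset.range p, PowerSeries.rescale (p : ℚ)
          (PowerSeries.C (k : ℚ) * PowerSeries.X + PowerSeries.C (((i * p + u : ℕ) : ℚ) + 1)) =
          (∏ u ∈ Finset.range (p - 1), PowerSeries.rescale (p : ℚ)
          (PowerSeries.C (k : ℚ) * PowerSeries.X + PowerSeries.C (((i * p + u : ℕ) : ℚ) + 1))) *
          PowerSeries.rescale (p : ℚ) (PowerSeries.C (k : ℚ) * PowerSeries.X +
            PowerSeries.C (((i * p + (p - 1) : ℕ) : ℚ) + 1)) := by
        have h5 := Finset.prod_range_succ (fun u => PowerSeries.rescale (p : ℚ)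
          (PowerSeries.C (k : ℚ) * PowerSeries.X + PowerSeries.C (((i * p + u : ℕ) : ℚ) + 1)))
          (p - 1)
        rw [← h3] at h5
        exact h5
      rw [h4, mul_comm, Finset.prod_Ico_eq_prod_range]
      congr 1
      · rw [JProd_rescale]
        have h6 : (((i * p + (p - 1) : ℕ) : ℚ) + 1) = p * ((i : ℚ) + 1) := by
          rw [Nat.cast_add, Nat.cast_mul, Nat.cast_sub hpos]
          push_cast
          ring
        rw [h6, map_mul, map_mul]
        ring
      · refine Finset.prod_congr rfl fun u _ => ?_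
        rw [JProd_rescale]
        congr 2
        push_cast
        ring
    rw [Finset.prod_congr rfl (fun i _ => h2 i), Finset.prod_mul_distrib, Finset.prod_mul_distrib,
      Finset.prod_const, Finset.card_range, JProd_NN, ← map_pow, mul_comm m k]
    congr 1
    rw [mul_comm k m, JProd_blocks]
    refine Finset.prod_congr rfl fun t _ => Finset.prod_congr rfl fun s _ => ?_
    rw [JProd_evjPp]
  · rw [evj_prod]
    refine Finset.prod_congr rfl fun j _ => ?_
    rw [JProd_rescale, evj_add, evj_mul, evj_C, evj_C, evj_X]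
    simp only [map_add, map_mul, Nat.cast_add, Nat.cast_mul]
    ring

private lemma JProd_Bj (a : List ℕ) (n : ℕ) :
    Bj a n = (a.map fun k => JProd_NN k n).prod * ((JProd_NN 1 n) ^ a.sum)⁻¹ := by
  rw [Bj]
  congr 3
  rw [JProd_NN, one_mul]
  refine Finset.prod_congr rfl fun j _ => ?_
  simp

private lemma JProd_cc (k n : ℕ) :
    PowerSeries.constantCoeff (JProd_NN k n) = ((k * n).factorial : ℚ) := by
  rw [JProd_NN, map_prod, ← Finset.prod_range_add_one_eq_factorial]
  push_cast
  refine Finset.prod_congr rfl fun j _ => ?_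
  simp

private lemma JProd_cc_ne (n s : ℕ) :
    PowerSeries.constantCoeff ((JProd_NN 1 n) ^ s) ≠ 0 := by
  rw [map_pow, JProd_cc]
  exact pow_ne_zero _ (by exact_mod_cast Nat.factorial_ne_zero _)

private lemma JProd_list_pow (a : List ℕ) (p m : ℕ) :
    (a.map fun k => PowerSeries.C ((p : ℚ) ^ (k * m))).prod =
      PowerSeries.C ((p : ℚ) ^ (m * a.sum)) := by
  induction a with
  | nil => simp
  | cons k a ih =>
    rw [List.map_cons, List.prod_cons, ih, List.sum_cons, ← map_mul, ← pow_add]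
    congr 2
    ring

theorem Bj_prod (a : List ℕ) (p : ℕ) [hp : Fact p.Prime] (c m : ℕ) :
    PowerSeries.rescale (p : ℚ) (Bj a (c + p * m)) * (UU p m ^ a.sum * evj m (Den p c) ^ a.sum) =
      Bj a m * (WW a p m * evj m (Num a p c)) := by
  set S := a.sum with hS
  -- the numerator
  have hnum : PowerSeries.rescale (p : ℚ) ((a.map fun k => JProd_NN k (c + p * m)).prod) =
      PowerSeries.C ((p : ℚ) ^ (m * S)) * (a.map fun k => JProd_NN k m).prod * WW a p m *
        evj m (Num a p c) := by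
    rw [map_list_prod, List.map_map]
    have h1 : (a.map ((PowerSeries.rescale (p : ℚ)) ∘ fun k => JProd_NN k (c + p * m))) =
        a.map fun k => PowerSeries.C ((p : ℚ) ^ (k * m)) * JProd_NN k m *
        (∏ t ∈ Finset.range m, ∏ s ∈ Finset.range k,
          evj t ((Pp p).comp (C (k : ℚ) * X + C (s : ℚ)))) *
        evj m (∏ j ∈ Finset.range (k * c), (C ((j : ℚ) + 1) + C ((k : ℚ) * p) * X)) := by
      refine List.map_congr_left fun k _ => ?_
      exact JProd_block p k c m
    rw [h1, List.prod_map_mul, List.prod_map_mul, List.prod_map_mul, JProd_list_pow, WW, Num,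
      evj_listprod, List.map_map]
    rfl
  -- the denominator
  have hden : PowerSeries.rescale (p : ℚ) (JProd_NN 1 (c + p * m)) =
      PowerSeries.C ((p : ℚ) ^ m) * JProd_NN 1 m * UU p m * evj m (Den p c) := by
    rw [JProd_block, UU, Den]
    simp
  have hD0 := JProd_cc_ne (c + p * m) S
  have hD1 := JProd_cc_ne m S
  have e0 : (JProd_NN 1 (c + p * m)) ^ S * ((JProd_NN 1 (c + p * m)) ^ S)⁻¹ = 1 :=
    PowerSeries.mul_inv_cancel _ hD0
  have e1 : (JProd_NN 1 m) ^ S * ((JProd_NN 1 m) ^ S)⁻¹ = 1 :=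
    PowerSeries.mul_inv_cancel _ hD1
  have e2 : PowerSeries.rescale (p : ℚ) (JProd_NN 1 (c + p * m)) ^ S *
      PowerSeries.rescale (p : ℚ) (((JProd_NN 1 (c + p * m)) ^ S)⁻¹) = 1 := by
    rw [← map_pow, ← map_mul, e0, map_one]
  have n1 : PowerSeries.rescale (p : ℚ) (JProd_NN 1 (c + p * m)) ^ S ≠ 0 := by
    intro h
    rw [h, zero_mul] at e2
    exact zero_ne_one e2
  have n2 : (JProd_NN 1 m) ^ S ≠ 0 := by
    intro h
    rw [h, zero_mul] at e1
    exact zero_ne_one e1
  rw [JProd_Bj, JProd_Bj, ← hS, map_mul, hnum]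
  apply mul_left_cancel₀ n2
  apply mul_left_cancel₀ n1
  have hl : PowerSeries.rescale (p : ℚ) (JProd_NN 1 (c + p * m)) ^ S *
      ((JProd_NN 1 m) ^ S * (PowerSeries.C ((p : ℚ) ^ (m * S)) *
        (a.map fun k => JProd_NN k m).prod * WW a p m * evj m (Num a p c) *
        PowerSeries.rescale (p : ℚ) (((JProd_NN 1 (c + p * m)) ^ S)⁻¹) *
        (UU p m ^ S * evj m (Den p c) ^ S))) =
      (JProd_NN 1 m) ^ S * (PowerSeries.C ((p : ℚ) ^ (m * S)) *
        (a.map fun k => JProd_NN k m).prod * WW a p m * evj m (Num a p c) *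
        (UU p m ^ S * evj m (Den p c) ^ S)) := by
    linear_combination ((JProd_NN 1 m) ^ S * (PowerSeries.C ((p : ℚ) ^ (m * S)) *
        (a.map fun k => JProd_NN k m).prod * WW a p m * evj m (Num a p c) *
        (UU p m ^ S * evj m (Den p c) ^ S))) * e2
  have hr : PowerSeries.rescale (p : ℚ) (JProd_NN 1 (c + p * m)) ^ S *
      ((JProd_NN 1 m) ^ S * ((a.map fun k => JProd_NN k m).prod * ((JProd_NN 1 m) ^ S)⁻¹ *
        (WW a p m * evj m (Num a p c)))) =
      PowerSeries.rescale (p : ℚ) (JProd_NN 1 (c + p * m)) ^ S *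
      ((a.map fun k => JProd_NN k m).prod * (WW a p m * evj m (Num a p c))) := by
    linear_combination (PowerSeries.rescale (p : ℚ) (JProd_NN 1 (c + p * m)) ^ S *
      ((a.map fun k => JProd_NN k m).prod * (WW a p m * evj m (Num a p c)))) * e1
  rw [hl, hr, hden, mul_pow, mul_pow, mul_pow, ← map_pow, ← pow_mul]
  ring

/-- constant coefficients of jets are nonzero -/
lemma constantCoeff_Bj (a : List ℕ) (n : ℕ) : PowerSeries.constantCoeff (Bj a n) =
    (a.map fun k => ((k * n).factorial : ℚ)).prod / (n.factorial : ℚ) ^ a.sum := by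
  rw [JProd_Bj, map_mul, map_list_prod, List.map_map, PowerSeries.constantCoeff_inv, map_pow,
    JProd_cc, one_mul, div_eq_mul_inv]
  congr 2
  refine List.map_congr_left fun k _ => ?_
  exact JProd_cc k n

lemma Bj_zero (a : List ℕ) : Bj a 0 = 1 := by
  rw [JProd_Bj]
  have h : ∀ k, JProd_NN k 0 = 1 := fun k => by simp [JProd_NN]
  have h1 : (a.map fun k => JProd_NN k 0).prod = 1 := by
    simp [h]
  rw [h1, h, one_pow, one_mul]
  have := PowerSeries.mul_inv_cancel (1 : PowerSeries ℚ) (by simp)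
  rwa [one_mul] at this

end KPInt
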