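import Pool.Agent.Lib.KPInt.JProd
import Pool.Agent.Lib.KPInt.EMain

/-!
# JTel: telescoping product of the functional equation of F along jets

PROOFS. One factor (`tel_one`): induction on `m`. `m = 0` trivial (`evj 0 F - evj 0 F = 0`). Step:
multiply the statement for `m` by `evj m (∏_{s<k} P.comp(kX+s)) * C σ_k` and use the functional
equation evaluated at the jet `m + ε`:
`evj (m+1) F * (evj m P)^k ≡ C σ_k * evj m F * ∏_s evj m (P.comp (kX+s)) mod p^M` (`evj_int` applied to
the polynomial congruence, `evj_succ`), times `UU p m ^ k`. Everything is `p`-integral: `Pp` and its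
compositions have `p`-integral coefficients.
`tel`: product over the list (induction on `a`): if `A ≡ B`, `A' ≡ B' mod p^M` and all are
`p`-integral, then `A A' ≡ B B'`. `UU_unit`: constant coefficient `∏_{t<m} P(t)`,
`P(t) = ∏_{u=1}^{p-1} (u + p t)` is an integer prime to `p`.
-/

set_option autoImplicit false

namespace KPInt

open Polynomial

/-- the functional equation modulo `p^M` -/
def FEq (p M k : ℕ) (F : ℚ[X]) : Prop :=
  PDv p M (F.comp (X + 1) * Pp p ^ k -
      C (sg p k) * (F * ∏ s ∈ Finset.range k, (Pp p).comp (C (k : ℚ) * X + C (s : ℚ))))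

variable {p : ℕ} [hp : Fact p.Prime]

lemma Pp_int : PDv p 0 (Pp p) := by
  unfold Pp
  exact PDv.prod _ _ (fun u _ => (PDv.C (Dv.nat u)).add ((PDv.C (Dv.nat p)).mul_left PDv.X))

private lemma jTel_sdv_prod {ι : Type*} (s : Finset ι) (f : ι → PowerSeries ℚ)
    (h : ∀ i ∈ s, SDv p 0 (f i)) : SDv p 0 (∏ i ∈ s, f i) := by
  classical
  induction s using Finset.induction_on with
  | empty => simpa using SDv.one
  | insert a s ha ih =>
    rw [Finset.prod_insert ha]
    exact (h a (Finset.mem_insert_self a s)).mul_left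
      (ih (fun i hi => h i (Finset.mem_insert_of_mem hi)))

private lemma jTel_comp_int (k s t : ℕ) :
    SDv p 0 (evj t ((Pp p).comp (C (k : ℚ) * X + C (s : ℚ)))) :=
  evj_int t (Pp_int.comp (((PDv.C (Dv.nat k)).mul_left PDv.X).add (PDv.C (Dv.nat s))))

private lemma jTel_sg_int (k : ℕ) : Dv p 0 (sg p k) := by
  unfold sg
  split_ifs
  · have h := (Dv.int (p := p) (-1)).pow0 (k * (k - 1) / 2)
    simpa using h
  · exact Dv.one

private lemma jTel_UU_int (m : ℕ) : SDv p 0 (UU p m) := by
  unfold UU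
  exact jTel_sdv_prod _ _ (fun t _ => evj_int t Pp_int)

private lemma jTel_Q_int (k m : ℕ) : SDv p 0 (∏ t ∈ Finset.range m, ∏ s ∈ Finset.range k,
    evj t ((Pp p).comp (C (k : ℚ) * X + C (s : ℚ)))) :=
  jTel_sdv_prod _ _ (fun t _ => jTel_sdv_prod _ _ (fun s _ => jTel_comp_int k s t))

lemma tel_one {M k : ℕ} {F : ℚ[X]} (hF : PDv p 0 F) (h : FEq p M k F) (m : ℕ) :
    SDv p M (evj m F * UU p m ^ k - PowerSeries.C (sg p k ^ m) *
      (evj 0 F * ∏ t ∈ Finset.range m, ∏ s ∈ Finset.range k,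
        evj t ((Pp p).comp (C (k : ℚ) * X + C (s : ℚ))))) := by
  have hF' := hF
  induction m with
  | zero =>
    have h1 : evj 0 F * UU p 0 ^ k - PowerSeries.C (sg p k ^ 0) *
      (evj 0 F * ∏ t ∈ Finset.range 0, ∏ s ∈ Finset.range k,
        evj t ((Pp p).comp (C (k : ℚ) * X + C (s : ℚ)))) = 0 := by
      unfold UU
      simp
    rw [h1]
    exact SDv.zero
  | succ m ih =>
    have h2 : SDv p M (evj (m + 1) F * evj m (Pp p) ^ k - PowerSeries.C (sg p k) *
        (evj m F * ∏ s ∈ Finset.range k,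
          evj m ((Pp p).comp (C (k : ℚ) * X + C (s : ℚ))))) := by
      have h3 := evj_int m h
      rw [evj_sub, evj_mul, evj_mul, evj_pow, evj_succ, evj_C, evj_mul, evj_prod] at h3
      exact h3
    have hU : UU p (m + 1) = UU p m * evj m (Pp p) := by
      unfold UU
      rw [Finset.prod_range_succ]
    have hQm : SDv p 0 (PowerSeries.C (sg p k) * ∏ s ∈ Finset.range k,
        evj m ((Pp p).comp (C (k : ℚ) * X + C (s : ℚ)))) :=
      (SDv.C (jTel_sg_int k)).mul_left (jTel_sdv_prod _ _ (fun s _ => jTel_comp_int k s m))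
    have h4 := ((jTel_UU_int (p := p) m).pow0 k).mul_left h2
    have h5 := hQm.mul_left ih
    have h6 := h4.add h5
    have h7 : PowerSeries.C (sg p k ^ (m + 1)) = PowerSeries.C (sg p k) *
        PowerSeries.C (sg p k ^ m) := by
      rw [← map_mul, pow_succ']
    have h8 : evj (m + 1) F * UU p (m + 1) ^ k - PowerSeries.C (sg p k ^ (m + 1)) *
        (evj 0 F * ∏ t ∈ Finset.range (m + 1), ∏ s ∈ Finset.range k,
          evj t ((Pp p).comp (C (k : ℚ) * X + C (s : ℚ)))) =
        UU p m ^ k * (evj (m + 1) F * evj m (Pp p) ^ k - PowerSeries.C (sg p k) *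
        (evj m F * ∏ s ∈ Finset.range k,
          evj m ((Pp p).comp (C (k : ℚ) * X + C (s : ℚ))))) +
        PowerSeries.C (sg p k) * (∏ s ∈ Finset.range k,
        evj m ((Pp p).comp (C (k : ℚ) * X + C (s : ℚ)))) *
        (evj m F * UU p m ^ k - PowerSeries.C (sg p k ^ m) *
      (evj 0 F * ∏ t ∈ Finset.range m, ∏ s ∈ Finset.range k,
        evj t ((Pp p).comp (C (k : ℚ) * X + C (s : ℚ))))) := by
      rw [hU, h7, Finset.prod_range_succ, mul_pow]
      ring
    rw [h8]
    exact h6

/-- product of the signs -/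
def sgt (p : ℕ) (a : List ℕ) : ℚ := (a.map (sg p)).prod

private lemma jTel_sg_sq (k : ℕ) : sg p k ^ 2 = 1 := by
  unfold sg
  split_ifs
  · rw [← pow_mul, mul_comm, pow_mul]
    norm_num
  · norm_num

lemma sgt_sq (a : List ℕ) : sgt p a ^ 2 = 1 := by
  unfold sgt
  induction a with
  | nil => simp
  | cons k a ih => rw [List.map_cons, List.prod_cons, mul_pow, ih, jTel_sg_sq, mul_one]

private lemma jTel_listprod_int {Fs : ℕ → ℚ[X]} (a : List ℕ) (hF : ∀ k ∈ a, PDv p 0 (Fs k)) :
    PDv p 0 (a.map Fs).prod := by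
  induction a with
  | nil => simpa using PDv.one
  | cons k a ih =>
    rw [List.map_cons, List.prod_cons]
    exact (hF k List.mem_cons_self).mul_left
      (ih (fun j hj => hF j (List.mem_cons_of_mem _ hj)))

theorem tel {M : ℕ} (a : List ℕ) {Fs : ℕ → ℚ[X]} (hF : ∀ k ∈ a, PDv p 0 (Fs k))
    (h : ∀ k ∈ a, FEq p M k (Fs k)) (m : ℕ) :
    SDv p M (evj m (a.map Fs).prod * UU p m ^ a.sum - PowerSeries.C (sgt p a ^ m) *
      (evj 0 (a.map Fs).prod * WW a p m)) := by
  induction a with
  | nil =>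
    have h1 : evj m (([] : List ℕ).map Fs).prod * UU p m ^ ([] : List ℕ).sum -
        PowerSeries.C (sgt p [] ^ m) * (evj 0 (([] : List ℕ).map Fs).prod * WW [] p m) = 0 := by
      unfold sgt WW
      simp [evj_one]
    rw [h1]
    exact SDv.zero
  | cons k a ih =>
    have hFk := hF k List.mem_cons_self
    have hFa : ∀ j ∈ a, PDv p 0 (Fs j) := fun j hj => hF j (List.mem_cons_of_mem _ hj)
    have ih' := ih hFa (fun j hj => h j (List.mem_cons_of_mem _ hj))
    have h1 := tel_one hFk (h k List.mem_cons_self) m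
    have hX' : SDv p 0 (evj m (a.map Fs).prod * UU p m ^ a.sum) :=
      (evj_int m (jTel_listprod_int a hFa)).mul_left ((jTel_UU_int m).pow0 _)
    have hY : SDv p 0 (PowerSeries.C (sg p k ^ m) *
      (evj 0 (Fs k) * ∏ t ∈ Finset.range m, ∏ s ∈ Finset.range k,
        evj t ((Pp p).comp (C (k : ℚ) * X + C (s : ℚ))))) :=
      (SDv.C ((jTel_sg_int k).pow0 m)).mul_left ((evj_int 0 hFk).mul_left (jTel_Q_int k m))
    have h2 := (h1.mul_right hX').add (hY.mul_left ih')
    have h3 : sgt p (k :: a) = sg p k * sgt p a := by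
      unfold sgt
      rw [List.map_cons, List.prod_cons]
    have h4 : WW (k :: a) p m = (∏ t ∈ Finset.range m, ∏ s ∈ Finset.range k,
        evj t ((Pp p).comp (C (k : ℚ) * X + C (s : ℚ)))) * WW a p m := by
      unfold WW
      rw [List.map_cons, List.prod_cons]
    have h5 : evj m ((k :: a).map Fs).prod * UU p m ^ (k :: a).sum -
        PowerSeries.C (sgt p (k :: a) ^ m) * (evj 0 ((k :: a).map Fs).prod * WW (k :: a) p m) =
        (evj m (Fs k) * UU p m ^ k - PowerSeries.C (sg p k ^ m) *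
      (evj 0 (Fs k) * ∏ t ∈ Finset.range m, ∏ s ∈ Finset.range k,
        evj t ((Pp p).comp (C (k : ℚ) * X + C (s : ℚ))))) *
        (evj m (a.map Fs).prod * UU p m ^ a.sum) +
        PowerSeries.C (sg p k ^ m) *
      (evj 0 (Fs k) * ∏ t ∈ Finset.range m, ∏ s ∈ Finset.range k,
        evj t ((Pp p).comp (C (k : ℚ) * X + C (s : ℚ)))) *
        (evj m (a.map Fs).prod * UU p m ^ a.sum - PowerSeries.C (sgt p a ^ m) *
      (evj 0 (a.map Fs).prod * WW a p m)) := by
      rw [h3, h4, List.map_cons, List.prod_cons, List.sum_cons, evj_mul, evj_mul, mul_pow,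
        map_mul, pow_add]
      ring
    rw [h5]
    exact h2

private lemma jTel_const (m : ℕ) : PowerSeries.constantCoeff (UU p m) =
    ((∏ t ∈ Finset.range m, ∏ u ∈ Finset.Ico 1 p, (u + p * t) : ℕ) : ℚ) := by
  unfold UU
  rw [map_prod, Nat.cast_prod]
  apply Finset.prod_congr rfl
  intro t _
  rw [constantCoeff_evj, Pp, eval_prod, Nat.cast_prod]
  apply Finset.prod_congr rfl
  intro u _
  simp

private lemma jTel_coprime (m : ℕ) :
    Nat.Coprime (∏ t ∈ Finset.range m, ∏ u ∈ Finset.Ico 1 p, (u + p * t)) p := by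
  apply Nat.Coprime.prod_left
  intro t _
  apply Nat.Coprime.prod_left
  intro u hu
  rw [Finset.mem_Ico] at hu
  rw [Nat.coprime_comm, (hp.out).coprime_iff_not_dvd]
  intro hd
  have h1 : p ∣ u := (Nat.dvd_add_left (dvd_mul_right p t)).mp hd
  have h2 := Nat.le_of_dvd (by omega) h1
  omega

lemma UU_unit (m : ℕ) : SDv p 0 (UU p m) ∧ PowerSeries.constantCoeff (UU p m) ≠ 0 ∧
    Dv p 0 (PowerSeries.constantCoeff (UU p m))⁻¹ := by
  refine ⟨jTel_UU_int m, ?_, ?_⟩
  · rw [jTel_const]
    have h1 := jTel_coprime (p := p) m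
    intro h
    have h2 : (∏ t ∈ Finset.range m, ∏ u ∈ Finset.Ico 1 p, (u + p * t)) = 0 := by
      exact_mod_cast h
    rw [h2, Nat.coprime_zero_left] at h1
    exact hp.out.one_lt.ne' h1
  · rw [jTel_const]
    exact Dv.inv_nat (jTel_coprime m)

lemma WW_int (a : List ℕ) (m : ℕ) : SDv p 0 (WW a p m) := by
  unfold WW
  induction a with
  | nil => simpa using SDv.one
  | cons k a ih =>
    rw [List.map_cons, List.prod_cons]
    exact (jTel_Q_int k m).mul_left ih

end KPInt
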