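import Pool.Agent.Lib.KPInt.Ops

/-!
# The identity `(1 - c z) K^2 I_0^2 I_1^4 = 1`
-/

open PowerSeries Finset

namespace KPInt

lemma th_num (n : ℕ) [n.AtLeastTwo] : th (OfNat.ofNat n : ℚ⟦X⟧) = 0 := by
  have := th_C (OfNat.ofNat n)
  rwa [map_ofNat] at this

/-- `∑_n (coefficient of ε^i in (ε + n)^k B_n) z^n` -/
noncomputable def Sk (B : ℕ → ℚ⟦X⟧) (i k : ℕ) : ℚ⟦X⟧ :=
  mk fun n => coeff i ((X + C (n : ℚ)) ^ k * B n)

lemma th_Sk_zero (B : ℕ → ℚ⟦X⟧) (k : ℕ) : th (Sk B 0 k) = Sk B 0 (k + 1) := by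
  ext n
  rw [coeff_th, Sk, coeff_mk, Sk, coeff_mk, pow_succ']
  simp only [mul_assoc, add_mul, map_add, coeff_C_mul]
  simp

lemma th_Sk_succ (B : ℕ → ℚ⟦X⟧) (i k : ℕ) :
    th (Sk B (i + 1) k) = Sk B (i + 1) (k + 1) - Sk B i k := by
  ext n
  rw [map_sub, coeff_th, Sk, coeff_mk, Sk, coeff_mk, Sk, coeff_mk, pow_succ']
  simp only [mul_assoc, add_mul, map_add, coeff_C_mul, coeff_succ_X_mul]
  ring

/-- the bilinear form, multiplied by 32 -/
noncomputable def Pr (c p r : ℚ) (u v : ℕ → ℚ⟦X⟧) : ℚ⟦X⟧ :=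
  32 * (u 0 * v 4 - u 1 * v 3 + u 2 * v 2 - u 3 * v 1 + u 4 * v 0) -
    X * (C c * (2 * (u 0 * v 0) + 8 * (u 0 * v 1 + u 1 * v 0) + 32 * (u 0 * v 2 + u 2 * v 0) +
      48 * (u 0 * v 3 + u 3 * v 0) + 32 * (u 0 * v 4 + u 4 * v 0) - 16 * (u 1 * v 1) -
      16 * (u 1 * v 2 + u 2 * v 1) - 32 * (u 1 * v 3 + u 3 * v 1) + 32 * (u 2 * v 2)) +
    C p * (8 * (u 0 * v 0) + 16 * (u 0 * v 1 + u 1 * v 0) + 32 * (u 0 * v 2 + u 2 * v 0) -
      32 * (u 1 * v 1)) + C r * (32 * (u 0 * v 0)))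

/-- 32 P -/
noncomputable def P32 (c p r : ℚ) (v : ℕ → ℚ⟦X⟧) : ℚ⟦X⟧ :=
  C c * (32 * v 5 + 80 * v 4 + 80 * v 3 + 40 * v 2 + 10 * v 1 + v 0) +
    C p * (32 * v 3 + 48 * v 2 + 24 * v 1 + 4 * v 0) + C r * (32 * v 1 + 16 * v 0)

lemma th_Pr (c p r : ℚ) (u v um vm : ℕ → ℚ⟦X⟧)
    (hu : ∀ k, th (u k) = u (k + 1) - um k) (hv : ∀ k, th (v k) = v (k + 1) - vm k)
    (hu5 : 32 * u 5 = X * P32 c p r u) (hv5 : 32 * v 5 = X * P32 c p r v) :
    th (Pr c p r u v) = -Pr c p r um v - Pr c p r u vm := by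
  have e1 : th (Pr c p r u v) = u 0 * (32 * v 5 - X * P32 c p r v)
      + v 0 * (32 * u 5 - X * P32 c p r u) - Pr c p r um v - Pr c p r u vm := by
    have h2 : th (2 : ℚ⟦X⟧) = 0 := th_num 2
    have h8 : th (8 : ℚ⟦X⟧) = 0 := th_num 8
    have h16 : th (16 : ℚ⟦X⟧) = 0 := th_num 16
    have h32 : th (32 : ℚ⟦X⟧) = 0 := th_num 32
    have h48 : th (48 : ℚ⟦X⟧) = 0 := th_num 48
    simp only [Pr, P32, th_sub, th_add, th_mul, th_C, h2, h8, h16, h32, h48, th_X, hu, hv]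
    ring
  rw [e1, hu5, hv5]
  ring

lemma Pr_zero_left (c p r : ℚ) (v : ℕ → ℚ⟦X⟧) : Pr c p r (fun _ => 0) v = 0 := by
  simp only [Pr]; ring

lemma Pr_zero_right (c p r : ℚ) (u : ℕ → ℚ⟦X⟧) : Pr c p r u (fun _ => 0) = 0 := by
  simp only [Pr]; ring

lemma Pr_comm (c p r : ℚ) (u v : ℕ → ℚ⟦X⟧) : Pr c p r u v = Pr c p r v u := by
  simp only [Pr]; ring

lemma eq_C_of_th {f : ℚ⟦X⟧} (h : th f = 0) : f = C (constantCoeff f) := by
  ext n
  cases n with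
  | zero => simp
  | succ n =>
    have h1 := congrArg (coeff (n + 1)) h
    rw [coeff_th, map_zero] at h1
    have h2 : ((n + 1 : ℕ) : ℚ) ≠ 0 := by positivity
    rw [coeff_C, if_neg (Nat.succ_ne_zero n)]
    exact (mul_eq_zero.mp h1).resolve_left h2

lemma constantCoeff_Pr (c p r : ℚ) (u v : ℕ → ℚ⟦X⟧) : constantCoeff (Pr c p r u v) =
    32 * (constantCoeff (u 0) * constantCoeff (v 4) - constantCoeff (u 1) * constantCoeff (v 3) +
      constantCoeff (u 2) * constantCoeff (v 2) - constantCoeff (u 3) * constantCoeff (v 1) +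
      constantCoeff (u 4) * constantCoeff (v 0)) := by
  simp only [Pr, map_sub, map_mul, map_add, constantCoeff_X, zero_mul, sub_zero, map_ofNat]

/-- the data of the recursion satisfied by the jets `B n` -/
structure Rec (B : ℕ → ℚ⟦X⟧) (c p r : ℚ) : Prop where
  zero : B 0 = 1
  succ : ∀ n : ℕ, 32 * (X + C ((n : ℚ) + 1)) ^ 5 * B (n + 1) =
    (C c * (32 * (X + C (n : ℚ)) ^ 5 + 80 * (X + C (n : ℚ)) ^ 4 + 80 * (X + C (n : ℚ)) ^ 3 +
        40 * (X + C (n : ℚ)) ^ 2 + 10 * (X + C (n : ℚ)) ^ 1 + (X + C (n : ℚ)) ^ 0) +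
      C p * (32 * (X + C (n : ℚ)) ^ 3 + 48 * (X + C (n : ℚ)) ^ 2 + 24 * (X + C (n : ℚ)) ^ 1 +
        4 * (X + C (n : ℚ)) ^ 0) +
      C r * (32 * (X + C (n : ℚ)) ^ 1 + 16 * (X + C (n : ℚ)) ^ 0)) * B n

variable {B : ℕ → ℚ⟦X⟧} {c p r : ℚ}

lemma constantCoeff_Sk (h : Rec B c p r) (i k : ℕ) :
    constantCoeff (Sk B i k) = if i = k then 1 else 0 := by
  rw [Sk, ← coeff_zero_eq_constantCoeff_apply, coeff_mk, h.zero]
  simp [coeff_X_pow]

lemma Sk_five (h : Rec B c p r) {i : ℕ} (hi : i < 5) :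
    32 * Sk B i 5 = X * P32 c p r (Sk B i) := by
  have e32 : ∀ (m : ℕ) [m.AtLeastTwo] (f : ℚ⟦X⟧) (n : ℕ),
      coeff n ((OfNat.ofNat m : ℚ⟦X⟧) * f) = (OfNat.ofNat m : ℚ) * coeff n f := by
    intro m _ f n
    rw [show (OfNat.ofNat m : ℚ⟦X⟧) = C (OfNat.ofNat m : ℚ) by rw [map_ofNat], coeff_C_mul]
  ext n
  cases n with
  | zero =>
    rw [e32, coeff_zero_X_mul, coeff_zero_eq_constantCoeff_apply, constantCoeff_Sk h,
      if_neg (by omega), mul_zero]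
  | succ n =>
    rw [coeff_succ_X_mul, e32]
    have h1 := congrArg (coeff i) (h.succ n)
    rw [mul_assoc, e32] at h1
    simp only [add_mul, mul_assoc, mul_add, map_add, coeff_C_mul, e32] at h1
    simp only [P32, Sk, map_add, coeff_C_mul, coeff_mk, e32, mul_add]
    push_cast
    rw [show (C ((n : ℚ) + 1) : ℚ⟦X⟧) = C (n : ℚ) + C 1 from map_add _ _ _]
    simp only [← add_assoc] at h1 ⊢
    linear_combination h1

lemma Pr_of_const (h : Rec B c p r) {i j : ℕ}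
    (h0 : th (Pr c p r (Sk B i) (Sk B j)) = 0) (hij : i + j < 4) :
    Pr c p r (Sk B i) (Sk B j) = 0 := by
  rw [eq_C_of_th h0, constantCoeff_Pr]
  simp only [constantCoeff_Sk h]
  have : (32 : ℚ) * ((if i = 0 then 1 else 0) * (if j = 4 then 1 else 0) -
      (if i = 1 then 1 else 0) * (if j = 3 then 1 else 0) +
      (if i = 2 then 1 else 0) * (if j = 2 then 1 else 0) -
      (if i = 3 then 1 else 0) * (if j = 1 then 1 else 0) +
      (if i = 4 then 1 else 0) * (if j = 0 then 1 else 0)) = 0 := by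
    split_ifs <;> first | omega | norm_num
  rw [this, map_zero]

lemma th_Pr_00 (h : Rec B c p r) : th (Pr c p r (Sk B 0) (Sk B 0)) = 0 := by
  rw [th_Pr c p r (Sk B 0) (Sk B 0) (fun _ => 0) (fun _ => 0)
    (fun k => by rw [th_Sk_zero, sub_zero]) (fun k => by rw [th_Sk_zero, sub_zero])
    (Sk_five h (by norm_num)) (Sk_five h (by norm_num)), Pr_zero_left, Pr_zero_right]
  ring

lemma th_Pr_0s (h : Rec B c p r) (j : ℕ) (hj : j + 1 < 5) :
    th (Pr c p r (Sk B 0) (Sk B (j + 1))) = -Pr c p r (Sk B 0) (Sk B j) := by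
  rw [th_Pr c p r (Sk B 0) (Sk B (j + 1)) (fun _ => 0) (Sk B j)
    (fun k => by rw [th_Sk_zero, sub_zero]) (fun k => th_Sk_succ B j k)
    (Sk_five h (by norm_num)) (Sk_five h hj), Pr_zero_left]
  ring

lemma th_Pr_ss (h : Rec B c p r) (i j : ℕ) (hi : i + 1 < 5) (hj : j + 1 < 5) :
    th (Pr c p r (Sk B (i + 1)) (Sk B (j + 1))) =
      -Pr c p r (Sk B i) (Sk B (j + 1)) - Pr c p r (Sk B (i + 1)) (Sk B j) :=
  th_Pr c p r (Sk B (i + 1)) (Sk B (j + 1)) (Sk B i) (Sk B j)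
    (fun k => th_Sk_succ B i k) (fun k => th_Sk_succ B j k) (Sk_five h hi) (Sk_five h hj)

lemma Pr_00 (h : Rec B c p r) : Pr c p r (Sk B 0) (Sk B 0) = 0 :=
  Pr_of_const h (th_Pr_00 h) (by norm_num)

lemma Pr_01 (h : Rec B c p r) : Pr c p r (Sk B 0) (Sk B 1) = 0 :=
  Pr_of_const h (by rw [th_Pr_0s h 0 (by norm_num), Pr_00 h, neg_zero]) (by norm_num)

lemma Pr_02 (h : Rec B c p r) : Pr c p r (Sk B 0) (Sk B 2) = 0 :=
  Pr_of_const h (by rw [th_Pr_0s h 1 (by norm_num), Pr_01 h, neg_zero]) (by norm_num)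

lemma Pr_11 (h : Rec B c p r) : Pr c p r (Sk B 1) (Sk B 1) = 0 :=
  Pr_of_const h (by
    rw [th_Pr_ss h 0 0 (by norm_num) (by norm_num), Pr_01 h, Pr_comm, Pr_01 h]; ring) (by norm_num)

lemma Pr_12 (h : Rec B c p r) : Pr c p r (Sk B 1) (Sk B 2) = 0 :=
  Pr_of_const h (by
    rw [th_Pr_ss h 0 1 (by norm_num) (by norm_num), Pr_02 h, Pr_11 h]; ring) (by norm_num)

lemma Pr_22 (h : Rec B c p r) : Pr c p r (Sk B 2) (Sk B 2) = 32 := by
  have h0 : th (Pr c p r (Sk B 2) (Sk B 2)) = 0 := by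
    rw [th_Pr_ss h 1 1 (by norm_num) (by norm_num), Pr_12 h, Pr_comm, Pr_12 h]; ring
  rw [eq_C_of_th h0, constantCoeff_Pr]
  simp only [constantCoeff_Sk h]
  norm_num
  exact map_ofNat C 32

/-- `W₂² = Δ W₃²` -/
lemma wronskian (h : Rec B c p r) :
    (Sk B 0 0 * Sk B 1 1 - Sk B 0 1 * Sk B 1 0) ^ 2 = (1 - C c * X) *
      ((Sk B 0 0 * Sk B 1 1 - Sk B 0 1 * Sk B 1 0) * Sk B 2 2 -
        (Sk B 0 0 * Sk B 2 1 - Sk B 0 1 * Sk B 2 0) * Sk B 1 2 +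
        (Sk B 1 0 * Sk B 2 1 - Sk B 1 1 * Sk B 2 0) * Sk B 0 2) ^ 2 := by
  set w2 := Sk B 0 0 * Sk B 1 1 - Sk B 0 1 * Sk B 1 0 with hw2
  set al := Sk B 0 0 * Sk B 2 1 - Sk B 0 1 * Sk B 2 0 with hal
  set be := Sk B 1 0 * Sk B 2 1 - Sk B 1 1 * Sk B 2 0 with hbe
  set v : ℕ → ℚ⟦X⟧ := fun k => w2 * Sk B 2 k - al * Sk B 1 k + be * Sk B 0 k with hv
  have v0 : v 0 = 0 := by simp only [hv, hw2, hal, hbe]; ring
  have v1 : v 1 = 0 := by simp only [hv, hw2, hal, hbe]; ring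
  have e1 : Pr c p r v v = w2 ^ 2 * Pr c p r (Sk B 2) (Sk B 2)
      - 2 * w2 * al * Pr c p r (Sk B 1) (Sk B 2) + 2 * w2 * be * Pr c p r (Sk B 0) (Sk B 2)
      + al ^ 2 * Pr c p r (Sk B 1) (Sk B 1) - 2 * al * be * Pr c p r (Sk B 0) (Sk B 1)
      + be ^ 2 * Pr c p r (Sk B 0) (Sk B 0) := by
    simp only [Pr, hv]
    ring
  rw [Pr_22 h, Pr_12 h, Pr_02 h, Pr_11 h, Pr_01 h, Pr_00 h] at e1
  have e2 : Pr c p r v v = 32 * ((1 - C c * X) * (v 2) ^ 2) := by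
    simp only [Pr, v0, v1]
    ring
  have h32 : (32 : ℚ⟦X⟧) ≠ 0 := by
    intro h0
    have := congrArg (constantCoeff) h0
    rw [map_ofNat, map_zero] at this
    norm_num at this
  have e3 : 32 * (w2 ^ 2) = 32 * ((1 - C c * X) * (v 2) ^ 2) := by
    rw [← e2, e1]; ring
  exact mul_left_cancel₀ h32 e3

lemma Sk_zero_right (B : ℕ → ℚ⟦X⟧) (i : ℕ) : Sk B i 0 = Lj B i := by
  ext n
  simp [Sk, Lj]

lemma Sk_0s (B : ℕ → ℚ⟦X⟧) (k : ℕ) : Sk B 0 (k + 1) = th (Sk B 0 k) := (th_Sk_zero B k).symm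

lemma Sk_ss (B : ℕ → ℚ⟦X⟧) (i k : ℕ) :
    Sk B (i + 1) (k + 1) = th (Sk B (i + 1) k) + Sk B i k := by
  rw [th_Sk_succ]; ring

lemma constantCoeff_Lj (h : Rec B c p r) : constantCoeff (Lj B 0) = 1 := by
  rw [← Sk_zero_right, constantCoeff_Sk h]; simp

lemma constantCoeff_Lj1 (h : Rec B c p r) : constantCoeff (Lj B 1) = 0 := by
  rw [← Sk_zero_right, constantCoeff_Sk h]; simp

lemma constantCoeff_I1 (B : ℕ → ℚ⟦X⟧) : constantCoeff (I1 B) = 1 := by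
  rw [I1, map_add, constantCoeff_th, map_one, add_zero]

/-- **The identity of Zagier and Zinger.** -/
theorem K_identity (h : Rec B c p r) :
    (1 - C c * X) * KK B ^ 2 * Lj B 0 ^ 2 * I1 B ^ 4 = 1 := by
  have hL0 : constantCoeff (Lj B 0) = 1 := constantCoeff_Lj h
  have hI0 : constantCoeff (I1 B) = 1 := constantCoeff_I1 B
  have hLne : Lj B 0 ≠ 0 := by
    intro h0; rw [h0, map_zero] at hL0; exact zero_ne_one hL0
  have hIne : I1 B ≠ 0 := by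
    intro h0; rw [h0, map_zero] at hI0; exact zero_ne_one hI0
  have hLi : Lj B 0 * (Lj B 0)⁻¹ = 1 := PowerSeries.mul_inv_cancel _ (by rw [hL0]; exact one_ne_zero)
  have hIi : I1 B * (I1 B)⁻¹ = 1 := PowerSeries.mul_inv_cancel _ (by rw [hI0]; exact one_ne_zero)
  -- `L₁ = L₀ g`, `2 L₂ = L₀ (2 G + g²)`
  have hL1 : Lj B 1 = Lj B 0 * gg B := by
    rw [gg]; linear_combination (-Lj B 1) * hLi
  have hC : (2 : ℚ⟦X⟧) * C (1 / 2 : ℚ) = 1 := by
    rw [show (2 : ℚ⟦X⟧) = C (2 : ℚ) by rw [map_ofNat], ← map_mul]; norm_num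
  have hL2 : 2 * Lj B 2 = Lj B 0 * (2 * GG B + gg B ^ 2) := by
    rw [GG]; linear_combination (-2 * Lj B 2) * hLi - (-Lj B 0 * gg B ^ 2) * hC
  have hw := wronskian h
  have h2 : th (2 : ℚ⟦X⟧) = 0 := th_num 2
  rw [show Sk B 1 1 = th (Sk B 1 0) + Sk B 0 0 from Sk_ss B 0 0,
    show Sk B 1 2 = th (Sk B 1 1) + Sk B 0 1 from Sk_ss B 0 1,
    show Sk B 1 1 = th (Sk B 1 0) + Sk B 0 0 from Sk_ss B 0 0,
    show Sk B 2 2 = th (Sk B 2 1) + Sk B 1 1 from Sk_ss B 1 1,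
    show Sk B 2 1 = th (Sk B 2 0) + Sk B 1 0 from Sk_ss B 1 0,
    show Sk B 1 1 = th (Sk B 1 0) + Sk B 0 0 from Sk_ss B 0 0,
    show Sk B 0 2 = th (Sk B 0 1) from Sk_0s B 1,
    show Sk B 0 1 = th (Sk B 0 0) from Sk_0s B 0,
    Sk_zero_right, Sk_zero_right, Sk_zero_right] at hw
  set L := Lj B 0 with hLdef
  set g := gg B with hg
  set GB := GG B with hGB
  set I := I1 B with hI
  set J := I⁻¹ with hJ
  have hIg : th g = I - 1 := by rw [hI, I1]; ring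
  -- first Wronskian
  have w2 : L * (th (Lj B 1) + L) - th L * Lj B 1 = L ^ 2 * I := by
    rw [hL1, th_mul, hIg]; ring
  -- second Wronskian
  have t2 : 2 * th (Lj B 2) = th L * (2 * GB + g ^ 2) + L * (2 * th GB + 2 * g * th g) := by
    have := congrArg th hL2
    simp only [th_mul, th_add, h2, pow_two] at this
    linear_combination this
  have t22 : 2 * th (th (Lj B 2)) = th (th L) * (2 * GB + g ^ 2) +
      2 * th L * (2 * th GB + 2 * g * th g) +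
      L * (2 * th (th GB) + 2 * th g * th g + 2 * g * th (th g)) := by
    have := congrArg th t2
    simp only [th_mul, th_add, h2, pow_two] at this
    linear_combination this
  have hK : I ^ 3 * KK B = I ^ 3 + I * th (th GB) - th I * th GB := by
    rw [KK, tq, tq, th_mul, th_inv, ← hI, ← hJ]
    linear_combination (I ^ 2 * J * th (th GB) + I * th (th GB) * (1 + 0 * I * J) - I ^ 2 * J ^ 2 * th I * th GB - I * J * th I * th GB - th I * th GB + 0) * hIi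
  have t1 : th (Lj B 1) = th L * g + L * (I - 1) := by rw [hL1, th_mul, hIg]
  have t11 : th (th (Lj B 1)) = th (th L) * g + 2 * th L * (I - 1) + L * th I := by
    rw [t1, th_add, th_mul, th_mul, th_sub, th_one, hIg]; ring
  have hgg : th (I - 1) = th I := by rw [th_sub, th_one, sub_zero]
  rw [hIg, hgg] at t22
  rw [hIg] at t2
  simp only [th_add] at hw
  rw [t11, t1, hL1] at hw
  set T := th (th L) with hT
  set S := th L with hS
  have w3 : 2 * ((L * (S * g + L * (I - 1) + L) - S * (L * g)) *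
        (th (th (Lj B 2)) + (S * g + L * (I - 1)) + (S * g + L * (I - 1) + L)) -
      (L * (th (Lj B 2) + L * g) - S * Lj B 2) * (T * g + 2 * S * (I - 1) + L * th I + S + S) +
      (L * g * (th (Lj B 2) + L * g) - (S * g + L * (I - 1) + L) * Lj B 2) * T) =
      2 * (L ^ 3 * (I ^ 3 * KK B)) := by
    rw [hK]
    linear_combination (L ^ 2 * I) * t22 + (-L * (T * g + 2 * S * (I - 1) + L * th I + 2 * S) +
      L * g * T) * t2 + (S * (T * g + 2 * S * (I - 1) + L * th I + 2 * S) -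
      (S * g + L * (I - 1) + L) * T) * hL2
  have h2ne : (2 : ℚ⟦X⟧) ≠ 0 := by
    intro h0
    have := congrArg (constantCoeff) h0
    rw [map_ofNat, map_zero] at this
    norm_num at this
  have w3' := mul_left_cancel₀ h2ne w3
  have e1 : (L * (S * g + L * (I - 1) + L) - S * (L * g)) = L ^ 2 * I := by ring
  have hw2 : (L ^ 2 * I) ^ 2 = (1 - C c * X) * (L ^ 3 * (I ^ 3 * KK B)) ^ 2 := by
    rw [← w3', ← e1]
    convert hw using 3
  have e2 : (L ^ 4 * I ^ 2) * ((1 - C c * X) * KK B ^ 2 * L ^ 2 * I ^ 4) = (L ^ 4 * I ^ 2) * 1 := by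
    linear_combination -hw2
  exact mul_left_cancel₀ (mul_ne_zero (pow_ne_zero _ hLne) (pow_ne_zero _ hIne)) e2

end KPInt
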