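import Pool.Agent.Lib.KPInt.M3Dig
import Pool.Agent.Lib.KPInt.QS

/-!
# M3Core: the relations modulo 3 for `p = 3`
-/

set_option autoImplicit false

namespace KPInt

open PowerSeries

/-- lift of a digit -/
def lf (x : ZMod 3) : ℚ := (x.val : ℚ)

lemma lf_int (x : ZMod 3) : Dv 3 0 (lf x) := Dv.nat _

lemma cast_lf (x : ZMod 3) : ((lf x : ℚ) : ZMod 3) = x := by
  rw [lf, Rat.cast_natCast, ZMod.natCast_zmod_val]

/-- the polynomial with coefficients lifts of `A 0, A 1, A 2` -/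
noncomputable def Pq (A : ℕ → ZMod 3) : ℚ⟦X⟧ := ∑ c ∈ Finset.range 3, C (lf (A c)) * X ^ c

/-- the polynomial with coefficients `A 0, A 1, A 2` -/
noncomputable def Pb (A : ℕ → ZMod 3) : (ZMod 3)⟦X⟧ := ∑ c ∈ Finset.range 3, C (A c) * X ^ c

lemma Pq_int (A : ℕ → ZMod 3) : SDv 3 0 (Pq A) :=
  SDv.sum _ _ fun c _ => (SDv.C (lf_int (A c))).mul_left (SDv.X.pow0 c)

lemma rd_Pq (A : ℕ → ZMod 3) : rd 3 (Pq A) = Pb A := by
  have hC : ∀ c, SDv 3 0 (C (lf (A c)) : ℚ⟦X⟧) := fun c => SDv.C (lf_int (A c))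
  have hX : ∀ c : ℕ, SDv 3 0 ((X : ℚ⟦X⟧) ^ c) := fun c => SDv.X.pow0 c
  simp only [Pq, Pb, Finset.sum_range_succ, Finset.sum_range_zero, zero_add]
  rw [rd_add (((hC 0).mul_left (hX 0)).add ((hC 1).mul_left (hX 1))) ((hC 2).mul_left (hX 2)),
    rd_add ((hC 0).mul_left (hX 0)) ((hC 1).mul_left (hX 1)), rd_mul (hC 0) (hX 0),
    rd_mul (hC 1) (hX 1), rd_mul (hC 2) (hX 2), rd_C, rd_C, rd_C, rd_X_pow, rd_X_pow, rd_X_pow,
    cast_lf, cast_lf, cast_lf]

/-- replacing the coefficients by their lifts -/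
lemma Pq_transfer {A : ℕ → ZMod 3} {x : ℕ → ℚ} (hx : ∀ c < 3, Dv 3 0 (x c))
    (hA : ∀ c < 3, ((x c : ℚ) : ZMod 3) = A c) {S : ℚ⟦X⟧} (hS : SDv 3 0 S) :
    SDv 3 1 (∑ c ∈ Finset.range 3, X ^ c * VV 3 (C (x c) * S) - Pq A * VV 3 S) := by
  have e : ∑ c ∈ Finset.range 3, X ^ c * VV 3 (C (x c) * S) - Pq A * VV 3 S =
      ∑ c ∈ Finset.range 3, X ^ c * (C (x c - lf (A c)) * VV 3 S) := by
    rw [Pq, Finset.sum_mul, ← Finset.sum_sub_distrib]
    apply Finset.sum_congr rfl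
    intro c _
    rw [VV_mul, VV_C, map_sub]
    ring
  rw [e]
  apply SDv.sum
  intro c hc
  rw [Finset.mem_range] at hc
  have h1 : Dv 3 1 (x c - lf (A c)) := by
    apply Dv_of_cast_eq_zero ((hx c hc).sub (lf_int _))
    rw [cast_sub' (hx c hc) (lf_int _), hA c hc, cast_lf, sub_self]
  exact (SDv.X.pow0 c).mul_left ((SDv.C h1).mul_right hS.VV)

variable {B : ℕ → ℚ⟦X⟧}

/-! ### integrality of the functionals -/

lemma al_int (hB : OKB B) (hL : SDv 3 0 (Lj B 0)) (hI : SDv 3 0 (I1 B)) (k : ℕ) :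
    SDv 3 0 (al B (Polynomial.X ^ k)) :=
  SDv.of fun N => (bounds_ab (p := 3) (r := 0) hB hL (hL.sub SDv.one)
    ((hI.sub SDv.one).t N) k).1

lemma be_int (hB : OKB B) (hL : SDv 3 0 (Lj B 0)) (hI : SDv 3 0 (I1 B)) (k : ℕ) :
    SDv 3 0 (be B (Polynomial.X ^ k)) :=
  SDv.of fun N => (bounds_ab (p := 3) (r := 0) hB hL (hL.sub SDv.one)
    ((hI.sub SDv.one).t N) k).2.1

lemma ga_int (hB : OKB B) (hL : SDv 3 0 (Lj B 0)) (hI : SDv 3 0 (I1 B)) (hK : SDv 3 0 (KK B))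
    (k : ℕ) : SDv 3 0 (ga B (Polynomial.X ^ k)) :=
  SDv.of fun N => (bounds_g (p := 3) (r := 0) (s := 0) hB le_rfl hL (hL.sub SDv.one)
    ((hI.sub SDv.one).t N) ((hK.sub SDv.one).t N) k).1

lemma al_PDv (hB : OKB B) (hL : SDv 3 0 (Lj B 0)) (hI : SDv 3 0 (I1 B)) {k : ℕ}
    {g : Polynomial ℚ} (hg : PDv 3 k g) : SDv 3 k (al B g) := by
  rw [al_sum]
  exact SDv.sum _ _ fun j _ => (SDv.C (hg j)).mul_right (al_int hB hL hI j)

lemma be_PDv (hB : OKB B) (hL : SDv 3 0 (Lj B 0)) (hI : SDv 3 0 (I1 B)) {k : ℕ}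
    {g : Polynomial ℚ} (hg : PDv 3 k g) : SDv 3 k (be B g) := by
  rw [be_sum]
  exact SDv.sum _ _ fun j _ => (SDv.C (hg j)).mul_right (be_int hB hL hI j)

lemma ga_PDv (hB : OKB B) (hL : SDv 3 0 (Lj B 0)) (hI : SDv 3 0 (I1 B)) (hK : SDv 3 0 (KK B))
    {k : ℕ} {g : Polynomial ℚ} (hg : PDv 3 k g) : SDv 3 k (ga B g) := by
  rw [ga_sum]
  exact SDv.sum _ _ fun j _ => (SDv.C (hg j)).mul_right (ga_int hB hL hI hK j)

lemma al_add (f g : Polynomial ℚ) : al B (f + g) = al B f + al B g := by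
  simp only [al, SS_add]
lemma al_C_mul (x : ℚ) (f : Polynomial ℚ) : al B (Polynomial.C x * f) = C x * al B f := by
  simp only [al, SS_C_mul]
lemma be_add (f g : Polynomial ℚ) : be B (f + g) = be B f + be B g := by
  simp only [be, SS_add]; ring
lemma be_C_mul (x : ℚ) (f : Polynomial ℚ) : be B (Polynomial.C x * f) = C x * be B f := by
  simp only [be, SS_C_mul]; ring
lemma ga_add (f g : Polynomial ℚ) : ga B (f + g) = ga B f + ga B g := by
  simp only [ga, be_add, SS_add]; ring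
lemma ga_C_mul (x : ℚ) (f : Polynomial ℚ) : ga B (Polynomial.C x * f) = C x * ga B f := by
  simp only [ga, be_C_mul, SS_C_mul]; ring

/-- `α(f) ≡ f_0 L_0 mod 3` -/
lemma al_mod (hB : OKB B) (hL : SDv 3 0 (Lj B 0)) (hI : SDv 3 0 (I1 B)) {f : Polynomial ℚ}
    (hf : Fc 3 f) : SDv 3 1 (al B f - C (f.coeff 0) * Lj B 0) := by
  have e : f = Polynomial.C (f.coeff 0) * 1 + (f - Polynomial.C (f.coeff 0)) := by ring
  have e2 : al B f - C (f.coeff 0) * Lj B 0 = al B (f - Polynomial.C (f.coeff 0)) := by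
    conv_lhs => rw [e]
    rw [al_add, al_C_mul, al_one]
    simp
  rw [e2]
  apply al_PDv hB hL hI
  intro k
  rw [Polynomial.coeff_sub, Polynomial.coeff_C]
  rcases Nat.eq_zero_or_pos k with h | h
  · subst h; simp only [if_true, sub_self]; exact Dv.zero
  · rw [if_neg h.ne', sub_zero]
    exact (hf k).mono (by omega)

/-- `β(f) ≡ f_1 I_1 L_0 mod 9` -/
lemma be_mod (hB : OKB B) (hL : SDv 3 0 (Lj B 0)) (hI : SDv 3 0 (I1 B)) {f : Polynomial ℚ}
    (hf : Fc 3 f) : SDv 3 2 (be B f - C (f.coeff 1) * (I1 B * Lj B 0)) := by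
  set g : Polynomial ℚ := f - Polynomial.C (f.coeff 0) - Polynomial.C (f.coeff 1) * Polynomial.X
    with hg
  have e : f = Polynomial.C (f.coeff 0) * 1 + Polynomial.C (f.coeff 1) * Polynomial.X + g := by
    rw [hg]; ring
  have e2 : be B f = C (f.coeff 1) * (I1 B * Lj B 0) + be B g := by
    conv_lhs => rw [e]
    rw [be_add, be_add, be_C_mul, be_C_mul, be_one hB, be_X1 hB]
    ring
  rw [e2, add_sub_cancel_left]
  apply be_PDv hB hL hI
  intro k
  rw [hg, Polynomial.coeff_sub, Polynomial.coeff_sub, Polynomial.coeff_C, Polynomial.coeff_C_mul,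
    Polynomial.coeff_X]
  rcases k with _ | _ | k
  · simp; exact Dv.zero
  · simp; exact Dv.zero
  · have h2 : Dv 3 2 (f.coeff (k + 1 + 1)) := (hf (k + 1 + 1)).mono (by omega)
    rw [if_neg (by omega), if_neg (by omega), mul_zero, sub_zero, sub_zero]
    exact h2

/-- `γ(f) ≡ f_2 γ(X^2) + f_3 γ(X^3) mod 27` -/
lemma ga_mod (hB : OKB B) (hL : SDv 3 0 (Lj B 0)) (hI : SDv 3 0 (I1 B)) (hK : SDv 3 0 (KK B))
    {f : Polynomial ℚ} (hf : ∀ k, 4 ≤ k → Dv 3 3 (f.coeff k)) :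
    SDv 3 3 (ga B f - (C (f.coeff 2) * (I1 B ^ 2 * KK B * Lj B 0) +
      C (f.coeff 3) * ga B (Polynomial.X ^ 3))) := by
  set g : Polynomial ℚ := f - Polynomial.C (f.coeff 0) - Polynomial.C (f.coeff 1) * Polynomial.X -
    Polynomial.C (f.coeff 2) * Polynomial.X ^ 2 - Polynomial.C (f.coeff 3) * Polynomial.X ^ 3
    with hg
  have e : f = Polynomial.C (f.coeff 0) * 1 + Polynomial.C (f.coeff 1) * Polynomial.X +
    Polynomial.C (f.coeff 2) * Polynomial.X ^ 2 + Polynomial.C (f.coeff 3) * Polynomial.X ^ 3 +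
    g := by
    rw [hg]; ring
  have e2 : ga B f = (C (f.coeff 2) * (I1 B ^ 2 * KK B * Lj B 0) +
      C (f.coeff 3) * ga B (Polynomial.X ^ 3)) + ga B g := by
    conv_lhs => rw [e]
    rw [ga_add, ga_add, ga_add, ga_add, ga_C_mul, ga_C_mul, ga_C_mul, ga_C_mul, ga_one hB,
      ga_X1 hB, ga_X2 hB]
    ring
  rw [e2, add_sub_cancel_left]
  apply ga_PDv hB hL hI hK
  intro k
  rw [hg]
  simp only [Polynomial.coeff_sub, Polynomial.coeff_C, Polynomial.coeff_C_mul,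
    Polynomial.coeff_X, Polynomial.coeff_X_pow]
  rcases k with _ | _ | _ | _ | k
  · simp; exact Dv.zero
  · simp; exact Dv.zero
  · simp; exact Dv.zero
  · simp; exact Dv.zero
  · have := hf (k + 4) (by omega)
    rw [if_neg (by omega), if_neg (by omega), if_neg (by omega), if_neg (by omega)]
    simpa using this

end KPInt
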