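import Pool.Agent.Lib.KPInt.KRec
import Pool.Agent.Lib.KPInt.CritDefs

/-!
# PData: numerical data of the seven types, 24 Z_1

Definitions and numerical values (all `simp`/`norm_num` after splitting `a ∈ types` into the seven
cases as in `K_identity_types`). `disc` is in KRec.
-/

set_option autoImplicit false

namespace KPInt

open PowerSeries

/-- `s_k = ∑ a_i^k - N` -/
def spow (k : ℕ) (a : List ℕ) : ℚ := (a.map fun x => (x : ℚ) ^ k).sum - (a.sum : ℚ)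

/-- degree `κ = ∏ a_i = ∫ H^4` -/
def kap (a : List ℕ) : ℚ := (a.map fun x => (x : ℚ)).prod

/-- `c_2(X) = cc2 a • H^2` -/
def cc2 (a : List ℕ) : ℚ := spow 2 a / 2

/-- `∫ c_3(X) H` -/
def c3H (a : List ℕ) : ℚ := -(kap a * spow 3 a / 3)

/-- `χ(X) = ∫ c_4(X)` -/
def chi (a : List ℕ) : ℚ := kap a * (spow 4 a / 4 + spow 2 a ^ 2 / 8)

/-- `24 Z_1` as a power series in `z` -/
noncomputable def Wz (a : List ℕ) : ℚ⟦X⟧ :=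
  C (chi a - 72) * logOf (Lj (Bj a) 0) - C 24 * logOf (I1 (Bj a)) -
    logOf (1 - C (disc a : ℚ) * X) + C (c3H a) * gg (Bj a)

/-- `G(q) = ∑_d ν_d Li_2(q^d)` -/
def IsNu (Gc : ℚ⟦X⟧) (ν : ℕ → ℚ) : Prop :=
  constantCoeff Gc = 0 ∧ ∀ n, 1 ≤ n → coeff n Gc = ∑ d ∈ n.divisors, ν d * ((d : ℚ) / n) ^ 2

lemma data_6 : kap [6] = 6 ∧ cc2 [6] = 15 ∧ c3H [6] = -420 ∧ chi [6] = 2610 ∧
    disc [6] = 46656 := by
  refine ⟨?_, ?_, ?_, ?_, ?_⟩ <;> norm_num [kap, cc2, c3H, chi, spow, disc]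
lemma data_25 : kap [2, 5] = 10 ∧ cc2 [2, 5] = 11 ∧ c3H [2, 5] = -420 ∧ chi [2, 5] = 2190 ∧
    disc [2, 5] = 12500 := by
  refine ⟨?_, ?_, ?_, ?_, ?_⟩ <;> norm_num [kap, cc2, c3H, chi, spow, disc]
lemma data_34 : kap [3, 4] = 12 ∧ cc2 [3, 4] = 9 ∧ c3H [3, 4] = -336 ∧ chi [3, 4] = 1476 ∧
    disc [3, 4] = 6912 := by
  refine ⟨?_, ?_, ?_, ?_, ?_⟩ <;> norm_num [kap, cc2, c3H, chi, spow, disc]
lemma data_224 : kap [2, 2, 4] = 16 ∧ cc2 [2, 2, 4] = 8 ∧ c3H [2, 2, 4] = -384 ∧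
    chi [2, 2, 4] = 1632 ∧ disc [2, 2, 4] = 4096 := by
  refine ⟨?_, ?_, ?_, ?_, ?_⟩ <;> norm_num [kap, cc2, c3H, chi, spow, disc]
lemma data_233 : kap [2, 3, 3] = 18 ∧ cc2 [2, 3, 3] = 7 ∧ c3H [2, 3, 3] = -324 ∧
    chi [2, 3, 3] = 1206 ∧ disc [2, 3, 3] = 2916 := by
  refine ⟨?_, ?_, ?_, ?_, ?_⟩ <;> norm_num [kap, cc2, c3H, chi, spow, disc]
lemma data_2223 : kap [2, 2, 2, 3] = 24 ∧ cc2 [2, 2, 2, 3] = 6 ∧ c3H [2, 2, 2, 3] = -336 ∧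
    chi [2, 2, 2, 3] = 1152 ∧ disc [2, 2, 2, 3] = 1728 := by
  refine ⟨?_, ?_, ?_, ?_, ?_⟩ <;> norm_num [kap, cc2, c3H, chi, spow, disc]
lemma data_22222 : kap [2, 2, 2, 2, 2] = 32 ∧ cc2 [2, 2, 2, 2, 2] = 5 ∧
    c3H [2, 2, 2, 2, 2] = -320 ∧ chi [2, 2, 2, 2, 2] = 960 ∧ disc [2, 2, 2, 2, 2] = 1024 := by
  refine ⟨?_, ?_, ?_, ?_, ?_⟩ <;> norm_num [kap, cc2, c3H, chi, spow, disc]

end KPInt
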