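import Pool.Agent.Lib.KPInt.M3Rel
import Pool.Agent.Lib.KPInt.M3Fin
import Pool.Agent.Lib.KPInt.PData

/-!
# M3D: the third relation in `(ZMod 3)⟦X⟧`
-/

set_option autoImplicit false

namespace KPInt

open PowerSeries

variable {B : ℕ → ℚ⟦X⟧} {A : ℕ → ZMod 3 × ZMod 3 × ZMod 3} {e : ℚ}

private lemma m3d_three : (3 : (ZMod 3)⟦X⟧) = 0 := by
  have h : (C (3 : ZMod 3) : (ZMod 3)⟦X⟧) = 3 := map_ofNat _ 3
  rw [← h, show (3 : ZMod 3) = 0 from by decide, map_zero]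

lemma half_int : Dv 3 0 (1 / 2 : ℚ) := by
  have := Dv.inv_nat (p := 3) (b := 2) (by norm_num)
  rw [one_div]; exact_mod_cast this

lemma cast_half : (((1 / 2 : ℚ)) : ZMod 3) = -1 := by
  have h := cast_mul' (p := 3) (Dv.nat 2) half_int
  have e1 : (((2 : ℕ) : ℚ) * (1 / 2)) = ((1 : ℕ) : ℚ) := by norm_num
  rw [e1, Rat.cast_natCast, Rat.cast_natCast] at h
  revert h
  generalize (((1 / 2 : ℚ)) : ZMod 3) = x
  revert x; decide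

lemma Ph_int (hq : SDv 3 0 (qq B)) {k : ℕ} {f : ℚ⟦X⟧} (hf : SDv 3 k f) : SDv 3 k (Ph B f) :=
  SDv.of fun N => TDv_sb (constantCoeff_qq B) (hq.t N) (hf.t N)

lemma of_Ph (hB : OKB B) (hq : SDv 3 0 (qq B)) {k : ℕ} {f : ℚ⟦X⟧} (hf : SDv 3 k (Ph B f)) :
    SDv 3 k f :=
  SDv.of fun N => TDv_of_sb (constantCoeff_qq B) (coeff_one_qq B (cc_gg hB)) (hq.t N) (hf.t N)

lemma ga_X3_eq (hB : OKB B) : ga B (Polynomial.X ^ 3) =
    th (I1 B ^ 2 * KK B * Lj B 0) +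
      I1 B * KK B * (th (I1 B * Lj B 0) + I1 B * th (Lj B 0)) := by
  have h1 : (Polynomial.X : Polynomial ℚ) ^ 3 = Polynomial.X * Polynomial.X ^ 2 := by ring
  have h2 : (Polynomial.X : Polynomial ℚ) ^ 2 = Polynomial.X * Polynomial.X := by ring
  have h3 : al B (Polynomial.X : Polynomial ℚ) = th (Lj B 0) := by
    rw [← al_one (B := B), ← al_X, mul_one]
  rw [h1, ga_X hB, ga_X2 hB]
  nth_rewrite 1 [h2]
  rw [be_X, be_X1 hB, h3]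

lemma rd_ga3 (hB : OKB B) (hL : SDv 3 0 (Lj B 0)) (hI : SDv 3 0 (I1 B)) (hK : SDv 3 0 (KK B)) :
    rd 3 (ga B (Polynomial.X ^ 3)) =
      rd 3 (Lj B 0) * rd 3 (I1 B) ^ 2 * tb (rd 3 (KK B)) := by
  have h3 := m3d_three
  have i1 := ((hI.pow0 2).mul_left hK).mul_left hL
  have i2 := hI.mul_left hL
  rw [ga_X3_eq hB, rd_add i1.th ((hI.mul_left hK).mul_left (i2.th.add (hI.mul_left hL.th))),
    rd_mul (hI.mul_left hK) (i2.th.add (hI.mul_left hL.th)), rd_add i2.th (hI.mul_left hL.th),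
    rd_th i1, rd_th i2, rd_mul hI hL.th, rd_th hL, rd_mul hI hK,
    rd_mul ((hI.pow0 2).mul_left hK) hL, rd_mul (hI.pow0 2) hK, rd_mul hI hL, rd_pow hI,
    tb_mul, tb_mul, tb_mul, pow_two, tb_mul]
  linear_combination (rd 3 (I1 B) * tb (rd 3 (I1 B)) * rd 3 (KK B) * rd 3 (Lj B 0) +
    rd 3 (I1 B) ^ 2 * rd 3 (KK B) * tb (rd 3 (Lj B 0))) * h3

/-- `Φ = G - V G / 9` on the q side -/
theorem m3_rel2 (hB : OKB B) (hL : SDv 3 0 (Lj B 0)) (hI : SDv 3 0 (I1 B))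
    (hK : SDv 3 0 (KK B)) (hD : SDv 3 1 (DD 3 B)) (hq : SDv 3 0 (qq B)) (he : Dv 3 0 e)
    (hyp : ∀ n, ∃ h, F27 n B h A e) {Gc : ℚ⟦X⟧} (hG : Ph B Gc = GG B)
    (hF : SDv 3 0 (Gc - C (1 / 9) * VV 3 Gc)) :
    rd 3 (Lj B 0) * rd 3 (Ph B (Gc - C (1 / 9) * VV 3 Gc)) =
      Pb (fun c => (A c).2.2) * (rd 3 (I1 B) ^ 2 * rd 3 (KK B) * rd 3 (Lj B 0)) ^ 3 +
      C (e : ZMod 3) * (Pb (fun c => (A c).1) *
        (rd 3 (Lj B 0) * rd 3 (I1 B) ^ 2 * tb (rd 3 (KK B))) ^ 3) +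
      rd 3 (Lj B 0) * (rd 3 (D3' B) ^ 2 * rd 3 (KK B) ^ 3 +
        rd 3 (D3' B) ^ 3 * rd 3 (tq B (KK B)) ^ 3) := by
  have hD' : SDv 3 0 (D3' B) := hD.third
  have hT : SDv 3 0 (tq B (KK B)) := tq_int hI hK
  have hS2 : SDv 3 0 (I1 B ^ 2 * KK B * Lj B 0) := ((hI.pow0 2).mul_left hK).mul_left hL
  have hS3 : SDv 3 0 (ga B (Polynomial.X ^ 3)) := ga_int hB hL hI hK 3
  have hPF : SDv 3 0 (Ph B (Gc - C (1 / 9) * VV 3 Gc)) := Ph_int hq hF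
  have h1 := (m3_key2 hB hL hI hK hD he hyp hG).third.third
  have e0 : Ph B (Gc - C (1 / 9) * VV 3 Gc) = GG B - C (1 / 9) * Ph B (VV 3 Gc) := by
    have hqq := constantCoeff_qq B
    rw [Ph] at hG ⊢
    rw [sb_sub hqq, sb_mul hqq, sb_C hqq, hG, Ph]
  have e1 : C (1 / 3) * (C (1 / 3) * (Lj B 0 * (C 9 * GG B - Ph B (VV 3 Gc)) -
      (C 9 * (Pq (fun c => (A c).2.2) * VV 3 (I1 B ^ 2 * KK B * Lj B 0)) +
       C (9 * e) * (Pq (fun c => (A c).1) * VV 3 (ga B (Polynomial.X ^ 3))) -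
       Lj B 0 * (C (1 / 2) * DD 3 B ^ 2 * VV 3 (KK B) +
         C (1 / 6) * DD 3 B ^ 3 * VV 3 (tq B (KK B)))))) =
      Lj B 0 * Ph B (Gc - C (1 / 9) * VV 3 Gc) -
      (Pq (fun c => (A c).2.2) * VV 3 (I1 B ^ 2 * KK B * Lj B 0) +
       C e * (Pq (fun c => (A c).1) * VV 3 (ga B (Polynomial.X ^ 3))) -
       C (1 / 2) * (Lj B 0 * (D3' B ^ 2 * VV 3 (KK B) + D3' B ^ 3 * VV 3 (tq B (KK B))))) := by
    have a1 : (C (1 / 3) * (C (1 / 3) * C 9) : ℚ⟦X⟧) = 1 := by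
      rw [← map_mul, ← map_mul]; norm_num
    have a2 : (C (1 / 3) * C (1 / 3) : ℚ⟦X⟧) = C (1 / 9) := by
      rw [← map_mul]; norm_num
    have a3 : (C (9 * e) : ℚ⟦X⟧) = C 9 * C e := map_mul _ _ _
    have a4 : (C 3 * C 3 : ℚ⟦X⟧) = C 9 := by rw [← map_mul]; norm_num
    have a5 : (C (1 / 6) * C 3 : ℚ⟦X⟧) = C (1 / 2) := by rw [← map_mul]; norm_num
    rw [e0, C3_D3', a3]
    have b1 : (C 9 : ℚ⟦X⟧) = C 3 * C 3 := a4.symm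
    have b2 : (C (1 / 9) : ℚ⟦X⟧) = C (1 / 3) * C (1 / 3) := a2.symm
    have b3 : (C (1 / 3) * C 3 : ℚ⟦X⟧) = 1 := by rw [← map_mul]; norm_num
    have b4 : (C (1 / 2) : ℚ⟦X⟧) = C (1 / 6) * C 3 := a5.symm
    rw [b1, b2, b4]
    generalize (C (1 / 3) : ℚ⟦X⟧) = t at b3 ⊢
    generalize (C 3 : ℚ⟦X⟧) = s at b3 ⊢
    generalize (C (1 / 6) : ℚ⟦X⟧) = w
    have b5 : t ^ 2 * s ^ 2 = 1 := by linear_combination (t * s + 1) * b3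
    linear_combination (Lj B 0 * GG B - Pq (fun c => (A c).2.2) *
      VV 3 (I1 B ^ 2 * KK B * Lj B 0) - C e * (Pq (fun c => (A c).1) *
        VV 3 (ga B (Polynomial.X ^ 3))) + w * s * Lj B 0 * D3' B ^ 2 * VV 3 (KK B) +
        w * s * Lj B 0 * D3' B ^ 3 * VV 3 (tq B (KK B))) * b5
  rw [e1] at h1
  have hC : SDv 3 0 (C (1 / 2) : ℚ⟦X⟧) := SDv.C half_int
  have hCe : SDv 3 0 (C e : ℚ⟦X⟧) := SDv.C he
  have hE : SDv 3 0 (D3' B ^ 2 * VV 3 (KK B) + D3' B ^ 3 * VV 3 (tq B (KK B))) :=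
    ((hD'.pow0 2).mul_left hK.VV).add ((hD'.pow0 3).mul_left hT.VV)
  have hM1 : SDv 3 0 (Pq (fun c => (A c).2.2) * VV 3 (I1 B ^ 2 * KK B * Lj B 0)) :=
    (Pq_int _).mul_left hS2.VV
  have hM2 : SDv 3 0 (Pq (fun c => (A c).1) * VV 3 (ga B (Polynomial.X ^ 3))) :=
    (Pq_int _).mul_left hS3.VV
  have h2 := rd_congr (((hM1.add (hCe.mul_left hM2))).sub (hC.mul_left (hL.mul_left hE))) h1
  rw [rd_mul hL hPF, rd_sub (hM1.add (hCe.mul_left hM2)) (hC.mul_left (hL.mul_left hE)),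
    rd_add hM1 (hCe.mul_left hM2), rd_mul hCe hM2, rd_mul hC (hL.mul_left hE), rd_mul hL hE,
    rd_add ((hD'.pow0 2).mul_left hK.VV) ((hD'.pow0 3).mul_left hT.VV),
    rd_mul (hD'.pow0 2) hK.VV, rd_mul (hD'.pow0 3) hT.VV, rd_pow hD', rd_pow hD', rd_VV hK,
    rd_VV hT, rd_mul (Pq_int _) hS2.VV, rd_mul (Pq_int _) hS3.VV, rd_VV hS2, rd_VV hS3,
    rd_Pq, rd_Pq, rd_C, rd_C, cast_half, rd_ga3 hB hL hI hK,
    rd_mul ((hI.pow0 2).mul_left hK) hL, rd_mul (hI.pow0 2) hK, rd_pow hI, map_neg, map_one] at h2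
  rw [h2]
  ring

end KPInt
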