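import Pool.Agent.Lib.KPInt.M3Rd
import Pool.Agent.Lib.KPInt.JMain
import Pool.Agent.Lib.KPInt.CEq

/-!
# M3Dig: the polynomials `h_c` modulo 27 for `p = 3`

`dg f` = the digits `(f_0, f_1/3, f_2/9)` modulo 3.
-/

set_option autoImplicit false

namespace KPInt

open Polynomial

/-- multiplication of truncated polynomials `a + b y + c y^2` -/
def mT (a b : ZMod 3 × ZMod 3 × ZMod 3) : ZMod 3 × ZMod 3 × ZMod 3 :=
  (a.1 * b.1, a.1 * b.2.1 + a.2.1 * b.1, a.1 * b.2.2 + a.2.1 * b.2.1 + a.2.2 * b.1)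

/-- the unit -/
def oT : ZMod 3 × ZMod 3 × ZMod 3 := (1, 0, 0)

/-- powers -/
def pT (a : ZMod 3 × ZMod 3 × ZMod 3) : ℕ → ZMod 3 × ZMod 3 × ZMod 3
  | 0 => oT
  | n + 1 => mT (pT a n) a

/-- digits of `∏_{j<n} (j+1 + 3 k X)` -/
def dP (k : ℕ) : ℕ → ZMod 3 × ZMod 3 × ZMod 3
  | 0 => oT
  | n + 1 => mT (dP k n) ((n : ZMod 3) + 1, (k : ZMod 3), 0)

/-- digits of the numerator -/
def dN (c : ℕ) : List ℕ → ZMod 3 × ZMod 3 × ZMod 3
  | [] => oT
  | k :: a => mT (dP k (k * c)) (dN c a)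

/-- the digits of a polynomial -/
noncomputable def dg (f : ℚ[X]) : ZMod 3 × ZMod 3 × ZMod 3 :=
  (((f.coeff 0 : ℚ) : ZMod 3), ((f.coeff 1 / 3 : ℚ) : ZMod 3), ((f.coeff 2 / 9 : ℚ) : ZMod 3))

lemma Dv_div3 {x : ℚ} (h : Dv 3 1 x) : Dv 3 0 (x / 3) := by
  apply Dv.of_p_mul
  have e : ((3 : ℕ) : ℚ) * (x / 3) = x := by push_cast; ring
  rw [e]; exact h

lemma Dv_div9 {k : ℕ} {x : ℚ} (h : Dv 3 (2 + k) x) : Dv 3 k (x / 9) := by
  have e : x = ((3 : ℕ) : ℚ) ^ 2 * (x / 9) := by push_cast; ring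
  rw [e] at h
  exact Dv.ppow_mul_iff.mp h

lemma Fc.d0 {f : ℚ[X]} (hf : Fc 3 f) : Dv 3 0 (f.coeff 0) := hf 0
lemma Fc.d1 {f : ℚ[X]} (hf : Fc 3 f) : Dv 3 0 (f.coeff 1 / 3) := Dv_div3 (hf 1)
lemma Fc.d2 {f : ℚ[X]} (hf : Fc 3 f) : Dv 3 0 (f.coeff 2 / 9) := Dv_div9 (hf 2)

lemma dg_mul {f g : ℚ[X]} (hf : Fc 3 f) (hg : Fc 3 g) : dg (f * g) = mT (dg f) (dg g) := by
  have c1 : (f * g).coeff 1 = f.coeff 0 * g.coeff 1 + f.coeff 1 * g.coeff 0 := by
    rw [Polynomial.mul_coeff_one]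
  have c2 : (f * g).coeff 2 = f.coeff 0 * g.coeff 2 + f.coeff 1 * g.coeff 1 +
      f.coeff 2 * g.coeff 0 := by
    rw [Polynomial.coeff_mul]
    simp only [Finset.Nat.antidiagonal_succ, Finset.Nat.antidiagonal_zero, Finset.map_singleton,
      Finset.sum_cons, Finset.map_cons, Finset.sum_singleton]
    simp
    ring
  have e1 : (f * g).coeff 1 / 3 = f.coeff 0 * (g.coeff 1 / 3) + f.coeff 1 / 3 * g.coeff 0 := by
    rw [c1]; ring
  have e2 : (f * g).coeff 2 / 9 = f.coeff 0 * (g.coeff 2 / 9) +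
      f.coeff 1 / 3 * (g.coeff 1 / 3) + f.coeff 2 / 9 * g.coeff 0 := by
    rw [c2]; ring
  unfold dg mT
  rw [e1, e2, Polynomial.mul_coeff_zero]
  simp only [Prod.mk.injEq]
  refine ⟨cast_mul' hf.d0 hg.d0, ?_, ?_⟩
  · rw [cast_add' (hf.d0.mul_left hg.d1) (hf.d1.mul_left hg.d0), cast_mul' hf.d0 hg.d1,
      cast_mul' hf.d1 hg.d0]
  · rw [cast_add' ((hf.d0.mul_left hg.d2).add (hf.d1.mul_left hg.d1)) (hf.d2.mul_left hg.d0),
      cast_add' (hf.d0.mul_left hg.d2) (hf.d1.mul_left hg.d1), cast_mul' hf.d0 hg.d2,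
      cast_mul' hf.d1 hg.d1, cast_mul' hf.d2 hg.d0]

lemma dg_one : dg 1 = oT := by
  unfold dg oT
  simp [Polynomial.coeff_one]

lemma Fc.one' : Fc 3 1 := Wp.one.fc

lemma Fc.pow' {f : ℚ[X]} (hf : Fc 3 f) (n : ℕ) : Fc 3 (f ^ n) := by
  induction n with
  | zero => rw [pow_zero]; exact Fc.one'
  | succ n ih => rw [pow_succ]; exact ih.mul hf

lemma dg_pow {f : ℚ[X]} (hf : Fc 3 f) (n : ℕ) : dg (f ^ n) = pT (dg f) n := by
  induction n with
  | zero => rw [pow_zero, dg_one]; rfl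
  | succ n ih => rw [pow_succ, dg_mul (hf.pow' n) hf, ih]; rfl

lemma dg_congr {f g : ℚ[X]} (hg : Fc 3 g) (h : PDv 3 3 (f - g)) : dg f = dg g := by
  have h0 := h 0
  have h1 := h 1
  have h2 := h 2
  rw [Polynomial.coeff_sub] at h0 h1 h2
  unfold dg
  simp only [Prod.mk.injEq]
  refine ⟨?_, ?_, ?_⟩
  · have e : f.coeff 0 = (f.coeff 0 - g.coeff 0) + g.coeff 0 := by ring
    rw [e, cast_add' (h0.mono (by norm_num)) hg.d0,
      cast_eq_zero_of_Dv (h0.mono (by norm_num)), zero_add]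
  · have e : f.coeff 1 / 3 = (f.coeff 1 - g.coeff 1) / 3 + g.coeff 1 / 3 := by ring
    have hd : Dv 3 1 ((f.coeff 1 - g.coeff 1) / 3) := by
      apply Dv.of_p_mul
      have e : ((3 : ℕ) : ℚ) * ((f.coeff 1 - g.coeff 1) / 3) = f.coeff 1 - g.coeff 1 := by
        push_cast; ring
      rw [e]; exact h1.mono (by norm_num)
    rw [e, cast_add' (hd.mono (by norm_num)) hg.d1, cast_eq_zero_of_Dv hd, zero_add]
  · have e : f.coeff 2 / 9 = (f.coeff 2 - g.coeff 2) / 9 + g.coeff 2 / 9 := by ring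
    have hd : Dv 3 1 ((f.coeff 2 - g.coeff 2) / 9) := Dv_div9 h2
    rw [e, cast_add' (hd.mono (by norm_num)) hg.d2, cast_eq_zero_of_Dv hd, zero_add]

lemma dg_lin (j k : ℕ) : dg (C ((j : ℚ) + 1) + C ((k : ℚ) * (3 : ℕ)) * X) =
    ((j : ZMod 3) + 1, (k : ZMod 3), 0) := by
  have e0 : (C ((j : ℚ) + 1) + C ((k : ℚ) * (3 : ℕ)) * X).coeff 0 = ((j + 1 : ℕ) : ℚ) := by
    simp
  have e1 : (C ((j : ℚ) + 1) + C ((k : ℚ) * (3 : ℕ)) * X).coeff 1 / 3 = ((k : ℕ) : ℚ) := by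
    rw [Polynomial.coeff_add, Polynomial.coeff_C, Polynomial.coeff_C_mul, Polynomial.coeff_X]
    simp
  have e2 : (C ((j : ℚ) + 1) + C ((k : ℚ) * (3 : ℕ)) * X).coeff 2 / 9 = 0 := by
    rw [Polynomial.coeff_add, Polynomial.coeff_C, Polynomial.coeff_C_mul, Polynomial.coeff_X]
    simp
  unfold dg
  rw [e0, e1, e2, Rat.cast_natCast, Rat.cast_natCast, Rat.cast_zero]
  push_cast
  rfl

lemma lin_Wp (j k : ℕ) : Wp 3 (C ((j : ℚ) + 1) + C ((k : ℚ) * (3 : ℕ)) * X) := by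
  apply Wp.linear
  · have := Dv.nat (p := 3) (j + 1)
    push_cast at this
    exact this
  · exact (Dv.nat k).mul_left Dv.p_self

lemma prod_Wp (k n : ℕ) :
    Wp 3 (∏ j ∈ Finset.range n, (C ((j : ℚ) + 1) + C ((k : ℚ) * (3 : ℕ)) * X)) := by
  induction n with
  | zero => rw [Finset.prod_range_zero]; exact Wp.one
  | succ n ih => rw [Finset.prod_range_succ]; exact ih.mul (lin_Wp n k)

lemma dg_prod (k n : ℕ) :
    dg (∏ j ∈ Finset.range n, (C ((j : ℚ) + 1) + C ((k : ℚ) * (3 : ℕ)) * X)) = dP k n := by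
  induction n with
  | zero => rw [Finset.prod_range_zero, dg_one]; rfl
  | succ n ih =>
    rw [Finset.prod_range_succ, dg_mul (prod_Wp k n).fc (lin_Wp n k).fc, ih, dg_lin]; rfl

lemma dg_Num (a : List ℕ) (c : ℕ) : Wp 3 (Num a 3 c) ∧ dg (Num a 3 c) = dN c a := by
  induction a with
  | nil =>
    have e : Num [] 3 c = 1 := by simp [Num]
    rw [e, dg_one]; exact ⟨Wp.one, rfl⟩
  | cons k a ih =>
    have e : Num (k :: a) 3 c =
        (∏ j ∈ Finset.range (k * c), (C ((j : ℚ) + 1) + C ((k : ℚ) * (3 : ℕ)) * X)) *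
          Num a 3 c := by
      simp [Num]
    rw [e]
    refine ⟨(prod_Wp k _).mul ih.1, ?_⟩
    rw [dg_mul (prod_Wp k _).fc ih.1.fc, dg_prod, ih.2]; rfl

lemma dg_Den (c : ℕ) : Wp 3 (Den 3 c) ∧ dg (Den 3 c) = dP 1 c := by
  have e : Den 3 c = ∏ j ∈ Finset.range c, (C ((j : ℚ) + 1) + C (((1 : ℕ) : ℚ) * (3 : ℕ)) * X) := by
    simp [Den]
  rw [e]
  exact ⟨prod_Wp 1 c, dg_prod 1 c⟩

/-- the polynomials modulo 27 -/
structure F27 (n : ℕ) (B : ℕ → PowerSeries ℚ) (h : ℕ → ℚ[X])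
    (A : ℕ → ZMod 3 × ZMod 3 × ZMod 3) (e : ℚ) : Prop where
  rel : Rel 3 n B h
  fc : ∀ c < 3, Fc 3 (h c)
  dig : ∀ c < 3, dg (h c) = A c
  three : ∀ c < 3, Dv 3 3 ((h c).coeff 3 - 9 * e * (h c).coeff 0)
  more : ∀ c < 3, ∀ k, 4 ≤ k → Dv 3 3 ((h c).coeff k)

lemma c3_int (a : List ℕ) : Dv 3 0 (c3 a) := by
  induction a with
  | nil => simpa [c3] using Dv.zero
  | cons k a ih =>
    have e : c3 (k :: a) = ((k : ℚ) ^ 3 - k) / 6 + c3 a := by simp [c3]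
    rw [e]
    refine Dv.add ?_ ih
    have h6 : (6 : ℤ) ∣ (k : ℤ) ^ 3 - k := by
      have h0 : (((k : ℤ) ^ 3 - k : ℤ) : ZMod 6) = 0 := by
        push_cast
        generalize (k : ZMod 6) = x
        revert x; decide
      exact (ZMod.intCast_zmod_eq_zero_iff_dvd _ 6).mp h0
    obtain ⟨m, hm⟩ := h6
    have e2 : ((k : ℚ) ^ 3 - k) / 6 = (m : ℤ) := by
      have : ((k : ℚ) ^ 3 - k) = 6 * m := by exact_mod_cast hm
      rw [this]; ring
    rw [e2]; exact Dv.int m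

private lemma m3dig_sgt (a : List ℕ) : sgt 3 a = 1 := by
  induction a with
  | nil => simp [sgt]
  | cons k a ih =>
    have e : sgt 3 (k :: a) = sg 3 k * sgt 3 a := by simp [sgt]
    rw [e, ih]
    simp [sg]

private lemma m3dig_coeff {f g : ℚ[X]} (hf : Fc 3 f) (hg : Wp 3 g) {k : ℕ} (hk : 3 ≤ k) :
    Dv 3 3 ((f * g).coeff k - f.coeff k * g.coeff 0) := by
  have hm : (k, 0) ∈ Finset.HasAntidiagonal.antidiagonal k := by
    rw [Finset.HasAntidiagonal.mem_antidiagonal]; rfl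
  rw [Polynomial.coeff_mul, ← Finset.add_sum_erase _ _ hm]
  have e : (f.coeff (k, 0).1 * g.coeff (k, 0).2 +
      ∑ x ∈ (Finset.HasAntidiagonal.antidiagonal k).erase (k, 0), f.coeff x.1 * g.coeff x.2) -
      f.coeff k * g.coeff 0 =
      ∑ x ∈ (Finset.HasAntidiagonal.antidiagonal k).erase (k, 0), f.coeff x.1 * g.coeff x.2 := by
    ring
  rw [e]
  apply Dv.sum
  intro x hx
  rw [Finset.mem_erase, Finset.HasAntidiagonal.mem_antidiagonal] at hx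
  obtain ⟨h1, h2⟩ := hx
  have h3 : x.2 ≠ 0 := by
    intro h0
    apply h1
    ext
    · simp; omega
    · simpa using h0
  exact ((hf x.1).mul (hg x.2)).mono (by omega)

private lemma m3dig_coeffF {F g : ℚ[X]} (hF : PDv 3 2 (F - 1)) (hg : Wp 3 g) {k : ℕ}
    (hk : 3 ≤ k) : Dv 3 3 ((F * g).coeff k - F.coeff k * g.coeff 0) := by
  have e : (F * g).coeff k - F.coeff k * g.coeff 0 =
      ((F - 1) * g).coeff k - (F - 1).coeff k * g.coeff 0 + g.coeff k := by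
    have h1 : (1 : ℚ[X]).coeff k = 0 := by
      rw [Polynomial.coeff_one, if_neg (by omega)]
    rw [sub_mul, one_mul, Polynomial.coeff_sub, Polynomial.coeff_sub, h1]
    ring
  rw [e]
  refine Dv.add ?_ ((hg k).mono hk)
  have hm : (k, 0) ∈ Finset.HasAntidiagonal.antidiagonal k := by
    rw [Finset.HasAntidiagonal.mem_antidiagonal]; rfl
  rw [Polynomial.coeff_mul, ← Finset.add_sum_erase _ _ hm]
  have e : ((F - 1).coeff (k, 0).1 * g.coeff (k, 0).2 +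
      ∑ x ∈ (Finset.HasAntidiagonal.antidiagonal k).erase (k, 0), (F - 1).coeff x.1 * g.coeff x.2) -
      (F - 1).coeff k * g.coeff 0 =
      ∑ x ∈ (Finset.HasAntidiagonal.antidiagonal k).erase (k, 0),
        (F - 1).coeff x.1 * g.coeff x.2 := by
    ring
  rw [e]
  apply Dv.sum
  intro x hx
  rw [Finset.mem_erase, Finset.HasAntidiagonal.mem_antidiagonal] at hx
  obtain ⟨h1, h2⟩ := hx
  have h3 : x.2 ≠ 0 := by
    intro h0
    apply h1
    ext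
    · simp; omega
    · simpa using h0
  exact ((hF x.1).mul (hg x.2)).mono (by omega)

private lemma m3dig_Den0 (c : ℕ) (hc : c < 3) :
    ∃ b : ℕ, Nat.Coprime b 3 ∧ b ≠ 0 ∧ (Den 3 c).coeff 0 = b := by
  interval_cases c
  · exact ⟨1, by norm_num, one_ne_zero, by simp [Den]⟩
  · exact ⟨1, by norm_num, one_ne_zero, by simp [Den]⟩
  · refine ⟨2, by norm_num, two_ne_zero, ?_⟩
    simp [Den, Finset.prod_range_succ]
    norm_num

private lemma m3dig_pow0 (f : ℚ[X]) (n : ℕ) : (f ^ n).coeff 0 = f.coeff 0 ^ n := by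
  induction n with
  | zero => simp
  | succ n ih => rw [pow_succ, Polynomial.mul_coeff_zero, ih, pow_succ]

/-- the polynomials `h_c` exist, with digits `A c` -/
theorem exists_F27 (a : List ℕ) (A : ℕ → ZMod 3 × ZMod 3 × ZMod 3)
    (hA : ∀ c < 3, ∀ x : ZMod 3 × ZMod 3 × ZMod 3,
      mT x (pT (dP 1 c) a.sum) = dN c a → x = A c) (n : ℕ) :
    ∃ h, F27 n (Bj a) h A (c3 a) := by
  obtain ⟨F, h, ⟨F0, F1, F2, hF⟩, hF3, hfc, hD, hrel⟩ := exists_h a 3 n 3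
  have hF3 := hF3 (Or.inr rfl)
  have hFfc : Fc 3 F := Fc.of_sub_one hF F1
  have hdgF : dg F = oT := by
    unfold dg oT
    rw [F0, F1, F2]; simp
  have h27 : ∀ k, 4 ≤ k → Dv 3 3 (F.coeff k) := by
    intro k hk
    have := hF3 k
    have e : (F - 1 - C (((3 : ℕ) : ℚ) ^ 2 * c3 a) * X ^ 3).coeff k = F.coeff k := by
      rw [Polynomial.coeff_sub, Polynomial.coeff_sub, Polynomial.coeff_one, if_neg (by omega),
        Polynomial.coeff_C_mul_X_pow, if_neg (by omega)]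
      ring
    rwa [e] at this
  have h9 : Dv 3 3 (F.coeff 3 - 9 * c3 a) := by
    have := hF3 3
    have e : (F - 1 - C (((3 : ℕ) : ℚ) ^ 2 * c3 a) * X ^ 3).coeff 3 = F.coeff 3 - 9 * c3 a := by
      rw [Polynomial.coeff_sub, Polynomial.coeff_sub, Polynomial.coeff_one, if_neg (by omega),
        Polynomial.coeff_C_mul_X_pow, if_pos rfl]
      norm_num
    rwa [e] at this
  refine ⟨h, ?_, hfc, ?_, ?_, ?_⟩
  · intro c hc m hm i hi
    rw [hrel c hc m hm i hi, m3dig_sgt, one_pow, one_mul]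
  · intro c hc
    obtain ⟨d1, d2⟩ := dg_Den c
    obtain ⟨n1, n2⟩ := dg_Num a c
    apply hA c hc
    have e := dg_congr (hFfc.mul n1.fc) (hD c hc)
    rw [dg_mul (hfc c hc) (d1.pow _).fc, dg_mul hFfc n1.fc, dg_pow d1.fc, d2, n2, hdgF] at e
    rw [e]
    simp [mT, oT]
  · intro c hc
    obtain ⟨d1, -⟩ := dg_Den c
    obtain ⟨n1, -⟩ := dg_Num a c
    obtain ⟨b, b1, b2, b3⟩ := m3dig_Den0 c hc
    have hb : (Den 3 c ^ a.sum).coeff 0 = ((b ^ a.sum : ℕ) : ℚ) := by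
      rw [m3dig_pow0, b3]; push_cast; rfl
    have k3 := hD c hc 3
    have k0 := hD c hc 0
    rw [Polynomial.coeff_sub] at k3 k0
    rw [Polynomial.mul_coeff_zero, Polynomial.mul_coeff_zero, F0, one_mul, hb] at k0
    have l3 := m3dig_coeff (hfc c hc) (d1.pow a.sum) (le_refl 3)
    have r3 := m3dig_coeffF hF n1 (le_refl 3)
    rw [hb] at l3
    apply Dv.of_nat_mul (b1.pow_left a.sum) (pow_ne_zero _ b2)
    have hN0 : Dv 3 0 ((Num a 3 c).coeff 0) := n1 0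
    have hc3 : Dv 3 0 (9 * c3 a) := by
      have := (Dv.nat (p := 3) 9).mul_left (c3_int a)
      push_cast at this; exact this
    have e : ((b ^ a.sum : ℕ) : ℚ) * ((h c).coeff 3 - 9 * c3 a * (h c).coeff 0) =
        -((h c * Den 3 c ^ a.sum).coeff 3 - (h c).coeff 3 * ((b ^ a.sum : ℕ) : ℚ)) +
        ((F * Num a 3 c).coeff 3 - F.coeff 3 * (Num a 3 c).coeff 0) +
        ((h c * Den 3 c ^ a.sum).coeff 3 - (F * Num a 3 c).coeff 3) +
        (F.coeff 3 - 9 * c3 a) * (Num a 3 c).coeff 0 -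
        9 * c3 a * ((h c).coeff 0 * ((b ^ a.sum : ℕ) : ℚ) - (Num a 3 c).coeff 0) := by
      ring
    rw [e]
    exact (((l3.neg.add r3).add k3).add (h9.mul_right hN0)).sub (hc3.mul_left k0)
  · intro c hc k hk
    obtain ⟨d1, -⟩ := dg_Den c
    obtain ⟨n1, -⟩ := dg_Num a c
    obtain ⟨b, b1, b2, b3⟩ := m3dig_Den0 c hc
    have hb : (Den 3 c ^ a.sum).coeff 0 = ((b ^ a.sum : ℕ) : ℚ) := by
      rw [m3dig_pow0, b3]; push_cast; rfl
    have k3 := hD c hc k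
    rw [Polynomial.coeff_sub] at k3
    have l3 := m3dig_coeff (hfc c hc) (d1.pow a.sum) (show 3 ≤ k by omega)
    have r3 := m3dig_coeffF hF n1 (show 3 ≤ k by omega)
    rw [hb] at l3
    apply Dv.of_nat_mul (b1.pow_left a.sum) (pow_ne_zero _ b2)
    have hN0 : Dv 3 0 ((Num a 3 c).coeff 0) := n1 0
    have e : ((b ^ a.sum : ℕ) : ℚ) * (h c).coeff k =
        -((h c * Den 3 c ^ a.sum).coeff k - (h c).coeff k * ((b ^ a.sum : ℕ) : ℚ)) +
        ((F * Num a 3 c).coeff k - F.coeff k * (Num a 3 c).coeff 0) +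
        ((h c * Den 3 c ^ a.sum).coeff k - (F * Num a 3 c).coeff k) +
        F.coeff k * (Num a 3 c).coeff 0 := by
      ring
    rw [e]
    exact ((l3.neg.add r3).add k3).add ((h27 k hk).mul_right hN0)

/-! ### the digits of the seven families -/

/-- the digits for `[2, 5]` -/
def A25 : ℕ → ZMod 3 × ZMod 3 × ZMod 3
  | 0 => (1, 0, 0)
  | 1 => (0, 1, -1)
  | _ => (0, 0, 0)

/-- the digits for `[2, 2, 4]` -/
def A224 : ℕ → ZMod 3 × ZMod 3 × ZMod 3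
  | 0 => (1, 0, 0)
  | 1 => (0, -1, 1)
  | _ => (0, 0, 0)

/-- the digits for `[2, 2, 2, 2, 2]` -/
def A22222 : ℕ → ZMod 3 × ZMod 3 × ZMod 3
  | 0 => (1, 0, 0)
  | 1 => (-1, 1, 1)
  | _ => (0, 0, 0)

theorem F27_25 (n : ℕ) : ∃ h, F27 n (Bj [2, 5]) h A25 (c3 [2, 5]) :=
  exists_F27 _ _ (by decide) n

theorem F27_224 (n : ℕ) : ∃ h, F27 n (Bj [2, 2, 4]) h A224 (c3 [2, 2, 4]) :=
  exists_F27 _ _ (by decide) n

theorem F27_22222 (n : ℕ) : ∃ h, F27 n (Bj [2, 2, 2, 2, 2]) h A22222 (c3 [2, 2, 2, 2, 2]) :=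
  exists_F27 _ _ (by decide) n

end KPInt
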