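import Pool.Agent.Lib.KPInt.Ops

/-!
# M3Rd: reduction of p-integral power series to `(ZMod p)⟦X⟧`
-/

set_option autoImplicit false

namespace KPInt

open PowerSeries

variable {p : ℕ} [hp : Fact p.Prime]

lemma Dv.den_ne {x : ℚ} (hx : Dv p 0 x) : ((x.den : ℕ) : ZMod p) ≠ 0 := by
  obtain ⟨a, b, hb, h⟩ := hx
  rw [pow_zero, one_mul] at h
  have hb0 : b ≠ 0 := by
    rintro rfl
    rw [Nat.coprime_zero_left] at hb
    exact hp.out.one_lt.ne' hb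
  have hx : x = Rat.divInt a b := by
    rw [Rat.divInt_eq_div]
    push_cast
    field_simp
    exact h
  have hd : (x.den : ℤ) ∣ (b : ℤ) := by
    rw [hx]; exact Rat.den_dvd a b
  have hd' : x.den ∣ b := by exact_mod_cast hd
  intro h0
  rw [ZMod.natCast_eq_zero_iff] at h0
  have h1 : p ∣ Nat.gcd b p := Nat.dvd_gcd (h0.trans hd') dvd_rfl
  rw [hb] at h1
  exact hp.out.one_lt.ne' (Nat.dvd_one.mp h1)

lemma cast_add' {x y : ℚ} (hx : Dv p 0 x) (hy : Dv p 0 y) :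
    ((x + y : ℚ) : ZMod p) = (x : ZMod p) + (y : ZMod p) :=
  Rat.cast_add_of_ne_zero hx.den_ne hy.den_ne

lemma cast_mul' {x y : ℚ} (hx : Dv p 0 x) (hy : Dv p 0 y) :
    ((x * y : ℚ) : ZMod p) = (x : ZMod p) * (y : ZMod p) :=
  Rat.cast_mul_of_ne_zero hx.den_ne hy.den_ne

lemma cast_sub' {x y : ℚ} (hx : Dv p 0 x) (hy : Dv p 0 y) :
    ((x - y : ℚ) : ZMod p) = (x : ZMod p) - (y : ZMod p) := by
  rw [sub_eq_add_neg, cast_add' hx hy.neg, Rat.cast_neg, sub_eq_add_neg]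

lemma cast_sum' {ι : Type*} (s : Finset ι) (f : ι → ℚ) (h : ∀ i ∈ s, Dv p 0 (f i)) :
    ((∑ i ∈ s, f i : ℚ) : ZMod p) = ∑ i ∈ s, (f i : ZMod p) := by
  classical
  induction s using Finset.induction_on with
  | empty => simp
  | insert a s ha ih =>
    rw [Finset.sum_insert ha, Finset.sum_insert ha,
      cast_add' (h a (Finset.mem_insert_self a s))
        (Dv.sum s f fun i hi => h i (Finset.mem_insert_of_mem hi)),
      ih fun i hi => h i (Finset.mem_insert_of_mem hi)]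

lemma cast_eq_zero_of_Dv {x : ℚ} (hx : Dv p 1 x) : (x : ZMod p) = 0 := by
  obtain ⟨y, hy, h⟩ := Dv.iff_exists.mp hx
  rw [h, pow_one, cast_mul' (Dv.nat p) hy]
  have : (((p : ℕ) : ℚ) : ZMod p) = 0 := by
    rw [Rat.cast_natCast]; simp
  rw [this, zero_mul]

lemma Dv_of_cast_eq_zero {x : ℚ} (hx : Dv p 0 x) (h : (x : ZMod p) = 0) : Dv p 1 x := by
  obtain ⟨a, b, hb, h1⟩ := hx
  rw [pow_zero, one_mul] at h1
  have hx0 : Dv p 0 x := ⟨a, b, hb, by rw [pow_zero, one_mul]; exact h1⟩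
  have h2 : ((x * (b : ℚ) : ℚ) : ZMod p) = ((a : ℚ) : ZMod p) := by rw [h1]
  rw [cast_mul' hx0 (Dv.nat b), h, zero_mul] at h2
  have h3 : ((a : ℤ) : ZMod p) = 0 := by
    rw [← Rat.cast_intCast (α := ZMod p) a]; exact h2.symm
  rw [ZMod.intCast_zmod_eq_zero_iff_dvd] at h3
  obtain ⟨c, hc⟩ := h3
  refine ⟨c, b, hb, ?_⟩
  rw [h1, hc]; push_cast; ring

lemma Dv_one_iff {x : ℚ} (hx : Dv p 0 x) : Dv p 1 x ↔ (x : ZMod p) = 0 :=
  ⟨cast_eq_zero_of_Dv, Dv_of_cast_eq_zero hx⟩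

/-- reduction of a power series modulo `p` -/
noncomputable def rd (p : ℕ) [Fact p.Prime] (f : ℚ⟦X⟧) : (ZMod p)⟦X⟧ :=
  mk fun n => ((coeff n f : ℚ) : ZMod p)

lemma coeff_rd (f : ℚ⟦X⟧) (n : ℕ) : coeff n (rd p f) = ((coeff n f : ℚ) : ZMod p) := by
  rw [rd, coeff_mk]

lemma cc_rd (f : ℚ⟦X⟧) : constantCoeff (rd p f) = ((constantCoeff f : ℚ) : ZMod p) := by
  rw [← coeff_zero_eq_constantCoeff_apply, coeff_rd, coeff_zero_eq_constantCoeff_apply]

lemma rd_add {f g : ℚ⟦X⟧} (hf : SDv p 0 f) (hg : SDv p 0 g) : rd p (f + g) = rd p f + rd p g := by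
  ext n
  rw [map_add, coeff_rd, coeff_rd, coeff_rd, map_add, cast_add' (hf n) (hg n)]

lemma rd_sub {f g : ℚ⟦X⟧} (hf : SDv p 0 f) (hg : SDv p 0 g) : rd p (f - g) = rd p f - rd p g := by
  ext n
  rw [map_sub, coeff_rd, coeff_rd, coeff_rd, map_sub, cast_sub' (hf n) (hg n)]

lemma rd_neg (f : ℚ⟦X⟧) : rd p (-f) = -rd p f := by
  ext n
  rw [map_neg, coeff_rd, coeff_rd, map_neg, Rat.cast_neg]

lemma rd_mul {f g : ℚ⟦X⟧} (hf : SDv p 0 f) (hg : SDv p 0 g) : rd p (f * g) = rd p f * rd p g := by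
  ext n
  rw [coeff_rd, coeff_mul, coeff_mul, cast_sum' _ _ fun x _ => (hf x.1).mul_left (hg x.2)]
  apply Finset.sum_congr rfl
  intro x _
  rw [coeff_rd, coeff_rd, cast_mul' (hf x.1) (hg x.2)]

lemma rd_C (x : ℚ) : rd p (C x) = C ((x : ℚ) : ZMod p) := by
  ext n
  rw [coeff_rd, coeff_C, coeff_C]
  split_ifs <;> simp

lemma rd_one : rd p 1 = 1 := by
  have := rd_C (p := p) 1
  simpa using this

lemma rd_zero : rd p 0 = 0 := by
  have := rd_C (p := p) 0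
  simpa using this

lemma rd_X : rd p X = X := by
  ext n
  rw [coeff_rd, coeff_X, coeff_X]
  split_ifs <;> simp

lemma rd_pow {f : ℚ⟦X⟧} (hf : SDv p 0 f) (n : ℕ) : rd p (f ^ n) = rd p f ^ n := by
  induction n with
  | zero => rw [pow_zero, pow_zero, rd_one]
  | succ n ih => rw [pow_succ, pow_succ, rd_mul (hf.pow0 n) hf, ih]

lemma rd_X_pow (n : ℕ) : rd p (X ^ n) = X ^ n := by
  rw [rd_pow SDv.X, rd_X]

lemma rd_eq_zero_of {f : ℚ⟦X⟧} (h : SDv p 1 f) : rd p f = 0 := by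
  ext n
  rw [coeff_rd, map_zero, cast_eq_zero_of_Dv (h n)]

lemma SDv_of_rd_eq_zero {f : ℚ⟦X⟧} (hf : SDv p 0 f) (h : rd p f = 0) : SDv p 1 f := by
  intro n
  apply Dv_of_cast_eq_zero (hf n)
  rw [← coeff_rd, h, map_zero]

lemma rd_congr {f g : ℚ⟦X⟧} (hg : SDv p 0 g) (h : SDv p 1 (f - g)) : rd p f = rd p g := by
  have e : f = (f - g) + g := by ring
  rw [e, rd_add (h.mono (Nat.zero_le 1)) hg, rd_eq_zero_of h, zero_add]

lemma SDv_of_rd_eq {f g : ℚ⟦X⟧} (hf : SDv p 0 f) (hg : SDv p 0 g) (h : rd p f = rd p g) :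
    SDv p 1 (f - g) := by
  apply SDv_of_rd_eq_zero (hf.sub hg)
  rw [rd_sub hf hg, h, sub_self]

lemma rd_VV {f : ℚ⟦X⟧} (hf : SDv p 0 f) : rd p (VV p f) = rd p f ^ p := by
  rw [← rd_pow hf]
  symm
  exact rd_congr hf.VV hf.frob

/-- `θ` on `(ZMod p)⟦X⟧` -/
noncomputable def tb (f : (ZMod p)⟦X⟧) : (ZMod p)⟦X⟧ := X * derivative (ZMod p) f

lemma coeff_tb (n : ℕ) (f : (ZMod p)⟦X⟧) : coeff n (tb f) = (n : ZMod p) * coeff n f := by
  unfold tb
  cases n with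
  | zero => simp
  | succ n =>
    rw [coeff_succ_X_mul, coeff_derivative]
    push_cast
    ring

lemma rd_th {f : ℚ⟦X⟧} (hf : SDv p 0 f) : rd p (th f) = tb (rd p f) := by
  ext n
  rw [coeff_rd, coeff_tb, coeff_th, coeff_rd, cast_mul' (Dv.nat n) (hf n), Rat.cast_natCast]

lemma tb_add (f g : (ZMod p)⟦X⟧) : tb (f + g) = tb f + tb g := by
  ext n
  simp only [map_add, coeff_tb, mul_add]

lemma tb_sub (f g : (ZMod p)⟦X⟧) : tb (f - g) = tb f - tb g := by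
  ext n
  simp only [map_sub, coeff_tb, mul_sub]

lemma tb_mul (f g : (ZMod p)⟦X⟧) : tb (f * g) = tb f * g + f * tb g := by
  unfold tb
  rw [Derivation.leibniz]
  simp only [smul_eq_mul]
  ring

lemma tb_X : tb (X : (ZMod p)⟦X⟧) = X := by
  ext n
  rw [coeff_tb, coeff_X]
  split_ifs with h
  · subst h; simp
  · simp

lemma tb_C (x : ZMod p) : tb (C x) = 0 := by
  ext n
  rw [coeff_tb, coeff_C]
  split_ifs with h
  · subst h; simp
  · simp

lemma tb_one : tb (1 : (ZMod p)⟦X⟧) = 0 := by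
  have := tb_C (p := p) 1
  simpa using this

lemma tb_zero : tb (0 : (ZMod p)⟦X⟧) = 0 := by
  have := tb_C (p := p) 0
  simpa using this

lemma rd_inv_mul {f : ℚ⟦X⟧} (hf : SDv p 0 f) (h1 : constantCoeff f = 1) :
    rd p f * rd p f⁻¹ = 1 := by
  have h0 : constantCoeff f ≠ 0 := by rw [h1]; exact one_ne_zero
  rw [← rd_mul hf (hf.inv h1), PowerSeries.mul_inv_cancel _ h0, rd_one]

end KPInt
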