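import Pool.Agent.Lib.KPInt.M3Core

/-!
# M3Rel: the three relations modulo 3
-/

set_option autoImplicit false

namespace KPInt

open PowerSeries

variable {B : ℕ → ℚ⟦X⟧} {A : ℕ → ZMod 3 × ZMod 3 × ZMod 3} {e : ℚ}

lemma m3_sum_sub {k : ℕ} {f g : ℕ → ℚ⟦X⟧} (h : ∀ c < 3, SDv 3 k (f c - g c)) :
    SDv 3 k (∑ c ∈ Finset.range 3, X ^ c * VV 3 (f c) -
      ∑ c ∈ Finset.range 3, X ^ c * VV 3 (g c)) := by
  rw [← Finset.sum_sub_distrib]
  apply SDv.sum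
  intro c hc
  rw [Finset.mem_range] at hc
  rw [← mul_sub, ← VV_sub]
  exact (SDv.X.pow0 c).mul_left (h c hc).VV

lemma Dv_three {k : ℕ} {x : ℚ} (h : Dv 3 k x) : Dv 3 (k + 1) (3 * x) := by
  have := (Dv.p_self (p := 3)).mul h
  rw [add_comm] at this
  exact_mod_cast this

lemma Dv_third {k : ℕ} {x : ℚ} (h : Dv 3 (k + 1) x) : Dv 3 k (1 / 3 * x) := by
  apply Dv.of_p_mul
  have e : ((3 : ℕ) : ℚ) * (1 / 3 * x) = x := by push_cast; ring
  rw [e]; exact h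

lemma SDv.three {k : ℕ} {f : ℚ⟦X⟧} (h : SDv 3 k f) : SDv 3 (k + 1) (PowerSeries.C 3 * f) := by
  intro n
  rw [coeff_C_mul]
  exact Dv_three (h n)

lemma SDv.third {k : ℕ} {f : ℚ⟦X⟧} (h : SDv 3 (k + 1) f) :
    SDv 3 k (PowerSeries.C (1 / 3) * f) := by
  intro n
  rw [coeff_C_mul]
  exact Dv_third (h n)

lemma m3_C3 (f : ℚ⟦X⟧) : C 3 * (C (1 / 3) * f) = f := by
  rw [← mul_assoc, ← map_mul]; norm_num

/-- relation for `L_0` modulo 3 -/
theorem m3_key0 (hB : OKB B) (hL : SDv 3 0 (Lj B 0)) (hI : SDv 3 0 (I1 B))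
    (hyp : ∀ n, ∃ h, F27 n B h A e) :
    SDv 3 1 (Lj B 0 - Pq (fun c => (A c).1) * VV 3 (Lj B 0)) := by
  intro m
  obtain ⟨h, hh⟩ := hyp (m + 1)
  have h0 := rel0 hh.rel m (by omega)
  have h1 := m3_sum_sub (fun c hc => al_mod hB hL hI (hh.fc c hc))
  have h2 := Pq_transfer (A := fun c => (A c).1) (x := fun c => (h c).coeff 0)
    (fun c hc => (hh.fc c hc).d0) (fun c hc => by
      have := hh.dig c hc
      exact congrArg Prod.fst this) hL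
  have h3 := (h1.add h2) m
  have e : ∀ a b c : ℚ⟦X⟧, a - b + (b - c) = a - c := fun a b c => by ring
  rw [e, map_sub] at h3
  rw [map_sub, h0]
  exact h3

theorem m3_rel0 (hB : OKB B) (hL : SDv 3 0 (Lj B 0)) (hI : SDv 3 0 (I1 B))
    (hyp : ∀ n, ∃ h, F27 n B h A e) :
    rd 3 (Lj B 0) = Pb (fun c => (A c).1) * rd 3 (Lj B 0) ^ 3 := by
  have h := rd_congr ((Pq_int _).mul_left hL.VV) (m3_key0 hB hL hI hyp)
  rw [rd_mul (Pq_int _) hL.VV, rd_Pq, rd_VV hL] at h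
  exact h

/-- relation for `D` modulo 9 -/
theorem m3_key1 (hB : OKB B) (hL : SDv 3 0 (Lj B 0)) (hI : SDv 3 0 (I1 B))
    (hyp : ∀ n, ∃ h, F27 n B h A e) :
    SDv 3 2 (Lj B 0 * DD 3 B - C 3 * (Pq (fun c => (A c).2.1) * VV 3 (I1 B * Lj B 0))) := by
  intro m
  obtain ⟨h, hh⟩ := hyp (m + 1)
  have h0 := rel1 hB hh.rel m (by omega)
  have h1 := m3_sum_sub (fun c hc => be_mod hB hL hI (hh.fc c hc))
  have h2 := (Pq_transfer (A := fun c => (A c).2.1) (x := fun c => (h c).coeff 1 / 3)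
    (fun c hc => (hh.fc c hc).d1) (fun c hc => by
      have := hh.dig c hc
      exact congrArg (fun x => x.2.1) this) (hI.mul_left hL)).three
  have e1 : C 3 * (∑ c ∈ Finset.range 3, X ^ c * VV 3 (C ((h c).coeff 1 / 3) * (I1 B * Lj B 0)) -
      Pq (fun c => (A c).2.1) * VV 3 (I1 B * Lj B 0)) =
      ∑ c ∈ Finset.range 3, X ^ c * VV 3 (C ((h c).coeff 1) * (I1 B * Lj B 0)) -
        C 3 * (Pq (fun c => (A c).2.1) * VV 3 (I1 B * Lj B 0)) := by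
    rw [mul_sub, Finset.mul_sum]
    congr 1
    apply Finset.sum_congr rfl
    intro c _
    rw [VV_mul, VV_mul (C ((h c).coeff 1)), VV_C, VV_C]
    have : (C ((h c).coeff 1) : ℚ⟦X⟧) = C 3 * C ((h c).coeff 1 / 3) := by
      rw [← map_mul]; congr 1; ring
    rw [this]; ring
  rw [e1] at h2
  have h3 := (h1.add h2) m
  have e : ∀ a b c : ℚ⟦X⟧, a - b + (b - c) = a - c := fun a b c => by ring
  rw [e, map_sub] at h3
  rw [map_sub, h0]
  exact h3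

/-- `D / 3` -/
noncomputable def D3' (B : ℕ → ℚ⟦X⟧) : ℚ⟦X⟧ := C (1 / 3) * DD 3 B

lemma C3_D3' (B : ℕ → ℚ⟦X⟧) : DD 3 B = C 3 * D3' B := (m3_C3 _).symm

theorem m3_rel1 (hB : OKB B) (hL : SDv 3 0 (Lj B 0)) (hI : SDv 3 0 (I1 B))
    (hD : SDv 3 1 (DD 3 B)) (hyp : ∀ n, ∃ h, F27 n B h A e) :
    rd 3 (Lj B 0) * rd 3 (D3' B) =
      Pb (fun c => (A c).2.1) * (rd 3 (I1 B) * rd 3 (Lj B 0)) ^ 3 := by
  have hD' : SDv 3 0 (D3' B) := hD.third
  have h1 := (m3_key1 hB hL hI hyp).third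
  have e1 : C (1 / 3) * (Lj B 0 * DD 3 B - C 3 * (Pq (fun c => (A c).2.1) *
      VV 3 (I1 B * Lj B 0))) = Lj B 0 * D3' B - Pq (fun c => (A c).2.1) *
        VV 3 (I1 B * Lj B 0) := by
    have h3 : (C (1 / 3) * C 3 : ℚ⟦X⟧) = 1 := by rw [← map_mul]; norm_num
    unfold D3'
    linear_combination (-(Pq (fun c => (A c).2.1) * VV 3 (I1 B * Lj B 0))) * h3
  rw [e1] at h1
  have h := rd_congr ((Pq_int _).mul_left (hI.mul_left hL).VV) h1
  rw [rd_mul hL hD', rd_mul (Pq_int _) (hI.mul_left hL).VV, rd_Pq, rd_VV (hI.mul_left hL),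
    rd_mul hI hL] at h
  exact h

/-- `θ(D/3) = I1 - V I1` -/
theorem m3_th (hI : SDv 3 0 (I1 B)) (hD : SDv 3 1 (DD 3 B)) :
    tb (rd 3 (D3' B)) = rd 3 (I1 B) - rd 3 (I1 B) ^ 3 := by
  have hD' : SDv 3 0 (D3' B) := hD.third
  have h1 : th (D3' B) = I1 B - VV 3 (I1 B) := by
    have h3 : (C (1 / 3) * C ((3 : ℕ) : ℚ) : ℚ⟦X⟧) = 1 := by rw [← map_mul]; norm_num
    rw [D3', th_C_mul, th_DD, VV_sub, VV_one]
    linear_combination (I1 B - VV 3 (I1 B)) * h3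
  rw [← rd_th hD', h1, rd_sub hI hI.VV, rd_VV hI]

/-! ### the third relation -/

private lemma m3_fact {p : ℕ} [hp : Fact p.Prime] {k l j : ℕ} {x : ℚ}
    (h : l + padicValNat p j.factorial ≤ k)
    (hx : Dv p k x) : Dv p l (1 / (j.factorial : ℚ) * x) := by
  have hp1 := hp.out
  have hp0 : (p : ℚ) ≠ 0 := by exact_mod_cast hp1.ne_zero
  set v := padicValNat p j.factorial with hv
  obtain ⟨b, hb⟩ : p ^ v ∣ j.factorial := pow_padicValNat_dvd
  have hj0 : j.factorial ≠ 0 := j.factorial_ne_zero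
  have hb0 : b ≠ 0 := by
    rintro rfl
    rw [mul_zero] at hb
    exact hj0 hb
  have hbp : Nat.Coprime b p := by
    rw [Nat.coprime_comm, Nat.Prime.coprime_iff_not_dvd hp1]
    rintro ⟨c, hc⟩
    have h1 : p ^ (v + 1) ∣ j.factorial := ⟨c, by rw [hb, hc, pow_succ]; ring⟩
    rw [padicValNat_dvd_iff_le hj0] at h1
    omega
  have hx' : Dv p (v + l) x := hx.mono (by omega)
  obtain ⟨y, hy, hxy⟩ := Dv.iff_exists.1 hx'
  have hbq : (b : ℚ) ≠ 0 := by exact_mod_cast hb0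
  have h2 : 1 / (j.factorial : ℚ) * x = (p : ℚ) ^ l * ((b : ℚ)⁻¹ * y) := by
    rw [hxy, hb]
    push_cast
    rw [pow_add]
    field_simp
  rw [h2]
  refine Dv.iff_exists.2 ⟨_, (Dv.inv_nat hbp).mul_left hy, rfl⟩

lemma m3_pow4 {D : ℚ⟦X⟧} (hD : SDv 3 1 D) {j : ℕ} (hj : 4 ≤ j) :
    SDv 3 3 (C (1 / (j.factorial : ℚ)) * D ^ j) := by
  intro n
  rw [coeff_C_mul]
  have h0 := hD.pow j n
  refine m3_fact (p := 3) ?_ h0
  have h1 := sub_one_mul_padicValNat_factorial_lt_of_ne_zero 3 (n := j) (by omega)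
  omega

lemma tq_int (hI : SDv 3 0 (I1 B)) {k : ℕ} {f : ℚ⟦X⟧} (hf : SDv 3 k f) : SDv 3 k (tq B f) :=
  hf.th.mul_right (hI.inv (cc_I1 B))

lemma tq_iter_int (hI : SDv 3 0 (I1 B)) {f : ℚ⟦X⟧} (hf : SDv 3 0 f) (j : ℕ) :
    SDv 3 0 ((tq B)^[j] f) := by
  induction j with
  | zero => exact hf
  | succ j ih => rw [Function.iterate_succ_apply']; exact tq_int hI ih

/-- the third relation modulo 27 -/
theorem m3_key2 (hB : OKB B) (hL : SDv 3 0 (Lj B 0)) (hI : SDv 3 0 (I1 B))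
    (hK : SDv 3 0 (KK B)) (hD : SDv 3 1 (DD 3 B)) (he : Dv 3 0 e)
    (hyp : ∀ n, ∃ h, F27 n B h A e) {Gc : ℚ⟦X⟧} (hG : Ph B Gc = GG B) :
    SDv 3 3 (Lj B 0 * (C 9 * GG B - Ph B (VV 3 Gc)) -
      (C 9 * (Pq (fun c => (A c).2.2) * VV 3 (I1 B ^ 2 * KK B * Lj B 0)) +
       C (9 * e) * (Pq (fun c => (A c).1) * VV 3 (ga B (Polynomial.X ^ 3))) -
       Lj B 0 * (C (1 / 2) * DD 3 B ^ 2 * VV 3 (KK B) +
         C (1 / 6) * DD 3 B ^ 3 * VV 3 (tq B (KK B))))) := by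
  intro m
  obtain ⟨h, hh⟩ := hyp (m + 1)
  set S2 := I1 B ^ 2 * KK B * Lj B 0 with hS2
  set S3 := ga B (Polynomial.X ^ 3) with hS3
  have hS2i : SDv 3 0 S2 := ((hI.pow0 2).mul_left hK).mul_left hL
  have hS3i : SDv 3 0 S3 := ga_int hB hL hI hK 3
  have h0 := relRZ hB hh.rel Gc hG m (by omega)
  -- the sum over j
  have hs : ∑ j ∈ Finset.Ico 3 (3 * (m + 1) + 1), C (1 / (j.factorial : ℚ)) * DD 3 B ^ j *
      VV 3 ((tq B)^[j - 2] (KK B)) = C (1 / 6) * DD 3 B ^ 3 * VV 3 (tq B (KK B)) +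
      ∑ j ∈ Finset.Ico 4 (3 * (m + 1) + 1), C (1 / (j.factorial : ℚ)) * DD 3 B ^ j *
      VV 3 ((tq B)^[j - 2] (KK B)) := by
    rw [Finset.sum_eq_sum_Ico_succ_bot (by omega)]
    have h6 : (1 : ℚ) / ((Nat.factorial 3 : ℕ) : ℚ) = 1 / 6 := by norm_num [Nat.factorial]
    rw [h6]
    rfl
  set R4 := ∑ j ∈ Finset.Ico 4 (3 * (m + 1) + 1), C (1 / (j.factorial : ℚ)) * DD 3 B ^ j *
      VV 3 ((tq B)^[j - 2] (KK B)) with hR4
  have hR4i : SDv 3 3 R4 := by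
    apply SDv.sum
    intro j hj
    rw [Finset.mem_Ico] at hj
    exact (m3_pow4 hD hj.1).mul_right (tq_iter_int hI hK _).VV
  -- the polynomials
  have h1 := m3_sum_sub (fun c hc => ga_mod hB hL hI hK (f := h c) (hh.more c hc))
  have h2 := (Pq_transfer (A := fun c => (A c).2.2) (x := fun c => (h c).coeff 2 / 9)
    (fun c hc => (hh.fc c hc).d2) (fun c hc => by
      have := hh.dig c hc
      exact congrArg (fun x => x.2.2) this) hS2i).three.three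
  have h3 := (Pq_transfer (A := fun c => (A c).1) (x := fun c => (h c).coeff 0)
    (fun c hc => (hh.fc c hc).d0) (fun c hc => by
      have := hh.dig c hc
      exact congrArg Prod.fst this) hS3i).three.three
  have h4 : SDv 3 3 (∑ c ∈ Finset.range 3, X ^ c * VV 3 (C ((h c).coeff 2) * S2 +
      C ((h c).coeff 3) * S3) - ∑ c ∈ Finset.range 3, X ^ c * VV 3 (C ((h c).coeff 2) * S2 +
      C (9 * e * (h c).coeff 0) * S3)) := by
    apply m3_sum_sub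
    intro c hc
    have e1 : C ((h c).coeff 2) * S2 + C ((h c).coeff 3) * S3 - (C ((h c).coeff 2) * S2 +
      C (9 * e * (h c).coeff 0) * S3) = C ((h c).coeff 3 - 9 * e * (h c).coeff 0) * S3 := by
      rw [map_sub]; ring
    rw [e1]
    exact (SDv.C (hh.three c hc)).mul_right hS3i
  have h5 : ∑ c ∈ Finset.range 3, X ^ c * VV 3 (C ((h c).coeff 2) * S2 +
      C (9 * e * (h c).coeff 0) * S3) - (C 9 * (Pq (fun c => (A c).2.2) * VV 3 S2) +
       C (9 * e) * (Pq (fun c => (A c).1) * VV 3 S3)) =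
      C 3 * (C 3 * (∑ c ∈ Finset.range 3, X ^ c * VV 3 (C ((h c).coeff 2 / 9) * S2) -
        Pq (fun c => (A c).2.2) * VV 3 S2)) +
      C e * (C 3 * (C 3 * (∑ c ∈ Finset.range 3, X ^ c * VV 3 (C ((h c).coeff 0) * S3) -
        Pq (fun c => (A c).1) * VV 3 S3))) := by
    have k1 : ∀ f : ℚ⟦X⟧, C 3 * (C 3 * f) = C 9 * f := by
      intro f
      rw [← mul_assoc, ← map_mul]; norm_num
    have k2 : (C (9 * e) : ℚ⟦X⟧) = C e * C 9 := by rw [← map_mul, mul_comm]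
    have k3 : ∑ c ∈ Finset.range 3, X ^ c * VV 3 (C ((h c).coeff 2) * S2 +
      C (9 * e * (h c).coeff 0) * S3) =
      C 9 * ∑ c ∈ Finset.range 3, X ^ c * VV 3 (C ((h c).coeff 2 / 9) * S2) +
      C e * (C 9 * ∑ c ∈ Finset.range 3, X ^ c * VV 3 (C ((h c).coeff 0) * S3)) := by
      rw [Finset.mul_sum, Finset.mul_sum, Finset.mul_sum, ← Finset.sum_add_distrib]
      apply Finset.sum_congr rfl
      intro c _
      have k4 : (C ((h c).coeff 2) : ℚ⟦X⟧) = C 9 * C ((h c).coeff 2 / 9) := by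
        rw [← map_mul]; congr 1; ring
      have k5 : (C (9 * e * (h c).coeff 0) : ℚ⟦X⟧) = C e * (C 9 * C ((h c).coeff 0)) := by
        rw [← map_mul, ← map_mul]; congr 1; ring
      rw [VV_add, VV_mul (C ((h c).coeff 2)) S2, VV_mul (C (9 * e * (h c).coeff 0)) S3,
        VV_mul (C ((h c).coeff 2 / 9)) S2, VV_mul (C ((h c).coeff 0)) S3, VV_C, VV_C, VV_C, VV_C,
        k4, k5]
      ring
    rw [k1, k1, k2, k3]
    ring
  have h6 : SDv 3 3 (∑ c ∈ Finset.range 3, X ^ c * VV 3 (C ((h c).coeff 2) * S2 +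
      C (9 * e * (h c).coeff 0) * S3) - (C 9 * (Pq (fun c => (A c).2.2) * VV 3 S2) +
       C (9 * e) * (Pq (fun c => (A c).1) * VV 3 S3))) := by
    rw [h5]
    exact h2.add ((SDv.C he).mul_left h3)
  have h7 := ((h1.add h4).add h6).sub (hL.mul_left hR4i)
  have h8 := h7 m
  have e3 : ((3 : ℕ) : ℚ) ^ 2 = 9 := by norm_num
  rw [e3, hs] at h0
  rw [map_sub, h0]
  rw [← map_sub]
  convert h8 using 2
  ring

end KPInt
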