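import Pool.Agent.Lib.KPInt.M3D
import Pool.Agent.Lib.KPInt.Dwork
import Pool.Agent.Lib.KPInt.P35

/-!
# M3U: exponentials and logarithms modulo 9, the mirror map at `q^3`, the discriminant term
-/

set_option autoImplicit false

namespace KPInt

open PowerSeries

lemma m3u_ok : OKrs 3 0 0 := Or.inl ⟨by norm_num, rfl, rfl⟩

/-- `exp(u) ≡ 1 + u mod 9` for `u ∈ 3` -/
lemma ex_mod9 {u : ℚ⟦X⟧} (hu : constantCoeff u = 0) (h : SDv 3 1 u) : SDv 3 2 (ex u - 1 - u) := by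
  intro n
  rw [map_sub, map_sub, coeff_ex hu]
  rcases n with _ | n
  · have h1 : coeff 0 u = 0 := by rw [coeff_zero_eq_constantCoeff_apply, hu]
    have e : ∑ k ∈ Finset.range (0 + 1), (1 / (k.factorial : ℚ)) * coeff 0 (u ^ k) -
        coeff 0 (1 : ℚ⟦X⟧) - coeff 0 u = 0 := by
      rw [h1]; simp
    rw [e]; exact Dv.zero
  · rw [Finset.sum_range_succ', Finset.sum_range_succ']
    have e : ∑ k ∈ Finset.range n, (1 / (((k + 1 + 1).factorial : ℕ) : ℚ)) *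
        coeff (n + 1) (u ^ (k + 1 + 1)) +
        1 / (((0 + 1).factorial : ℕ) : ℚ) * coeff (n + 1) (u ^ (0 + 1)) +
        1 / ((Nat.factorial 0 : ℕ) : ℚ) * coeff (n + 1) (u ^ 0) -
        coeff (n + 1) (1 : ℚ⟦X⟧) - coeff (n + 1) u =
        ∑ k ∈ Finset.range n, (1 / (((k + 1 + 1).factorial : ℕ) : ℚ)) *
        coeff (n + 1) (u ^ (k + 1 + 1)) := by
      simp
    rw [e]
    apply Dv.sum
    intro k _
    have h1 := pow_fact (p := 3) (r := 0) (s := 0) m3u_ok h (j := k + 1 + 1) (by omega) (n + 1)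
    rwa [coeff_C_mul] at h1

private lemma m3u_div {k : ℕ} (hk : 2 ≤ k) {x : ℚ} (hx : Dv 3 k x) : Dv 3 2 (x / (k : ℚ)) := by
  obtain ⟨y, hy, hxy⟩ := Dv.iff_exists.1 hx
  obtain ⟨e, m, hm, h⟩ := Nat.exists_eq_pow_mul_and_not_dvd (by omega : k ≠ 0) 3 (by norm_num)
  have hm0 : 1 ≤ m := by
    rcases Nat.eq_zero_or_pos m with h0 | h0
    · rw [h0] at h; omega
    · exact h0
  have he : e + 2 ≤ k := by
    rcases Nat.eq_zero_or_pos e with h0 | h0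
    · omega
    · have h1 : e + 2 ≤ 3 ^ e := by
        obtain ⟨f, rfl⟩ : ∃ f, e = f + 1 := ⟨e - 1, by omega⟩
        clear * -
        induction f with
        | zero => norm_num
        | succ f ih => rw [pow_succ]; omega
      calc e + 2 ≤ 3 ^ e := h1
        _ ≤ 3 ^ e * m := Nat.le_mul_of_pos_right _ hm0
        _ = k := h.symm
  have h6 := (Dv_ppow_div (p := 3) hm (by omega : e ≤ k)).mono (by omega : 2 ≤ k - e)
  rw [← h] at h6
  have e1 : x / (k : ℚ) = ((3 : ℕ) : ℚ) ^ k / (k : ℚ) * y := by rw [hxy]; ring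
  rw [e1]
  exact h6.mul_right hy

/-- `log(1 + u) ≡ u mod 9` for `u ∈ 3` -/
lemma log_mod9 {u : ℚ⟦X⟧} (hu : constantCoeff u = 0) (h : SDv 3 1 u) :
    SDv 3 2 (logOf (1 + u) - u) := by
  intro n
  rw [map_sub, coeff_logOf hu]
  rcases n with _ | n
  · have h1 : coeff 0 u = 0 := by rw [coeff_zero_eq_constantCoeff_apply, hu]
    rw [h1]
    simp
    exact Dv.zero
  · rw [Finset.sum_range_succ', Finset.sum_range_succ']
    have e : ∑ k ∈ Finset.range n, (if k + 1 + 1 = 0 then (0 : ℚ) else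
        (-1 : ℚ) ^ (k + 1 + 1 + 1) / ((k + 1 + 1 : ℕ) : ℚ)) * coeff (n + 1) (u ^ (k + 1 + 1)) +
        (if 0 + 1 = 0 then (0 : ℚ) else (-1 : ℚ) ^ (0 + 1 + 1) / ((0 + 1 : ℕ) : ℚ)) *
          coeff (n + 1) (u ^ (0 + 1)) +
        (if 0 = 0 then (0 : ℚ) else (-1 : ℚ) ^ (0 + 1) / ((0 : ℕ) : ℚ)) *
          coeff (n + 1) (u ^ 0) - coeff (n + 1) u =
        ∑ k ∈ Finset.range n, (-1 : ℚ) ^ (k + 1 + 1 + 1) *
          (coeff (n + 1) (u ^ (k + 1 + 1)) / ((k + 1 + 1 : ℕ) : ℚ)) := by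
      have e1 : ∀ k ∈ Finset.range n, (if k + 1 + 1 = 0 then (0 : ℚ) else
        (-1 : ℚ) ^ (k + 1 + 1 + 1) / ((k + 1 + 1 : ℕ) : ℚ)) * coeff (n + 1) (u ^ (k + 1 + 1)) =
        (-1 : ℚ) ^ (k + 1 + 1 + 1) *
          (coeff (n + 1) (u ^ (k + 1 + 1)) / ((k + 1 + 1 : ℕ) : ℚ)) := by
        intro k _
        rw [if_neg (by omega)]
        ring
      rw [Finset.sum_congr rfl e1]
      simp
    rw [e]
    apply Dv.sum
    intro k _
    have h1 := h.pow (k + 1 + 1) (n + 1)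
    rw [one_mul] at h1
    exact ((Dv.one.neg).pow0 _).mul_left (m3u_div (by omega) h1)

variable {B : ℕ → ℚ⟦X⟧} {Z : ℚ⟦X⟧}

/-- `u = D / (3 V I1)` -/
noncomputable def uu (B : ℕ → ℚ⟦X⟧) : ℚ⟦X⟧ := D3' B * (VV 3 (I1 B))⁻¹

lemma uu_int (hI : SDv 3 0 (I1 B)) (hD : SDv 3 1 (DD 3 B)) : SDv 3 0 (uu B) :=
  hD.third.mul_left (hI.VV.inv (by rw [constantCoeff_VV, cc_I1]))

private lemma m3u_tq : tq B (gg B) = 1 - (I1 B)⁻¹ := by
  have h1 : th (gg B) = I1 B - 1 := by rw [I1]; ring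
  have h2 : I1 B * (I1 B)⁻¹ = 1 := PowerSeries.mul_inv_cancel _ (by rw [cc_I1]; exact one_ne_zero)
  rw [tq, h1]
  linear_combination h2

/-- `3 g(z) - g(z(q^3)) ≡ D / V I1 mod 9` -/
lemma m3u_delta (hB : OKB B) (hZ : IsInv B Z) (hI : SDv 3 0 (I1 B)) (hD : SDv 3 1 (DD 3 B)) :
    SDv 3 2 (C 3 * gg B - Ph B (VV 3 (sb Z (gg B))) - C 3 * uu B) := by
  have hG : Ph B (sb Z (gg B)) = gg B := Ph_sbZ hZ (gg B)
  set Gc : ℚ⟦X⟧ := sb Z (gg B) with hGc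
  have hVI : VV 3 (I1 B)⁻¹ = (VV 3 (I1 B))⁻¹ := VV_inv _ (by rw [cc_I1]; exact one_ne_zero)
  have hint : SDv 3 0 (tq B (gg B)) := by
    rw [m3u_tq]; exact SDv.one.sub (hI.inv (cc_I1 B))
  have e0 : C 3 * gg B - Ph B (VV 3 Gc) - C 3 * uu B =
      -(Ph B (VV 3 Gc) - VV 3 (gg B) - DD 3 B * VV 3 (tq B (gg B))) := by
    have h3 : C 3 * uu B = DD 3 B * (VV 3 (I1 B))⁻¹ := by
      rw [uu, C3_D3']; ring
    have hDD : DD 3 B = C ((3 : ℕ) : ℚ) * gg B - VV 3 (gg B) := rfl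
    rw [h3, m3u_tq, VV_sub, VV_one, hVI]
    have hc : (C ((3 : ℕ) : ℚ) : ℚ⟦X⟧) = C 3 := by norm_num
    rw [hc] at hDD
    linear_combination (-1 : ℚ⟦X⟧) * hDD
  rw [e0]
  apply SDv.neg
  intro m
  rw [map_sub, map_sub, taylor hB Gc m, hG]
  rcases m with _ | m
  · have h1 : coeff 0 (DD 3 B * VV 3 (tq B (gg B))) = 0 := by
      rw [coeff_zero_eq_constantCoeff_apply, map_mul, cc_DD hB, zero_mul]
    rw [h1]
    simp
    exact Dv.zero
  · rw [Finset.sum_range_succ', Finset.sum_range_succ']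
    have e3 : C (1 / ((Nat.factorial 0 : ℕ) : ℚ)) * DD 3 B ^ 0 * VV 3 ((tq B)^[0] (gg B)) =
        VV 3 (gg B) := by simp
    have e4 : C (1 / (((0 + 1).factorial : ℕ) : ℚ)) * DD 3 B ^ (0 + 1) *
        VV 3 ((tq B)^[0 + 1] (gg B)) = DD 3 B * VV 3 (tq B (gg B)) := by simp
    rw [e3, e4]
    have e5 : ∀ a b c : ℚ, a + b + c - c - b = a := fun a b c => by ring
    rw [e5]
    apply Dv.sum
    intro k _
    have h1 := pow_fact (p := 3) (r := 0) (s := 0) m3u_ok hD (j := k + 1 + 1) (by omega)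
    have h2 : SDv 3 0 ((tq B)^[k + 1 + 1] (gg B)) := by
      rw [Function.iterate_succ_apply]
      exact tq_iter_int hI hint _
    exact (h1.mul_right h2.VV) (m + 1)

lemma Ph_U (B : ℕ → ℚ⟦X⟧) (x : ℚ) (f : ℚ⟦X⟧) :
    Ph B (f - C x * VV 3 f) = Ph B f - C x * Ph B (VV 3 f) := by
  have hqq := constantCoeff_qq B
  unfold Ph
  rw [sb_sub hqq, sb_mul hqq, sb_C hqq]

/-- the reduction of `g - g(z(q^3))/3` -/
lemma m3u_U (hB : OKB B) (hZ : IsInv B Z) (hI : SDv 3 0 (I1 B)) (hD : SDv 3 1 (DD 3 B)) :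
    SDv 3 1 (Ph B (sb Z (gg B) - C (1 / 3) * VV 3 (sb Z (gg B))) - uu B) := by
  have h := (m3u_delta hB hZ hI hD).third
  have e : C (1 / 3) * (C 3 * gg B - Ph B (VV 3 (sb Z (gg B))) - C 3 * uu B) =
      Ph B (sb Z (gg B) - C (1 / 3) * VV 3 (sb Z (gg B))) - uu B := by
    have hG : Ph B (sb Z (gg B)) = gg B := Ph_sbZ hZ (gg B)
    have h3 : (C (1 / 3) * C 3 : ℚ⟦X⟧) = 1 := by rw [← map_mul]; norm_num
    rw [Ph_U, hG]
    linear_combination (gg B - uu B) * h3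
  rwa [e] at h

/-- `z(q^3) = z^3 exp(3 g(z) - g(z(q^3)))` -/
lemma m3u_z3 (hB : OKB B) (hZ : IsInv B Z) :
    Ph B (VV 3 Z) = X ^ 3 * ex (C 3 * gg B - Ph B (VV 3 (sb Z (gg B)))) := by
  have hqq := constantCoeff_qq B
  have hg0 := cc_gg hB
  set gq := sb Z (gg B) with hgq
  have hgq0 : constantCoeff gq = 0 := by rw [hgq, constantCoeff_sb hZ.c0, hg0]
  -- `q = Z exp(gq)`
  have h1 : Z * ex gq = X := by
    have h := hZ.right
    rw [qq, sb_mul hZ.c0, sb_X hZ.c0, ← ex_sb hg0 hZ.c0] at h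
    exact h
  have h2 : VV 3 Z * ex (VV 3 gq) = X ^ 3 := by
    rw [ex_VV hgq0, ← VV_mul, h1, VV_X]
  have hV0 : constantCoeff (VV 3 gq) = 0 := by rw [constantCoeff_VV, hgq0]
  have h3 : Ph B (VV 3 Z) * ex (Ph B (VV 3 gq)) = qq B ^ 3 := by
    have h := congrArg (sb (qq B)) h2
    rw [sb_mul hqq, sb_pow hqq, sb_X hqq, ← ex_sb hV0 hqq] at h
    exact h
  have hP0 : constantCoeff (Ph B (VV 3 gq)) = 0 := by rw [Ph, constantCoeff_sb hqq, hV0]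
  have hd0 : constantCoeff (C 3 * gg B - Ph B (VV 3 gq)) = 0 := by
    rw [map_sub, map_mul, hg0, hP0]; simp
  have h4 : qq B ^ 3 = X ^ 3 * (ex (C 3 * gg B - Ph B (VV 3 gq)) * ex (Ph B (VV 3 gq))) := by
    rw [← ex_add hd0 hP0]
    have e : C 3 * gg B - Ph B (VV 3 gq) + Ph B (VV 3 gq) = C ((3 : ℕ) : ℚ) * gg B := by
      rw [sub_add_cancel]; norm_num
    rw [e, ex_pow hg0, qq]
    ring
  have hne : ex (Ph B (VV 3 gq)) ≠ 0 := by
    intro h0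
    have h5 := constantCoeff_ex hP0
    rw [h0, map_zero] at h5
    exact zero_ne_one h5
  apply mul_right_cancel₀ hne
  rw [h3, h4]
  ring

/-- `z(q^3) ≡ z^3 (1 + 3 u) mod 9` -/
lemma m3u_z3_mod (hB : OKB B) (hZ : IsInv B Z) (hI : SDv 3 0 (I1 B)) (hD : SDv 3 1 (DD 3 B)) :
    SDv 3 2 (Ph B (VV 3 Z) - X ^ 3 * (1 + C 3 * uu B)) := by
  have hqq := constantCoeff_qq B
  have hg0 := cc_gg hB
  have hd := m3u_delta hB hZ hI hD
  set δ := C 3 * gg B - Ph B (VV 3 (sb Z (gg B))) with hδ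
  have hd0 : constantCoeff δ = 0 := by
    rw [hδ, map_sub, map_mul, hg0, Ph, constantCoeff_sb hqq, constantCoeff_VV,
      constantCoeff_sb hZ.c0, hg0]
    simp
  have hd1 : SDv 3 1 δ := by
    have h1 := (hd.mono (show 1 ≤ 2 by norm_num)).add ((uu_int hI hD).three)
    rwa [sub_add_cancel] at h1
  have h1 := ex_mod9 hd0 hd1
  rw [m3u_z3 hB hZ, ← hδ]
  have e : X ^ 3 * ex δ - X ^ 3 * (1 + C 3 * uu B) =
      X ^ 3 * ((ex δ - 1 - δ) + (δ - C 3 * uu B)) := by ring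
  rw [e]
  exact (SDv.X.pow0 3).mul_left (h1.add hd)

/-- the discriminant term -/
lemma m3u_disc (hB : OKB B) (hZ : IsInv B Z) (hI : SDv 3 0 (I1 B)) (hD : SDv 3 1 (DD 3 B))
    {c : ℚ} (hc : Dv 3 0 c) (hc3 : Dv 3 1 (c - c ^ 3)) :
    ∃ R : ℚ⟦X⟧, SDv 3 0 R ∧
      SDv 3 1 (Ph B (sb Z (logOf (1 - C c * X)) - C (1 / 3) * VV 3 (sb Z (logOf (1 - C c * X)))) -
        R) ∧
      SDv 3 1 ((1 - C c * X ^ 3) * R - (-(C c * X) + C c ^ 2 * X ^ 2 + C ((c - c ^ 3) / 3) * X ^ 3 +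
        C c * uu B * X ^ 3)) := by
  have hqq := constantCoeff_qq B
  have hΔ0 : constantCoeff (1 - C c * X : ℚ⟦X⟧) = 1 := by simp
  set Δ : ℚ⟦X⟧ := 1 - C c * X with hΔ
  have hCc : SDv 3 0 (C c : ℚ⟦X⟧) := SDv.C hc
  set z3 := Ph B (VV 3 Z) with hz3
  have hz3' := m3u_z3_mod hB hZ hI hD
  rw [← hz3] at hz3'
  have huu := uu_int hI hD
  have hz30 : constantCoeff z3 = 0 := by
    rw [hz3, Ph, constantCoeff_sb hqq, constantCoeff_VV, hZ.c0]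
  have hz3i : SDv 3 0 z3 := by
    have h1 : SDv 3 0 (X ^ 3 * (1 + C 3 * uu B)) :=
      (SDv.X.pow0 3).mul_left (SDv.one.add ((SDv.three huu).mono (by norm_num)))
    have h2 := (hz3'.mono (Nat.zero_le 2)).add h1
    rwa [sub_add_cancel] at h2
  set E : ℚ⟦X⟧ := 1 - C c * z3 with hE
  have hE0 : constantCoeff E = 1 := by rw [hE]; simp [hz30]
  have hEne : constantCoeff E ≠ 0 := by rw [hE0]; exact one_ne_zero
  have hEi : SDv 3 0 E := SDv.one.sub (hCc.mul_left hz3i)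
  have hEinv : SDv 3 0 E⁻¹ := hEi.inv hE0
  -- `(z3 - X^3)/3`
  have hy : SDv 3 1 (C (1 / 3) * (z3 - X ^ 3) - X ^ 3 * uu B) := by
    have h1 := hz3'.third
    have e : C (1 / 3) * (z3 - X ^ 3 * (1 + C 3 * uu B)) =
        C (1 / 3) * (z3 - X ^ 3) - X ^ 3 * uu B := by
      have h3 : (C (1 / 3) * C 3 : ℚ⟦X⟧) = 1 := by rw [← map_mul]; norm_num
      linear_combination (-(X ^ 3 * uu B)) * h3
    rwa [e] at h1
  have hyi : SDv 3 0 (C (1 / 3) * (z3 - X ^ 3)) := by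
    have h1 := (hy.mono (Nat.zero_le 1)).add ((SDv.X.pow0 3).mul_left huu)
    rwa [sub_add_cancel] at h1
  -- `T = (Δ^3 - E)/3`
  set T : ℚ⟦X⟧ := -(C c * X) + C c ^ 2 * X ^ 2 + C ((c - c ^ 3) / 3) * X ^ 3 +
    C c * (C (1 / 3) * (z3 - X ^ 3)) with hT
  have hk : SDv 3 0 (C ((c - c ^ 3) / 3) : ℚ⟦X⟧) := SDv.C (Dv_div3 hc3)
  have hTi : SDv 3 0 T :=
    ((((hCc.mul_left SDv.X).neg).add ((hCc.pow0 2).mul_left (SDv.X.pow0 2))).add
      (hk.mul_left (SDv.X.pow0 3))).add (hCc.mul_left hyi)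
  have hTE : Δ ^ 3 - E = C 3 * T := by
    have h3 : (C 3 * C (1 / 3) : ℚ⟦X⟧) = 1 := by rw [← map_mul]; norm_num
    have h4 : (C ((c - c ^ 3) / 3) : ℚ⟦X⟧) = C (1 / 3) * (C c - C c ^ 3) := by
      rw [← map_pow, ← map_sub, ← map_mul]; congr 1; ring
    have h5 : (C 3 : ℚ⟦X⟧) = 3 := map_ofNat _ 3
    rw [hT, h4, hΔ, hE]
    rw [h5] at h3 ⊢
    linear_combination (-(C c - C c ^ 3) * X ^ 3 - C c * (z3 - X ^ 3)) * h3
  refine ⟨T * E⁻¹, hTi.mul_left hEinv, ?_, ?_⟩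
  · -- the logarithm
    have hsZ : sb Z Δ = 1 - C c * Z := by
      rw [hΔ, sb_sub hZ.c0, sb_one hZ.c0, sb_mul hZ.c0, sb_C hZ.c0, sb_X hZ.c0]
    have hsZ0 : constantCoeff (sb Z Δ) = 1 := by rw [constantCoeff_sb hZ.c0, hΔ0]
    have hV : Ph B (VV 3 (sb Z (logOf Δ))) = logOf E := by
      rw [← logOf_sb hΔ0 hZ.c0, ← logOf_VV hsZ0, Ph,
        ← logOf_sb (by rw [constantCoeff_VV, hsZ0]) hqq, hsZ, VV_sub, VV_one, VV_mul, VV_C,
        sb_sub hqq, sb_one hqq, sb_mul hqq, sb_C hqq]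
      rfl
    rw [Ph_U, Ph_sbZ hZ, hV]
    have hD0 : constantCoeff (Δ ^ 3) = 1 := by rw [map_pow, hΔ0, one_pow]
    have hEi0 : constantCoeff E⁻¹ = 1 := by rw [constantCoeff_inv, hE0, inv_one]
    have h1 : C ((3 : ℕ) : ℚ) * logOf Δ - logOf E = logOf (Δ ^ 3 * E⁻¹) := by
      rw [logOf_mul hD0 hEi0, logOf_pow hΔ0, logOf_inv hE0, sub_eq_add_neg]
    have hy1 : Δ ^ 3 * E⁻¹ = 1 + C 3 * (T * E⁻¹) := by
      have h2 : E * E⁻¹ = 1 := PowerSeries.mul_inv_cancel _ hEne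
      linear_combination E⁻¹ * hTE + h2
    have hu0 : constantCoeff (C 3 * (T * E⁻¹)) = 0 := by
      have h2 := congrArg constantCoeff hy1
      rw [map_mul, hD0, hEi0, map_add, map_one, one_mul] at h2
      linarith
    have h2 := (log_mod9 hu0 (hTi.mul_left hEinv).three).third
    rw [← hy1, ← h1] at h2
    have e : C (1 / 3) * (C ((3 : ℕ) : ℚ) * logOf Δ - logOf E - C 3 * (T * E⁻¹)) =
        logOf Δ - C (1 / 3) * logOf E - T * E⁻¹ := by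
      have h3 : (C (1 / 3) * C 3 : ℚ⟦X⟧) = 1 := by rw [← map_mul]; norm_num
      have h4 : (C ((3 : ℕ) : ℚ) : ℚ⟦X⟧) = C 3 := by norm_num
      rw [h4]
      linear_combination (logOf Δ - T * E⁻¹) * h3
    rwa [e] at h2
  · have h2 : E * E⁻¹ = 1 := PowerSeries.mul_inv_cancel _ hEne
    have e : (1 - C c * X ^ 3) * (T * E⁻¹) - (-(C c * X) + C c ^ 2 * X ^ 2 +
        C ((c - c ^ 3) / 3) * X ^ 3 + C c * uu B * X ^ 3) =
        C c * (C (1 / 3) * (z3 - X ^ 3) - X ^ 3 * uu B) +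
        C c * ((z3 - X ^ 3) * (T * E⁻¹)) := by
      have e1 : (1 - C c * X ^ 3) * (T * E⁻¹) = T + C c * ((z3 - X ^ 3) * (T * E⁻¹)) := by
        have e2 : (1 - C c * X ^ 3 : ℚ⟦X⟧) = E + C c * (z3 - X ^ 3) := by rw [hE]; ring
        rw [e2]
        linear_combination T * h2
      rw [e1, hT]
      ring
    rw [e]
    have h3 : SDv 3 1 (z3 - X ^ 3) := by
      have h4 := hyi.three
      rwa [m3_C3] at h4
    exact (hCc.mul_left hy).add (hCc.mul_left (h3.mul_right (hTi.mul_left hEinv)))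

end KPInt
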