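import Pool.Agent.Lib.KPInt.P2W

/-!
# P2Ha: p = 2, X25 and X233: K^2 = 1 - 4z mod 16, (1+O)^2 = 1 - 4Z mod 16

Setting: `a = [2,5]` or `[2,3,3]`, `B' = Bs (-1) (Bj a)` (here `sgt 2 a = -1`), `K' = KK B'`, etc.,
`Z'` inverse of the mirror map of `B'`, `G' = rescale (-1) Gc`, `ν~ = nut ν`. `c = disc a`
(12500 or 2916), `c - 4 ∈ 16 ℤ`.

PROOFS.
* `Kid'`: apply `rescale (-1)` to `K_identity_types` (`KK_Bs`, `Lj_Bs`, `I1_Bs`).
* `Ksq`: `L0' - 1 ∈ 8` gives `L0'² - 1 = (L0'-1)(2 + (L0'-1)) ∈ 16`; `I1' - 1 ∈ 4` gives `I1'² - 1 ∈ 8`,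
  `I1'^4 - 1 ∈ 16`; so with `P = L0'² I1'^4`, `P - 1 ∈ 16` and `(1 + cX) K'² P = 1`. Hence
  `(1 + cX) K'² - 1 = (1+cX) K'² (1 - P) ∈ 16`, and `(1 + cX)(1 - 4X) - 1 = (c-4) X - 4 c X² ∈ 16`, so
  `(1 + cX)(K'² - (1 - 4X)) ∈ 16`; divide by the unit `1 + cX` (`SDv.of_mul_left`).
* `thK`: `θ(K'²) = 2 K' θK'`, so `2 K' θK' + 4X ∈ 16`, `K' θK' + 2X ∈ 8` (cancel 2: `Dv.of_p_mul`
  coefficientwise). `K' - 1 ∈ 2` implies `θK' ∈ 2`, `(K' - 1) θK' ∈ 4`. So `θK' - 2X = (K'θK' + 2X) -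
  (K'-1)θK' - 4X ∈ 4`.
* `nut_even`: `nu_int` with `s = 1` for `G'` (`core_two`) and `isNu_nut`.
* `kap_O`: `sb Z' K' = 1 + θ²G'`: `Ph B' (θ² G') = tq (tq (GG B')) = K' - 1` (`tq_Ph`, `Ph_Bs`, `GG_Bs`) and
  `sbZ_Ph`. Coefficient `n ≥ 1` of `θ² G'`: `n² ∑ ν~_d (d/n)² = ∑_{d∣n} ν~_d d²`. Subtract
  `∑_{d∣n, d odd} ν~_d`: odd `d`: `ν~_d (d² - 1) ∈ 2·8`; `d` even: `ν~_d d² ∈ 2·4`. So the difference is in 8.
* `main_O`: with `O = C 2 * O1`, `κ = sb Z' K'`: `κ² - (1 - 4Z') = sb Z' (K'² - (1 - 4X)) ∈ 16`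
  (`SDv_sbZ`; `qq B'` integral by `core_two`), `(1+O)² - κ² = (1 + O - κ)(1 + O + κ)`, first factor in 8,
  second in 2 (`O ∈ 2`, `κ - 1 ∈ 2`). So `4 (O1 + O1² + Z') ∈ 16`.
-/

set_option autoImplicit false

namespace KPInt

open PowerSeries

/-- the two hard types -/
def hard (a : List ℕ) : Prop := a = [2, 5] ∨ a = [2, 3, 3]

lemma hard_types {a : List ℕ} (ha : hard a) : a ∈ types := by
  rcases ha with rfl | rfl <;> simp [types]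

lemma hard_sgt {a : List ℕ} (ha : hard a) : sgt 2 a = -1 := by
  rcases ha with rfl | rfl
  · exact sgt_vals.2.1
  · exact sgt_vals.2.2.2.2.1

lemma hard_disc {a : List ℕ} (ha : hard a) : Dv 2 4 ((disc a : ℚ) - 4) := by
  rcases ha with rfl | rfl
  · rw [data_25.2.2.2.2]
    exact ⟨781, 1, by norm_num, by norm_num⟩
  · rw [data_233.2.2.2.2]
    exact ⟨182, 1, by norm_num, by norm_num⟩

lemma Kid' {a : List ℕ} (ha : hard a) :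
    (1 + C (disc a : ℚ) * X) * KK (Bs (-1) (Bj a)) ^ 2 * Lj (Bs (-1) (Bj a)) 0 ^ 2 *
      I1 (Bs (-1) (Bj a)) ^ 4 = 1 := by
  have h := congrArg (rescale (-1 : ℚ)) (K_identity_types (hard_types ha))
  rw [map_mul, map_mul, map_mul, map_sub, map_mul, map_pow, map_pow, map_pow, map_one,
    rescale_C, rescale_X, ← KK_Bs, ← Lj_Bs, ← I1_Bs] at h
  have e : (C (-1 : ℚ) : ℚ⟦X⟧) = -1 := by simp
  rw [e] at h
  linear_combination h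

private lemma P2Ha_two {a : List ℕ} (ha : hard a) :
    SDv 2 2 (I1 (Bs (-1) (Bj a)) - 1) ∧ SDv 2 0 (qq (Bs (-1) (Bj a))) ∧
      SDv 2 1 (KK (Bs (-1) (Bj a)) - 1) := by
  obtain ⟨Z, hZ⟩ := exists_inv (Bj_OKB a)
  obtain ⟨-, h2, -, h4, h5, -⟩ := core_two (hard_types ha) (sb Z (GG (Bj a))) (Ph_sbZ hZ _)
  rw [hard_sgt ha] at h2 h4 h5
  exact ⟨h2, h4, h5⟩

private lemma P2Ha_L0 {a : List ℕ} (ha : hard a) : SDv 2 3 (Lj (Bs (-1) (Bj a)) 0 - 1) := by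
  have h := SDv_rescale (σ := -1) (Or.inr rfl) (L0_two (hard_types ha))
  rw [map_sub, map_one, ← Lj_Bs] at h
  exact h

private lemma P2Ha_int {f : ℚ⟦X⟧} {k : ℕ} (h : SDv 2 k (f - 1)) : SDv 2 0 f := by
  have h1 := (h.mono (Nat.zero_le k)).add SDv.one
  rwa [sub_add_cancel] at h1

private lemma P2Ha_num (k : ℕ) (z : ℤ) {x : ℚ} (h : x = 2 ^ k * z) : Dv 2 k x :=
  ⟨z, 1, by norm_num, by rw [h]; push_cast; ring⟩

private lemma P2Ha_C2 : (C (2 : ℚ) : ℚ⟦X⟧) = 2 := map_ofNat C 2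

private lemma P2Ha_C4 : (C (4 : ℚ) : ℚ⟦X⟧) = 4 := map_ofNat C 4

private lemma P2Ha_sq {f : ℚ⟦X⟧} {k : ℕ} (hk : 1 ≤ k) (h : SDv 2 k (f - 1)) :
    SDv 2 (k + 1) (f ^ 2 - 1) := by
  have e : f ^ 2 - 1 = (f - 1) * (C 2 + (f - 1)) := by
    rw [P2Ha_C2]
    ring
  rw [e]
  exact h.mul ((SDv.C (P2Ha_num 1 1 (by norm_num))).add (h.mono hk))

lemma Ksq {a : List ℕ} (ha : hard a) :
    SDv 2 4 (KK (Bs (-1) (Bj a)) ^ 2 - (1 - C 4 * X)) := by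
  obtain ⟨hI, hq, hK⟩ := P2Ha_two ha
  have hL := P2Ha_L0 ha
  have hid := Kid' ha
  set K := KK (Bs (-1) (Bj a)) with hKd
  set L := Lj (Bs (-1) (Bj a)) 0 with hLd
  set I := I1 (Bs (-1) (Bj a)) with hId
  have hL2 : SDv 2 4 (L ^ 2 - 1) := P2Ha_sq (by norm_num) hL
  have hI2 : SDv 2 3 (I ^ 2 - 1) := P2Ha_sq (by norm_num) hI
  have hI4 : SDv 2 4 ((I ^ 2) ^ 2 - 1) := P2Ha_sq (by norm_num) hI2
  have hK0 : SDv 2 0 K := P2Ha_int hK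
  have hL0 : SDv 2 0 L := P2Ha_int hL
  have hc0 : Dv 2 0 (disc a : ℚ) := Dv.nat _
  have hu : SDv 2 0 (1 + C (disc a : ℚ) * X) := SDv.one.add ((SDv.C hc0).mul_left SDv.X)
  have hP : SDv 2 4 (L ^ 2 * (I ^ 2) ^ 2 - 1) := by
    have e : L ^ 2 * (I ^ 2) ^ 2 - 1 = L ^ 2 * ((I ^ 2) ^ 2 - 1) + (L ^ 2 - 1) := by ring
    rw [e]
    exact (SDv.mul_left (hL0.pow0 2) hI4).add hL2
  have h1 : (1 + C (disc a : ℚ) * X) * (K ^ 2 - (1 - C 4 * X)) =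
      -((1 + C (disc a : ℚ) * X) * K ^ 2 * (L ^ 2 * (I ^ 2) ^ 2 - 1)) -
        (C ((disc a : ℚ) - 4) * X - C (disc a : ℚ) * (C 4 * (X * X)) + 0) := by
    rw [map_sub]
    linear_combination hid
  have h2 : SDv 2 4 (C (disc a : ℚ) * (C 4 * (X * X)) : ℚ⟦X⟧) := by
    have h3 : Dv 2 2 (disc a : ℚ) := by
      have h4 := ((hard_disc ha).mono (show 2 ≤ 4 by norm_num)).add (P2Ha_num 2 1 (x := 4) (by norm_num))
      rwa [sub_add_cancel] at h4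
    exact SDv.mul (SDv.C h3) (SDv.mul_right (SDv.C (P2Ha_num 2 1 (by norm_num))) (SDv.X.mul_left SDv.X))
  have h5 : SDv 2 4 ((1 + C (disc a : ℚ) * X) * (K ^ 2 - (1 - C 4 * X))) := by
    rw [h1, add_zero]
    exact ((SDv.mul_left (hu.mul_left (hK0.pow0 2)) hP).neg).sub
      (((SDv.C (hard_disc ha)).mul_right SDv.X).sub h2)
  exact SDv.of_mul_left hu (by simp) h5

private lemma P2Ha_half {k : ℕ} {f : ℚ⟦X⟧} (h : SDv 2 (k + 1) (C 2 * f)) : SDv 2 k f := by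
  intro n
  apply Dv.of_p_mul (p := 2)
  have h1 := h n
  rw [coeff_C_mul] at h1
  exact h1

lemma thK {a : List ℕ} (ha : hard a) :
    SDv 2 2 (th (KK (Bs (-1) (Bj a))) - C 2 * X) := by
  obtain ⟨hI, hq, hK⟩ := P2Ha_two ha
  have hs := (Ksq ha).th
  set K := KK (Bs (-1) (Bj a)) with hKd
  have e1 : th (K ^ 2 - (1 - C 4 * X)) = C 2 * (K * th K + C 2 * X) := by
    rw [pow_two, th_sub, th_sub, th_mul, th_C_mul, th_X, th_one, P2Ha_C2, P2Ha_C4]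
    ring
  rw [e1] at hs
  have h1 : SDv 2 3 (K * th K + C 2 * X) := P2Ha_half hs
  have h2 : SDv 2 1 (th K) := by
    have h3 := hK.th
    rwa [th_sub, th_one, sub_zero] at h3
  have h3 : SDv 2 2 ((K - 1) * th K) := hK.mul h2
  have h4 : SDv 2 2 (C 4 * X : ℚ⟦X⟧) := (SDv.C (P2Ha_num 2 1 (by norm_num))).mul_right SDv.X
  have e2 : th K - C 2 * X = (K * th K + C 2 * X) - (K - 1) * th K - C 4 * X := by
    rw [P2Ha_C2, P2Ha_C4]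
    ring
  rw [e2]
  exact ((h1.mono (by norm_num)).sub h3).sub h4

/-- half of the odd part of `N~` -/
noncomputable def O1 (nt : ℕ → ℚ) : ℚ⟦X⟧ :=
  mk fun n => ∑ d ∈ n.divisors, (if d % 2 = 1 then nt d / 2 else 0)

variable {a : List ℕ} {Gc : ℚ⟦X⟧} {ν : ℕ → ℚ} {Z' : ℚ⟦X⟧}

lemma nut_even (ha : hard a) (hG : Ph (Bj a) Gc = GG (Bj a)) (hν : IsNu Gc ν) :
    ∀ d, 1 ≤ d → Dv 2 1 (nut ν d) := by
  obtain ⟨-, -, -, -, -, h⟩ := core_two (hard_types ha) Gc hG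
  rw [hard_sgt ha] at h
  exact nu_int (p := 2) (s := 1) (by simpa using h) (isNu_nut hν)

lemma O1_int (ha : hard a) (hG : Ph (Bj a) Gc = GG (Bj a)) (hν : IsNu Gc ν) :
    SDv 2 0 (O1 (nut ν)) := by
  intro n
  unfold O1
  rw [coeff_mk]
  refine Dv.sum _ _ fun d hd => ?_
  split_ifs with h
  · apply Dv.of_p_mul (p := 2)
    have h1 : ((2 : ℕ) : ℚ) * (nut ν d / 2) = nut ν d := by
      push_cast
      ring
    rw [h1]
    exact nut_even ha hG hν d (Nat.pos_of_mem_divisors hd)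
  · exact Dv.zero

private lemma P2Ha_kap (ha : hard a) (hG : Ph (Bj a) Gc = GG (Bj a))
    (hZ' : IsInv (Bs (-1) (Bj a)) Z') :
    sb Z' (KK (Bs (-1) (Bj a))) = 1 + th (th (rescale (-1) Gc)) := by
  have hB : OKB (Bs (-1) (Bj a)) := OKB_Bs _ _ (Bj_OKB a)
  have h1 : Ph (Bs (-1) (Bj a)) (rescale (-1) Gc) = GG (Bs (-1) (Bj a)) := by
    rw [Ph_Bs _ _ (Bj_OKB a), hG, GG_Bs]
  have h2 : Ph (Bs (-1) (Bj a)) (th (th (rescale (-1) Gc))) = KK (Bs (-1) (Bj a)) - 1 := by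
    rw [← tq_Ph _ (cc_gg hB), ← tq_Ph _ (cc_gg hB), h1, KK]
    ring
  have h3 : KK (Bs (-1) (Bj a)) = 1 + Ph (Bs (-1) (Bj a)) (th (th (rescale (-1) Gc))) := by
    rw [h2]
    ring
  rw [h3, sb_add hZ'.c0, sb_one hZ'.c0, sbZ_Ph hZ']

lemma kap_O (ha : hard a) (hG : Ph (Bj a) Gc = GG (Bj a)) (hν : IsNu Gc ν)
    (hZ' : IsInv (Bs (-1) (Bj a)) Z') :
    SDv 2 3 (sb Z' (KK (Bs (-1) (Bj a))) - (1 + C 2 * O1 (nut ν))) := by
  rw [P2Ha_kap ha hG hZ']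
  intro n
  have e : 1 + th (th (rescale (-1) Gc)) - (1 + C 2 * O1 (nut ν)) =
      th (th (rescale (-1) Gc)) - C 2 * O1 (nut ν) := by ring
  rw [e, map_sub, coeff_th, coeff_th, coeff_C_mul, O1, coeff_mk]
  rcases Nat.eq_zero_or_pos n with h0 | hn
  · subst h0
    simpa using Dv.zero
  · have hn0 : (n : ℚ) ≠ 0 := by positivity
    rw [(isNu_nut hν).2 n hn, Finset.mul_sum, Finset.mul_sum, Finset.mul_sum,
      ← Finset.sum_sub_distrib]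
    refine Dv.sum _ _ fun d hd => ?_
    have hnut := nut_even ha hG hν d (Nat.pos_of_mem_divisors hd)
    rcases Nat.mod_two_eq_zero_or_one d with h2 | h2
    · obtain ⟨m, rfl⟩ := Nat.dvd_of_mod_eq_zero h2
      rw [if_neg (by omega)]
      have e1 : (n : ℚ) * (n * (nut ν (2 * m) * (((2 * m : ℕ) : ℚ) / n) ^ 2)) - 2 * 0 =
          nut ν (2 * m) * (4 * (m : ℚ) ^ 2) := by
        push_cast
        field_simp
        ring
      rw [e1]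
      exact hnut.mul ((P2Ha_num 2 1 (by norm_num)).mul_right (Dv.pow0 (Dv.nat m) 2))
    · rw [if_pos h2]
      obtain ⟨m, hm⟩ : ∃ m, d = 2 * m + 1 := ⟨d / 2, by omega⟩
      have e1 : (n : ℚ) * (n * (nut ν d * ((d : ℚ) / n) ^ 2)) - 2 * (nut ν d / 2) =
          nut ν d * (4 * ((m : ℚ) * (m + 1))) := by
        have hd' : (d : ℚ) = 2 * m + 1 := by rw [hm]; push_cast; ring
        rw [hd']
        field_simp
        ring
      rw [e1]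
      exact hnut.mul ((P2Ha_num 2 1 (by norm_num)).mul_right
        ((Dv.nat m).mul_left ((Dv.nat m).add Dv.one)))

theorem main_O (ha : hard a) (hG : Ph (Bj a) Gc = GG (Bj a)) (hν : IsNu Gc ν)
    (hZ' : IsInv (Bs (-1) (Bj a)) Z') :
    SDv 2 2 (O1 (nut ν) + O1 (nut ν) ^ 2 + Z') := by
  obtain ⟨-, hq, -⟩ := P2Ha_two ha
  have hB : OKB (Bs (-1) (Bj a)) := OKB_Bs _ _ (Bj_OKB a)
  have h1 := SDv_sbZ hB hZ' hq (Ksq ha)
  rw [sb_sub hZ'.c0, sb_pow hZ'.c0, sb_sub hZ'.c0, sb_one hZ'.c0, sb_mul hZ'.c0, sb_C hZ'.c0,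
    sb_X hZ'.c0] at h1
  have h2 := kap_O ha hG hν hZ'
  have hO := O1_int ha hG hν
  set κ := sb Z' (KK (Bs (-1) (Bj a))) with hκ
  set O := O1 (nut ν) with hOd
  have h3 : SDv 2 1 (κ + (1 + C 2 * O)) := by
    have e : κ + (1 + C 2 * O) = (κ - (1 + C 2 * O)) + C 2 * (1 + C 2 * O) := by
      rw [P2Ha_C2]
      ring
    rw [e]
    have hC2 : SDv 2 1 (C 2 : ℚ⟦X⟧) := SDv.C (P2Ha_num 1 1 (by norm_num))
    exact (h2.mono (by norm_num)).add (hC2.mul_right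
      (SDv.one.add ((hC2.mono (by norm_num)).mul_left hO)))
  have h4 : SDv 2 4 ((κ - (1 + C 2 * O)) * (κ + (1 + C 2 * O))) := h2.mul h3
  have h5 := h1.sub h4
  have e : κ ^ 2 - (1 - C 4 * Z') - (κ - (1 + C 2 * O)) * (κ + (1 + C 2 * O)) =
      C 4 * (O + O ^ 2 + Z') := by
    rw [P2Ha_C2, P2Ha_C4]
    ring
  rw [e] at h5
  intro n
  have h6 := h5 n
  rw [coeff_C_mul] at h6
  have h7 : Dv 2 (2 + 2) (((2 : ℕ) : ℚ) ^ 2 * coeff n (O + O ^ 2 + Z')) := by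
    have e2 : (((2 : ℕ) : ℚ) ^ 2) = 4 := by norm_num
    rw [e2]
    exact h6
  exact Dv.ppow_mul_iff.mp h7

end KPInt
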