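import Pool.Agent.Lib.KPInt.P2Ha

/-!
# P2Hb: p = 2, X25 and X233: N~ = 2Z mod 4

Setting as in P2Ha. `R := C (2²) G' - V G'`, `Ph B' R = 4 GG B' - Ph B' (V G') =: RZ`.

PROOFS.
* `ga_h` (`h` from `frel_two`, `σ = -1`, for a given `n`; below `N = n`; or for all degrees, since
  `bounds_g`, `ga_bound` hold for all `N`): all `γ(X^k)` integral, in `2` for `k ≥ 3` (`bounds_g` with
  `r = 2`, `s = 1`). `γ(h_0) ≡ 4 γ(X³) mod 16`: `γ(h_0) = ∑_{k≥2} h_{0,k} γ(X^k)` (`ga_sum`, `γ(1) = γ(X) = 0`);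
  `h_0 ≡ F mod 2^6`, `F_2 = 0`, `F_3 ≡ 4 c3 ≡ 4 mod 8` (`c3 [2,5] = 21`, `c3 [2,3,3] = 9`), `F_k ∈ 8` for
  `k ≥ 4`, and `8 γ(X^k) ∈ 16` for `k ≥ 3`. `γ(h_1) ≡ 8 mod 16`: `h_1 ∈ 8`, so the terms `k ≥ 3` are in 16;
  the coefficient `h_{1,2} ≡ -Num_2 ≡ -8 ≡ 8 mod 16` (`Num_mod_25`, `Num_mod_233`), and
  `γ(X²) = I1'² K' L0' ≡ 1 mod 2`.
* `ga_X3`: `γ(X³) = θ(I²KL) + I K β(X²)`, `β(X²) = θ(I L) + I θL` (`be_X`, `be_X1`, `al_X`, `al_one`), with
  `I - 1 ∈ 4`, `L - 1 ∈ 8` (`I = I1'`, `L = L0'`): `β(X²) ∈ 4`, `I²KL - K ∈ 4`, so `γ(X³) ≡ θK ≡ 2X mod 4` (`thK`).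
* `RZ_mod`: by `relRZ` (for every `n`): `L0' RZ ≡ ∑_{c<2} X^c V γ(h_c) mod 16` below `2n`: `D ∈ 2^3`, so
  `(D²/2) ∈ 2^5` and `D^j/j! ∈ 2^(3j - (j-1)) ⊂ 2^7` for `j ≥ 3` (use `pow_fact` with `(r,s) = (2,2)`:
  `D^j/j! ∈ 2^4` for all `j ≥ 2`), `KK`, `tq^[j-2] KK` integral. So
  `L0' RZ ≡ V(4·2X) + X·V(8) = 8 X² + 8 X mod 16` (`4 γ(X³) ≡ 8X mod 16`), and as `L0' ≡ 1 mod 8`,
  `RZ ≡ 8X + 8X² mod 16`.
* `R_mod`: transport by `sb Z'` (`sbZ_Ph`, `SDv_sbZ`).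
* `Nt_mod`: coefficient `n ≥ 1` of `R` is `4 ∑_{d∣n, n/d odd} ν~_d (d/n)²` (see `nu_int`), that of
  `4 (N~ - V N~)`, `N~ = Nq ν~`, is `4 ∑_{d∣n, n/d odd} ν~_d`; for odd `m`, `1/m² - 1 ∈ 8`. So
  `4(N~ - VN~) - R ∈ 2^4`, `(N~ - V N~) - 2Z' - 2Z'² ∈ 4`. Since `V Z' ≡ Z'² mod 2` (`SDv.frob`),
  `f := N~ - 2Z'` satisfies `f - Vf ∈ 4` and `f(0) = 0`, hence `f ∈ 4` (`of_sub_VV`).
-/

set_option autoImplicit false

namespace KPInt

open PowerSeries

lemma of_sub_VV {p : ℕ} [hp : Fact p.Prime] {k : ℕ} {f : ℚ⟦X⟧} (h0 : constantCoeff f = 0)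
    (h : SDv p k (f - VV p f)) : SDv p k f := by
  intro n
  induction n using Nat.strong_induction_on with
  | _ n ih =>
    rcases Nat.eq_zero_or_pos n with hn | hn
    · subst hn
      rw [coeff_zero_eq_constantCoeff_apply, h0]
      exact Dv.zero
    · have h1 := h n
      rw [map_sub, coeff_VV] at h1
      split_ifs at h1 with h2
      · have h3 := ih (n / p) (Nat.div_lt_self hn hp.out.one_lt)
        have h4 := h1.add h3
        rwa [sub_add_cancel] at h4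
      · rwa [sub_zero] at h1

variable {a : List ℕ} {Gc : ℚ⟦X⟧} {ν : ℕ → ℚ} {Z' : ℚ⟦X⟧}

private lemma P2Hb_two : Dv 2 1 (2 : ℚ) := by
  have := Dv.p_self (p := 2)
  exact_mod_cast this

private lemma P2Hb_pow (k : ℕ) : Dv 2 k ((2 : ℚ) ^ k) := by
  have := Dv.ppow (p := 2) k
  exact_mod_cast this

private lemma P2Hb_four : Dv 2 2 (4 : ℚ) := by
  have := P2Hb_pow 2
  norm_num at this
  exact this

private lemma P2Hb_eight : Dv 2 3 (8 : ℚ) := by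
  have := P2Hb_pow 3
  norm_num at this
  exact this

/-- the data of the twisted jets -/
private structure P2Hb_D (a : List ℕ) : Prop where
  okb : OKB (Bs (-1) (Bj a))
  D : SDv 2 3 (DD 2 (Bs (-1) (Bj a)))
  I : SDv 2 2 (I1 (Bs (-1) (Bj a)) - 1)
  q : SDv 2 0 (qq (Bs (-1) (Bj a)))
  K : SDv 2 1 (KK (Bs (-1) (Bj a)) - 1)
  L : SDv 2 3 (Lj (Bs (-1) (Bj a)) 0 - 1)
  I0 : SDv 2 0 (I1 (Bs (-1) (Bj a)))
  K0 : SDv 2 0 (KK (Bs (-1) (Bj a)))
  L0 : SDv 2 0 (Lj (Bs (-1) (Bj a)) 0)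

private lemma P2Hb_int {k : ℕ} {f : ℚ⟦X⟧} (h : SDv 2 k (f - 1)) : SDv 2 0 f := by
  have h1 := (h.mono (Nat.zero_le k)).add SDv.one
  rwa [sub_add_cancel] at h1

private lemma P2Hb_data (ha : hard a) : P2Hb_D a := by
  have hB : OKB (Bs (-1) (Bj a)) := OKB_Bs _ _ (Bj_OKB a)
  obtain ⟨Z, hZ⟩ := exists_inv (Bj_OKB a)
  have hc := core_two (hard_types ha) (sb Z (GG (Bj a))) (Ph_sbZ hZ _)
  rw [hard_sgt ha] at hc
  obtain ⟨h1, h2, h3, h4, h5, h6⟩ := hc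
  have hL : SDv 2 3 (Lj (Bs (-1) (Bj a)) 0 - 1) := by
    have h7 := SDv_rescale (σ := -1) (Or.inr rfl) (L0_two (hard_types ha))
    rw [map_sub, map_one] at h7
    rw [Lj_Bs]
    exact h7
  exact ⟨hB, h1, h2, h4, h5, hL, P2Hb_int h2, P2Hb_int h5, P2Hb_int hL⟩

private lemma P2Hb_I2L (d : P2Hb_D a) :
    SDv 2 2 (I1 (Bs (-1) (Bj a)) ^ 2 * Lj (Bs (-1) (Bj a)) 0 - 1) := by
  have e : I1 (Bs (-1) (Bj a)) ^ 2 * Lj (Bs (-1) (Bj a)) 0 - 1 =
      (I1 (Bs (-1) (Bj a)) - 1) * ((I1 (Bs (-1) (Bj a)) + 1) * Lj (Bs (-1) (Bj a)) 0) +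
        (Lj (Bs (-1) (Bj a)) 0 - 1) := by ring
  rw [e]
  exact (d.I.mul_right ((d.I0.add SDv.one).mul_left d.L0)).add (d.L.mono (by norm_num))

private lemma P2Hb_beX2 (d : P2Hb_D a) : SDv 2 2 (be (Bs (-1) (Bj a)) (Polynomial.X ^ 2)) := by
  have h1 : be (Bs (-1) (Bj a)) (Polynomial.X ^ 2) =
      th (I1 (Bs (-1) (Bj a)) * Lj (Bs (-1) (Bj a)) 0 - 1) +
        I1 (Bs (-1) (Bj a)) * th (Lj (Bs (-1) (Bj a)) 0 - 1) := by
    rw [pow_two, be_X, be_X1 d.okb, th_sub, th_one, sub_zero, th_sub, th_one, sub_zero]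
    have h2 : al (Bs (-1) (Bj a)) Polynomial.X = th (Lj (Bs (-1) (Bj a)) 0) := by
      have h3 := al_X (B := Bs (-1) (Bj a)) 1
      rwa [mul_one, al_one] at h3
    rw [h2]
  rw [h1]
  have e : I1 (Bs (-1) (Bj a)) * Lj (Bs (-1) (Bj a)) 0 - 1 =
      (I1 (Bs (-1) (Bj a)) - 1) * Lj (Bs (-1) (Bj a)) 0 + (Lj (Bs (-1) (Bj a)) 0 - 1) := by ring
  rw [e]
  exact ((d.I.mul_right d.L0).add (d.L.mono (by norm_num))).th.add
    (d.I0.mul_left (d.L.mono (by norm_num)).th)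

lemma ga_X3 (ha : hard a) : SDv 2 2 (ga (Bs (-1) (Bj a)) (Polynomial.X ^ 3) - C 2 * X) := by
  have d := P2Hb_data ha
  have h1 : ga (Bs (-1) (Bj a)) (Polynomial.X ^ 3) - C 2 * X =
      th (KK (Bs (-1) (Bj a)) * (I1 (Bs (-1) (Bj a)) ^ 2 * Lj (Bs (-1) (Bj a)) 0 - 1)) +
      (th (KK (Bs (-1) (Bj a))) - C 2 * X) +
      I1 (Bs (-1) (Bj a)) * KK (Bs (-1) (Bj a)) *
        be (Bs (-1) (Bj a)) (Polynomial.X ^ 2) := by
    rw [pow_succ' Polynomial.X 2, ga_X d.okb, ga_X2 d.okb, mul_sub, mul_one, th_sub]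
    have e : KK (Bs (-1) (Bj a)) * (I1 (Bs (-1) (Bj a)) ^ 2 * Lj (Bs (-1) (Bj a)) 0) =
        I1 (Bs (-1) (Bj a)) ^ 2 * KK (Bs (-1) (Bj a)) * Lj (Bs (-1) (Bj a)) 0 := by ring
    rw [e]
    ring
  rw [h1]
  exact (((d.K0.mul_left (P2Hb_I2L d)).th).add (thK ha)).add
    ((d.I0.mul_left d.K0).mul_left (P2Hb_beX2 d))

private lemma P2Hb_gaX (d : P2Hb_D a) (k : ℕ) :
    SDv 2 0 (ga (Bs (-1) (Bj a)) (Polynomial.X ^ k)) ∧
      (3 ≤ k → SDv 2 1 (ga (Bs (-1) (Bj a)) (Polynomial.X ^ k))) := by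
  have h := fun N => bounds_g (N := N) d.okb (p := 2) (r := 2) (s := 1) (by norm_num) d.L0
    (d.L.mono (by norm_num)) (d.I.t N) (d.K.t N) k
  exact ⟨SDv.of fun N => (h N).1, fun hk => SDv.of fun N => (h N).2 hk⟩

private lemma P2Hb_gaS (d : P2Hb_D a) {f : Polynomial ℚ} (h2 : Dv 2 4 (f.coeff 2))
    (h3 : ∀ k, 3 ≤ k → Dv 2 3 (f.coeff k)) : SDv 2 4 (ga (Bs (-1) (Bj a)) f) := by
  rw [ga_sum]
  apply SDv.sum
  intro k _
  rcases Nat.lt_or_ge k 3 with hk | hk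
  · interval_cases k
    · rw [pow_zero, ga_one d.okb, mul_zero]
      exact SDv.zero
    · rw [pow_one, ga_X1 d.okb, mul_zero]
      exact SDv.zero
    · exact (SDv.C h2).mul_right (P2Hb_gaX d 2).1
  · exact (SDv.C (h3 k hk)).mul ((P2Hb_gaX d k).2 hk)

private lemma P2Hb_ga_add (B : ℕ → ℚ⟦X⟧) (f g : Polynomial ℚ) :
    ga B (f + g) = ga B f + ga B g := by
  unfold ga be
  rw [SS_add, SS_add, SS_add]
  ring

private lemma P2Hb_ga_C (B : ℕ → ℚ⟦X⟧) (x : ℚ) (f : Polynomial ℚ) :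
    ga B (Polynomial.C x * f) = C x * ga B f := by
  unfold ga be
  rw [SS_C_mul, SS_C_mul, SS_C_mul]
  ring

private lemma P2Hb_c3 (ha : hard a) : Dv 2 4 (4 * c3 a - 4) := by
  rcases ha with rfl | rfl
  · have h := (P2Hb_pow 4).mul_right (Dv.nat (p := 2) 5)
    have e : (4 * c3 [2, 5] - 4 : ℚ) = 2 ^ 4 * ((5 : ℕ) : ℚ) := by
      simp [c3]; norm_num
    rw [e]; exact h
  · have h := (P2Hb_pow 4).mul_right (Dv.nat (p := 2) 2)
    have e : (4 * c3 [2, 3, 3] - 4 : ℚ) = 2 ^ 4 * ((2 : ℕ) : ℚ) := by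
      simp [c3]; norm_num
    rw [e]; exact h

private lemma P2Hb_num (ha : hard a) : Dv 2 4 ((Num a 2 1).coeff 2 - 8) := by
  rcases ha with rfl | rfl
  · have h := Num_mod_25 2
    simpa [Polynomial.coeff_X, Polynomial.coeff_C_mul, Polynomial.coeff_X_pow] using h
  · have h := Num_mod_233 2
    simpa [Polynomial.coeff_X, Polynomial.coeff_C_mul, Polynomial.coeff_X_pow,
      Polynomial.coeff_C] using h

private lemma P2Hb_h0 (ha : hard a) {F h0 : Polynomial ℚ} (hF2 : F.coeff 2 = 0)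
    (hF : PDv 2 3 (F - 1 - Polynomial.C (4 * c3 a) * Polynomial.X ^ 3)) (hh : PDv 2 6 (h0 - F)) :
    SDv 2 4 (ga (Bs (-1) (Bj a)) h0 - C 8 * X) := by
  have d := P2Hb_data ha
  have hs : SDv 2 4 (ga (Bs (-1) (Bj a))
      (h0 + Polynomial.C (-(4 * c3 a)) * Polynomial.X ^ 3)) := by
    apply P2Hb_gaS d
    · have h1 := (hh 2).mono (show 4 ≤ 6 by norm_num)
      rw [Polynomial.coeff_sub, hF2, sub_zero] at h1
      have e : (h0 + Polynomial.C (-(4 * c3 a)) * Polynomial.X ^ 3).coeff 2 = h0.coeff 2 := by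
        rw [Polynomial.coeff_add, Polynomial.coeff_C_mul, Polynomial.coeff_X_pow]
        simp
      rw [e]; exact h1
    · intro k hk
      have h1 := ((hh k).mono (show 3 ≤ 6 by norm_num)).add (hF k)
      have e : (h0 + Polynomial.C (-(4 * c3 a)) * Polynomial.X ^ 3).coeff k =
          (h0 - F).coeff k + (F - 1 - Polynomial.C (4 * c3 a) * Polynomial.X ^ 3).coeff k := by
        rw [Polynomial.coeff_add, Polynomial.coeff_sub, Polynomial.coeff_sub,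
          Polynomial.coeff_sub, Polynomial.coeff_C_mul, Polynomial.coeff_C_mul,
          Polynomial.coeff_one, if_neg (by omega)]
        ring
      rw [e]; exact h1
  rw [P2Hb_ga_add, P2Hb_ga_C] at hs
  have e : ga (Bs (-1) (Bj a)) h0 - C 8 * X =
      (ga (Bs (-1) (Bj a)) h0 + C (-(4 * c3 a)) * ga (Bs (-1) (Bj a)) (Polynomial.X ^ 3)) +
      C (4 * c3 a - 4) * ga (Bs (-1) (Bj a)) (Polynomial.X ^ 3) +
      C 4 * (ga (Bs (-1) (Bj a)) (Polynomial.X ^ 3) - C 2 * X) := by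
    have e1 : (C (4 * c3 a - 4) : ℚ⟦X⟧) = C (4 * c3 a) - C 4 := map_sub _ _ _
    have e2 : (C (-(4 * c3 a)) : ℚ⟦X⟧) = -C (4 * c3 a) := map_neg _ _
    have e3 : (C 4 * C 2 : ℚ⟦X⟧) = C 8 := by rw [← map_mul]; norm_num
    rw [e1, e2]
    linear_combination X * e3
  rw [e]
  exact (hs.add ((SDv.C (P2Hb_c3 ha)).mul_right (P2Hb_gaX d 3).1)).add
    ((SDv.C P2Hb_four).mul (ga_X3 ha))

private lemma P2Hb_h1 (ha : hard a) {h1 : Polynomial ℚ} (h3 : PDv 2 3 h1)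
    (hN : PDv 2 4 (h1 - Polynomial.C (-1) * Num a 2 1)) :
    SDv 2 4 (ga (Bs (-1) (Bj a)) h1 - C 8) := by
  have d := P2Hb_data ha
  have hs : SDv 2 4 (ga (Bs (-1) (Bj a)) (h1 + Polynomial.C (-8) * Polynomial.X ^ 2)) := by
    apply P2Hb_gaS d
    · have h2 := hN 2
      rw [Polynomial.coeff_sub, Polynomial.coeff_C_mul] at h2
      have h4 := (h2.sub (P2Hb_num ha)).sub (P2Hb_pow 4)
      have e : (h1 + Polynomial.C (-8) * Polynomial.X ^ 2).coeff 2 =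
          h1.coeff 2 - -1 * (Num a 2 1).coeff 2 - ((Num a 2 1).coeff 2 - 8) - 2 ^ 4 := by
        rw [Polynomial.coeff_add, Polynomial.coeff_C_mul, Polynomial.coeff_X_pow]
        norm_num
        ring
      rw [e]; exact h4
    · intro k hk
      have e : (h1 + Polynomial.C (-8) * Polynomial.X ^ 2).coeff k = h1.coeff k := by
        rw [Polynomial.coeff_add, Polynomial.coeff_C_mul, Polynomial.coeff_X_pow,
          if_neg (by omega)]
        ring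
      rw [e]; exact h3 k
  rw [P2Hb_ga_add, P2Hb_ga_C] at hs
  have hg : SDv 2 1 (ga (Bs (-1) (Bj a)) (Polynomial.X ^ 2) - 1) := by
    rw [ga_X2 d.okb]
    have e : I1 (Bs (-1) (Bj a)) ^ 2 * KK (Bs (-1) (Bj a)) * Lj (Bs (-1) (Bj a)) 0 - 1 =
        KK (Bs (-1) (Bj a)) * (I1 (Bs (-1) (Bj a)) ^ 2 * Lj (Bs (-1) (Bj a)) 0 - 1) +
          (KK (Bs (-1) (Bj a)) - 1) := by ring
    rw [e]
    exact (d.K0.mul_left ((P2Hb_I2L d).mono (by norm_num))).add d.K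
  have e : ga (Bs (-1) (Bj a)) h1 - C 8 =
      (ga (Bs (-1) (Bj a)) h1 + C (-8) * ga (Bs (-1) (Bj a)) (Polynomial.X ^ 2)) +
      C 8 * (ga (Bs (-1) (Bj a)) (Polynomial.X ^ 2) - 1) := by
    have e2 : (C (-8) : ℚ⟦X⟧) = -C 8 := map_neg _ _
    rw [e2]
    ring
  rw [e]
  exact hs.add ((SDv.C P2Hb_eight).mul hg)

private lemma P2Hb_tq (d : P2Hb_D a) (i : ℕ) :
    SDv 2 0 ((tq (Bs (-1) (Bj a)))^[i] (KK (Bs (-1) (Bj a)))) := by
  induction i with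
  | zero => exact d.K0
  | succ i ih =>
    rw [Function.iterate_succ_apply']
    exact ih.th.mul_left (d.I0.inv (cc_I1 _))

private lemma P2Hb_G (hG : Ph (Bj a) Gc = GG (Bj a)) :
    Ph (Bs (-1) (Bj a)) (rescale (-1) Gc) = GG (Bs (-1) (Bj a)) := by
  rw [Ph_Bs _ _ (Bj_OKB a), hG, GG_Bs]

theorem RZ_mod (ha : hard a) (hG : Ph (Bj a) Gc = GG (Bj a)) :
    SDv 2 4 (C ((2 : ℚ) ^ 2) * GG (Bs (-1) (Bj a)) -
      Ph (Bs (-1) (Bj a)) (VV 2 (rescale (-1) Gc)) - (C 8 * X + C 8 * X ^ 2)) := by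
  have d := P2Hb_data ha
  have hrs : OKrs 2 2 2 := Or.inr ⟨rfl, by norm_num, le_rfl⟩
  set RZ := C ((2 : ℚ) ^ 2) * GG (Bs (-1) (Bj a)) -
      Ph (Bs (-1) (Bj a)) (VV 2 (rescale (-1) Gc)) with hRZ
  have hmain : ∀ n : ℕ, TDv 2 4 (2 * n)
      (Lj (Bs (-1) (Bj a)) 0 * RZ - (C 8 * X + C 8 * X ^ 2)) := by
    intro n
    obtain ⟨F, h, hrel, ⟨-, hF2⟩, hF, hh0, hh1, hh2⟩ := frel_two (hard_types ha) n
    rw [hard_sgt ha] at hrel hh2
    have hr := relRZ d.okb hrel.rel (rescale (-1) Gc) (P2Hb_G hG)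
    have hr2 : ((2 : ℕ) : ℚ) = 2 := by norm_num
    rw [hr2, ← hRZ] at hr
    have g0 := P2Hb_h0 ha hF2 hF hh0
    have g1 := P2Hb_h1 ha hh1 hh2
    have hsum : SDv 2 4 (∑ c ∈ Finset.range 2, X ^ c * VV 2 (ga (Bs (-1) (Bj a)) (h c)) -
        (C 8 * X + C 8 * X ^ 2)) := by
      have v0 := g0.VV
      have v1 := g1.VV
      rw [VV_sub, VV_mul, VV_C, VV_X] at v0
      rw [VV_sub, VV_C] at v1
      have e : ∑ c ∈ Finset.range 2, X ^ c * VV 2 (ga (Bs (-1) (Bj a)) (h c)) -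
          (C 8 * X + C 8 * X ^ 2) =
          (VV 2 (ga (Bs (-1) (Bj a)) (h 0)) - C 8 * X ^ 2) +
            X * (VV 2 (ga (Bs (-1) (Bj a)) (h 1)) - C 8) := by
        rw [Finset.sum_range_succ, Finset.sum_range_one, pow_zero, pow_one]
        ring
      rw [e]
      exact v0.add (SDv.X.mul_left v1)
    have hrest : SDv 2 4 (Lj (Bs (-1) (Bj a)) 0 * (C (1 / 2) * DD 2 (Bs (-1) (Bj a)) ^ 2 *
        VV 2 (KK (Bs (-1) (Bj a))) +
          ∑ j ∈ Finset.Ico 3 (2 * n + 1), C (1 / (j.factorial : ℚ)) *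
            DD 2 (Bs (-1) (Bj a)) ^ j *
            VV 2 ((tq (Bs (-1) (Bj a)))^[j - 2] (KK (Bs (-1) (Bj a)))))) := by
      apply SDv.mul_left d.L0
      apply SDv.add
      · have h5 := pow_fact hrs d.D (j := 2) le_rfl
        have e : (1 / ((2 : ℕ).factorial : ℚ)) = 1 / 2 := by norm_num [Nat.factorial]
        rw [e] at h5
        exact h5.mul_right d.K0.VV
      · apply SDv.sum
        intro j hj
        rw [Finset.mem_Ico] at hj
        exact (pow_fact hrs d.D (j := j) (by omega)).mul_right (P2Hb_tq d (j - 2)).VV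
    have hfin := (hsum.sub hrest).t (2 * n)
    intro m hm
    have h6 := hr m hm
    have h7 := hfin m hm
    rw [map_sub, map_sub] at h7
    rw [map_sub] at h6
    rw [map_sub, h6]
    have e : ∀ x y z : ℚ, x - y - z = x - z - y := fun x y z => by ring
    rw [e]
    exact h7
  have hall : SDv 2 4 (Lj (Bs (-1) (Bj a)) 0 * RZ - (C 8 * X + C 8 * X ^ 2)) := by
    intro m
    exact hmain (m + 1) m (by omega)
  have h8 : SDv 2 4 (Lj (Bs (-1) (Bj a)) 0 * (RZ - (C 8 * X + C 8 * X ^ 2))) := by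
    have e : Lj (Bs (-1) (Bj a)) 0 * (RZ - (C 8 * X + C 8 * X ^ 2)) =
        (Lj (Bs (-1) (Bj a)) 0 * RZ - (C 8 * X + C 8 * X ^ 2)) -
          (Lj (Bs (-1) (Bj a)) 0 - 1) * (C 8 * (X + X ^ 2)) := by ring
    rw [e]
    refine hall.sub ?_
    have h9 : SDv 2 3 (C 8 * (X + X ^ 2) : ℚ⟦X⟧) :=
      (SDv.C P2Hb_eight).mul_right (SDv.X.add (SDv.X.pow0 2))
    exact (d.L.mul h9).mono (by norm_num)
  exact d.L0.of_mul_left (cc_L0 d.okb) h8

theorem R_mod (ha : hard a) (hG : Ph (Bj a) Gc = GG (Bj a)) (hZ' : IsInv (Bs (-1) (Bj a)) Z') :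
    SDv 2 4 (C ((2 : ℚ) ^ 2) * rescale (-1) Gc - VV 2 (rescale (-1) Gc) -
      (C 8 * Z' + C 8 * Z' ^ 2)) := by
  have d := P2Hb_data ha
  have h1 := SDv_sbZ d.okb hZ' d.q (RZ_mod ha hG)
  rw [sb_sub hZ'.c0, sb_sub hZ'.c0, sb_mul hZ'.c0, sb_C hZ'.c0, sbZ_Ph hZ', ← P2Hb_G hG,
    sbZ_Ph hZ', sb_add hZ'.c0, sb_mul hZ'.c0, sb_mul hZ'.c0, sb_C hZ'.c0, sb_pow hZ'.c0,
    sb_X hZ'.c0] at h1
  exact h1

private lemma P2Hb_odd {m : ℕ} (hm : m % 2 = 1) : Dv 2 3 (1 - (1 / (m : ℚ)) ^ 2) := by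
  have hm0 : (m : ℚ) ≠ 0 := by
    intro h
    have : m = 0 := by exact_mod_cast h
    omega
  have hcop : Nat.Coprime m 2 := by
    rw [Nat.coprime_comm, Nat.coprime_two_left]
    exact Nat.odd_iff.mpr hm
  obtain ⟨j, hj⟩ : ∃ j, m = 2 * j + 1 := ⟨m / 2, by omega⟩
  obtain ⟨i, hi⟩ : ∃ i, j * (j + 1) = 2 * i := by
    have := Nat.even_mul_succ_self j
    obtain ⟨i, hi⟩ := this
    exact ⟨i, by rw [hi]; ring⟩
  have h8 : ((m : ℚ) ^ 2 - 1) = 2 ^ 3 * (i : ℚ) := by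
    have hi' : (j : ℚ) * (j + 1) = 2 * i := by exact_mod_cast hi
    rw [hj]
    push_cast
    linear_combination 4 * hi'
  have e : (1 - (1 / (m : ℚ)) ^ 2) = (2 ^ 3 * (i : ℚ)) * ((m : ℚ)⁻¹) ^ 2 := by
    rw [← h8]
    field_simp
  rw [e]
  exact ((P2Hb_pow 3).mul_right (Dv.nat i)).mul_right ((Dv.inv_nat hcop).pow0 2)

private lemma P2Hb_cover {Gc : ℚ⟦X⟧} {ν : ℕ → ℚ} (hν : IsNu Gc ν)
    (hint : ∀ d, 1 ≤ d → Dv 2 0 (ν d)) :
    SDv 2 4 (C 4 * (Nq ν - VV 2 (Nq ν)) - (C ((2 : ℚ) ^ 2) * Gc - VV 2 Gc)) := by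
  intro n
  rcases Nat.eq_zero_or_pos n with hn | hn
  · subst hn
    have h1 : constantCoeff (Nq ν) = 0 := by
      rw [← coeff_zero_eq_constantCoeff_apply, Nq, coeff_mk]
      simp
    rw [coeff_zero_eq_constantCoeff_apply, map_sub, map_mul, map_sub, map_sub, map_mul,
      constantCoeff_VV, constantCoeff_VV, h1, hν.1]
    simpa using Dv.zero
  · have hn0 : (n : ℚ) ≠ 0 := by positivity
    -- the divisors with odd cofactor
    set S := n.divisors.filter fun d => (n / d) % 2 = 1 with hS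
    have key : ∀ g : ℕ → ℚ, ∑ d ∈ n.divisors, g d -
        (if 2 ∣ n then ∑ d ∈ (n / 2).divisors, g d else 0) = ∑ d ∈ S, g d := by
      intro g
      by_cases h2 : 2 ∣ n
      · rw [if_pos h2]
        have h3 : (n / 2).divisors = n.divisors.filter fun d => ¬ (n / d) % 2 = 1 := by
          ext e
          rw [Nat.mem_divisors, Finset.mem_filter, Nat.mem_divisors]
          obtain ⟨k, rfl⟩ := h2
          rw [Nat.mul_div_cancel_left k (by norm_num)]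
          constructor
          · rintro ⟨⟨l, rfl⟩, h5⟩
            have he : 0 < e := Nat.pos_of_ne_zero (by rintro rfl; simp at h5)
            refine ⟨⟨⟨2 * l, by ring⟩, by omega⟩, ?_⟩
            have h6 : 2 * (e * l) / e = 2 * l := by
              rw [show 2 * (e * l) = e * (2 * l) by ring, Nat.mul_div_cancel_left _ he]
            rw [h6]
            omega
          · rintro ⟨⟨⟨l, hl⟩, h5⟩, h6⟩
            have he : 0 < e := Nat.pos_of_ne_zero (by rintro rfl; simp at hl; omega)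
            rw [hl, Nat.mul_div_cancel_left _ he] at h6
            refine ⟨⟨l / 2, ?_⟩, by omega⟩
            have h7 : l = 2 * (l / 2) := by omega
            have h8 : 2 * k = 2 * (e * (l / 2)) := by
              rw [hl]
              conv_lhs => rw [h7]
              ring
            omega
        rw [h3, hS, ← Finset.sum_filter_add_sum_filter_not n.divisors
          (fun d => (n / d) % 2 = 1) g]
        ring
      · rw [if_neg h2, sub_zero, hS, Finset.sum_filter_of_ne]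
        intro d hd _
        rw [Nat.mem_divisors] at hd
        obtain ⟨⟨l, hl⟩, h5⟩ := hd
        have he : 0 < d := Nat.pos_of_ne_zero (by rintro rfl; simp at hl; omega)
        rw [hl, Nat.mul_div_cancel_left _ he]
        by_contra h6
        apply h2
        have h7 : l = 2 * (l / 2) := by omega
        exact ⟨d * (l / 2), by rw [hl]; conv_lhs => rw [h7]
                               ring⟩
    have c1 : coeff n (Nq ν - VV 2 (Nq ν)) = ∑ d ∈ S, ν d := by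
      rw [← key, map_sub, coeff_VV, Nq, coeff_mk]
      by_cases h2 : 2 ∣ n
      · rw [if_pos h2, if_pos h2, coeff_mk]
      · rw [if_neg h2, if_neg h2]
    have c2 : coeff n (C ((2 : ℚ) ^ 2) * Gc - VV 2 Gc) =
        4 * ∑ d ∈ S, ν d * ((d : ℚ) / n) ^ 2 := by
      rw [← key, map_sub, coeff_C_mul, coeff_VV, hν.2 n hn]
      by_cases h2 : 2 ∣ n
      · rw [if_pos h2, if_pos h2, hν.2 (n / 2) (Nat.div_pos (Nat.le_of_dvd hn h2) (by norm_num)),
          mul_sub]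
        have e5 : ∑ e ∈ (n / 2).divisors, ν e * ((e : ℚ) / ((n / 2 : ℕ) : ℚ)) ^ 2 =
            4 * ∑ e ∈ (n / 2).divisors, ν e * ((e : ℚ) / n) ^ 2 := by
          rw [Finset.mul_sum]
          apply Finset.sum_congr rfl
          intro e _
          obtain ⟨k, rfl⟩ := h2
          rw [Nat.mul_div_cancel_left k (by norm_num)]
          have hk : (k : ℚ) ≠ 0 := by
            intro h
            apply hn0
            push_cast
            rw [h, mul_zero]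
          push_cast
          field_simp
          ring
        rw [e5]
        norm_num
      · rw [if_neg h2, if_neg h2]
        ring
    rw [map_sub, coeff_C_mul, c1, c2, ← mul_sub, ← Finset.sum_sub_distrib]
    have h9 : Dv 2 3 (∑ d ∈ S, (ν d - ν d * ((d : ℚ) / n) ^ 2)) := by
      apply Dv.sum
      intro e he
      rw [hS, Finset.mem_filter, Nat.mem_divisors] at he
      obtain ⟨⟨⟨l, hl⟩, h5⟩, h6⟩ := he
      have hpos : 0 < e := Nat.pos_of_ne_zero (by rintro rfl; simp at hl; omega)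
      have h6' : l % 2 = 1 := by
        rw [hl, Nat.mul_div_cancel_left _ hpos] at h6
        exact h6
      have he0 : (e : ℚ) ≠ 0 := by positivity
      have hl0 : (l : ℚ) ≠ 0 := by
        intro h
        have : l = 0 := by exact_mod_cast h
        omega
      have e1 : ν e - ν e * ((e : ℚ) / n) ^ 2 = ν e * (1 - (1 / (l : ℚ)) ^ 2) := by
        rw [hl]
        push_cast
        field_simp
      rw [e1]
      exact (hint e hpos).mul_left (P2Hb_odd h6')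
    exact (P2Hb_four.mul h9).mono (by norm_num)

theorem Nt_mod (ha : hard a) (hG : Ph (Bj a) Gc = GG (Bj a)) (hν : IsNu Gc ν)
    (hZ' : IsInv (Bs (-1) (Bj a)) Z') : SDv 2 2 (Nq (nut ν) - C 2 * Z') := by
  have d := P2Hb_data ha
  have h1 := P2Hb_cover (isNu_nut hν)
    (fun e he => (nut_even ha hG hν e he).mono (Nat.zero_le 1))
  have h2 := h1.add (R_mod ha hG hZ')
  have h3 : SDv 2 2 (Nq (nut ν) - VV 2 (Nq (nut ν)) - (C 2 * Z' + C 2 * Z' ^ 2)) := by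
    intro n
    have h4 := h2 n
    have e3 : (C 4 * C 2 : ℚ⟦X⟧) = C 8 := by rw [← map_mul]; norm_num
    have e : C 4 * (Nq (nut ν) - VV 2 (Nq (nut ν))) -
        (C ((2 : ℚ) ^ 2) * rescale (-1) Gc - VV 2 (rescale (-1) Gc)) +
        (C ((2 : ℚ) ^ 2) * rescale (-1) Gc - VV 2 (rescale (-1) Gc) -
          (C 8 * Z' + C 8 * Z' ^ 2)) =
        C 4 * (Nq (nut ν) - VV 2 (Nq (nut ν)) - (C 2 * Z' + C 2 * Z' ^ 2)) := by
      linear_combination (Z' + Z' ^ 2) * e3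
    rw [e, coeff_C_mul] at h4
    have h5 : Dv 2 (2 + 2) (((2 : ℕ) : ℚ) ^ 2 *
        coeff n (Nq (nut ν) - VV 2 (Nq (nut ν)) - (C 2 * Z' + C 2 * Z' ^ 2))) := by
      have e4 : ((2 : ℕ) : ℚ) ^ 2 = 4 := by norm_num
      rw [e4]
      exact h4
    exact Dv.ppow_mul_iff.mp h5
  apply of_sub_VV
  · have h6 : constantCoeff (Nq (nut ν)) = 0 := by
      rw [← coeff_zero_eq_constantCoeff_apply, Nq, coeff_mk]
      simp
    rw [map_sub, map_mul, h6, hZ'.c0]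
    ring
  · have hZ := Z_int d.okb hZ' d.q
    have h7 := hZ.frob
    have e : Nq (nut ν) - C 2 * Z' - VV 2 (Nq (nut ν) - C 2 * Z') =
        (Nq (nut ν) - VV 2 (Nq (nut ν)) - (C 2 * Z' + C 2 * Z' ^ 2)) +
          C 2 * (Z' ^ 2 - VV 2 Z') + C 4 * VV 2 Z' := by
      rw [VV_sub, VV_mul, VV_C]
      have e3 : (C 4 : ℚ⟦X⟧) = C 2 + C 2 := by rw [← map_add]; norm_num
      rw [e3]
      ring
    rw [e]
    exact (h3.add ((SDv.C P2Hb_two).mul h7)).add ((SDv.C P2Hb_four).mul_right hZ.VV)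

end KPInt
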