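import Pool.Agent.Lib.KPInt.P2Hb

/-!
# P2Hc: p = 2, X25 and X233: the congruence modulo 8

Setting as in P2Ha; `Z` inverse for `Bj a`, `Z'` inverse for `B' = Bs (-1) (Bj a)`,
`Z'' := rescale (-1) Z'`, `r := rescale (-1)`, `O = O1 (nut ν)`, `V = VV 2`.

PROOFS.
* `Z_rel`: `rescale_sbZ` with `f = X` (`sb Z X = Z`): `r Z = sb Z' (r X) = -Z'`.
* `Z_even`: `Z' + Z'' ∈ 4`, i.e. the coefficients of `Z'` of even index are even. Let `f = sb Z' (gg B')`.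
  `Z' * ex f = X`: (`sb Z' (qq B') = X`, `qq B' = X * ex (gg B')`, `ex_sb`). `psi_g` for `B'`, `(2,1)`:
  `2f - Vf ∈ 2^3`. So `u := -(1/2) f` has `2u - Vu ∈ 2^2 ⊂ 2`, `dwork_exp`: `ex u` integral; `ex (-f) = (ex u)²
  ≡ V(ex u) mod 2` (`SDv.frob`), so the coefficients of `ex (-f)` of odd index are even, and
  `Z' = X * ex (-f)`.
* `log_mod`: `coeff_logOf` with `u = C c * U`: `k = 1`: `(c - 4) U ∈ 16`; `k = 2`: `c²/2 - 8 ∈ 16`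
  (`c = 4e`, `e² - 1 ∈ 2`: in fact from `c - 4 ∈ 16`: `c² - 16 = (c-4)(c+4) ∈ 2^7`); `k ≥ 3`: `c^k/k ∈ 2^4`
  because `c ∈ 4` and `2k - v_2(k) ≥ k + 1`.
* `Nx`: `r (Nq ν) = Nq (nut ν) - C 3 * V O` from `nut_even_part` (`(3/2) ν~_d = 3 (ν~_d/2)`).
* `final_E`: `E := 2Z'' - 4Z''² - 2(O + O²) + 4 V O + 4 (V O)²` is in 8: `-2(O+O²) ≡ 2Z' mod 8` (`main_O`);
  `VO ≡ O² mod 2` (`SDv.frob`), so `4VO ≡ 4O²`, `4(VO)² ≡ 4O⁴ mod 8`; `4(O² + O⁴) = 4(O+O²)² - 8O³ ≡ 4Z'²`;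
  `Z'' ≡ Z' mod 2` (`r` changes signs) so `-4Z''² + 4Z'² ∈ 8`; remains `2(Z' + Z'') ∈ 8`.
* `p2_hard`: write `sb Z (Wz a) = W1 - Λ`, `W1` as in `p2_W` (`x = chi a - 72`, `y = c3H a` even), `Λ = sb Z (logOf
  (1 - C c X)) = logOf (1 - C c Z)` (`logOf_sb`). Remains `T := -(Λ - (1/2)VΛ) + B - 2VB ∈ 8`; by
  `SDv_rescale_iff` consider `r T`. `r Λ = logOf (1 + C c Z')`, `VΛ = logOf (1 + C c V Z'')`
  (`VZ = -V Z''`, `logOf_VV`), `r (VΛ) = VΛ`. By `log_mod` `r T ≡ -4Z' + 2VZ'' - 4(VZ'')² + r B - 2VB mod 8`.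
  With `κ ≡ 2`, `κ c₂ ≡ -2 mod 8` (`10, 110`, `18, 126`): `r B ≡ -2N_x - 2N_x²`, `N_x = r N`, and
  `2VB ≡ -4VN - 4(VN)²`. `N_x = 2Z' - 3VO + 4t` (`Nx`, `Nt_mod`), so `-2N_x ≡ -4Z' - 2VO`,
  `-2N_x² ≡ -2(VO)²`; `N = r N_x ≡ VO mod 2`, so `4VN ≡ 4V²O`, `4(VN)² ≡ 4(V²O)² mod 8`. Sum:
  `r T ≡ -8Z' + V(E) ≡ 0 mod 8`.
-/

set_option autoImplicit false

namespace KPInt

open PowerSeries

variable {a : List ℕ} {Gc : ℚ⟦X⟧} {ν : ℕ → ℚ} {Z Z' : ℚ⟦X⟧}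

private lemma P2Hc_C2 : (C (2 : ℚ) : ℚ⟦X⟧) = 2 := map_ofNat C 2

private lemma P2Hc_C3 : (C (3 : ℚ) : ℚ⟦X⟧) = 3 := map_ofNat C 3

private lemma P2Hc_C4 : (C (4 : ℚ) : ℚ⟦X⟧) = 4 := map_ofNat C 4

private lemma P2Hc_C8 : (C (8 : ℚ) : ℚ⟦X⟧) = 8 := map_ofNat C 8

private lemma P2Hc_dv (k : ℕ) (z : ℤ) {x : ℚ} (h : x = 2 ^ k * z) : Dv 2 k x :=
  ⟨z, 1, by norm_num, by rw [h]; push_cast; ring⟩

/-- `x * f ∈ 2^m` -/
private lemma P2Hc_mul {k l m : ℕ} {x : ℚ} {f : ℚ⟦X⟧} (hx : Dv 2 k x) (hf : SDv 2 l f)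
    (h : m ≤ k + l) : SDv 2 m (C x * f) := ((SDv.C hx).mul hf).mono h

private lemma P2Hc_half {k : ℕ} {f : ℚ⟦X⟧} (h : SDv 2 (k + 1) f) : SDv 2 k (C (1 / 2) * f) := by
  intro n
  apply Dv.of_p_mul (p := 2)
  rw [coeff_C_mul]
  have e : ((2 : ℕ) : ℚ) * (1 / 2 * coeff n f) = coeff n f := by
    push_cast
    ring
  rw [e]
  exact h n

private lemma P2Hc_int {f : ℚ⟦X⟧} {k : ℕ} (h : SDv 2 k (f - 1)) : SDv 2 0 f := by
  have h1 := (h.mono (Nat.zero_le k)).add SDv.one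
  rwa [sub_add_cancel] at h1

private lemma P2Hc_okb (a : List ℕ) : OKB (Bs (-1) (Bj a)) := OKB_Bs _ _ (Bj_OKB a)

private lemma P2Hc_core (ha : hard a) : SDv 2 3 (DD 2 (Bs (-1) (Bj a))) ∧
    SDv 2 0 (I1 (Bs (-1) (Bj a))) ∧ SDv 2 0 (qq (Bs (-1) (Bj a))) := by
  obtain ⟨Z, hZ⟩ := exists_inv (Bj_OKB a)
  obtain ⟨h1, h2, -, h4, -, -⟩ := core_two (hard_types ha) (sb Z (GG (Bj a))) (Ph_sbZ hZ _)
  rw [hard_sgt ha] at h1 h2 h4
  exact ⟨h1, P2Hc_int h2, h4⟩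

lemma Z_rel (ha : hard a) (hZ : IsInv (Bj a) Z) (hZ' : IsInv (Bs (-1) (Bj a)) Z') :
    rescale (-1) Z = -Z' := by
  have _ := ha
  have h := rescale_sbZ hZ hZ' X
  rw [sb_X hZ.c0, rescale_X, sb_mul hZ'.c0, sb_C hZ'.c0, sb_X hZ'.c0] at h
  have e : (C (-1 : ℚ) : ℚ⟦X⟧) = -1 := by simp
  rw [h, e, neg_one_mul]

lemma Z_even (ha : hard a) (hZ' : IsInv (Bs (-1) (Bj a)) Z') :
    SDv 2 2 (Z' + rescale (-1) Z') := by
  have hB := P2Hc_okb a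
  obtain ⟨hD, hI, hq⟩ := P2Hc_core ha
  have hpsi := psi_g (p := 2) (r := 2) (s := 1) (Or.inr ⟨rfl, by norm_num, by norm_num⟩) hB hZ'
    hD hI hq
  set f := sb Z' (gg (Bs (-1) (Bj a))) with hf
  have hf0 : constantCoeff f = 0 := by rw [hf, constantCoeff_sb hZ'.c0, cc_gg hB]
  have h1 : Z' * ex f = X := by
    have h2 := hZ'.right
    unfold qq at h2
    rw [sb_mul hZ'.c0, sb_X hZ'.c0, ← ex_sb (cc_gg hB) hZ'.c0] at h2
    exact h2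
  set u : ℚ⟦X⟧ := C (-(1 / 2)) * f with hu
  have hu0 : constantCoeff u = 0 := by rw [hu, map_mul, hf0, mul_zero]
  have h2 : C ((2 : ℕ) : ℚ) * u - VV 2 u =
      -(C (1 / 2) * (C ((2 : ℕ) : ℚ) * f - VV 2 f)) := by
    rw [hu, VV_mul, VV_C]
    have e : (C (-(1 / 2) : ℚ) : ℚ⟦X⟧) = -C (1 / 2) := map_neg _ _
    rw [e]
    ring
  have h3 : SDv 2 1 (C ((2 : ℕ) : ℚ) * u - VV 2 u) := by
    rw [h2]
    exact ((P2Hc_half hpsi).mono (by norm_num)).neg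
  have h4 : SDv 2 0 (ex u) := dwork_exp hu0 h3
  have h5 : ex (-f) = ex u ^ 2 := by
    rw [← ex_pow hu0 2]
    congr 1
    rw [hu, ← mul_assoc, ← map_mul]
    have e : (((2 : ℕ) : ℚ) * -(1 / 2)) = -1 := by norm_num
    rw [e]
    have e2 : (C (-1 : ℚ) : ℚ⟦X⟧) = -1 := by simp
    rw [e2, neg_one_mul]
  have h6 : Z' = X * ex u ^ 2 := by
    have h7 : constantCoeff (ex f) ≠ 0 := by
      rw [constantCoeff_ex hf0]
      norm_num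
    rw [← h5, ex_neg hf0, ← h1, mul_assoc, PowerSeries.mul_inv_cancel _ h7, mul_one]
  have h7 := h4.frob
  intro n
  rw [map_add, coeff_rescale]
  rcases Nat.even_or_odd n with hn | hn
  · rw [hn.neg_one_pow, one_mul]
    rcases Nat.eq_zero_or_pos n with h0 | h0
    · rw [h0, coeff_zero_eq_constantCoeff_apply, hZ'.c0]
      simpa using Dv.zero
    · obtain ⟨m, rfl⟩ : ∃ m, n = m + 1 := ⟨n - 1, by omega⟩
      have hm : ¬ 2 ∣ m := by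
        rw [Nat.even_iff] at hn
        omega
      have h8 : Dv 2 1 (coeff (m + 1) Z') := by
        rw [h6, coeff_succ_X_mul]
        have h9 := h7 m
        rw [map_sub, coeff_VV, if_neg hm, sub_zero] at h9
        exact h9
      have h10 : coeff (m + 1) Z' + coeff (m + 1) Z' = 2 * coeff (m + 1) Z' := by ring
      rw [h10]
      exact (P2Hc_dv 1 1 (by norm_num)).mul h8
  · rw [hn.neg_one_pow, neg_one_mul, add_neg_cancel]
    exact Dv.zero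

lemma log_mod {c : ℚ} (hc : Dv 2 4 (c - 4)) {U : ℚ⟦X⟧} (hU : SDv 2 0 U)
    (h0 : constantCoeff U = 0) :
    SDv 2 4 (logOf (1 + C c * U) - (C 4 * U - C 8 * U ^ 2)) := by
  have hu0 : constantCoeff (C c * U) = 0 := by rw [map_mul, h0, mul_zero]
  have hc2 : Dv 2 2 c := by
    have h1 := (hc.mono (show 2 ≤ 4 by norm_num)).add (P2Hc_dv 2 1 (x := 4) (by norm_num))
    rwa [sub_add_cancel] at h1
  intro n
  have hpk : ∀ k, (C c * U) ^ k = C (c ^ k) * U ^ k := by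
    intro k
    rw [mul_pow, map_pow]
  have h1 : coeff n (logOf (1 + C c * U)) = ∑ k ∈ Finset.range (n + 3),
      (if k = 0 then 0 else (-1 : ℚ) ^ (k + 1) / (k : ℚ)) * coeff n ((C c * U) ^ k) := by
    rw [coeff_logOf hu0]
    refine Finset.sum_subset ?_ ?_
    · intro k hk
      rw [Finset.mem_range] at hk ⊢
      omega
    · intro k _ hk
      rw [Finset.mem_range, not_lt] at hk
      rw [coeff_pow_lt hu0 (by omega), mul_zero]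
  rw [map_sub, h1, Finset.sum_range_succ', Finset.sum_range_succ', Finset.sum_range_succ']
  have h2 : Dv 2 4 (∑ k ∈ Finset.range n, (if k + 1 + 1 + 1 = 0 then 0 else
      (-1 : ℚ) ^ (k + 1 + 1 + 1 + 1) / ((k + 1 + 1 + 1 : ℕ) : ℚ)) *
        coeff n ((C c * U) ^ (k + 1 + 1 + 1))) := by
    refine Dv.sum _ _ fun k _ => ?_
    rw [if_neg (by omega), hpk, coeff_C_mul]
    obtain ⟨y, hy, hcy⟩ := Dv.iff_exists.mp hc2
    have h3 : Dv 2 (k + 3 + 1) ((2 : ℚ) ^ (k + 3) * ((2 : ℚ) ^ (k + 3) / ((k + 3 : ℕ) : ℚ))) := by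
      refine Dv.mul ?_ ?_
      · have h4 := Dv.ppow (p := 2) (k + 3)
        exact_mod_cast h4
      · have h4 := pow_div_val (p := 2) (k := k + 3) (by omega)
        exact_mod_cast h4
    have h5 : (-1 : ℚ) ^ (k + 1 + 1 + 1 + 1) / ((k + 1 + 1 + 1 : ℕ) : ℚ) *
        (c ^ (k + 1 + 1 + 1) * coeff n (U ^ (k + 1 + 1 + 1))) =
        (2 : ℚ) ^ (k + 3) * ((2 : ℚ) ^ (k + 3) / ((k + 3 : ℕ) : ℚ)) *
          ((-1 : ℚ) ^ (k + 4) * (y ^ (k + 3) * coeff n (U ^ (k + 3)))) := by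
      have e1 : k + 1 + 1 + 1 = k + 3 := by ring
      have e2 : k + 3 + 1 = k + 4 := by ring
      rw [e1, e2, hcy]
      have e3 : ((2 : ℕ) : ℚ) = 2 := by norm_num
      rw [e3, mul_pow]
      have e4 : (((2 : ℚ) ^ 2) ^ (k + 3)) = 2 ^ (k + 3) * 2 ^ (k + 3) := by
        rw [← mul_pow]
        norm_num
      rw [e4]
      ring
    rw [h5]
    have h6 : Dv 2 0 ((-1 : ℚ) ^ (k + 4) * (y ^ (k + 3) * coeff n (U ^ (k + 3)))) :=
      (Dv.pow0 (P2Hc_dv 0 (-1) (by norm_num)) (k + 4)).mul_left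
        ((Dv.pow0 hy (k + 3)).mul_left (hU.pow0 (k + 3) n))
    exact (h3.mul_right h6).mono (by omega)
  have h7 : Dv 2 4 ((c - 4) * coeff n U) := hc.mul_right (hU n)
  have h8 : Dv 2 4 ((c - 4) * ((1 / 2) * (c + 4)) * coeff n (U ^ 2)) := by
    refine (Dv.mul_right hc ?_).mul_right (hU.pow0 2 n)
    apply Dv.of_p_mul (p := 2)
    have e : ((2 : ℕ) : ℚ) * (1 / 2 * (c + 4)) = (c - 4) + 8 := by
      push_cast
      ring
    rw [e]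
    exact (hc.mono (by norm_num)).add (P2Hc_dv 1 4 (by norm_num))
  have h9 := (h2.add h7).sub h8
  convert h9 using 1
  rw [if_neg (by norm_num), if_neg (by norm_num), if_pos rfl, hpk, hpk, coeff_C_mul, coeff_C_mul,
    map_sub, coeff_C_mul, coeff_C_mul]
  push_cast
  ring_nf

lemma Nx (ν : ℕ → ℚ) : rescale (-1) (Nq ν) = Nq (nut ν) - C 3 * VV 2 (O1 (nut ν)) := by
  ext n
  rw [coeff_rescale, map_sub, coeff_C_mul, coeff_VV]
  unfold Nq O1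
  rw [coeff_mk, coeff_mk, coeff_mk]
  rcases Nat.eq_zero_or_pos n with h0 | h0
  · subst h0
    simp
  · rw [nut_even_part ν n h0]
    congr 1
    split_ifs
    · rw [Finset.mul_sum, Finset.mul_sum]
      refine Finset.sum_congr rfl fun d _ => ?_
      split_ifs
      · ring
      · ring
    · ring

lemma final_E (ha : hard a) (hG : Ph (Bj a) Gc = GG (Bj a)) (hν : IsNu Gc ν)
    (hZ' : IsInv (Bs (-1) (Bj a)) Z') :
    SDv 2 3 (C 2 * rescale (-1) Z' - C 4 * rescale (-1) Z' ^ 2 -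
      C 2 * (O1 (nut ν) + O1 (nut ν) ^ 2) + C 4 * VV 2 (O1 (nut ν)) +
      C 4 * VV 2 (O1 (nut ν)) ^ 2) := by
  have hS := Z_even ha hZ'
  have hA := main_O ha hG hν hZ'
  have hO := O1_int ha hG hν
  have hB := hO.frob
  have hz : SDv 2 0 Z' := Z_int (P2Hc_okb a) hZ' (P2Hc_core ha).2.2
  set O := O1 (nut ν) with hOd
  set S := Z' + rescale (-1) Z' with hSd
  set A := O + O ^ 2 + Z' with hAd
  set E := O ^ 2 - VV 2 O with hEd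
  have e : C 2 * rescale (-1) Z' - C 4 * rescale (-1) Z' ^ 2 - C 2 * (O + O ^ 2) +
      C 4 * VV 2 O + C 4 * VV 2 O ^ 2 =
      C 2 * S + C 8 * (S * Z') - C 4 * S ^ 2 - C 2 * A - C 4 * E - C 8 * (O ^ 2 * E) +
        C 4 * E ^ 2 + C 4 * A ^ 2 - C 8 * (A * Z') - C 8 * O ^ 3 := by
    rw [hSd, hAd, hEd, P2Hc_C2, P2Hc_C4, P2Hc_C8]
    ring
  rw [e]
  have d2 : Dv 2 1 (2 : ℚ) := P2Hc_dv 1 1 (by norm_num)
  have d4 : Dv 2 2 (4 : ℚ) := P2Hc_dv 2 1 (by norm_num)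
  have d8 : Dv 2 3 (8 : ℚ) := P2Hc_dv 3 1 (by norm_num)
  have t1 : SDv 2 3 (C 2 * S) := P2Hc_mul d2 hS (by norm_num)
  have t2 : SDv 2 3 (C 8 * (S * Z')) := P2Hc_mul d8 (hS.mul_right hz) (by norm_num)
  have t3 : SDv 2 3 (C 4 * S ^ 2) := P2Hc_mul d4 (hS.pow 2) (by norm_num)
  have t4 : SDv 2 3 (C 2 * A) := P2Hc_mul d2 hA (by norm_num)
  have t5 : SDv 2 3 (C 4 * E) := P2Hc_mul d4 hB (by norm_num)
  have t6 : SDv 2 3 (C 8 * (O ^ 2 * E)) :=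
    P2Hc_mul d8 (SDv.mul_left (hO.pow0 2) hB) (by norm_num)
  have t7 : SDv 2 3 (C 4 * E ^ 2) := P2Hc_mul d4 (hB.pow 2) (by norm_num)
  have t8 : SDv 2 3 (C 4 * A ^ 2) := P2Hc_mul d4 (hA.pow 2) (by norm_num)
  have t9 : SDv 2 3 (C 8 * (A * Z')) := P2Hc_mul d8 (hA.mul_right hz) (by norm_num)
  have t10 : SDv 2 3 (C 8 * O ^ 3) := P2Hc_mul d8 (hO.pow0 3) (by norm_num)
  exact ((((((((t1.add t2).sub t3).sub t4).sub t5).sub t6).add t7).add t8).sub t9).sub t10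

private lemma P2Hc_alg {κ c₂ k₁ k₂ : ℚ} (h1 : κ = 2 + 8 * k₁) (h2 : κ * c₂ = -2 + 8 * k₂)
    (hk₁ : Dv 2 0 k₁) (hk₂ : Dv 2 0 k₂) {z v o w m e e₁ e₂ : ℚ⟦X⟧} (hz : SDv 2 0 z)
    (ho : SDv 2 0 o) (hw : SDv 2 0 w) (hm : SDv 2 1 m) (he : SDv 2 2 e)
    (he₁ : SDv 2 4 e₁) (he₂ : SDv 2 4 e₂)
    (hE : SDv 2 3 (C 2 * v - C 4 * v ^ 2 - C 2 * (o + o ^ 2) + C 4 * w + C 4 * w ^ 2)) :
    SDv 2 3 (-(C 4 * z - C 8 * z ^ 2 + e₁) + C (1 / 2) * (C 4 * v - C 8 * v ^ 2 + e₂) +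
      C κ * (C c₂ * (C 2 * z + e - C 3 * o) - (C 2 * z + e - C 3 * o) ^ 2) -
      C 2 * (C κ * (C c₂ * (w + m) - (w + m) ^ 2))) := by
  have d2 : Dv 2 1 (2 : ℚ) := P2Hc_dv 1 1 (by norm_num)
  have d4 : Dv 2 2 (4 : ℚ) := P2Hc_dv 2 1 (by norm_num)
  have d8 : Dv 2 3 (8 : ℚ) := P2Hc_dv 3 1 (by norm_num)
  have d3 : Dv 2 0 (3 : ℚ) := P2Hc_dv 0 3 (by norm_num)
  have hx : SDv 2 1 (C 2 * z + e) := (P2Hc_mul d2 hz (by norm_num)).add (he.mono (by norm_num))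
  have hN : SDv 2 0 (C 2 * z + e - C 3 * o) :=
    (hx.mono (by norm_num)).sub (P2Hc_mul d3 ho (by norm_num))
  have hwm : SDv 2 0 (w + m) := hw.add (hm.mono (by norm_num))
  have hh : (C (1 / 2) : ℚ⟦X⟧) * 2 = 1 := by
    rw [← P2Hc_C2, ← map_mul]
    norm_num
  have hκ : (C κ : ℚ⟦X⟧) = 2 + 8 * C k₁ := by
    rw [h1, map_add, map_mul, P2Hc_C2, P2Hc_C8]
  have hκc : (C κ * C c₂ : ℚ⟦X⟧) = -2 + 8 * C k₂ := by
    rw [← map_mul, h2, map_add, map_mul, map_neg, P2Hc_C2, P2Hc_C8]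
  have key : -(C 4 * z - C 8 * z ^ 2 + e₁) + C (1 / 2) * (C 4 * v - C 8 * v ^ 2 + e₂) +
      C κ * (C c₂ * (C 2 * z + e - C 3 * o) - (C 2 * z + e - C 3 * o) ^ 2) -
      C 2 * (C κ * (C c₂ * (w + m) - (w + m) ^ 2)) =
      (C 2 * v - C 4 * v ^ 2 - C 2 * (o + o ^ 2) + C 4 * w + C 4 * w ^ 2) +
      (C 8 * (z ^ 2 - z + o - 2 * o ^ 2) - e₁ + C (1 / 2) * e₂ - C 2 * e +
        C 8 * (C k₂ * (C 2 * z + e - C 3 * o)) - C 2 * (C 2 * z + e) ^ 2 +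
        C 4 * (C 3 * ((C 2 * z + e) * o)) - C 8 * (C k₁ * (C 2 * z + e - C 3 * o) ^ 2) +
        C 4 * m - C 8 * (2 * (C k₂ * (w + m))) + C 8 * (w * m) + C 4 * m ^ 2 +
        C 8 * (2 * (C k₁ * (w + m) ^ 2))) := by
    rw [P2Hc_C2, P2Hc_C3, P2Hc_C4, P2Hc_C8]
    linear_combination (2 * v - 4 * v ^ 2) * hh +
      ((2 * z + e - 3 * o) - 2 * (w + m)) * hκc +
      (-(2 * z + e - 3 * o) ^ 2 + 2 * (w + m) ^ 2) * hκ
  rw [key]
  have two0 : SDv 2 0 (2 : ℚ⟦X⟧) := by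
    rw [← P2Hc_C2]
    exact SDv.C (Dv.mono d2 (by norm_num))
  refine hE.add ?_
  have t1 : SDv 2 3 (C 8 * (z ^ 2 - z + o - 2 * o ^ 2)) :=
    P2Hc_mul d8 ((((hz.pow0 2).sub hz).add ho).sub (two0.mul_left (ho.pow0 2))) (by norm_num)
  have t2 : SDv 2 3 e₁ := he₁.mono (by norm_num)
  have t3 : SDv 2 3 (C (1 / 2) * e₂) := P2Hc_half he₂
  have t4 : SDv 2 3 (C 2 * e) := P2Hc_mul d2 he (by norm_num)
  have t5 : SDv 2 3 (C 8 * (C k₂ * (C 2 * z + e - C 3 * o))) :=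
    P2Hc_mul d8 ((SDv.C hk₂).mul_left hN) (by norm_num)
  have t6 : SDv 2 3 (C 2 * (C 2 * z + e) ^ 2) := P2Hc_mul d2 (hx.pow 2) (by norm_num)
  have t7 : SDv 2 3 (C 4 * (C 3 * ((C 2 * z + e) * o))) :=
    P2Hc_mul d4 ((SDv.C d3).mul_left (hx.mul_right ho)) (by norm_num)
  have t8 : SDv 2 3 (C 8 * (C k₁ * (C 2 * z + e - C 3 * o) ^ 2)) :=
    P2Hc_mul d8 ((SDv.C hk₁).mul_left (hN.pow0 2)) (by norm_num)
  have t9 : SDv 2 3 (C 4 * m) := P2Hc_mul d4 hm (by norm_num)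
  have t10 : SDv 2 3 (C 8 * (2 * (C k₂ * (w + m)))) :=
    P2Hc_mul d8 (two0.mul_left ((SDv.C hk₂).mul_left hwm)) (by norm_num)
  have t11 : SDv 2 3 (C 8 * (w * m)) :=
    P2Hc_mul d8 (hw.mul_left (hm.mono (Nat.zero_le 1))) (by norm_num)
  have t12 : SDv 2 3 (C 4 * m ^ 2) := P2Hc_mul d4 (hm.pow 2) (by norm_num)
  have t13 : SDv 2 3 (C 8 * (2 * (C k₁ * (w + m) ^ 2))) :=
    P2Hc_mul d8 (two0.mul_left ((SDv.C hk₁).mul_left (hwm.pow0 2))) (by norm_num)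
  exact (((((((((((t1.sub t2).add t3).sub t4).add t5).sub t6).add t7).sub t8).add t9).sub
    t10).add t11).add t12).add t13

private lemma P2Hc_data (ha : hard a) : Dv 2 1 (chi a - 72) ∧ Dv 2 1 (c3H a) ∧
    ∃ k₁ k₂ : ℚ, Dv 2 0 k₁ ∧ Dv 2 0 k₂ ∧ kap a = 2 + 8 * k₁ ∧ kap a * cc2 a = -2 + 8 * k₂ := by
  rcases ha with rfl | rfl
  · obtain ⟨d1, d2, d3, d4, -⟩ := data_25
    rw [d1, d2, d3, d4]
    exact ⟨P2Hc_dv 1 1059 (by norm_num), P2Hc_dv 1 (-210) (by norm_num), 1, 14,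
      P2Hc_dv 0 1 (by norm_num), P2Hc_dv 0 14 (by norm_num), by norm_num, by norm_num⟩
  · obtain ⟨d1, d2, d3, d4, -⟩ := data_233
    rw [d1, d2, d3, d4]
    exact ⟨P2Hc_dv 1 567 (by norm_num), P2Hc_dv 1 (-162) (by norm_num), 2, 16,
      P2Hc_dv 0 2 (by norm_num), P2Hc_dv 0 16 (by norm_num), by norm_num, by norm_num⟩

theorem p2_hard (ha : hard a) (hZ : IsInv (Bj a) Z) (hG : Ph (Bj a) Gc = GG (Bj a))
    (hν : IsNu Gc ν) :
    SDv 2 3 (sb Z (Wz a) - C (1 / 2) * VV 2 (sb Z (Wz a)) + Bq (kap a) (cc2 a) ν -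
      C 2 * VV 2 (Bq (kap a) (cc2 a) ν)) := by
  have e0 := hZ.c0
  obtain ⟨hx, hy, k₁, k₂, hk₁, hk₂, hκ, hκc⟩ := P2Hc_data ha
  obtain ⟨Z', hZ'⟩ := exists_inv (P2Hc_okb a)
  have hW := p2_W (hard_types ha) hZ hx hy rfl
  set W1 := sb Z (C (chi a - 72) * logOf (Lj (Bj a) 0) - C 24 * logOf (I1 (Bj a)) +
    C (c3H a) * gg (Bj a)) with hW1
  set c : ℚ := (disc a : ℚ) with hcd
  have hc : Dv 2 4 (c - 4) := hard_disc ha
  have hX1 : constantCoeff (1 - C c * X : ℚ⟦X⟧) = 1 := by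
    rw [map_sub, map_mul, constantCoeff_X, mul_zero, sub_zero, map_one]
  have hZ1 : constantCoeff (1 - C c * Z : ℚ⟦X⟧) = 1 := by
    rw [map_sub, map_mul, e0, mul_zero, sub_zero, map_one]
  have hΛ : sb Z (logOf (1 - C c * X)) = logOf (1 - C c * Z) := by
    rw [← logOf_sb hX1 e0, sb_sub e0, sb_one e0, sb_mul e0, sb_C e0, sb_X e0]
  have h6 : sb Z (Wz a) = W1 - logOf (1 - C c * Z) := by
    rw [← hΛ, hW1, ← sb_sub e0]
    unfold Wz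
    congr 1
    ring
  have hz : SDv 2 0 Z' := Z_int (P2Hc_okb a) hZ' (P2Hc_core ha).2.2
  have hm1 : (-1 : ℚ) = 1 ∨ (-1 : ℚ) = -1 := Or.inr rfl
  have hzz : SDv 2 0 (rescale (-1) Z') := SDv_rescale hm1 hz
  have hrel := Z_rel ha hZ hZ'
  have hZeq : Z = -rescale (-1) Z' := by
    have h := congrArg (rescale (-1 : ℚ)) hrel
    rw [rescale_twice hm1, map_neg] at h
    exact h
  have hO := O1_int ha hG hν
  have hNt := Nt_mod ha hG hν hZ'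
  have hNx := Nx ν
  set O := O1 (nut ν) with hOd
  set e := Nq (nut ν) - C 2 * Z' with hed
  have hNx' : rescale (-1) (Nq ν) = C 2 * Z' + e - C 3 * VV 2 O := by
    rw [hNx, hed]
    ring
  have hN : Nq ν - VV 2 O = C 2 * rescale (-1) Z' + rescale (-1) e - C 4 * VV 2 O := by
    have h := congrArg (rescale (-1 : ℚ)) hNx'
    rw [rescale_twice hm1, map_sub, map_add, map_mul, map_mul, rescale_C, rescale_C,
      rescale_VV_two hm1] at h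
    rw [h, P2Hc_C3, P2Hc_C4]
    ring
  have hm : SDv 2 1 (VV 2 (Nq ν - VV 2 O)) := by
    apply SDv.VV
    rw [hN]
    refine ((P2Hc_mul (P2Hc_dv 1 1 (by norm_num)) hzz (by norm_num)).add
      ((SDv_rescale hm1 hNt).mono (by norm_num))).sub
      (P2Hc_mul (P2Hc_dv 2 1 (by norm_num)) hO.VV (by norm_num))
  have hVN : VV 2 (Nq ν) = VV 2 (VV 2 O) + VV 2 (Nq ν - VV 2 O) := by
    rw [VV_sub]
    ring
  have hzc : constantCoeff Z' = 0 := hZ'.c0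
  have hrc : constantCoeff (VV 2 (rescale (-1) Z')) = 0 := by
    rw [constantCoeff_VV, cc_rescale, hzc]
  have he₁ := log_mod hc hz hzc
  have he₂ := log_mod hc hzz.VV hrc
  have hE := (final_E ha hG hν hZ').VV
  rw [VV_add, VV_add, VV_sub, VV_sub, VV_mul, VV_mul, VV_mul, VV_mul, VV_mul, VV_add, VV_pow,
    VV_pow, VV_pow, VV_C, VV_C, ← hOd] at hE
  have hfin := P2Hc_alg hκ hκc hk₁ hk₂ hz hO.VV hO.VV.VV hm hNt he₁ he₂ hE
  have hT : SDv 2 3 (-(logOf (1 - C c * Z) - C (1 / 2) * VV 2 (logOf (1 - C c * Z))) +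
      Bq (kap a) (cc2 a) ν - C 2 * VV 2 (Bq (kap a) (cc2 a) ν)) := by
    rw [← SDv_rescale_iff hm1]
    have r1 : rescale (-1) (logOf (1 - C c * Z)) = logOf (1 + C c * Z') := by
      rw [← logOf_rescale hZ1, map_sub, map_mul, map_one, rescale_C, hrel]
      congr 1
      ring
    have r2 : VV 2 (logOf (1 - C c * Z)) = logOf (1 + C c * VV 2 (rescale (-1) Z')) := by
      rw [← logOf_VV hZ1, VV_sub, VV_one, VV_mul, VV_C]
      have r3 : VV 2 Z = -VV 2 (rescale (-1) Z') := by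
        rw [← VV_neg, ← hZeq]
      rw [r3]
      congr 1
      ring
    have r4 : rescale (-1) (Bq (kap a) (cc2 a) ν) = C (kap a) * (C (cc2 a) *
        (C 2 * Z' + e - C 3 * VV 2 O) - (C 2 * Z' + e - C 3 * VV 2 O) ^ 2) := by
      unfold Bq
      rw [map_mul, map_sub, map_mul, map_pow, rescale_C, rescale_C, hNx']
    have r5 : VV 2 (Bq (kap a) (cc2 a) ν) = C (kap a) * (C (cc2 a) *
        (VV 2 (VV 2 O) + VV 2 (Nq ν - VV 2 O)) - (VV 2 (VV 2 O) + VV 2 (Nq ν - VV 2 O)) ^ 2) := by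
      unfold Bq
      rw [VV_mul, VV_sub, VV_mul, VV_pow, VV_C, VV_C, ← hVN]
    rw [map_sub, map_add, map_neg, map_sub, map_mul, map_mul, rescale_C, rescale_C, r1,
      rescale_VV_two hm1, rescale_VV_two hm1, r2, r4, r5]
    convert hfin using 1
    ring
  have h9 := hW.add hT
  convert h9 using 1
  rw [h6, VV_sub]
  ring

end KPInt
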