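import Pool.Agent.Lib.KPInt.Fam1
import Pool.Agent.Lib.KPInt.QS

/-!
# P2W: p = 2: W without the discriminant, all seven types; easy families

`B = Bj a`, `σ = sgt 2 a`, `Z` inverse of the mirror map of `B` (`IsInv B Z`), `f^q := sb Z f`,
`ψ(f) := f - (1/2) V f`.

PROOFS.
* `orig_int`: `qq (Bj a)`, `ex (gg (Bj a))`, `I1 (Bj a)`, `KK (Bj a)` are 2-integral, `I1 - 1 ∈ 4`,
  `KK - 1 ∈ 2`: from `core_two` (it needs some `Gc`: take `Gc = sb Z (GG B)`, `Ph_sbZ`), the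
  rescaling lemmas (`I1_Bs`, `KK_Bs`, `gg_Bs`, `ex_rescale`, `SDv_rescale_iff`) and `qq_Bs`
  (`rescale σ (qq B) = C σ * qq (Bs σ B)`).
* `psi_half`: if `f ∈ 2^(k+1)` then `ψ(f) ∈ 2^k`.
* `psi_log`: if `f` is integral with constant coefficient 1, `ψ(logOf f) ∈ 2^0`
  (`dwork_log`: `2 log f - V log f ∈ 2`, halve).
* `psi_gq`: `ψ(g^q) ∈ 2^2`. Let `Z'` be an inverse for `B' = Bs σ B` (`exists_inv`, `OKB_Bs`); then
  `rescale σ (sb Z f) = sb Z' (rescale σ f)`: apply `Ph B'` to both sides: `Ph B' (rescale σ (sb Z f)) =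
  rescale σ (Ph B (sb Z f)) = rescale σ f` (`Ph_Bs`, `Ph_sbZ`), and `Ph` is injective. `psi_g` for `B'`,
  `(r,s) = (2,1)`: `u := 2 f' - V f' ∈ 2^3`, `f' = sb Z' (gg B') = rescale σ (g^q)`. If `σ = 1` this is the
  claim. If `σ = -1`: `rescale σ u = 2 g^q - V f'` (`rescale_VV_two`, `rescale_twice`), and
  `f' - g^q` has only coefficients of odd index; `2 (f' - g^q) = u - rescale σ u`, whose coefficients of
  odd index are `2 u_n`; so `f' - g^q ∈ 2^3`, and `2 g^q - V g^q = rescale σ u + V (f' - g^q) ∈ 2^3`.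
* `p2_W`: `W = sb Z (C A₁ * logOf L0 - C 24 * logOf I1 + C A₃ * gg)`, `A₁`, `A₃` even integers:
  `logOf L0 ∈ 2^3` (`L0_two`, `SDv_logOf`), so `ψ ∈ 2^2`, times even: `2^3`; `24 ψ(log I1^q) ∈ 2^3`
  (`logOf_sb`); `A₃ ψ(g^q) ∈ 2^3`.
* `p2_easy`: `disc a ∈ 2^6` (46656 = 2^6 * 729, 6912 = 2^8 * 27, 4096, 1728 = 2^6 * 27, 1024), so
  `logOf (1 - C disc X) ∈ 2^6`, `ψ ∈ 2^5`; `Bq`: `κ ∈ {16, 24, 32}` is divisible by 8, and `Nq ν` is integral; for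
  `[6]`: `κ = 6`, `N ∈ 4` (`nu_four`), `6 (15 N - N²) ∈ 8`; `[3,4]`: `κ = 12`, `N ∈ 4`. And `2 V B ∈ 2^4`.
-/

set_option autoImplicit false

namespace KPInt

open PowerSeries

private lemma P2W_dv (k : ℕ) (z : ℤ) {x : ℚ} (h : x = 2 ^ k * z) : Dv 2 k x :=
  ⟨z, 1, by norm_num, by rw [h]; push_cast; ring⟩

private lemma P2W_ex {a : List ℕ} (ha : a ∈ types) :
    SDv 2 3 (DD 2 (Bs (sgt 2 a) (Bj a))) ∧ SDv 2 2 (I1 (Bs (sgt 2 a) (Bj a)) - 1) ∧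
      SDv 2 0 (ex (gg (Bs (sgt 2 a) (Bj a)))) ∧ SDv 2 0 (qq (Bs (sgt 2 a) (Bj a))) ∧
      SDv 2 1 (KK (Bs (sgt 2 a) (Bj a)) - 1) := by
  obtain ⟨Z, hZ⟩ := exists_inv (Bj_OKB a)
  obtain ⟨h1, h2, h3, h4, h5, -⟩ := core_two ha (sb Z (GG (Bj a))) (Ph_sbZ hZ _)
  exact ⟨h1, h2, h3, h4, h5⟩

private lemma P2W_resc_sub_one (σ : ℚ) (f : ℚ⟦X⟧) : rescale σ f - 1 = rescale σ (f - 1) := by
  rw [map_sub, map_one]

lemma orig_int {a : List ℕ} (ha : a ∈ types) : SDv 2 0 (qq (Bj a)) ∧ SDv 2 0 (ex (gg (Bj a))) ∧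
    SDv 2 2 (I1 (Bj a) - 1) ∧ SDv 2 1 (KK (Bj a) - 1) := by
  obtain ⟨-, h2, h3, -, h5⟩ := P2W_ex ha
  have hσ := sgt_pm a 2
  rw [I1_Bs, P2W_resc_sub_one, SDv_rescale_iff hσ] at h2
  rw [gg_Bs, ex_rescale (cc_gg (Bj_OKB a)), SDv_rescale_iff hσ] at h3
  rw [KK_Bs, P2W_resc_sub_one, SDv_rescale_iff hσ] at h5
  refine ⟨?_, h3, h2, h5⟩
  unfold qq
  exact SDv.X.mul_left h3

private lemma P2W_halve {k : ℕ} {f g : ℚ⟦X⟧} (h : SDv 2 (k + 1) (C 2 * f - g)) :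
    SDv 2 k (f - C (1 / 2) * g) := by
  intro n
  apply Dv.of_p_mul (p := 2)
  have h1 := h n
  rw [map_sub, coeff_C_mul] at h1 ⊢
  have h2 : ((2 : ℕ) : ℚ) * (coeff n f - 1 / 2 * coeff n g) = 2 * coeff n f - coeff n g := by
    push_cast
    ring
  rw [h2]
  exact h1

lemma psi_half {k : ℕ} {f : ℚ⟦X⟧} (hf : SDv 2 (k + 1) f) :
    SDv 2 k (f - C (1 / 2) * VV 2 f) := by
  apply P2W_halve
  exact (SDv.mul_left (SDv.C (Dv.int 2)) hf).sub hf.VV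

lemma psi_log {f : ℚ⟦X⟧} (h1 : constantCoeff f = 1) (hf : SDv 2 0 f) :
    SDv 2 0 (logOf f - C (1 / 2) * VV 2 (logOf f)) := by
  apply P2W_halve
  exact dwork_log h1 hf

/-- compatibility of the inverses -/
lemma rescale_sbZ {a : List ℕ} {σ : ℚ} {Z Z' : ℚ⟦X⟧} (hZ : IsInv (Bj a) Z)
    (hZ' : IsInv (Bs σ (Bj a)) Z') (f : ℚ⟦X⟧) :
    rescale σ (sb Z f) = sb Z' (rescale σ f) := by
  have hB' : OKB (Bs σ (Bj a)) := OKB_Bs σ (Bj a) (Bj_OKB a)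
  apply sb_inj (constantCoeff_qq (Bs σ (Bj a))) (coeff_one_qq _ (cc_gg hB'))
  change Ph (Bs σ (Bj a)) (rescale σ (sb Z f)) = Ph (Bs σ (Bj a)) (sb Z' (rescale σ f))
  rw [Ph_Bs σ (Bj a) (Bj_OKB a), Ph_sbZ hZ, Ph_sbZ hZ']

lemma psi_gq {a : List ℕ} (ha : a ∈ types) {Z : ℚ⟦X⟧} (hZ : IsInv (Bj a) Z) :
    SDv 2 2 (sb Z (gg (Bj a)) - C (1 / 2) * VV 2 (sb Z (gg (Bj a)))) := by
  have hB' : OKB (Bs (sgt 2 a) (Bj a)) := OKB_Bs _ (Bj a) (Bj_OKB a)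
  obtain ⟨Z', hZ'⟩ := exists_inv hB'
  obtain ⟨h1, h2, -, h4, -⟩ := P2W_ex ha
  have hI : SDv 2 0 (I1 (Bs (sgt 2 a) (Bj a))) := by
    have h3 := (h2.mono (Nat.zero_le 2)).add SDv.one
    rwa [sub_add_cancel] at h3
  have hu := psi_g (p := 2) (r := 2) (s := 1) (Or.inr ⟨rfl, by norm_num, by norm_num⟩) hB' hZ'
    h1 hI h4
  rw [gg_Bs, ← rescale_sbZ hZ hZ'] at hu
  apply P2W_halve
  rcases sgt_pm a 2 with hσ | hσ
  · rw [hσ, rescale_one] at hu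
    exact hu
  · rw [hσ] at hu
    have hodd : ∀ m, ¬ 2 ∣ m → Dv 2 3 (2 * coeff m (sb Z (gg (Bj a)))) := by
      intro m hm
      have h5 := hu m
      rw [map_sub, coeff_C_mul, coeff_VV, if_neg hm, sub_zero, coeff_rescale] at h5
      have h6 : Odd m := Nat.odd_iff.2 (by omega)
      rw [h6.neg_one_pow] at h5
      have h7 := h5.neg
      have h8 : -(((2 : ℕ) : ℚ) * (-1 * coeff m (sb Z (gg (Bj a))))) =
          2 * coeff m (sb Z (gg (Bj a))) := by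
        push_cast
        ring
      rwa [h8] at h7
    intro n
    rw [map_sub, coeff_C_mul, coeff_VV]
    split_ifs with hn
    · have h5 := hu n
      rw [map_sub, coeff_C_mul, coeff_VV, if_pos hn, coeff_rescale, coeff_rescale] at h5
      have h6 : Even n := even_iff_two_dvd.2 hn
      rw [h6.neg_one_pow, one_mul] at h5
      rcases Nat.even_or_odd (n / 2) with h7 | h7
      · rw [h7.neg_one_pow, one_mul] at h5
        exact h5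
      · rw [h7.neg_one_pow] at h5
        have h8 := hodd (n / 2) (by
          rw [Nat.odd_iff] at h7
          omega)
        have h9 := h5.sub h8
        have h10 : ((2 : ℕ) : ℚ) * coeff n (sb Z (gg (Bj a))) -
            -1 * coeff (n / 2) (sb Z (gg (Bj a))) - 2 * coeff (n / 2) (sb Z (gg (Bj a))) =
            2 * coeff n (sb Z (gg (Bj a))) - coeff (n / 2) (sb Z (gg (Bj a))) := by
          push_cast
          ring
        rwa [h10] at h9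
    · rw [sub_zero]
      exact hodd n hn

private lemma P2W_Cmul {k l m : ℕ} {x : ℚ} {f : ℚ⟦X⟧} (hx : Dv 2 k x) (hf : SDv 2 l f)
    (h : m ≤ k + l) : SDv 2 m (C x * f) := ((SDv.C hx).mul hf).mono h

theorem p2_W {a : List ℕ} (ha : a ∈ types) {Z : ℚ⟦X⟧} (hZ : IsInv (Bj a) Z) {x y : ℚ}
    (hx : Dv 2 1 x) (hy : Dv 2 1 y) {W : ℚ⟦X⟧}
    (hW : W = sb Z (C x * logOf (Lj (Bj a) 0) - C 24 * logOf (I1 (Bj a)) + C y * gg (Bj a))) :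
    SDv 2 3 (W - C (1 / 2) * VV 2 W) := by
  have hB := Bj_OKB a
  obtain ⟨hq, -, hI, -⟩ := orig_int ha
  have e0 := hZ.c0
  have h1 : SDv 2 3 (logOf (Lj (Bj a) 0)) := SDv_logOf (by norm_num) (cc_L0 hB) (L0_two ha)
  have h2 : SDv 2 2 (sb Z (logOf (Lj (Bj a) 0)) - C (1 / 2) * VV 2 (sb Z (logOf (Lj (Bj a) 0)))) :=
    psi_half (SDv_sbZ hB hZ hq h1)
  have hI0 : SDv 2 0 (I1 (Bj a)) := by
    have h3 := (hI.mono (Nat.zero_le 2)).add SDv.one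
    rwa [sub_add_cancel] at h3
  have h3 : SDv 2 0 (sb Z (logOf (I1 (Bj a))) - C (1 / 2) * VV 2 (sb Z (logOf (I1 (Bj a))))) := by
    rw [← logOf_sb (cc_I1 _) e0]
    apply psi_log
    · rw [constantCoeff_sb e0, cc_I1]
    · exact SDv_sbZ hB hZ hq hI0
  have h4 := psi_gq ha hZ
  have h5 : W - C (1 / 2) * VV 2 W =
      C x * (sb Z (logOf (Lj (Bj a) 0)) - C (1 / 2) * VV 2 (sb Z (logOf (Lj (Bj a) 0)))) -
      C 24 * (sb Z (logOf (I1 (Bj a))) - C (1 / 2) * VV 2 (sb Z (logOf (I1 (Bj a))))) +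
      C y * (sb Z (gg (Bj a)) - C (1 / 2) * VV 2 (sb Z (gg (Bj a)))) := by
    rw [hW, sb_add e0, sb_sub e0, sb_mul e0, sb_mul e0, sb_mul e0, sb_C e0, sb_C e0, sb_C e0,
      VV_add, VV_sub, VV_mul, VV_mul, VV_mul, VV_C, VV_C, VV_C]
    ring
  rw [h5]
  exact ((P2W_Cmul hx h2 (by norm_num)).sub
    (P2W_Cmul (P2W_dv 3 3 (by norm_num)) h3 (by norm_num))).add (P2W_Cmul hy h4 (by norm_num))

private lemma P2W_disc {a : List ℕ} (ha : a ∈ types) {Z : ℚ⟦X⟧} (hZ : IsInv (Bj a) Z)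
    {d : ℚ} (hd : Dv 2 6 d) :
    SDv 2 3 (sb Z (logOf (1 - C d * X)) - C (1 / 2) * VV 2 (sb Z (logOf (1 - C d * X)))) := by
  have h1 : SDv 2 6 (logOf (1 - C d * X)) := by
    apply SDv_logOf (by norm_num)
    · rw [map_sub, map_mul, constantCoeff_X, mul_zero, sub_zero, map_one]
    · have h2 : (1 - C d * X - 1 : ℚ⟦X⟧) = -(C d * X) := by ring
      rw [h2]
      exact ((SDv.C hd).mul_right SDv.X).neg
  exact (psi_half (k := 5) (SDv_sbZ (Bj_OKB a) hZ (orig_int ha).1 h1)).mono (by norm_num)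

private lemma P2W_N {k : ℕ} {ν : ℕ → ℚ} (h : ∀ d, 1 ≤ d → Dv 2 k (ν d)) : SDv 2 k (Nq ν) := by
  intro n
  unfold Nq
  rw [coeff_mk]
  apply Dv.sum
  intro d hd
  exact h d (Nat.pos_of_mem_divisors hd)

private lemma P2W_B {κ c : ℚ} {ν : ℕ → ℚ} (h : SDv 2 3 (Bq κ c ν)) :
    SDv 2 3 (Bq κ c ν - C 2 * VV 2 (Bq κ c ν)) :=
  h.sub (P2W_Cmul (P2W_dv 1 1 (by norm_num)) h.VV (by norm_num))

private lemma P2W_B8 {κ c : ℚ} {ν : ℕ → ℚ} (hκ : Dv 2 3 κ) (hc : Dv 2 0 c)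
    (h : ∀ d, 1 ≤ d → Dv 2 0 (ν d)) : SDv 2 3 (Bq κ c ν) := by
  unfold Bq
  exact (SDv.C hκ).mul_right (((SDv.C hc).mul_left (P2W_N h)).sub ((P2W_N h).pow0 2))

private lemma P2W_B2 {κ c : ℚ} {ν : ℕ → ℚ} (hκ : Dv 2 1 κ) (hc : Dv 2 0 c)
    (h : ∀ d, 1 ≤ d → Dv 2 2 (ν d)) : SDv 2 3 (Bq κ c ν) := by
  unfold Bq
  exact (SDv.C hκ).mul (((SDv.C hc).mul_left (P2W_N h)).sub
    (((P2W_N h).pow 2).mono (by norm_num)))

private lemma P2W_main {a : List ℕ} (ha : a ∈ types) {Z : ℚ⟦X⟧} (hZ : IsInv (Bj a) Z)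
    (h1 : Dv 2 1 (chi a - 72)) (h2 : Dv 2 1 (c3H a)) (h3 : Dv 2 6 (disc a : ℚ))
    {Q : ℚ⟦X⟧} (hQ : SDv 2 3 (Q - C 2 * VV 2 Q)) :
    SDv 2 3 (sb Z (Wz a) - C (1 / 2) * VV 2 (sb Z (Wz a)) + Q - C 2 * VV 2 Q) := by
  have e0 := hZ.c0
  have h4 := p2_W ha hZ h1 h2 rfl
  have h5 := P2W_disc ha hZ h3
  have h6 : sb Z (Wz a) = sb Z (C (chi a - 72) * logOf (Lj (Bj a) 0) - C 24 * logOf (I1 (Bj a)) +
      C (c3H a) * gg (Bj a)) - sb Z (logOf (1 - C (disc a : ℚ) * X)) := by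
    rw [← sb_sub e0]
    unfold Wz
    congr 1
    ring
  have h7 := (h4.sub h5).add hQ
  have h8 : sb Z (Wz a) - C (1 / 2) * VV 2 (sb Z (Wz a)) + Q - C 2 * VV 2 Q =
      sb Z (C (chi a - 72) * logOf (Lj (Bj a) 0) - C 24 * logOf (I1 (Bj a)) +
        C (c3H a) * gg (Bj a)) - C (1 / 2) * VV 2 (sb Z (C (chi a - 72) * logOf (Lj (Bj a) 0) -
        C 24 * logOf (I1 (Bj a)) + C (c3H a) * gg (Bj a))) -
      (sb Z (logOf (1 - C (disc a : ℚ) * X)) -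
        C (1 / 2) * VV 2 (sb Z (logOf (1 - C (disc a : ℚ) * X)))) + (Q - C 2 * VV 2 Q) := by
    rw [h6, VV_sub]
    ring
  rw [h8]
  exact h7

theorem p2_easy {a : List ℕ} (ha : a ∈ types) (h1 : a ≠ [2, 5]) (h2 : a ≠ [2, 3, 3])
    {Z : ℚ⟦X⟧} (hZ : IsInv (Bj a) Z) {Gc : ℚ⟦X⟧} (hG : Ph (Bj a) Gc = GG (Bj a)) {ν : ℕ → ℚ}
    (hν : IsNu Gc ν) :
    SDv 2 3 (sb Z (Wz a) - C (1 / 2) * VV 2 (sb Z (Wz a)) + Bq (kap a) (cc2 a) ν -
      C 2 * VV 2 (Bq (kap a) (cc2 a) ν)) := by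
  have hν0 : ∀ d, 1 ≤ d → Dv 2 0 (ν d) := by
    intro d hd
    obtain ⟨z, hz⟩ := nu_int_all ha Gc hG hν d hd
    rw [hz]
    exact Dv.int z
  have ha' := ha
  simp only [types, List.mem_cons, List.not_mem_nil, or_false] at ha'
  rcases ha' with rfl | rfl | rfl | rfl | rfl | rfl | rfl
  · obtain ⟨d1, d2, d3, d4, d5⟩ := data_6
    have hν4 := nu_four (Or.inl rfl) Gc hG hν
    refine P2W_main ha hZ ?_ ?_ ?_ (P2W_B (P2W_B2 ?_ ?_ hν4))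
    · rw [d4]; exact P2W_dv 1 1269 (by norm_num)
    · rw [d3]; exact P2W_dv 1 (-210) (by norm_num)
    · rw [d5]; exact P2W_dv 6 729 (by norm_num)
    · rw [d1]; exact P2W_dv 1 3 (by norm_num)
    · rw [d2]; exact P2W_dv 0 15 (by norm_num)
  · exact absurd rfl h1
  · obtain ⟨d1, d2, d3, d4, d5⟩ := data_34
    have hν4 := nu_four (Or.inr rfl) Gc hG hν
    refine P2W_main ha hZ ?_ ?_ ?_ (P2W_B (P2W_B2 ?_ ?_ hν4))
    · rw [d4]; exact P2W_dv 1 702 (by norm_num)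
    · rw [d3]; exact P2W_dv 1 (-168) (by norm_num)
    · rw [d5]; exact P2W_dv 6 108 (by norm_num)
    · rw [d1]; exact P2W_dv 1 6 (by norm_num)
    · rw [d2]; exact P2W_dv 0 9 (by norm_num)
  · obtain ⟨d1, d2, d3, d4, d5⟩ := data_224
    refine P2W_main ha hZ ?_ ?_ ?_ (P2W_B (P2W_B8 ?_ ?_ hν0))
    · rw [d4]; exact P2W_dv 1 780 (by norm_num)
    · rw [d3]; exact P2W_dv 1 (-192) (by norm_num)
    · rw [d5]; exact P2W_dv 6 64 (by norm_num)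
    · rw [d1]; exact P2W_dv 3 2 (by norm_num)
    · rw [d2]; exact P2W_dv 0 8 (by norm_num)
  · exact absurd rfl h2
  · obtain ⟨d1, d2, d3, d4, d5⟩ := data_2223
    refine P2W_main ha hZ ?_ ?_ ?_ (P2W_B (P2W_B8 ?_ ?_ hν0))
    · rw [d4]; exact P2W_dv 1 540 (by norm_num)
    · rw [d3]; exact P2W_dv 1 (-168) (by norm_num)
    · rw [d5]; exact P2W_dv 6 27 (by norm_num)
    · rw [d1]; exact P2W_dv 3 3 (by norm_num)
    · rw [d2]; exact P2W_dv 0 6 (by norm_num)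
  · obtain ⟨d1, d2, d3, d4, d5⟩ := data_22222
    refine P2W_main ha hZ ?_ ?_ ?_ (P2W_B (P2W_B8 ?_ ?_ hν0))
    · rw [d4]; exact P2W_dv 1 444 (by norm_num)
    · rw [d3]; exact P2W_dv 1 (-160) (by norm_num)
    · rw [d5]; exact P2W_dv 6 16 (by norm_num)
    · rw [d1]; exact P2W_dv 3 4 (by norm_num)
    · rw [d2]; exact P2W_dv 0 5 (by norm_num)

end KPInt
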