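import Pool.Agent.Lib.KPInt.Ops

/-!
# Sub: composition with a series Q = z + ...: coefficients, integrality in both directions

PROOFS.
* `coeff_sb`: `PowerSeries.coeff_subst'` gives a `finsum` over `m`; terms with `m > n` vanish
  because `Q^m` has order at least `m` (`X ∣ Q`, so `X^m ∣ Q^m`); use `finsum_eq_sum_of_support_subset`.
* `TDv_sb`: each term `f_m [z^n] Q^m`, `m ≤ n < N`, is in `p^k`.
* `TDv_of_sb`: strong induction on `n`: `[z^n] f(Q) = f_n + ∑_{m<n} f_m [z^n] Q^m` since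
  `[z^n] Q^n = (coeff 1 Q)^n = 1` (write `Q = X * E`, `constantCoeff E = 1`).
* `TEq_sb`, `TEq_of_sb`: the same with equality.
* the ring homomorphism lemmas: `PowerSeries.subst_add`, `subst_mul`, `subst_pow`, `coe_substAlgHom`.
* `sb_inv`: from `subst_mul` and the constant coefficient.
* `sb_VV`: `VV p f = f.subst (X^p)` (`expand_apply`), `subst_comp_subst_apply`, and
  `(X^p).subst Q = Q^p`; so `(VV p f)(Q) = f(Q^p)`.
* `VV_sb`: `VV p (sb Q f) = sb (VV p Q) f` (`PowerSeries.expand_subst` or comp lemma).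
-/

set_option autoImplicit false

namespace KPInt

open PowerSeries

variable {Q : ℚ⟦X⟧}

lemma hs (hQ : constantCoeff Q = 0) : HasSubst Q := HasSubst.of_constantCoeff_zero' hQ

private lemma Sub_pow_dvd (hQ : constantCoeff Q = 0) (m : ℕ) : X ^ m ∣ Q ^ m :=
  pow_dvd_pow_of_dvd (X_dvd_iff.mpr hQ) m

private lemma Sub_coeff_pow_lt (hQ : constantCoeff Q = 0) {n m : ℕ} (h : n < m) :
    coeff n (Q ^ m) = 0 := (X_pow_dvd_iff.mp (Sub_pow_dvd hQ m)) n h

lemma coeff_sb (hQ : constantCoeff Q = 0) (f : ℚ⟦X⟧) (n : ℕ) :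
    coeff n (sb Q f) = ∑ m ∈ Finset.range (n + 1), coeff m f * coeff n (Q ^ m) := by
  rw [sb, coeff_subst' (hs hQ)]
  rw [finsum_eq_sum_of_support_subset (s := Finset.range (n + 1))]
  · simp only [smul_eq_mul]
  · intro m hm
    rw [Function.mem_support] at hm
    rw [Finset.coe_range, Set.mem_Iio]
    by_contra hcon
    apply hm
    rw [Sub_coeff_pow_lt hQ (by omega), smul_zero]

/-- coefficients of `Q^m` below `m` vanish -/
lemma coeff_pow_lt (hQ : constantCoeff Q = 0) {n m : ℕ} (h : n < m) : coeff n (Q ^ m) = 0 :=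
  Sub_coeff_pow_lt hQ h

lemma coeff_pow_self (hQ : constantCoeff Q = 0) (h1 : coeff 1 Q = 1) (n : ℕ) :
    coeff n (Q ^ n) = 1 := by
  obtain ⟨E, hE⟩ := X_dvd_iff.mpr hQ
  have h2 : constantCoeff E = 1 := by
    rw [hE, show (1 : ℕ) = 0 + 1 from rfl, coeff_succ_X_mul] at h1
    simpa using h1
  rw [hE, mul_pow]
  have h3 := coeff_X_pow_mul (E ^ n) n 0
  rw [zero_add] at h3
  rw [h3, coeff_zero_eq_constantCoeff_apply, map_pow, h2, one_pow]

lemma sb_add (hQ : constantCoeff Q = 0) (f g : ℚ⟦X⟧) :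
    sb Q (f + g) = sb Q f + sb Q g := subst_add (hs hQ) f g
lemma sb_sub (hQ : constantCoeff Q = 0) (f g : ℚ⟦X⟧) :
    sb Q (f - g) = sb Q f - sb Q g := subst_sub (hs hQ) f g
lemma sb_neg (hQ : constantCoeff Q = 0) (f : ℚ⟦X⟧) :
    sb Q (-f) = -sb Q f := by
  unfold sb
  rw [← coe_substAlgHom (hs hQ), map_neg]
lemma sb_mul (hQ : constantCoeff Q = 0) (f g : ℚ⟦X⟧) :
    sb Q (f * g) = sb Q f * sb Q g := subst_mul (hs hQ) f g
lemma sb_pow (hQ : constantCoeff Q = 0) (f : ℚ⟦X⟧) (n : ℕ) :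
    sb Q (f ^ n) = sb Q f ^ n := subst_pow (hs hQ) f n
lemma sb_C (hQ : constantCoeff Q = 0) (x : ℚ) : sb Q (C x) = C x := by
  have _ := hQ
  exact subst_C x
lemma sb_one (hQ : constantCoeff Q = 0) : sb Q 1 = 1 := by
  unfold sb
  rw [← coe_substAlgHom (hs hQ), map_one]
lemma sb_zero (hQ : constantCoeff Q = 0) : sb Q 0 = 0 := by
  unfold sb
  rw [← coe_substAlgHom (hs hQ), map_zero]
lemma sb_X (hQ : constantCoeff Q = 0) : sb Q X = Q := subst_X (hs hQ)
lemma sb_sum (hQ : constantCoeff Q = 0) {ι : Type*} (s : Finset ι) (f : ι → ℚ⟦X⟧) :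
    sb Q (∑ i ∈ s, f i) = ∑ i ∈ s, sb Q (f i) := by
  unfold sb
  rw [← coe_substAlgHom (hs hQ), map_sum]
lemma constantCoeff_sb (hQ : constantCoeff Q = 0) (f : ℚ⟦X⟧) :
    constantCoeff (sb Q f) = constantCoeff f := by
  rw [← coeff_zero_eq_constantCoeff_apply, coeff_sb hQ]
  simp
lemma sb_inv (hQ : constantCoeff Q = 0) (f : ℚ⟦X⟧) (h : constantCoeff f ≠ 0) :
    sb Q f⁻¹ = (sb Q f)⁻¹ := by
  have h2 : constantCoeff (sb Q f) ≠ 0 := by rwa [constantCoeff_sb hQ]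
  rw [PowerSeries.eq_inv_iff_mul_eq_one h2, ← sb_mul hQ, PowerSeries.inv_mul_cancel _ h,
    sb_one hQ]

/-- associativity of composition -/
lemma sb_assoc {P : ℚ⟦X⟧} (hP : constantCoeff P = 0) (hQ : constantCoeff Q = 0) (f : ℚ⟦X⟧) :
    sb Q (sb P f) = sb (sb Q P) f := subst_comp_subst_apply (hs hP) (hs hQ) f

lemma TDv_sb {p k N : ℕ} (hQ : constantCoeff Q = 0) {f : ℚ⟦X⟧} (hQi : TDv p 0 N Q)
    (hf : TDv p k N f) : TDv p k N (sb Q f) := by
  intro n hn
  rw [coeff_sb hQ]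
  apply Dv.sum
  intro m hm
  rw [Finset.mem_range] at hm
  exact (hf m (by omega)).mul_right (hQi.pow0 m n hn)

private lemma Sub_coeff_top (hQ : constantCoeff Q = 0) (h1 : coeff 1 Q = 1) (f : ℚ⟦X⟧) (n : ℕ) :
    coeff n f = coeff n (sb Q f) - ∑ m ∈ Finset.range n, coeff m f * coeff n (Q ^ m) := by
  rw [coeff_sb hQ, Finset.sum_range_succ, coeff_pow_self hQ h1]
  ring

lemma TDv_of_sb {p k N : ℕ} (hQ : constantCoeff Q = 0) (h1 : coeff 1 Q = 1) {f : ℚ⟦X⟧}
    (hQi : TDv p 0 N Q) (hf : TDv p k N (sb Q f)) : TDv p k N f := by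
  intro n
  induction n using Nat.strong_induction_on with
  | _ n ih =>
    intro hn
    rw [Sub_coeff_top hQ h1]
    apply (hf n hn).sub
    apply Dv.sum
    intro m hm
    rw [Finset.mem_range] at hm
    exact (ih m hm (by omega)).mul_right (hQi.pow0 m n hn)

lemma TEq_sb {N : ℕ} (hQ : constantCoeff Q = 0) {f g : ℚ⟦X⟧}
    (hf : TEq N f g) : TEq N (sb Q f) (sb Q g) := by
  intro n hn
  rw [coeff_sb hQ, coeff_sb hQ]
  apply Finset.sum_congr rfl
  intro m hm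
  rw [Finset.mem_range] at hm
  rw [hf m (by omega)]

lemma TEq_of_sb {N : ℕ} (hQ : constantCoeff Q = 0) (h1 : coeff 1 Q = 1) {f g : ℚ⟦X⟧}
    (hf : TEq N (sb Q f) (sb Q g)) : TEq N f g := by
  intro n
  induction n using Nat.strong_induction_on with
  | _ n ih =>
    intro hn
    rw [Sub_coeff_top hQ h1 f, Sub_coeff_top hQ h1 g, hf n hn]
    congr 1
    apply Finset.sum_congr rfl
    intro m hm
    rw [Finset.mem_range] at hm
    rw [ih m hm (by omega)]

/-- composition with `Q = z + ...` is injective -/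
lemma sb_inj (hQ : constantCoeff Q = 0) (h1 : coeff 1 Q = 1) {f g : ℚ⟦X⟧}
    (h : sb Q f = sb Q g) : f = g := by
  ext n
  have h2 : TEq (n + 1) (sb Q f) (sb Q g) := by rw [h]; exact TEq.refl _
  exact TEq_of_sb hQ h1 h2 n (Nat.lt_succ_self n)

/-- composition with `Q = z + ...` is surjective -/
lemma sb_surj (hQ : constantCoeff Q = 0) (h1 : coeff 1 Q = 1) (f : ℚ⟦X⟧) :
    ∃ g : ℚ⟦X⟧, sb Q g = f := by
  have hu : IsUnit (coeff 1 Q) := by rw [h1]; exact isUnit_one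
  refine ⟨sb (Q.substInvOfIsUnit hu) f, ?_⟩
  rw [sb_assoc (constantCoeff_substInvOfIsUnit Q hu) hQ]
  have h2 : sb Q (Q.substInvOfIsUnit hu) = X := subst_substInvOfIsUnit_left Q hQ hu
  rw [h2, sb, X_subst]

section vv
variable {p : ℕ} [hp : Fact p.Prime]
lemma sb_VV (hQ : constantCoeff Q = 0) (f : ℚ⟦X⟧) :
    sb Q (VV p f) = sb (Q ^ p) f := by
  have h0 : constantCoeff ((X : ℚ⟦X⟧) ^ p) = 0 := by
    rw [map_pow, constantCoeff_X, zero_pow hp.out.ne_zero]
  have h1 : VV p f = sb (X ^ p) f := expand_apply p hp.out.ne_zero f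
  rw [h1, sb_assoc h0 hQ, sb_pow hQ, sb_X hQ]
lemma VV_sb (hQ : constantCoeff Q = 0) (f : ℚ⟦X⟧) :
    VV p (sb Q f) = sb (VV p Q) f := expand_subst p hp.out.ne_zero (hs hQ) f
end vv

/-- `θ (f(Q)) = (θ f)(Q) * (θ Q / Q)` -/
lemma th_sb (hQ : constantCoeff Q = 0) {E : ℚ⟦X⟧} (hE : th Q = Q * E) (f : ℚ⟦X⟧) :
    th (sb Q f) = sb Q (th f) * E := by
  have h1 : derivative ℚ (sb Q f) = sb Q (derivative ℚ f) * derivative ℚ Q :=
    derivative_subst (hs hQ)
  have h2 : X * derivative ℚ Q = Q * E := hE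
  unfold th
  rw [h1, sb_mul hQ, sb_X hQ]
  linear_combination (sb Q (derivative ℚ f)) * h2

end KPInt
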